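import Pool.Agent.Lib.MP_33b3f9_ag.M5.ResA

/-!
Extension of the base field; consequences of the integral theorem of Faltings.
-/

set_option autoImplicit false

noncomputable section

namespace M5

open Matrix Polynomial NumberField M4 M4.CM Pool.Agent.M4.Mx Pool.Agent.Lib.MP_33b3f9_ag

variable {τ : Mat} {K : IntermediateField ℚ ℂ} {r : Rep K}

theorem res_grow (d C : ℕ) : ∃ N₀ : ℕ, ∀ N, N₀ ≤ N → (d * (2 + Nat.log 2 N)) ^ C < N := by
  have h1 := (tendsto_pow_const_div_const_pow_of_one_lt C (r := 2) one_lt_two).const_mul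
    (4 * (d : ℝ) ^ C)
  rw [mul_zero] at h1
  obtain ⟨k, hk⟩ := Filter.eventually_atTop.1 (h1.eventually (gt_mem_nhds one_pos))
  refine ⟨2 ^ k, fun N hN => ?_⟩
  have h2 := hk (2 + Nat.log 2 N) ((Nat.le_log_of_pow_le one_lt_two hN).trans (Nat.le_add_left _ _))
  have h3 : N ≠ 0 := ((pow_pos two_pos k).trans_le hN).ne'
  refine lt_of_lt_of_le ?_ (Nat.pow_log_le_self 2 h3)
  rw [← mul_div_assoc, div_lt_one (by positivity), pow_add] at h2
  have h4 : (((d * (2 + Nat.log 2 N)) ^ C : ℕ) : ℝ) < ((2 ^ Nat.log 2 N : ℕ) : ℝ) := by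
    rw [Nat.cast_pow, Nat.cast_mul, mul_pow, Nat.cast_pow, Nat.cast_ofNat]
    linarith
  exact_mod_cast h4

theorem res_form {F : Type} [Field F] {W : Submodule F (Matrix ν ν F)} (h : W ≠ ⊤) :
    ∃ c : ν × ν → F, (∃ p, c p ≠ 0) ∧ ∀ A ∈ W, ∑ x : ν × ν, c x * A x.1 x.2 = 0 := by
  obtain ⟨f, hf, hW⟩ := W.exists_le_ker_of_lt_top h.lt_top
  have h1 : ∀ A : Matrix ν ν F, f A = ∑ x : ν × ν, f (single x.1 x.2 1) * A x.1 x.2 := by
    intro A
    conv_lhs => rw [matrix_eq_sum_single A, ← Fintype.sum_prod_type', map_sum]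
    refine Finset.sum_congr rfl fun x _ => ?_
    rw [mul_comm, ← smul_eq_mul, ← map_smul, smul_single, smul_eq_mul, mul_one]
  refine ⟨fun x => f (single x.1 x.2 1), ?_, fun A hA => (h1 A).symm.trans (hW hA)⟩
  by_contra h2
  push Not at h2
  exact hf (LinearMap.ext fun A => by simp only [h1 A, h2, zero_mul, Finset.sum_const_zero]; rfl)

theorem res_low (U : Subgroup (ℂ ≃ₐ[K] ℂ)) {N l : ℕ} [Fact l.Prime] (hN : N ≠ 0)
    (π : ℤ_[l] →+* ZMod N) (c : ν × ν → ZMod N) (q : ν × ν) (hq : c q = 1)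
    (hc : ∀ σ ∈ U, ∑ x : ν × ν, c x * π ((r l σ : Matrix ν ν ℤ_[l]) x.1 x.2) = 0) :
    N ≤ (AddSubgroup.closure {R : MZ | ∃ σ ∈ U, Cong r σ N R}).index := by
  have : NeZero N := ⟨hN⟩
  let φ : MZ →+ ZMod N :=
    { toFun := fun R => ∑ x : ν × ν, c x * (R x.1 x.2 : ZMod N)
      map_zero' := by simp
      map_add' := fun R R' => by
        simp only [Matrix.add_apply, Int.cast_add, mul_add, Finset.sum_add_distrib] }
  have hφ : ∀ R, φ R = ∑ x : ν × ν, c x * (R x.1 x.2 : ZMod N) := fun _ => rfl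
  have hs : Function.Surjective φ := by
    intro z
    obtain ⟨k, rfl⟩ := ZMod.intCast_surjective z
    refine ⟨single q.1 q.2 k, ?_⟩
    rw [hφ, Finset.sum_eq_single q (fun x _ hx => ?_) fun h => absurd (Finset.mem_univ q) h]
    · rw [single_apply_same, hq, one_mul]
    · rw [single_apply_of_ne _ _ _ _ _ fun h => hx (Prod.ext h.1.symm h.2.symm), Int.cast_zero,
        mul_zero]
  have h1 : AddSubgroup.closure {R : MZ | ∃ σ ∈ U, Cong r σ N R} ≤ φ.ker := by
    rw [AddSubgroup.closure_le]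
    rintro R ⟨σ, hσ, hR⟩
    refine (hφ R).trans (Eq.trans (Finset.sum_congr rfl fun x _ => ?_) (hc σ hσ))
    obtain ⟨y, hy⟩ := hR l x.1 x.2
    rw [eq_add_of_sub_eq hy, map_add, map_mul, map_natCast, map_intCast, ZMod.natCast_self,
      zero_mul, zero_add]
  have h2 : (Int.castRingHom (ZMod N)).mapMatrix.toAddMonoidHom.ker ≤
      AddSubgroup.closure {R : MZ | ∃ σ ∈ U, Cong r σ N R} := by
    intro R hR
    have h3 : ∀ i j, (N : ℤ) ∣ R i j := fun i j =>
      (ZMod.intCast_zmod_eq_zero_iff_dvd _ _).1 (congrFun (congrFun hR i) j)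
    have h4 : ∀ S : MZ, (∀ i j, (N : ℤ) ∣ S i j) →
        1 - S ∈ AddSubgroup.closure {R : MZ | ∃ σ ∈ U, Cong r σ N R} := by
      intro S hS
      refine AddSubgroup.subset_closure ⟨1, U.one_mem, fun p _ i j => ?_⟩
      obtain ⟨y, hy⟩ := hS i j
      refine ⟨y, ?_⟩
      rw [map_one, Units.val_one, Matrix.sub_apply, hy, one_apply, one_apply]
      push_cast
      ring
    have h5 := AddSubgroup.sub_mem _ (h4 0 fun _ _ => dvd_zero _) (h4 R h3)
    rwa [sub_zero, sub_sub_cancel] at h5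
  have h6 := AddSubgroup.finiteIndex_of_le h2
  have h7 := AddSubgroup.index_dvd_of_le h1
  rw [AddSubgroup.index_ker, AddMonoidHom.range_eq_top.2 hs, AddSubgroup.card_top, Nat.card_zmod]
    at h7
  exact Nat.le_of_dvd (Nat.pos_of_ne_zero h6.index_ne_zero) h7

/-- If the span is a proper subspace, a linear form with integral coefficients, one of them a unit,
vanishes on it; modulo `N = l ^ n` it maps `M8(ℤ)` onto `ZMod (l ^ n)` and kills the lattice, whose
index (nonzero: the lattice contains `N M8(ℤ)`) is then at least `l ^ n`. But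
`(d (2 + log (l ^ n))) ^ C < l ^ n` for large `n`. -/
theorem fal_sq (h : FAL r) (l : ℕ) [Fact l.Prime] : Sq1 (r l) := by
  obtain ⟨C, hC⟩ := h
  intro U hU
  by_contra hne
  obtain ⟨c, ⟨p, hp⟩, hc⟩ := res_form hne
  obtain ⟨q, -, hq⟩ := Finset.exists_max_image Finset.univ (fun q : ν × ν => ‖c q‖)
    ⟨p, Finset.mem_univ _⟩
  have hq0 : c q ≠ 0 := fun h0 => hp (norm_le_zero_iff.1
    ((hq p (Finset.mem_univ _)).trans_eq (by rw [h0, norm_zero])))
  let c' : ν × ν → ℤ_[l] := fun x => ⟨c x / c q, by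
    rw [norm_div]
    exact div_le_one_of_le₀ (hq x (Finset.mem_univ _)) (norm_nonneg _)⟩
  have h1 : c' q = 1 := Subtype.ext (div_self hq0)
  have h2 : ∀ σ ∈ U, ∑ x : ν × ν, c' x * (r l σ : Matrix ν ν ℤ_[l]) x.1 x.2 = 0 := by
    intro σ hσ
    have h3 := hc _ (Submodule.subset_span ⟨σ, hσ, rfl⟩)
    have h4 : ∀ z : ℤ_[l], PadicInt.Coe.ringHom z = 0 → z = 0 := fun z hz => Subtype.ext hz
    refine h4 _ ?_
    rw [map_sum, ← zero_div (c q), ← h3, Finset.sum_div]
    refine Finset.sum_congr rfl fun x _ => ?_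
    rw [map_mul, mul_div_right_comm]
    rfl
  obtain ⟨N₀, hN₀⟩ := res_grow U.index C
  have hl : l.Prime := Fact.out
  have h4 : l ^ N₀ ≠ 0 := pow_ne_zero _ hl.ne_zero
  have h5 := res_low (r := r) U h4 (PadicInt.toZModPow (p := l) N₀)
    (fun x => PadicInt.toZModPow N₀ (c' x)) q (by rw [h1, map_one]) fun σ hσ => by
      simp only [← map_mul, ← map_sum, h2 σ hσ, map_zero]
  exact absurd (h5.trans (hC _ h4 U hU)) (hN₀ _ (Nat.lt_pow_self hl.one_lt).le).not_ge

/-- The same with `N = l`. -/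
theorem fal_sf (h : FAL r) (d : ℕ) : ∃ l₀ : ℕ, ∀ (l : ℕ) [Fact l.Prime], l₀ < l → Sf1 (r l) d := by
  obtain ⟨C, hC⟩ := h
  obtain ⟨N₀, hN₀⟩ := res_grow d C
  refine ⟨N₀, fun l _ hl U hU hd => ?_⟩
  by_contra hne
  obtain ⟨c, ⟨q, hq⟩, hc⟩ := res_form hne
  have h4 : l ≠ 0 := (Fact.out : l.Prime).ne_zero
  have h5 := res_low (r := r) U h4 (PadicInt.toZMod (p := l)) (fun x => (c q)⁻¹ * c x) q
    (inv_mul_cancel₀ hq) fun σ hσ => by
      have h3 := hc _ (Submodule.subset_span ⟨σ, hσ, rfl⟩)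
      simp only [map_apply] at h3
      simp only [mul_assoc, ← Finset.mul_sum, h3, mul_zero]
  refine absurd (h5.trans ((hC _ h4 U ⟨hU⟩).trans ?_)) (hN₀ _ hl.le).not_ge
  exact Nat.pow_le_pow_left (Nat.mul_le_mul_right _ hd) C

end M5
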