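import Pool.Agent.Lib.MP_33b3f9_ag.M5.SF
import Pool.Agent.Lib.MP_33b3f9_ag.M4.CmTrans

/-!
The cubic field and the system of frames.
-/

set_option autoImplicit false

noncomputable section

namespace M5

open Matrix Polynomial NumberField M4 M4.CM Pool.Agent.M4.Mx Pool.Agent.Lib.MP_33b3f9_ag

variable {τ : Mat} {K : IntermediateField ℚ ℂ} {r : Rep K} {l₀ : ℕ} [Fact l₀.Prime]
  {f₀ : Fr ν (CM.Om l₀)}

theorem ssys_field (F : Type) [Field F] [NumberField F] :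
    ∃ (L : IntermediateField ℚ Qb) (_ : NumberField L), (∀ (s : F →+* Qb) x, s x ∈ L) ∧
      ∃ ζ : L, IsPrimitiveRoot ζ 32 := by
  obtain ⟨ζ, hζ⟩ := HasEnoughRootsOfUnity.exists_primitiveRoot Qb 32
  have hA : Algebra.IsAlgebraic ℚ Qb := by
    have h := AlgebraicClosure.isAlgebraic ℚ
    rwa [Subsingleton.elim (AlgebraicClosure.instAlgebra ℚ) DivisionRing.toRatAlgebra] at h
  let b := Module.finBasis ℚ F
  let U : Set Qb := {ζ} ∪ Set.range fun x : (F →+* Qb) × Fin (Module.finrank ℚ F) => x.1 (b x.2)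
  have hU : U.Finite := (Set.finite_singleton _).union (Set.finite_range _)
  have : Finite U := hU
  let L := IntermediateField.adjoin ℚ U
  have hL : ∀ x ∈ U, x ∈ L := fun x hx => IntermediateField.subset_adjoin ℚ U hx
  have : FiniteDimensional ℚ L := IntermediateField.finiteDimensional_adjoin fun x _ =>
    (hA.isAlgebraic x).isIntegral
  refine ⟨L, ⟨⟩, fun s x => ?_, ⟨ζ, hL _ (Or.inl rfl)⟩,
    IsPrimitiveRoot.coe_submonoidClass_iff.1 hζ⟩
  rw [← b.sum_repr x, map_sum]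
  refine sum_mem fun k _ => ?_
  rw [Rat.smul_def, map_mul, map_ratCast]
  exact mul_mem (SubfieldClass.ratCast_mem L _) (hL _ (Or.inr ⟨(s, k), rfl⟩))

/-- As `M4.CM.sys_field` and `M4.CM.exists_sys` (copy what is needed, do not import `CmSys`):
`NT.emb`, `NT.Spl.modEq`, `exists_j`, `comp_bij`. -/
theorem exists_L (F : Type) [Field F] [NumberField F] :
    ∃ (L : Type) (_ : Field L) (_ : NumberField L) (l₂ : ℕ), ∀ (l : ℕ) [Fact l.Prime], l₂ < l →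
      NT.Spl L l → l ≡ 1 [MOD 32] ∧ ∀ (j : F →+* CM.Om l) x, j x ∈ NT.Qp l := by
  obtain ⟨L, hL, h1, ζ, hζ⟩ := ssys_field F
  obtain ⟨a, ha⟩ := NT.emb L
  refine ⟨L, inferInstance, hL, max a 32, fun l hp hl hS => ?_⟩
  rw [max_lt_iff] at hl
  refine ⟨NT.Spl.modEq hp.out (fun hd => by have := Nat.le_of_dvd (by norm_num) hd; omega) hζ hS,
    fun j x => ?_⟩
  obtain ⟨ε⟩ := (ha l hl.1.le).1 hS
  obtain ⟨j₀, hj⟩ := exists_j (L.val : L →+* Qb) ((algebraMap ℚ_[l] (CM.Om l)).comp ε)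
  obtain ⟨s, rfl⟩ := (comp_bij (F := F) j₀).2 j
  exact ⟨_, (hj ⟨s x, h1 s x⟩).symm⟩

theorem ssys_le {l : ℕ} [Fact l.Prime] {m n : Type} (A : Matrix m n ℤ_[l]) :
    Le (A.map (CM.toOm l)) 1 := fun i j => by
  change ‖algebraMap ℚ_[l] (CM.Om l) (A i j : ℚ_[l])‖ ≤ 1
  rw [norm_algebraMap']
  exact (A i j).2

theorem ssys_cj {R : Type} [CommRing R] (x : M2 R) : cj 1 x = x := by
  simp [cj]

theorem ssys_ten {Γ F : Type} [Group Γ] [Field F] {l : ℕ} [Fact l.Prime] {ρ : Γ →* GL ν ℤ_[l]}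
    {ι : Fin 3 → F →+* CM.Om l} (hι : Function.Injective ι) (hr : ∀ i x, ι i x ∈ NT.Qp l)
    (fz : Fr ν ℤ_[l]) (h : ∀ σ, ∃ hz, (ρ σ : Matrix ν ν ℤ_[l]) = fz.T hz) :
    Ten ρ ι (fz.map (CM.toOm l)) := by
  refine ⟨hι, ssys_le _, ssys_le _, fun σ => ?_, fun θ => ⟨1, fun i => ⟨1, fun x => ?_⟩,
    fun i x => (mem_Qp_iff _).1 (hr i x) θ⟩⟩
  · obtain ⟨hz, e⟩ := h σ
    refine ⟨_, fun i => ssys_le (hz i), ?_⟩
    rw [← Fr.map_T, ← e]
    rfl
  · have e : (fz.map (CM.toOm l)).map (θ : CM.Om l →+* CM.Om l) = fz.map (CM.toOm l) := by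
      simp only [Fr.map, Matrix.map_map, Fr.mk.injEq]
      have : (θ : CM.Om l →+* CM.Om l) ∘ CM.toOm l = CM.toOm l :=
        funext fun y => (mem_Qp_iff _).1 (toOm_mem y) θ
      rw [this]
      exact ⟨rfl, rfl⟩
    rw [ssys_cj, Fr.u_apply, Fr.u_apply]
    refine (Fr.map_T _ (θ : CM.Om l →+* CM.Om l) _).trans ?_
    rw [e]
    congr 1
    funext s
    by_cases hs : s = i
    · subst hs
      simp only [Function.update_self, Equiv.Perm.one_apply]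
      rfl
    · simp only [Function.update_of_ne hs, Equiv.Perm.one_apply, Pi.one_apply]
      exact Matrix.map_one _ (map_zero _) (map_one _)

theorem ssys_ts {l : ℕ} [Fact l.Prime] (hl : 5 ≤ l) (hs : Sf1 (r l) 180)
    (fz : Fr ν ℤ_[l]) (h : ∀ σ, ∃ hz, (r l σ : Matrix ν ν ℤ_[l]) = fz.T hz) :
    TS r l (fz.Q.map PadicInt.toZMod) (fz.P.map PadicInt.toZMod) := by
  let ρ : (ℂ ≃ₐ[K] ℂ) →* Matrix ν ν (ZMod l) :=
    ((PadicInt.toZMod (p := l)).mapMatrix.toMonoidHom.comp (Units.coeHom _)).comp (r l)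
  have ex : ∀ σ, ∃ g, ρ σ = (fz.map PadicInt.toZMod).T g := fun σ => by
    obtain ⟨hz, e⟩ := h σ
    exact ⟨_, by rw [← Fr.map_T, ← e]; rfl⟩
  refine ⟨(fz.map PadicInt.toZMod).qp, (fz.map PadicInt.toZMod).pq, fun σ => ?_, fun i u hu => ?_⟩
  · obtain ⟨g, e⟩ := ex σ
    exact ⟨g, by rw [show rb r l σ = _ from e]; exact (fz.map PadicInt.toZMod).QTP _⟩
  · obtain ⟨σ, e⟩ := ts_big hl ρ (fz.map PadicInt.toZMod) ex hs i hu
    exact ⟨σ, by rw [show rb r l σ = _ from e]; exact (fz.map PadicInt.toZMod).QTP _⟩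

/-- `exists_F`, `exists_L`. At a split prime every `θ` fixes the embeddings, so `π = 1`; `split` gives
`fz`, and `Ten (r l) ι (fz.map _)` holds with `π = 1`, `c = 1` (`Fr.map_T`); `ts_big`. -/
theorem exists_sys (H : Hyp τ K r) (B : Base r l₀ f₀) :
    ∃ (F : Type) (_ : Field F) (_ : NumberField F) (L : Type) (_ : Field L) (_ : NumberField L)
      (l₁ : ℕ), Module.finrank ℚ F = 3 ∧ 2 ≤ l₁ ∧ Nonempty (Sys r F L l₁) := by
  obtain ⟨F, iF, nF, hF, a1, b1⟩ := exists_F H B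
  obtain ⟨L, iL, nL, a2, b2⟩ := exists_L F
  obtain ⟨a3, b3⟩ := H.sf 180
  refine ⟨F, iF, nF, L, iL, nL, max (max a1 5) (max a2 a3), hF, by omega, ?_⟩
  have key : ∀ (l : ℕ) [Fact l.Prime], ∃ (ι : Fin 3 → F →+* CM.Om l) (f : Fr ν (CM.Om l))
      (fz : Fr ν ℤ_[l]), max (max a1 5) (max a2 a3) < l → Ten (r l) ι f ∧
        (NT.Spl L l → f = fz.map (CM.toOm l) ∧
          ∀ σ, ∃ hz, (r l σ : Matrix ν ν ℤ_[l]) = fz.T hz) := by
    intro l hp
    let fz₀ : Fr ν ℤ_[l] :=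
      ⟨(1 : Matrix κ κ ℤ_[l]).submatrix (Fintype.equivOfCardEq (by simp) : ν ≃ κ) (Equiv.refl κ),
        (1 : Matrix κ κ ℤ_[l]).submatrix (Equiv.refl κ) (Fintype.equivOfCardEq (by simp) : ν ≃ κ),
        by rw [submatrix_mul_equiv, Matrix.one_mul, submatrix_one_equiv],
        by rw [submatrix_mul_equiv, Matrix.one_mul, submatrix_one_equiv]⟩
    by_cases hl : max (max a1 5) (max a2 a3) < l
    swap
    · obtain ⟨e, -⟩ := exists_equiv (Ω := CM.Om l) hF (IsAlgClosed.lift (R := ℚ) (S := F)).toRingHom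
      exact ⟨e, fz₀.map (CM.toOm l), fz₀, fun h => (hl h).elim⟩
    simp only [max_lt_iff] at hl
    obtain ⟨⟨k1, k5⟩, k2, k3⟩ := hl
    obtain ⟨ι, f, hT⟩ := b1 l k1
    by_cases hS : NT.Spl L l
    swap
    · exact ⟨ι, f, fz₀, fun _ => ⟨hT, fun h => (hS h).elim⟩⟩
    have hr := (b2 l k2 hS).2
    obtain ⟨fz, hz⟩ := split (ρ := r l) (f := f) (by omega) ((b3 l k3).sz (by norm_num))
      ⟨hT.P_le, hT.Q_le, hT.ex, fun θ => (hT.gal θ).imp fun π h => h.1⟩ fun θ i => by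
        obtain ⟨π, h1, h2⟩ := hT.gal θ
        have e : ι i = ι (π i) := RingHom.ext fun x => by
          rw [← h2, (mem_Qp_iff _).1 (hr _ x) θ]
        have h3 := h1 i
        rwa [← hT.inj e] at h3
    exact ⟨ι, _, fz, fun _ => ⟨ssys_ten hT.inj (fun i => hr _) fz hz, fun _ => ⟨rfl, hz⟩⟩⟩
  choose ι f fz h using key
  classical
  refine ⟨⟨ι, f,
    fun l => if hl : l.Prime then haveI := Fact.mk hl; (fz l).Q.map PadicInt.toZMod else 0,
    fun l => if hl : l.Prime then haveI := Fact.mk hl; (fz l).P.map PadicInt.toZMod else 0,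
    fun l _ hl => (h l hl).1, fun l hp hl hS => ?_⟩⟩
  have hl' := hl
  simp only [max_lt_iff] at hl'
  obtain ⟨⟨-, k5⟩, k2, k3⟩ := hl'
  refine ⟨(b2 l k2 hS).1, (b2 l k2 hS).2, ?_, fz l, ((h l hl).2 hS).1, dif_pos hp.out,
    ((h l hl).2 hS).2⟩
  simp only [dif_pos hp.out]
  exact ssys_ts k5.le (b3 l k3) _ ((h l hl).2 hS).2

end M5
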