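import Pool.Agent.Lib.MP_33b3f9_ag.M5.Core
import Pool.Agent.Lib.MP_33b3f9_ag.M5.SSys
import Pool.Agent.Lib.MP_33b3f9_ag.M5.SMain
import Pool.Agent.Lib.MP_33b3f9_ag.M5.Res
import Pool.Agent.Lib.MP_33b3f9_ag.M4.B2.Red

/-!
The dichotomy.
-/

set_option autoImplicit false

noncomputable section

namespace M5

open Matrix Polynomial NumberField M4 M4.CM Pool.Agent.M4.Mx Pool.Agent.Lib.MP_33b3f9_ag

variable {τ : Mat} {K : IntermediateField ℚ ℂ} {r : Rep K}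

theorem hyp (h : AV τ K r) (hF : FAL r) : Hyp τ K r :=
  ⟨h, B2.red h, fun l _ σ => (Kz.mu h l σ).imp fun _ a => a.1, fal_sq hF, fal_sf hF⟩

theorem not_gen (H : Hyp τ K r) {l₀ : ℕ} [Fact l₀.Prime] {f₀ : Fr ν (CM.Om l₀)}
    (B : Base r l₀ f₀) : ¬ M4.GEN (cst τ) := by
  obtain ⟨F, _, _, L, _, _, l₁, hF, h2, ⟨S⟩⟩ := exists_sys H B
  obtain ⟨p, _, e, σ, P, -, -, hW, h1⟩ := exists_frob H B
  obtain ⟨D, hD⟩ := dq_int hW 1
  obtain ⟨l, hl, hl'⟩ := Nat.exists_infinite_primes (D.natAbs + p + 1)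
  have := Fact.mk hl'
  have h3 := hD l (by omega)
  have h4 : D ≠ 0 := by
    rintro rfl
    exact h1 l (by omega) 1 one_ne_zero (h3.trans Int.cast_zero)
  rw [pow_one] at h3
  refine core H.av F hF (cb H.red H.av hF S h2 (l₂ := l) (σ₂ := σ) ?_)
  rw [h3]
  refine norm_int_eq_one fun hd => ?_
  have := Nat.le_of_dvd (Int.natAbs_pos.2 h4) (Int.natCast_dvd.1 hd)
  omega

theorem not_gen' (h : AV τ K r) (hF : FAL r) {l : ℕ} [Fact l.Prime]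
    {U : Subgroup (ℂ ≃ₐ[K] ℂ)} [U.Normal] {f : Fr ν (CM.Om l)} (hf : Cu f (lie (r l) U)) :
    ¬ M4.GEN (cst τ) := by
  obtain ⟨χ, h1, n, h2⟩ := pm_all hf
  obtain ⟨K₁, _, h3⟩ := opn h (l ^ (n + 2)) (pow_ne_zero _ (Fact.out : l.Prime).ne_zero)
  have := h.fin
  have hK : K ≤ K ⊔ K₁ := le_sup_left
  have h4 : ∀ (σ : ℂ ≃ₐ[↥(K ⊔ K₁)] ℂ) (m : ℕ), m ≤ n + 2 → res hK σ ∈ kerM (r l) m := fun σ m hm => by
    have a1 := h3 (res hK σ) (fun x hx => σ.commutes ⟨x, (le_sup_right : K₁ ≤ K ⊔ K₁) hx⟩) l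
    rw [Nat.cast_pow] at a1
    choose Z hZ using fun i j => (pow_dvd_pow (l : ℤ_[l]) hm).trans (a1 i j)
    refine mem_kerM.2 ⟨Matrix.of Z, ?_⟩
    ext i j : 1
    have a2 := hZ i j
    rw [map_one, Units.val_one, sub_eq_iff_eq_add'] at a2
    exact a2
  refine not_gen (hyp (AV_res h hK) (fal_res hF hK)) (l₀ := l) (f₀ := f)
    ⟨fun σ => kerM_le (h4 σ 2 (by omega)), fun σ => Pm.inC ?_⟩
  have a3 := h1 (res hK σ)
  rwa [MonoidHom.mem_ker.1 (h2 (h4 σ n (by omega)))] at a3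

theorem dich (h : AV τ K r) (hF : FAL r) : DICH τ r := by
  intro l _ U _
  have H := hyp h hF
  have h1 : lie (r l) U.normalCore ≤ tng (imU (r l) U) :=
    (lie_tng _ _).trans (tng_mono fun _ ⟨σ, a, b⟩ => ⟨σ, U.normalCore_le a, b⟩)
  rcases lie_type (U := U.normalCore) (H.gsp l) (H.sq l) with h2 | h2 | ⟨f, h2⟩
  · exact .inl fun Z hZ => h1 (h2.sp (Matrix.J_transpose _ _) (Matrix.isUnit_det_J _ _).ne_zero hZ)
  · exact absurd h2 (not_sym7 H l _)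
  · exact .inr ⟨⟨f, fun s => ⟨h1 (h2.1 (Submodule.subset_span ⟨(s, 0), rfl⟩)),
      h1 (h2.1 (Submodule.subset_span ⟨(s, 1), rfl⟩))⟩⟩, not_gen' h hF h2⟩

end M5
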