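import Pool.Agent.Lib.MP_33b3f9_ag.M5.LDefs
import Pool.Agent.Lib.MP_33b3f9_ag.M4.CmDefs
import Pool.Agent.Lib.MP_33b3f9_ag.M4.P.If

/-!
The Lie algebra of an `l`-adic representation; the hypotheses of Faltings type.
-/

set_option autoImplicit false

noncomputable section

namespace M5

open Matrix Polynomial M4 M4.CM Pool.Agent.M4.Mx

section loc

variable {Γ : Type} [Group Γ] {l : ℕ} [Fact l.Prime]

/-- The limits of `(ρ σ - 1) / l ^ n`. -/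
def Lim (ρ : Γ →* GL ν ℤ_[l]) (U : Subgroup Γ) : Set (Matrix ν ν ℤ_[l]) :=
  {X | ∀ k : ℕ, ∃ n₀ : ℕ, ∀ n, n₀ ≤ n → ∃ σ ∈ U, ∃ Y : Matrix ν ν ℤ_[l],
    (ρ σ : Matrix ν ν ℤ_[l]) = 1 + (l : ℤ_[l]) ^ n • (X + (l : ℤ_[l]) ^ k • Y)}

/-- The Lie algebra. -/
def lie (ρ : Γ →* GL ν ℤ_[l]) (U : Subgroup Γ) : Submodule (CM.Om l) (Matrix ν ν (CM.Om l)) :=
  Submodule.span (CM.Om l) ((fun X => X.map (CM.toOm l)) '' Lim ρ U)

/-- The representation over the algebraic closure. -/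
def rO (ρ : Γ →* GL ν ℤ_[l]) : Γ →* Matrix ν ν (CM.Om l) :=
  ((CM.toOm l).mapMatrix.toMonoidHom.comp (Units.coeHom _)).comp ρ

/-- The kernel modulo `l ^ n`. -/
def kerM (ρ : Γ →* GL ν ℤ_[l]) (n : ℕ) : Subgroup Γ :=
  ((Matrix.GeneralLinearGroup.map (PadicInt.toZModPow n)).comp ρ).ker

/-- Every subgroup of finite index spans all matrices. -/
def Sq1 (ρ : Γ →* GL ν ℤ_[l]) : Prop :=
  ∀ U : Subgroup Γ, U.FiniteIndex →
    Submodule.span ℚ_[l] ((fun σ => (Pool.Agent.M4.toQ (ρ σ) : Matrix ν ν ℚ_[l])) '' U) = ⊤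

/-- Every subgroup of index at most `d` spans all matrices modulo `l`. -/
def Sf1 (ρ : Γ →* GL ν ℤ_[l]) (d : ℕ) : Prop :=
  ∀ U : Subgroup Γ, U.index ≠ 0 → U.index ≤ d → Submodule.span (ZMod l)
    ((fun σ => (ρ σ : Matrix ν ν ℤ_[l]).map PadicInt.toZMod) '' U) = ⊤

/-- Symplectic similitudes. -/
def Gsp (ρ : Γ →* GL ν ℤ_[l]) : Prop :=
  ∀ σ, ∃ c : ℤ_[l], (ρ σ : Matrix ν ν ℤ_[l])ᵀ * Matrix.J (Fin 4) ℤ_[l] * (ρ σ : Matrix ν ν ℤ_[l]) =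
    c • Matrix.J (Fin 4) ℤ_[l]

/-- Congruent to `1` modulo `l ^ 2`. -/
def Neat (A : Matrix ν ν (CM.Om l)) : Prop := Le (A - 1) ((l : ℝ) ^ (-2 : ℤ))

end loc

/-- No quotient of two eigenvalues is a root of unity. -/
def Reg {R : Type} [CommRing R] (A : Matrix ν ν R) : Prop := ∀ m : ℕ, m ≠ 0 → Dq (A ^ m) ≠ 0

/-- The part of trace zero. -/
def tl {Ω : Type} [Field Ω] : Matrix ν ν Ω →ₗ[Ω] Matrix ν ν Ω :=
  LinearMap.id - (8 : Ω)⁻¹ • (Matrix.traceLinearMap ν Ω Ω).smulRight 1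

/-- `g` is the Lie algebra of the cube `f`, up to scalars. -/
def Cu {Ω : Type} [Field Ω] (f : Fr ν Ω) (g : Submodule Ω (Matrix ν ν Ω)) : Prop :=
  f.sl ≤ g ∧ g ≤ f.m

variable {K : IntermediateField ℚ ℂ}

/-- The standing hypotheses. -/
structure Hyp (τ : Mat) (K : IntermediateField ℚ ℂ) (r : Rep K) : Prop where
  av : AV τ K r
  red : REDst τ r
  gsp : ∀ (l : ℕ) [Fact l.Prime], Gsp (r l)
  sq : ∀ (l : ℕ) [Fact l.Prime], Sq1 (r l)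
  sf : ∀ d : ℕ, ∃ l₀ : ℕ, ∀ (l : ℕ) [Fact l.Prime], l₀ < l → Sf1 (r l) d

/-- At the prime `l₀` the image is neat and lies in a cube. -/
structure Base (r : Rep K) (l₀ : ℕ) [Fact l₀.Prime] (f₀ : Fr ν (CM.Om l₀)) : Prop where
  neat : ∀ σ, Neat (ro r l₀ σ)
  inC : ∀ σ, ∃ a, ro r l₀ σ = f₀.T a

theorem rO_eq (r : Rep K) (l : ℕ) [Fact l.Prime] (σ : ℂ ≃ₐ[K] ℂ) : rO (r l) σ = ro r l σ := rfl

end M5
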