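import Pool.Agent.Lib.MP_33b3f9_ag.M5.ADefs
import Pool.Agent.Lib.MP_33b3f9_ag.M4.MxLim

/-!
The limits form a Lie ring.
-/

set_option autoImplicit false

noncomputable section

namespace M5

open Matrix Polynomial M4 M4.CM Pool.Agent.M4.Mx Pool.Agent.Lib.MP_33b3f9_ag

variable {Γ : Type} [Group Γ] {l : ℕ} [Fact l.Prime] {ρ : Γ →* GL ν ℤ_[l]} {U : Subgroup Γ}

theorem alima_binom {R A : Type} [CommRing R] [Ring A] [Algebra R A] (c : R) (Z : A) (m : ℕ) :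
    ∃ q : R[X], (1 + c • Z) ^ m = 1 + (m * c) • Z + c ^ 2 • aeval Z q := by
  induction m with
  | zero => exact ⟨0, by simp⟩
  | succ m ih =>
    obtain ⟨q, hq⟩ := ih
    refine ⟨q + (m : R) • (X * X) + c • (q * X), ?_⟩
    simp only [pow_succ _ m, hq, map_add, map_smul, map_mul, aeval_X, mul_add, add_mul, mul_one,
      one_mul, smul_mul_assoc, mul_smul_comm, Nat.cast_succ]
    module

theorem alima_comm {R A : Type} [CommRing R] [Ring A] [Algebra R A] (b d : R) (X Y X' Y' W : A)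
    (h : (1 + (b * d) • (X' + b • Y')) * (1 + (b * d) • (X + b • Y)) * W = 1) :
    ∃ V, (1 + (b * d) • (X + b • Y)) * (1 + (b * d) • (X' + b • Y')) * W =
      1 + (b * d) ^ 2 • (X * X' - X' * X + b • V) := by
  obtain ⟨V, hV⟩ : ∃ V, (X + b • Y) * (X' + b • Y') - (X' + b • Y') * (X + b • Y) =
      X * X' - X' * X + b • V :=
    ⟨X * Y' + Y * X' + b • (Y * Y') - (X' * Y + Y' * X + b • (Y' * Y)), by
      simp only [mul_add, add_mul, smul_mul_assoc, mul_smul_comm]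
      module⟩
  generalize X + b • Y = Z at h hV
  generalize X' + b • Y' = Z' at h hV
  obtain ⟨T, hT⟩ : ∃ T, W = 1 + (b * d) • T := ⟨-((Z + Z' + (b * d) • (Z' * Z)) * W), by
    rw [← h]
    simp only [mul_add, add_mul, mul_one, one_mul, smul_mul_assoc, mul_smul_comm]
    module⟩
  have h1 : (1 + (b * d) • Z) * (1 + (b * d) • Z') =
      (1 + (b * d) • Z') * (1 + (b * d) • Z) + (b * d) ^ 2 • (Z * Z' - Z' * Z) := by
    simp only [mul_add, add_mul, mul_one, one_mul, smul_mul_assoc, mul_smul_comm]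
    module
  refine ⟨V + d • ((Z * Z' - Z' * Z) * T), ?_⟩
  rw [h1, add_mul, h, hT, smul_mul_assoc, mul_add, mul_one, mul_smul_comm, smul_add b, ← add_assoc,
    ← hV, smul_smul]

/-- The binomial theorem: for `2 ≤ j ≤ l` the exponent `n j - n - 1` is at least `n - 1`. -/
theorem pow_l {A : Type} [Ring A] [Algebra ℤ_[l] A] (Z : A) {n : ℕ} (hn : 1 ≤ n) :
    ∃ q : ℤ_[l][X], (1 + (l : ℤ_[l]) ^ n • Z) ^ l =
      1 + (l : ℤ_[l]) ^ (n + 1) • (Z + (l : ℤ_[l]) ^ (n - 1) • aeval Z q) := by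
  obtain ⟨q, hq⟩ := alima_binom ((l : ℤ_[l]) ^ n) Z l
  obtain ⟨m, rfl⟩ := Nat.exists_eq_add_of_le' hn
  exact ⟨q, by rw [hq, Nat.add_sub_cancel]; module⟩

/-- It is enough to have one `n > k` (`pow_l`, induction). -/
theorem mem_lim {X : Matrix ν ν ℤ_[l]} (h : ∀ k : ℕ, ∃ n, k < n ∧ ∃ σ ∈ U, ∃ Y : Matrix ν ν ℤ_[l],
    (ρ σ : Matrix ν ν ℤ_[l]) = 1 + (l : ℤ_[l]) ^ n • (X + (l : ℤ_[l]) ^ k • Y)) : X ∈ Lim ρ U := by
  intro k
  obtain ⟨n, hn, h0⟩ := h k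
  refine ⟨n, fun m hm => ?_⟩
  induction m, hm using Nat.le_induction with
  | base => exact h0
  | succ m hm ih =>
    obtain ⟨σ, hσ, Y, hY⟩ := ih
    obtain ⟨q, hq⟩ := pow_l (l := l) (X + (l : ℤ_[l]) ^ k • Y) (n := m) (by omega)
    obtain ⟨d, hd⟩ : ∃ d, m - 1 = k + d := ⟨m - 1 - k, by omega⟩
    refine ⟨σ ^ l, U.pow_mem hσ l, Y + (l : ℤ_[l]) ^ d • aeval (X + (l : ℤ_[l]) ^ k • Y) q, ?_⟩
    rw [map_pow, Units.val_pow_eq_pow_val, hY, hq, hd, pow_add _ k, mul_smul, add_assoc, ← smul_add]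

theorem lim_zero : (0 : Matrix ν ν ℤ_[l]) ∈ Lim ρ U := by
  exact fun k => ⟨0, fun n _ => ⟨1, U.one_mem, 0, by simp⟩⟩

theorem lim_add {X Y : Matrix ν ν ℤ_[l]} (hX : X ∈ Lim ρ U) (hY : Y ∈ Lim ρ U) :
    X + Y ∈ Lim ρ U := by
  intro k
  obtain ⟨a, ha⟩ := hX k
  obtain ⟨b, hb⟩ := hY k
  refine ⟨a + b + k, fun n hn => ?_⟩
  obtain ⟨σ, hσ, V, hV⟩ := ha n (by omega)
  obtain ⟨σ', hσ', W, hW⟩ := hb n (by omega)
  obtain ⟨d, rfl⟩ : ∃ d, n = k + d := ⟨n - k, by omega⟩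
  refine ⟨σ * σ', U.mul_mem hσ hσ', V + W + (l : ℤ_[l]) ^ d •
    ((X + (l : ℤ_[l]) ^ k • V) * (Y + (l : ℤ_[l]) ^ k • W)), ?_⟩
  rw [map_mul, Units.val_mul, hV, hW, add_mul, mul_add, mul_add, smul_mul_smul_comm, one_mul,
    one_mul, mul_one]
  module

/-- `g g' g⁻¹ g'⁻¹ - 1 = (g g' - g' g) (g' g)⁻¹`, and `(g' g)⁻¹ = 1 + l ^ n W`; `mem_lim` with `2 n`. -/
theorem lim_br {X Y : Matrix ν ν ℤ_[l]} (hX : X ∈ Lim ρ U) (hY : Y ∈ Lim ρ U) :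
    X * Y - Y * X ∈ Lim ρ U := by
  refine mem_lim fun k => ?_
  obtain ⟨a, ha⟩ := hX k
  obtain ⟨b, hb⟩ := hY k
  obtain ⟨σ, hσ, V, hV⟩ := ha (k + (a + b + 1)) (by omega)
  obtain ⟨σ', hσ', W, hW⟩ := hb (k + (a + b + 1)) (by omega)
  rw [pow_add] at hV hW
  obtain ⟨T, hT⟩ := alima_comm _ _ X V Y W (ρ (σ' * σ)⁻¹ : Matrix ν ν ℤ_[l]) (by
    rw [← hV, ← hW, ← Units.val_mul, ← Units.val_mul, ← map_mul, ← map_mul, mul_inv_cancel, map_one,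
      Units.val_one])
  refine ⟨(k + (a + b + 1)) * 2, by omega, σ * σ' * (σ' * σ)⁻¹,
    U.mul_mem (U.mul_mem hσ hσ') (U.inv_mem (U.mul_mem hσ' hσ)), T, ?_⟩
  rw [map_mul, map_mul, Units.val_mul, Units.val_mul, hV, hW, hT, pow_mul, pow_add _ k]

end M5
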