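import Pool.Agent.Lib.MP_33b3f9_ag.M5.ALogA

/-!
Logarithms; the Lie algebra is irreducible.
-/

set_option autoImplicit false

noncomputable section

namespace M5

open Matrix Polynomial M4 M4.CM Pool.Agent.M4.Mx Pool.Agent.Lib.MP_33b3f9_ag

variable {Γ : Type} [Group Γ] {l : ℕ} [Fact l.Prime] {ρ : Γ →* GL ν ℤ_[l]} {U : Subgroup Γ}

/-- A stable subspace is stable under `U ⊓ kerM ρ 2`, so under all matrices over `ℚ_l`. -/
theorem lie_ir (hq : Sq1 ρ) [U.FiniteIndex] : Ir (lie ρ U) := by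
  intro W hW
  have h1 : ∀ X ∈ Lim ρ U, ∀ Z ∈ Algebra.adjoin ℤ_[l] {X}, ∀ v ∈ W,
      Z.map (CM.toOm l) *ᵥ v ∈ W := fun X hX Z hZ => by
    induction hZ using Algebra.adjoin_induction with
    | mem x hx => exact hW _ (Submodule.subset_span ⟨x, hx ▸ hX, rfl⟩)
    | algebraMap c =>
      intro v hv
      rw [Algebra.algebraMap_eq_smul_one, Matrix.map_smul' _ _ _ (map_mul _),
        Matrix.map_one _ (map_zero _) (map_one _), smul_mulVec, one_mulVec]
      exact W.smul_mem _ hv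
    | add x y _ _ hx hy =>
      intro v hv
      rw [Matrix.map_add _ (map_add _), add_mulVec]
      exact W.add_mem (hx v hv) (hy v hv)
    | mul x y _ _ hx hy =>
      intro v hv
      rw [Matrix.map_mul, ← mulVec_mulVec]
      exact hx _ (hy v hv)
  have := kerM_fin ρ 2
  have h2 : ∀ A : Matrix ν ν ℚ_[l], ∀ v ∈ W, A.map (algebraMap _ (CM.Om l)) *ᵥ v ∈ W := fun A => by
    have hA := (hq (U ⊓ kerM ρ 2) inferInstance).ge (Submodule.mem_top (x := A))
    induction hA using Submodule.span_induction with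
    | mem x hx =>
      obtain ⟨σ, ⟨hU, hk⟩, rfl⟩ := hx
      obtain ⟨Z, hZ⟩ := mem_kerM.1 hk
      obtain ⟨X, hX, hZX⟩ := exists_log hU hZ
      exact h1 X hX (ρ σ : Matrix ν ν ℤ_[l])
        (hZ ▸ add_mem (one_mem _) (Subalgebra.smul_mem _ hZX _))
    | zero =>
      intro v _
      rw [Matrix.map_zero _ (map_zero _), zero_mulVec]
      exact W.zero_mem
    | add x y _ _ hx hy =>
      intro v hv
      rw [Matrix.map_add _ (map_add _), add_mulVec]
      exact W.add_mem (hx v hv) (hy v hv)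
    | smul c x _ hx =>
      intro v hv
      rw [Matrix.map_smul' _ _ _ (map_mul _), smul_mulVec]
      exact W.smul_mem _ (hx v hv)
  refine or_iff_not_imp_left.2 fun h0 => ?_
  obtain ⟨v, hv, h3⟩ := (Submodule.ne_bot_iff W).1 h0
  obtain ⟨j, hj⟩ := Function.ne_iff.1 h3
  refine eq_top_iff.2 fun w _ => ?_
  rw [← Finset.univ_sum_single w]
  refine W.sum_mem fun i _ => ?_
  convert W.smul_mem (w i / v j) (h2 (single i j 1) v hv) using 1
  rw [map_single, map_one, single_mulVec, one_mul]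
  ext a
  by_cases h : a = i
  · subst h
    simpa using (div_mul_cancel₀ (w a) hj).symm
  · simp [h]

theorem alog_lim (hg : Gsp ρ) {X : Matrix ν ν ℤ_[l]} (hX : X ∈ Lim ρ U) :
    ∃ c : ℤ_[l], Xᵀ * J (Fin 4) ℤ_[l] + J (Fin 4) ℤ_[l] * X = c • J (Fin 4) ℤ_[l] := by
  set E := J (Fin 4) ℤ_[l] with hE
  let φ : Matrix ν ν ℤ_[l] →ₗ[ℤ_[l]] Matrix ν ν ℤ_[l] :=
    LinearMap.id - (entryLinearMap ℤ_[l] ℤ_[l] (.inr 0) (.inl 0)).smulRight E
  have h0 : φ E = 0 := by simp [φ, hE, J]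
  refine ⟨_, sub_eq_zero.1 (?_ : φ (Xᵀ * E + E * X) = 0)⟩
  ext i j
  refine PadicInt.ext_of_toZModPow.1 fun k => ?_
  obtain ⟨n₀, hn⟩ := hX k
  obtain ⟨σ, -, Y, h⟩ := hn (n₀ + k) (by omega)
  obtain ⟨c, hc⟩ := hg σ
  have e : E + (l : ℤ_[l]) ^ (n₀ + k) • (Xᵀ * E + E * X + (l : ℤ_[l]) ^ k • (Yᵀ * E + E * Y +
      (l : ℤ_[l]) ^ n₀ • ((X + (l : ℤ_[l]) ^ k • Y)ᵀ * E * (X + (l : ℤ_[l]) ^ k • Y)))) = c • E := by
    rw [← hc, h, ← hE]
    generalize (l : ℤ_[l]) = t
    simp only [transpose_add, transpose_smul, transpose_one, Matrix.add_mul, Matrix.mul_add,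
      Matrix.smul_mul, Matrix.mul_smul, Matrix.one_mul, Matrix.mul_one, pow_add]
    module
  have e' := congrArg φ e
  rw [map_add, map_smul, map_smul, h0, zero_add, smul_zero, smul_eq_zero_iff_right
    (pow_ne_zero _ (Nat.cast_ne_zero.2 (Fact.out : l.Prime).ne_zero)), map_add, map_smul] at e'
  rw [eq_neg_of_add_eq_zero_left e', Matrix.zero_apply, map_zero, ← RingHom.mem_ker,
    PadicInt.ker_toZModPow, Ideal.mem_span_singleton]
  exact (dvd_mul_right _ _).neg_right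

/-- For `X ∈ Lim`: `Xᵀ J + J X` is congruent to a multiple of `J` modulo every `l ^ k`, so it is
`c • J` with `c` its entry `(inr 0, inl 0)`; then `tr X = 4 c`. -/
theorem lie_sp (hg : Gsp ρ) {X : Matrix ν ν (CM.Om l)} (hX : X ∈ lie ρ U) :
    Sp (Matrix.J (Fin 4) (CM.Om l)) (tl X) := by
  set E := J (Fin 4) (CM.Om l) with hE
  obtain ⟨c, hc⟩ : ∃ c : CM.Om l, Xᵀ * E + E * X = c • E := by
    induction hX using Submodule.span_induction with
    | mem x hx =>
      obtain ⟨Y, hY, rfl⟩ := hx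
      obtain ⟨c, hc⟩ := alog_lim hg hY
      have e : (J (Fin 4) ℤ_[l]).map (CM.toOm l) = E := by
        rw [hE, J, J, fromBlocks_map, Matrix.map_zero _ (map_zero _), Matrix.map_neg _ (map_neg _),
          Matrix.map_one _ (map_zero _) (map_one _)]
      refine ⟨CM.toOm l c, ?_⟩
      rw [← e, ← transpose_map, ← Matrix.map_mul, ← Matrix.map_mul,
        ← Matrix.map_add _ (map_add _), hc, Matrix.map_smul' _ _ _ (map_mul _)]
    | zero => exact ⟨0, by simp⟩
    | add x y _ _ hx hy =>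
      obtain ⟨a, ha⟩ := hx
      obtain ⟨b, hb⟩ := hy
      exact ⟨a + b, by rw [add_smul, ← ha, ← hb, transpose_add, add_mul, mul_add]; abel⟩
    | smul a x _ hx =>
      obtain ⟨b, hb⟩ := hx
      exact ⟨a * b, by
        rw [mul_smul, ← hb, transpose_smul, smul_mul_assoc, mul_smul_comm, smul_add]⟩
  have h1 := congrArg (fun A => (E * A).trace) hc
  simp only [mul_add, trace_add, mul_smul_comm, trace_smul] at h1
  rw [trace_mul_comm, mul_assoc, ← mul_assoc E, hE, J_squared] at h1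
  have h2 : c = 2 * ((8 : CM.Om l)⁻¹ * X.trace) := by
    simp only [mul_neg, neg_mul, mul_one, one_mul, trace_neg, trace_transpose, trace_one,
      smul_eq_mul, Fintype.card_sum, Fintype.card_fin] at h1
    push_cast at h1
    linear_combination (8 : CM.Om l)⁻¹ * h1
  change (X - (8 : CM.Om l)⁻¹ • X.trace • 1)ᵀ * E + E * (X - (8 : CM.Om l)⁻¹ • X.trace • 1) = 0
  rw [transpose_sub, transpose_smul, transpose_smul, transpose_one, sub_mul, mul_sub,
    sub_add_sub_comm, hc, h2]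
  simp only [smul_mul_assoc, mul_smul_comm, one_mul, mul_one]
  module

theorem lie_irr (hg : Gsp ρ) (hq : Sq1 ρ) [U.FiniteIndex] :
    Irr (Matrix.J (Fin 4) (CM.Om l)) ((lie ρ U).map tl) := by
  have e : ∀ X : Matrix ν ν (CM.Om l), tl X = X - (8 : CM.Om l)⁻¹ • X.trace • 1 := fun _ => rfl
  refine ⟨by simp, J_transpose _ _, (isUnit_det_J _ _).ne_zero, ?_, ?_, fun W hW => ?_⟩
  · rintro _ ⟨X, hX, rfl⟩ _ ⟨Y, hY, rfl⟩
    refine ⟨br X Y, lie_cl ρ U X hX Y hY, ?_⟩
    rw [e, e, e, br, br, trace_sub, trace_mul_comm, sub_self]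
    simp only [sub_mul, mul_sub, smul_mul_assoc, mul_smul_comm, one_mul, mul_one]
    module
  · rintro _ ⟨X, hX, rfl⟩
    exact lie_sp hg hX
  · refine lie_ir (U := U) hq W fun X hX v hv => ?_
    have h1 := hW _ ⟨X, hX, rfl⟩ v hv
    rw [e, sub_mulVec, smul_mulVec, smul_mulVec, one_mulVec] at h1
    exact (W.sub_mem_iff_left (W.smul_mem _ (W.smul_mem _ hv))).1 h1

end M5
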