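import Pool.Agent.Lib.MP_33b3f9_ag.M5.AType

/-!
The three types; regular elements.
-/

set_option autoImplicit false

noncomputable section

namespace M5

open Matrix Polynomial M4 M4.CM Pool.Agent.M4.Mx Pool.Agent.Lib.MP_33b3f9_ag

variable {Γ : Type} [Group Γ] {l : ℕ} [Fact l.Prime] {ρ : Γ →* GL ν ℤ_[l]} {U : Subgroup Γ}

/-- Strong induction on `n`: for a prime `q ∣ n` pass to `ζ ^ q`; if `ζ ^ q = 1`, `ζ ≠ 1`, then
`0 = ∑ ζ ^ i = q + (ζ - 1) y` with `‖y‖ ≤ 1`, and `‖q‖ ≥ 1 / l`. -/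
theorem eq_one_of_near {ζ : CM.Om l} (h : ‖ζ - 1‖ < (l : ℝ)⁻¹) {n : ℕ} (hn : n ≠ 0)
    (h1 : ζ ^ n = 1) : ζ = 1 := by
  have hl : (1 : ℝ) ≤ l := Nat.one_le_cast.2 (Fact.out : l.Prime).pos
  have hl' : (l : ℝ)⁻¹ ≤ 1 := inv_le_one_of_one_le₀ hl
  induction n using Nat.strong_induction_on generalizing ζ with
  | _ n ih =>
    by_cases hn1 : n = 1
    · rwa [hn1, pow_one] at h1
    obtain ⟨q, hq, m, rfl⟩ := Nat.exists_prime_and_dvd hn1
    have hz : ‖ζ‖ ≤ 1 := by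
      have h2 := cmnorm_add (h.le.trans hl') (norm_one (α := CM.Om l)).le
      rwa [sub_add_cancel] at h2
    have hp : ∀ i : ℕ, ‖ζ ^ i - 1‖ ≤ ‖ζ - 1‖ := fun i => by
      have h2 := cmDq_pow hz norm_one.le i
      rwa [one_pow] at h2
    have hm : m ≠ 0 := right_ne_zero_of_mul hn
    have h3 : ζ ^ q = 1 := ih m (lt_mul_of_one_lt_left (Nat.pos_of_ne_zero hm) hq.one_lt)
      ((hp q).trans_lt h) hm (by rwa [← pow_mul])
    by_contra h4
    have h5 : ∑ i ∈ Finset.range q, (ζ ^ i - 1) = -(q : CM.Om l) := by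
      have h6 := geom_sum_mul ζ q
      rw [h3, sub_self, mul_eq_zero, or_iff_left (sub_ne_zero.2 h4)] at h6
      rw [Finset.sum_sub_distrib, h6]
      simp
    have h7 : ‖∑ i ∈ Finset.range q, (ζ ^ i - 1)‖ ≤ ‖ζ - 1‖ :=
      IsUltrametricDist.norm_sum_le_of_forall_le_of_nonneg (norm_nonneg _) fun i _ => hp i
    rw [h5, norm_neg] at h7
    refine (h7.trans_lt h).not_ge ?_
    by_cases h8 : l ∣ q
    · rw [norm_sqfree hq.squarefree h8]
    · rwa [norm_nat_eq_one h8]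

theorem areg_aff {Ω : Type} [Field Ω] [IsAlgClosed Ω] {A : Matrix ν ν Ω} {a : Fin 8 → Ω}
    (h : A.charpoly = ∏ i, (X - C (a i))) (c d : Ω) :
    (c • A + d • (1 : Matrix ν ν Ω)).charpoly = ∏ i, (X - C (c * a i + d)) := by
  refine Polynomial.funext fun x => ?_
  have h2 : Matrix.scalar ν x - (c • A + d • (1 : Matrix ν ν Ω)) =
      aeval A (C x - (C c * X + C d)) := by
    simp only [map_sub, map_add, map_mul, aeval_X, aeval_C, Algebra.algebraMap_eq_smul_one,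
      smul_mul_assoc, one_mul]
    rw [scalar_apply, smul_one_eq_diagonal x]
  rw [eval_charpoly, h2, cmspec_det A a h, eval_prod]
  simp

/-- The roots `a i` are distinct with `‖a i - 1‖ ≤ l ^ (-2)` (`Le.root` for `l ^ (-2) • (A - 1)`, or an
eigenvector); `Dq_eq`, `exists_roots8`. -/
theorem Neat.reg {A : Matrix ν ν (CM.Om l)} (h : Neat A) (h1 : A.charpoly.roots.Nodup) :
    Reg A := by
  obtain ⟨a, ha⟩ := exists_roots8 A
  rw [ha, cmspec_roots, Fintype.nodup_map_univ_iff_injective] at h1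
  have hl : (1 : ℝ) < l := Nat.one_lt_cast.2 (Fact.out : l.Prime).one_lt
  have hl0 : (0 : ℝ) < l := zero_lt_one.trans hl
  have hc : ‖((l : CM.Om l) ^ 2)⁻¹‖ = (l : ℝ) ^ 2 := by
    rw [norm_inv, norm_pow, norm_l, inv_pow, inv_inv]
  have h2 : ∀ i, ‖a i - 1‖ < (l : ℝ)⁻¹ := fun i => by
    have h3 := h.smul ((l : CM.Om l) ^ 2)⁻¹
    rw [hc, _root_.zpow_neg, zpow_ofNat, mul_inv_cancel₀ (pow_pos hl0 2).ne', smul_sub, sub_eq_add_neg,
      ← neg_smul] at h3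
    have h4 := h3.root (cmDq_root (areg_aff ha _ _) i)
    rw [← sub_eq_add_neg, ← mul_sub_one, norm_mul, hc] at h4
    refine (((le_inv_mul_iff₀ (pow_pos hl0 2)).2 h4).trans_eq (mul_one _)).trans_lt ?_
    exact inv_strictAnti₀ hl0 (lt_self_pow₀ hl one_lt_two)
  intro m hm
  rw [Dq_eq A a ha m]
  refine pow_ne_zero _ (Finset.prod_ne_zero_iff.2 fun i _ => Finset.prod_ne_zero_iff.2
    fun j hj h3 => (Finset.mem_Ioi.1 hj).ne' (h1 ?_))
  have h4 : ‖a i‖ = 1 := by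
    have h5 := IsUltrametricDist.norm_add_eq_max_of_norm_ne_norm (x := a i - 1) (y := 1)
      (((h2 i).trans (inv_lt_one_of_one_lt₀ hl)).trans_eq norm_one.symm).ne
    rw [sub_add_cancel, norm_one] at h5
    rw [h5, max_eq_right ((h2 i).trans (inv_lt_one_of_one_lt₀ hl)).le]
  have h5 : a i ≠ 0 := norm_ne_zero_iff.1 (h4.trans_ne one_ne_zero)
  refine (div_eq_one_iff_eq h5).1 (eq_one_of_near ?_ (mul_ne_zero two_ne_zero hm) ?_)
  · rw [div_sub_one h5, norm_div, h4, div_one, ← sub_sub_sub_cancel_right _ _ 1]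
    exact (cmDq_sub (le_max_left _ _) (le_max_right _ _)).trans_lt (max_lt (h2 j) (h2 i))
  · rw [div_pow, pow_mul, pow_mul, sub_eq_zero.1 h3, div_self (pow_ne_zero _ (pow_ne_zero _ h5))]

theorem Neat.reg' {A : Matrix ν ν (CM.Om l)} (h : Neat A) (h1 : Dq A ≠ 0) : Reg A := by
  exact h.reg (Multiset.Nodup.of_map _ ((Dq_ne_iff A).1 h1))

theorem areg_line {Ω : Type} [Field Ω] [CharZero Ω] (A B : Matrix ν ν Ω)
    (h : ∀ n : ℕ, Dq (A + (n : Ω) • B) = 0) (c : Ω) : Dq (A + c • B) = 0 := by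
  have h1 : ∀ x : Ω, Dq (A + x • B) = (Dq (A.map C + (X : Polynomial Ω) • B.map C)).eval x := fun x => by
    rw [← coe_evalRingHom, ← Dq_map]
    congr 1
    ext i j
    simp only [map_apply, Matrix.add_apply, Matrix.smul_apply, smul_eq_mul, coe_evalRingHom,
      eval_add, eval_mul, eval_C, eval_X]
  have h2 : Dq (A.map C + (X : Polynomial Ω) • B.map C) = 0 :=
    eq_zero_of_infinite_isRoot _ (Set.infinite_of_injective_forall_mem Nat.cast_injective
      fun n : ℕ => (h1 n).symm.trans (h n))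
  rw [h1, h2, eval_zero]

theorem areg_nsmul {X : Matrix ν ν ℤ_[l]} (hX : X ∈ Lim ρ U) (n : ℕ) : n • X ∈ Lim ρ U := by
  induction n with
  | zero => rw [zero_nsmul]; exact lim_zero
  | succ n ih => rw [succ_nsmul]; exact lim_add ih hX

theorem areg_span {Ω M : Type} [Field Ω] [AddCommGroup M] [Module Ω M] {P : M → Prop}
    (hP : ∀ A B, (∀ n : ℕ, P (A + (n : Ω) • B)) → ∀ c : Ω, P (A + c • B)) {S : Set M} (h0 : 0 ∈ S)
    (hS : ∀ s ∈ S, ∀ t ∈ S, ∀ n : ℕ, s + (n : Ω) • t ∈ S) (h : ∀ s ∈ S, P s) {y : M}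
    (hy : y ∈ Submodule.span Ω S) : P y := by
  have key : ∀ (c : Ω) (F : M), (∀ s ∈ S, P (F + s)) → ∀ s ∈ S, P (F + c • y + s) := by
    induction hy using Submodule.span_induction with
    | mem t ht =>
      intro c F hF s hs
      rw [add_right_comm]
      exact hP _ _ (fun n => add_assoc F s _ ▸ hF _ (hS s hs t ht n)) c
    | zero => intro c F hF; simpa using hF
    | add y z _ _ h1 h2 =>
      intro c F hF
      rw [smul_add, ← add_assoc]
      exact h2 c _ (h1 c F hF)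
    | smul a y _ h1 =>
      intro c F hF
      rw [smul_smul]
      exact h1 _ F hF
  simpa using key 1 0 (by simpa using h) 0 h0

/-- The function `Φ Y = Dq (tl Y + 8)` is polynomial along lines (`Dq_map` over `Ω[X]`). If it
vanishes on the additive monoid `Lim` (`lim_zero`, `lim_add`) it vanishes on the span: the set of
`x` with `Φ (x + s) = 0` for all `s ∈ Lim` is stable under `x ↦ x + c s'`. At the given `x` the roots
of `x + 8` are `15 - 2 j`. So some `X ∈ Lim` has `Φ X ≠ 0`; take `k` with `l ^ (-k)` small,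
`ρ σ = 1 + l ^ n X'`, `n ≥ 2`, `X' = X + l ^ k Y`, `Φ X' ≠ 0` (continuity of `Φ`, or `Dq_cong`), so
the roots of `X'` and of `ρ σ` are distinct. -/
theorem exists_reg (h : ∃ x ∈ (lie ρ U).map tl,
    x.charpoly = ∏ j : Fin 8, (X - C (7 - 2 * ((j : ℕ) : CM.Om l)))) :
    ∃ σ ∈ U, Neat (rO ρ σ) ∧ Reg (rO ρ σ) := by
  obtain ⟨_, ⟨y, hy, rfl⟩, hx⟩ := h
  have h1 : ∃ s ∈ Lim ρ U, Dq ((8 : CM.Om l) • (1 : Matrix ν ν (CM.Om l)) +
      tl (s.map (CM.toOm l))) ≠ 0 := by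
    by_contra! h1
    have h2 : Dq ((8 : CM.Om l) • (1 : Matrix ν ν (CM.Om l)) + tl y) = 0 := by
      refine areg_span (P := fun Z => Dq ((8 : CM.Om l) • (1 : Matrix ν ν (CM.Om l)) + tl Z) = 0)
        (fun A B hn c => ?_) ?_ ?_ ?_ hy
      · simp only [map_add, map_smul, ← add_assoc] at hn ⊢
        exact areg_line _ _ hn c
      · exact ⟨0, lim_zero, Matrix.map_zero _ (map_zero _)⟩
      · rintro _ ⟨s, hs, rfl⟩ _ ⟨t, ht, rfl⟩ n
        refine ⟨_, lim_add hs (areg_nsmul ht n), Matrix.ext fun i j => ?_⟩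
        simp only [map_apply, Matrix.add_apply, Matrix.smul_apply, map_add, map_nsmul,
          Nat.cast_smul_eq_nsmul]
      · rintro _ ⟨s, hs, rfl⟩
        exact h1 s hs
    refine (Dq_ne_iff _).2 ?_ h2
    have h3 := areg_aff hx 1 8
    rw [one_smul, add_comm] at h3
    rw [h3, sp2_iff]
    intro i j hij
    have h4 : (1 * (7 - 2 * ((i : ℕ) : ℤ)) + 8) ^ 2 = (1 * (7 - 2 * ((j : ℕ) : ℤ)) + 8) ^ 2 := by
      refine Int.cast_injective (α := CM.Om l) ?_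
      push_cast
      exact hij
    have := i.2
    have := j.2
    rcases sq_eq_sq_iff_eq_or_eq_neg.1 h4 with h5 | h5 <;> omega
  obtain ⟨s, hs, h1⟩ := h1
  have hm : ∀ (c d : ℤ_[l]) (Z : Matrix ν ν ℤ_[l]), (c • Z + d • (1 : Matrix ν ν ℤ_[l])).map (CM.toOm l) =
      CM.toOm l c • Z.map (CM.toOm l) + CM.toOm l d • (1 : Matrix ν ν (CM.Om l)) := fun c d Z => by
    ext i j
    by_cases hij : i = j <;> simp [hij]
  have h2 : Dq ((8 : ℤ_[l]) • s + (64 - s.trace) • (1 : Matrix ν ν ℤ_[l])) ≠ 0 := by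
    intro h2
    obtain ⟨a, ha⟩ := exists_roots8 ((8 : CM.Om l) • (1 : Matrix ν ν (CM.Om l)) +
      tl (s.map (CM.toOm l)))
    have h3 := areg_aff ha 8 0
    have h4 : (8 : CM.Om l) • ((8 : CM.Om l) • (1 : Matrix ν ν (CM.Om l)) + tl (s.map (CM.toOm l))) +
        (0 : CM.Om l) • (1 : Matrix ν ν (CM.Om l)) =
        ((8 : ℤ_[l]) • s + (64 - s.trace) • (1 : Matrix ν ν ℤ_[l])).map (CM.toOm l) := by
      rw [hm, map_sub, AddMonoidHom.map_trace (CM.toOm l) s, map_ofNat, map_ofNat]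
      simp only [tl, LinearMap.sub_apply, LinearMap.id_apply, LinearMap.smul_apply,
        LinearMap.smulRight_apply, traceLinearMap_apply]
      match_scalars <;> ring
    rw [Dq_ne_iff, ha, sp2_iff] at h1
    refine (Dq_ne_iff _).2 ?_ (((congrArg Dq h4).trans (Dq_map _ _)).trans
      ((congrArg _ h2).trans (map_zero _)))
    rw [h3, sp2_iff]
    intro i j hij
    refine h1 (mul_left_cancel₀ (by norm_num : (64 : CM.Om l) ≠ 0) ?_)
    linear_combination hij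
  obtain ⟨k, hk⟩ := PadicInt.exists_pow_neg_lt l (norm_pos_iff.2 h2)
  obtain ⟨n, hn⟩ := hs k
  obtain ⟨σ, hσ, Y, hY⟩ := hn (n + 2) le_self_add
  have h3 : Neat (rO ρ σ) := kerM_le (n := 2) (mem_kerM.2 ⟨(l : ℤ_[l]) ^ n • (s + (l : ℤ_[l]) ^ k • Y),
    by rw [hY, smul_smul, ← pow_add, add_comm 2]⟩)
  refine ⟨σ, hσ, h3, h3.reg ?_⟩
  have h4 : Dq ((8 : ℤ_[l]) • (s + (l : ℤ_[l]) ^ k • Y) + (64 - s.trace) • (1 : Matrix ν ν ℤ_[l])) ≠
      0 := by
    intro h4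
    have h5 := Dq_cong (Ideal.span {(l : ℤ_[l]) ^ k})
      (A := (8 : ℤ_[l]) • s + (64 - s.trace) • (1 : Matrix ν ν ℤ_[l]))
      (B := (8 : ℤ_[l]) • (s + (l : ℤ_[l]) ^ k • Y) + (64 - s.trace) • (1 : Matrix ν ν ℤ_[l]))
      fun i j => Ideal.mem_span_singleton.2 ⟨-8 * Y i j, by simp; ring⟩
    rw [h4, sub_zero, ← PadicInt.norm_le_pow_iff_mem_span_pow] at h5
    exact hk.not_ge h5
  obtain ⟨a, ha⟩ := exists_roots8 ((s + (l : ℤ_[l]) ^ k • Y).map (CM.toOm l))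
  have h5 := (map_ne_zero_iff _ toOm_inj).2 h4
  rw [← Dq_map, hm, Dq_ne_iff, areg_aff ha, sp2_iff] at h5
  have h6 : rO ρ σ = ((l : ℤ_[l]) ^ (n + 2) • (s + (l : ℤ_[l]) ^ k • Y) +
      (1 : ℤ_[l]) • (1 : Matrix ν ν ℤ_[l])).map (CM.toOm l) := by
    rw [one_smul, add_comm, ← hY]
    rfl
  rw [h6, hm, areg_aff ha, cmspec_roots, Fintype.nodup_map_univ_iff_injective]
  intro i j hij
  have h7 : CM.toOm l ((l : ℤ_[l]) ^ (n + 2)) ≠ 0 := (map_ne_zero_iff _ toOm_inj).2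
    (pow_ne_zero _ (Nat.cast_ne_zero.2 (Fact.out : l.Prime).ne_zero))
  exact h5 (congrArg (fun z => (CM.toOm l 8 * z + CM.toOm l (64 - s.trace)) ^ 2)
    (mul_left_cancel₀ h7 (add_right_cancel hij)))

end M5
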