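import Pool.Agent.Lib.MP_33b3f9_ag.M5.LType

/-!
The irreducible subalgebras of the symplectic Lie algebra in dimension eight.
-/

set_option autoImplicit false

noncomputable section

namespace M5

open Matrix Polynomial Pool.Agent.M4.Mx Pool.Agent.Lib.MP_33b3f9_ag

variable {ν : Type} [Fintype ν] [DecidableEq ν] {Ω : Type} [Field Ω] [IsAlgClosed Ω] [CharZero Ω]
  {E : Matrix ν ν Ω} {g : Submodule Ω (Matrix ν ν Ω)} {h e f : Matrix ν ν Ω}

/-- `g'` is a semisimple ideal of `g` with a complement that commutes with it. -/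
structure Part (g g' : Submodule Ω (Matrix ν ν Ω)) : Prop where
  le : g' ≤ g
  cl : Cl g'
  ss : SS g'
  dec : ∀ X ∈ g, ∃ z ∈ g', ∀ y ∈ g', (X - z) * y = y * (X - z)

omit [IsAlgClosed Ω] [CharZero Ω] in
theorem lmain_comm {z : Matrix ν ν Ω} (h1 : Commute z e) (h2 : Commute z f) (a b c : Ω) :
    Commute z (a • br e f + b • e + c • f) :=
  ((((h1.mul_right h2).sub_right (h2.mul_right h1)).smul_right a).add_right
    (h1.smul_right b)).add_right (h2.smul_right c)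

omit [IsAlgClosed Ω] [CharZero Ω] [DecidableEq ν] in
theorem lmain_mem (hc : Cl g) (h1 : e ∈ g) (h2 : f ∈ g) (a b c : Ω) :
    a • br e f + b • e + c • f ∈ g :=
  g.add_mem (g.add_mem (g.smul_mem a (hc e h1 f h2)) (g.smul_mem b h1)) (g.smul_mem c h2)

omit [IsAlgClosed Ω] [CharZero Ω] [DecidableEq ν] in
theorem lmain_stab {W : Submodule Ω (ν → Ω)} (h1 : ∀ w ∈ W, e *ᵥ w ∈ W)
    (h2 : ∀ w ∈ W, f *ᵥ w ∈ W) (a b c : Ω) :
    ∀ w ∈ W, (a • br e f + b • e + c • f) *ᵥ w ∈ W := by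
  intro w hw
  simp only [br, add_mulVec, smul_mulVec, sub_mulVec, ← mulVec_mulVec]
  exact W.add_mem (W.add_mem (W.smul_mem a (W.sub_mem (h1 _ (h2 _ hw)) (h2 _ (h1 _ hw))))
    (W.smul_mem b (h1 _ hw))) (W.smul_mem c (h2 _ hw))

omit [IsAlgClosed Ω] [CharZero Ω] in
theorem lmain_dbl (p : Pr e f) {U : Submodule Ω (ν → Ω)} (hU : ∀ u ∈ U, e *ᵥ u = 0) :
    ∃ W : Submodule Ω (ν → Ω), U ≤ W ∧ Module.finrank Ω W ≤ 2 * Module.finrank Ω U ∧
      (∀ w ∈ W, e *ᵥ w ∈ W) ∧ (∀ w ∈ W, f *ᵥ w ∈ W) ∧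
      (∀ z : Matrix ν ν Ω, z * f = f * z → (∀ u ∈ U, z *ᵥ u ∈ U) → ∀ w ∈ W, z *ᵥ w ∈ W) ∧
      ∀ z : Matrix ν ν Ω, z * f = f * z → (∀ u ∈ U, z *ᵥ u = 0) → ∀ w ∈ W, z *ᵥ w = 0 := by
  have key : ∀ w ∈ U ⊔ U.map (Matrix.toLin' f), ∃ u ∈ U, ∃ v ∈ U, w = u + f *ᵥ v := by
    intro w hw
    obtain ⟨u, hu, _, ⟨v, hv, rfl⟩, rfl⟩ := Submodule.mem_sup.mp hw
    exact ⟨u, hu, v, hv, rfl⟩
  have back : ∀ u ∈ U, ∀ v ∈ U, u + f *ᵥ v ∈ U ⊔ U.map (Matrix.toLin' f) := fun u hu v hv =>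
    Submodule.add_mem_sup hu ⟨v, hv, rfl⟩
  refine ⟨U ⊔ U.map (Matrix.toLin' f), le_sup_left, ?_, fun w hw => ?_, fun w hw => ?_,
    fun z hz hs w hw => ?_, fun z hz hs w hw => ?_⟩
  · have h1 := Submodule.finrank_add_le_finrank_add_finrank U (U.map (Matrix.toLin' f))
    have h2 := Submodule.finrank_map_le (Matrix.toLin' f) U
    omega
  · obtain ⟨u, hu, v, hv, rfl⟩ := key w hw
    have e1 : e *ᵥ (f *ᵥ v) = v := by
      have := congrArg (· *ᵥ v) p.ef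
      simpa only [add_mulVec, ← mulVec_mulVec, hU v hv, mulVec_zero, add_zero, one_mulVec]
        using this
    rw [mulVec_add, hU u hu, e1, zero_add]
    exact Submodule.mem_sup_left hv
  · obtain ⟨u, hu, v, hv, rfl⟩ := key w hw
    rw [mulVec_add, mulVec_mulVec, p.ff, zero_mulVec, add_zero]
    exact Submodule.mem_sup_right ⟨u, hu, rfl⟩
  · obtain ⟨u, hu, v, hv, rfl⟩ := key w hw
    rw [mulVec_add, mulVec_mulVec, hz, ← mulVec_mulVec]
    exact back _ (hs u hu) _ (hs v hv)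
  · obtain ⟨u, hu, v, hv, rfl⟩ := key w hw
    rw [mulVec_add, mulVec_mulVec, hz, ← mulVec_mulVec, hs u hu, hs v hv, mulVec_zero, add_zero]

omit [IsAlgClosed Ω] [CharZero Ω] in
theorem lmain_vec {x : Matrix ν ν Ω} (hx : x ≠ 0) : ∃ U : Submodule Ω (ν → Ω), U ≠ ⊥ ∧
    Module.finrank Ω U ≤ 1 ∧ ∀ z : Matrix ν ν Ω, z * x = 0 → ∀ u ∈ U, z *ᵥ u = 0 := by
  obtain ⟨w, hw⟩ : ∃ w, x *ᵥ w ≠ 0 := by
    by_contra hn
    push Not at hn
    exact hx (Matrix.toLin'.injective (LinearMap.ext fun w => by simpa using hn w))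
  refine ⟨Submodule.span Ω {x *ᵥ w}, by simpa using hw, (finrank_span_singleton hw).le, ?_⟩
  intro z hz u hu
  obtain ⟨a, rfl⟩ := Submodule.mem_span_singleton.mp hu
  rw [mulVec_smul, mulVec_mulVec, hz, zero_mulVec, smul_zero]

omit [IsAlgClosed Ω] [CharZero Ω] in
theorem lmain_small (H : Irr E g) {U W : Submodule Ω (ν → Ω)} (h0 : U ≠ ⊥) (hU : U ≤ W)
    (hd : Module.finrank Ω W ≤ 4) (hs : ∀ X ∈ g, ∀ v ∈ W, X *ᵥ v ∈ W) : False := by
  rcases H.ir W hs with h | h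
  · exact h0 (le_bot_iff.mp (h ▸ hU))
  · rw [h, finrank_top, Module.finrank_fintype_fun_eq_card, H.card] at hd
    omega

omit [IsAlgClosed Ω] [CharZero Ω] in
theorem lmain_ne (H : Irr E g) (p : Pr e f) : e ≠ 0 := by
  rintro rfl
  have : Nonempty ν := Fintype.card_pos_iff.mp (by rw [H.card]; omega)
  have h := p.ef
  rw [zero_mul, mul_zero, add_zero] at h
  exact zero_ne_one h

omit [IsAlgClosed Ω] in
/-- The complement has degree zero; an element of degree `-1` of `g` lies in `g'`. -/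
theorem Part.ext {g' : Submodule Ω (Matrix ν ν Ω)} (P : Part g g') (T : Ext g' h e f) :
    Ext g h e f := by
  have up : ∀ {X : Matrix ν ν Ω} {k : ℤ}, X ∈ dg g' h k → X ∈ dg g h k := fun hX =>
    ⟨P.le hX.1, hX.2⟩
  refine ⟨P.le T.h_mem, P.le T.e_mem, P.le T.f_mem, T.he, T.hf, T.ef, T.ne, fun X hX => ?_,
    fun y hy h0 => ?_⟩
  · obtain ⟨z, hz, hc⟩ := P.dec X hX
    obtain ⟨a, b, x, z', y, hx, hz', hy, e1⟩ := T.dec z hz
    have h1 : X - z ∈ dg g h 0 := ⟨g.sub_mem hX (P.le hz), by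
      rw [br, hc h T.h_mem, sub_self, Int.cast_zero, zero_smul]⟩
    refine ⟨a, b, x, z' + (X - z), y, up hx, add_mem (up hz') h1, up hy, ?_⟩
    rw [← sub_add_cancel X z]
    nth_rewrite 2 [e1]
    abel
  · obtain ⟨z, hz, hc⟩ := P.dec y hy.1
    have h1 : br h z = -y := by
      have h2 := hy.2
      have h3 := hc h T.h_mem
      rw [Int.cast_neg, Int.cast_one, neg_smul, one_smul] at h2
      rw [← h2, br, br, ← sub_eq_zero]
      rw [sub_mul, mul_sub, ← sub_eq_zero] at h3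
      rw [← h3]
      abel
    have h4 : y ∈ g' := neg_mem_iff.mp (h1 ▸ P.cl h T.h_mem z hz)
    obtain ⟨y', hy', e1⟩ := T.nd y ⟨h4, hy.2⟩ h0
    exact ⟨y', up hy', e1⟩

/-- `exists_ext`, `Part.ext`, `ext_type`. For `X ∈ g'` the difference lies in `g'`; an abelian ideal of
the centraliser is an ideal of `g'`. -/
theorem Part.step (H : Irr E g) {g' : Submodule Ω (Matrix ν ν Ω)} (P : Part g g') (h0 : g' ≠ ⊥) :
    Full E g ∨ Sym7 g ∨ ∃ e ∈ g', ∃ f ∈ g', Slot g' e f ∧ Part g (cent g' e f) := by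
  obtain ⟨h, e, f, T⟩ := exists_ext P.cl P.ss h0
  rcases ext_type H (P.ext T) with h1 | h1 | ⟨p, h1⟩
  · exact Or.inl h1
  · exact Or.inr (Or.inl h1)
  have S : ∀ X ∈ g', ∃ a b c : Ω, X - (a • br e f + b • e + c • f) ∈ cent g' e f := by
    intro X hX
    obtain ⟨a, b, c, h2⟩ := h1 X (P.le hX)
    exact ⟨a, b, c, g'.sub_mem hX (lmain_mem P.cl T.e_mem T.f_mem a b c), h2.2⟩
  refine Or.inr (Or.inr ⟨e, T.e_mem, f, T.f_mem, ⟨p, S⟩, fun X hX => P.le hX.1,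
    fun X hX Y hY => ⟨P.cl X hX.1 Y hY.1, ?_, ?_⟩, fun I hI h2 h3 => ?_, fun X hX => ?_⟩)
  · exact (Commute.mul_left hX.2.1 hY.2.1).sub_left (Commute.mul_left hY.2.1 hX.2.1)
  · exact (Commute.mul_left hX.2.2 hY.2.2).sub_left (Commute.mul_left hY.2.2 hX.2.2)
  · refine P.ss I (fun X hX => (hI hX).1) (fun X hX Y hY => ?_) h3
    obtain ⟨a, b, c, h4⟩ := S X hX
    have h5 := h2 _ h4 Y hY
    rwa [br, sub_mul, mul_sub, (lmain_comm (hI hY).2.1 (hI hY).2.2 a b c).eq,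
      sub_sub_sub_cancel_right] at h5
  · obtain ⟨z, hz, hc⟩ := P.dec X hX
    obtain ⟨a, b, c, h4⟩ := S z hz
    refine ⟨_, h4, fun y hy => ?_⟩
    rw [← sub_add]
    exact Commute.add_left (hc y hy.1) (lmain_comm hy.2.1 hy.2.2 a b c).symm

/-- Three steps. If the centraliser vanishes after one step, `span {v, f v}` (`v = e w ≠ 0`) is
stable; after two steps `span {v, f v, f' v, f f' v}` with `v = e e' w ≠ 0`; these have dimension
less than `8`. After three steps `exists_frame`; what is left commutes with all words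
(`words_span`, `mxwd_bas`), so it is a scalar of trace zero (`Irr.trace`). -/
theorem classify (H : Irr E g) : Full E g ∨ Sym7 g ∨ ∃ F : Fr ν Ω, g = F.sl := by
  have P0 : Part g g := ⟨le_rfl, H.cl, H.ss, fun X hX => ⟨X, hX, fun y _ => by simp⟩⟩
  rcases P0.step H H.ne_bot with h1 | h1 | ⟨e1, he1, f1, hf1, ⟨p1, S1⟩, P1⟩
  · exact Or.inl h1
  · exact Or.inr (Or.inl h1)
  have n1 : cent g e1 f1 ≠ ⊥ := by
    intro hb
    obtain ⟨U, hU, hd, hk⟩ := lmain_vec (lmain_ne H p1)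
    obtain ⟨W, hW, hd', s1, s2, -⟩ := lmain_dbl p1 (hk e1 p1.ee)
    refine lmain_small H hU hW (by omega) fun X hX => ?_
    obtain ⟨a, b, c, h2⟩ := S1 X hX
    rw [hb, Submodule.mem_bot, sub_eq_zero] at h2
    exact h2 ▸ lmain_stab s1 s2 a b c
  rcases P1.step H n1 with h1 | h1 | ⟨e2, he2, f2, hf2, ⟨p2, S2⟩, P2⟩
  · exact Or.inl h1
  · exact Or.inr (Or.inl h1)
  have n2 : cent (cent g e1 f1) e2 f2 ≠ ⊥ := by
    intro hb
    have h0 : e1 * e2 ≠ 0 := fun h0 => lmain_ne H p2 (by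
      rw [← one_mul e2, ← p1.ef, add_mul, mul_assoc, mul_assoc, ← he2.2.2, ← mul_assoc, h0,
        zero_mul, mul_zero, add_zero])
    obtain ⟨U, hU, hd, hk⟩ := lmain_vec h0
    obtain ⟨V, hV, hd', s1, s2, -, k1⟩ := lmain_dbl p2 (hk e2 (by
      rw [← mul_assoc, he2.2.1, mul_assoc, p2.ee, mul_zero]))
    obtain ⟨W, hW, hd'', s3, s4, k2, -⟩ := lmain_dbl p1 (k1 e1 hf2.2.1.symm (hk e1 (by
      rw [← mul_assoc, p1.ee, zero_mul])))
    refine lmain_small H hU (hV.trans hW) (by omega) fun X hX v hv => ?_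
    obtain ⟨a, b, c, h2⟩ := S1 X hX
    obtain ⟨a', b', c', h3⟩ := S2 _ h2
    rw [hb, Submodule.mem_bot, sub_eq_zero, sub_eq_iff_eq_add] at h3
    rw [h3, add_mulVec]
    exact W.add_mem (lmain_stab (k2 e2 he2.2.2 s1) (k2 f2 hf2.2.2 s2) a' b' c' v hv)
      (lmain_stab s3 s4 a b c v hv)
  rcases P2.step H n2 with h1 | h1 | ⟨e3, he3, f3, hf3, ⟨p3, S3⟩, -⟩
  · exact Or.inl h1
  · exact Or.inr (Or.inl h1)
  obtain ⟨F, hF⟩ := exists_frame H.card ![e1, e2, e3] ![f1, f2, f3]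
    (fun i => by fin_cases i <;> assumption) (fun i j hij => by
      fin_cases i <;> fin_cases j <;> first
        | exact absurd rfl hij
        | exact ⟨he2.2.1.symm, hf2.2.1.symm, hf2.2.2.symm⟩
        | exact ⟨he3.1.2.1.symm, hf3.1.2.1.symm, hf3.1.2.2.symm⟩
        | exact ⟨he2.2.1, he2.2.2, hf2.2.2⟩
        | exact ⟨he3.2.1.symm, hf3.2.1.symm, hf3.2.2.symm⟩
        | exact ⟨he3.1.2.1, he3.1.2.2, hf3.1.2.2⟩
        | exact ⟨he3.2.1, he3.2.2, hf3.2.2⟩)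
  have hb : ∀ i, F.u i (bas Ω 3) = br (![e1, e2, e3] i) (![f1, f2, f3] i) := fun i => by
    rw [← bas_br, map_sub, map_mul, map_mul, (hF i).1, (hF i).2, br]
  have hs : ∀ (i : Fin 3) (a b c : Ω), a • br (![e1, e2, e3] i) (![f1, f2, f3] i) +
      b • ![e1, e2, e3] i + c • ![f1, f2, f3] i ∈ F.sl := fun i a b c => by
    rw [← hb, ← (hF i).1, ← (hF i).2]
    exact add_mem (add_mem (F.sl.smul_mem a (Submodule.subset_span ⟨(i, 2), rfl⟩))
      (F.sl.smul_mem b (Submodule.subset_span ⟨(i, 0), rfl⟩)))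
      (F.sl.smul_mem c (Submodule.subset_span ⟨(i, 1), rfl⟩))
  have hz : ∀ z ∈ cent (cent (cent g e1 f1) e2 f2) e3 f3, z = 0 := by
    intro z hz
    have c1 : ∀ i, Commute z (![e1, e2, e3] i) ∧ Commute z (![f1, f2, f3] i) := fun i => by
      fin_cases i
      exacts [hz.1.1.2, hz.1.2, hz.2]
    have c2 : ∀ i v, Commute z (F.u i (bas Ω v)) := fun i v => by
      fin_cases v
      · exact (show F.u i (bas Ω 0) = 1 from map_one _) ▸ Commute.one_right z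
      · exact (hF i).1 ▸ (c1 i).1
      · exact (hF i).2 ▸ (c1 i).2
      · exact hb i ▸ ((c1 i).1.mul_right (c1 i).2).sub_right ((c1 i).2.mul_right (c1 i).1)
    obtain ⟨r, rfl⟩ := Matrix.mem_range_scalar_iff_commute_single'.mpr fun i j => by
      obtain ⟨y, hy⟩ := words_span F (single i j 1)
      rw [hy]
      exact (Commute.sum_right _ _ _ fun a _ => Commute.sum_right _ _ _ fun b _ =>
        Commute.sum_right _ _ _ fun c _ =>
          (((c2 0 a).mul_right (c2 1 b)).mul_right (c2 2 c)).smul_right _).symm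
    have ht := H.trace hz.1.1.1
    rw [scalar_apply, trace_diagonal, Finset.sum_const, Finset.card_univ, H.card, nsmul_eq_mul,
      mul_eq_zero] at ht
    rw [ht.resolve_left (by norm_num), map_zero]
  refine Or.inr (Or.inr ⟨F, le_antisymm (fun X hX => ?_) (Submodule.span_le.mpr ?_)⟩)
  · obtain ⟨a, b, c, h2⟩ := S1 X hX
    obtain ⟨a', b', c', h3⟩ := S2 _ h2
    obtain ⟨a'', b'', c'', h4⟩ := S3 _ h3
    have h5 := hz _ h4
    rw [sub_eq_zero, sub_eq_iff_eq_add, sub_eq_iff_eq_add] at h5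
    rw [h5]
    exact add_mem (add_mem (hs 2 a'' b'' c'') (hs 1 a' b' c')) (hs 0 a b c)
  · rintro _ ⟨⟨i, v⟩, rfl⟩
    have m1 : ![e1, e2, e3] i ∈ g := by
      fin_cases i
      exacts [he1, he2.1, he3.1.1]
    have m2 : ![f1, f2, f3] i ∈ g := by
      fin_cases i
      exacts [hf1, hf2.1, hf3.1.1]
    fin_cases v
    · exact (congrArg (· ∈ g) (hF i).1).mpr m1
    · exact (congrArg (· ∈ g) (hF i).2).mpr m2
    · exact (congrArg (· ∈ g) (hb i)).mpr (H.cl _ m1 _ m2)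

end M5
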