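import Pool.Agent.Lib.MP_33b3f9_ag.M5.ALog
import Pool.Agent.Lib.MP_33b3f9_ag.M5.LMain
import Pool.Agent.Lib.MP_33b3f9_ag.M4.CmDq

/-!
The three types; regular elements.
-/

set_option autoImplicit false

noncomputable section

namespace M5

open Matrix Polynomial M4 M4.CM Pool.Agent.M4.Mx Pool.Agent.Lib.MP_33b3f9_ag

variable {Γ : Type} [Group Γ] {l : ℕ} [Fact l.Prime] {ρ : Γ →* GL ν ℤ_[l]} {U : Subgroup Γ}

theorem atype_tl {Ω : Type} [Field Ω] (X : Matrix ν ν Ω) :
    tl X = X - ((8 : Ω)⁻¹ * X.trace) • (1 : Matrix ν ν Ω) := by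
  simp [tl, smul_smul]

theorem atype_br {Ω : Type} [Field Ω] {g : Submodule Ω (Matrix ν ν Ω)} (hc : Cl g)
    {X Y : Matrix ν ν Ω} (hX : X ∈ g.map tl) (hY : Y ∈ g.map tl) : br X Y ∈ g := by
  obtain ⟨X, hX, rfl⟩ := hX
  obtain ⟨Y, hY, rfl⟩ := hY
  have : br (tl X) (tl Y) = br X Y := by
    simp only [atype_tl, br, sub_mul, mul_sub, smul_mul_assoc, mul_smul_comm, one_mul, mul_one,
      smul_sub, smul_smul]
    rw [mul_comm ((8 : Ω)⁻¹ * X.trace)]
    abel
  rw [this]
  exact hc X hX Y hY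

theorem atype_bas {Ω : Type} [Field Ω] :
    bas Ω 3 * bas Ω 1 - bas Ω 1 * bas Ω 3 = (2 : Ω) • bas Ω 1 ∧
      bas Ω 2 * bas Ω 3 - bas Ω 3 * bas Ω 2 = (2 : Ω) • bas Ω 2 := by
  constructor <;> ext i j <;> fin_cases i <;> fin_cases j <;> simp [bas] <;> norm_num

/-- `classify`. Brackets of elements of the image of `tl` lie in `lie ρ U`: `sqm u` is a multiple of
`[dotm u w, sqm u]` when `ω (u, w) ≠ 0` (`lie_sqm`, `sqm_add`), and the `u s (bas v)` are brackets. -/
theorem lie_type (hg : Gsp ρ) (hq : Sq1 ρ) [U.FiniteIndex] :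
    Full (Matrix.J (Fin 4) (CM.Om l)) (lie ρ U) ∨ Sym7 ((lie ρ U).map tl) ∨
      ∃ f, Cu f (lie ρ U) := by
  have H := lie_irr (U := U) hg hq
  have hc := lie_cl ρ U
  have h2 : (2 : CM.Om l) ≠ 0 := two_ne_zero
  rcases classify H with hF | hS | ⟨F, hF⟩
  · refine Or.inl fun u => ?_
    by_cases hu : u = 0
    · rw [hu, sqm, zero_vecMulVec]
      exact zero_mem _
    obtain ⟨w, hw⟩ : ∃ w, u ⬝ᵥ Matrix.J (Fin 4) (CM.Om l) *ᵥ w ≠ 0 := by
      by_contra h
      push Not at h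
      refine hu (Matrix.eq_zero_of_vecMul_eq_zero H.det (dotProduct_eq_zero_iff.1 fun w => ?_))
      rw [← dotProduct_mulVec, h]
    have hd : dotm (Matrix.J (Fin 4) (CM.Om l)) u w ∈ (lie ρ U).map tl := by
      have := sub_mem (hF (u + w)) (add_mem (hF u) (hF w))
      rwa [sqm_add, add_sub_cancel_left] at this
    have h1 := atype_br hc hd (hF u)
    rw [br, lie_sqm (dotm_sp H.skew u w), dotm_mulVec, trans_alt H.skew, zero_smul, add_zero,
      dotm_smul_left, dotm_self, smul_smul] at h1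
    exact (Submodule.smul_mem_iff _ (mul_ne_zero hw h2)).1 h1
  · exact Or.inr (Or.inl hS)
  · have hm : ∀ (s : Fin 3) (i : Fin 3), F.u s (bas _ i.succ) ∈ (lie ρ U).map tl := fun s i =>
      hF ▸ Submodule.subset_span ⟨(s, i), rfl⟩
    have hb : ∀ (s : Fin 3) (i j : Fin 3), F.u s (bas _ i.succ * bas _ j.succ -
        bas _ j.succ * bas _ i.succ) ∈ lie ρ U := fun s i j => by
      rw [map_sub, map_mul, map_mul]
      exact atype_br hc (hm s i) (hm s j)
    refine Or.inr (Or.inr ⟨F, Submodule.span_le.2 ?_, fun X hX => ?_⟩)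
    · rintro _ ⟨⟨s, i⟩, rfl⟩
      fin_cases i
      · have := hb s 2 0
        rw [show (2 : Fin 3).succ = 3 from rfl, show (0 : Fin 3).succ = 1 from rfl, atype_bas.1,
          map_smul] at this
        exact (Submodule.smul_mem_iff _ h2).1 this
      · have := hb s 1 2
        rw [show (2 : Fin 3).succ = 3 from rfl, show (1 : Fin 3).succ = 2 from rfl, atype_bas.2,
          map_smul] at this
        exact (Submodule.smul_mem_iff _ h2).1 this
      · have := hb s 0 1
        rwa [show (1 : Fin 3).succ = 2 from rfl, show (0 : Fin 3).succ = 1 from rfl, bas_br] at this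
    · have h1 : F.sl ≤ F.m := Submodule.span_le.2 (by
        rintro _ ⟨p, rfl⟩
        exact F.u_mem_m _ _)
      have h3 : tl X ∈ F.m := h1 (hF ▸ Submodule.mem_map_of_mem hX)
      have h4 : (1 : Matrix ν ν (CM.Om l)) ∈ F.m := map_one (F.u 0) ▸ F.u_mem_m 0 1
      have := add_mem h3 (F.m.smul_mem ((8 : CM.Om l)⁻¹ * X.trace) h4)
      rwa [atype_tl, sub_add_cancel] at this

end M5
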