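import Pool.Agent.Lib.MP_33b3f9_ag.M5.BPhA

/-!
The type does not depend on the prime.
-/

set_option autoImplicit false

noncomputable section

namespace M5

open Matrix Polynomial NumberField M4 M4.CM Pool.Agent.M4.Mx Pool.Agent.Lib.MP_33b3f9_ag

variable {τ : Mat} {K : IntermediateField ℚ ℂ} {r : Rep K} {l₀ : ℕ} [Fact l₀.Prime]
  {f₀ : Fr ν (CM.Om l₀)}

/-- `sp_gen`, `tng_exp`, `mcl_mul`, `trans_alt`. -/
theorem full_mcl {Ω : Type} [Field Ω] [CharZero Ω] (T : Submonoid (Matrix ν ν Ω))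
    (h : ∀ u, sqm (Matrix.J (Fin 4) Ω) u ∈ tng T) {g : Matrix ν ν Ω}
    (hg : gᵀ * Matrix.J (Fin 4) Ω * g = Matrix.J (Fin 4) Ω) : g ∈ mcl (T : Set (Matrix ν ν Ω)) := by
  have hE : (Matrix.J (Fin 4) Ω)ᵀ = -Matrix.J (Fin 4) Ω := Matrix.J_transpose _ _
  let M : Submonoid (Matrix ν ν Ω) :=
    { carrier := mcl (T : Set (Matrix ν ν Ω))
      one_mem' := subset_mcl _ T.one_mem
      mul_mem' := fun hx hy => mcl_mul (fun _ a _ b => T.mul_mem a b) hx hy }
  refine sp_gen hE (Matrix.isUnit_det_J _ _).ne_zero M (fun u c => tng_exp (h u) ?_ c) hg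
  rw [sqm, vecMulVec_mul_vecMulVec, dotProduct_comm, trans_alt hE u, zero_smul, vecMulVec_zero]

/-- The test vector. -/
def bphV : ν → ℚ := Sum.elim ![2, 3, 5, 7] ![1 / 2, 1 / 3, 1 / 5, 1 / 7]

theorem bph_sp : (diagonal bphV)ᵀ * Matrix.J (Fin 4) ℚ * diagonal bphV = Matrix.J (Fin 4) ℚ := by
  ext i j
  rw [diagonal_transpose, mul_diagonal, diagonal_mul]
  rcases i with i | i <;> rcases j with j | j <;> fin_cases i <;> fin_cases j <;>
    simp [bphV, Matrix.J]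

theorem bph_ph : Ph (diagonal bphV) ≠ 0 := by
  have h : ∀ k : ℕ, (diagonal bphV ^ k).trace = 2 ^ k + 3 ^ k + 5 ^ k + 7 ^ k +
      ((1 / 2) ^ k + (1 / 3) ^ k + (1 / 5) ^ k + (1 / 7) ^ k) := fun k => by
    rw [diagonal_pow, trace_diagonal, Fintype.sum_sum_type, Fin.sum_univ_four, Fin.sum_univ_four]
    rfl
  have h1 := h 1
  rw [pow_one] at h1
  rw [Ph, mu, bph_sp, h1, h 2, h 3, h 4]
  norm_num [Matrix.J]

theorem bph_inj : Function.Injective fun i => bphV i ^ 2 := by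
  rintro (i | i) (j | j) <;> fin_cases i <;> fin_cases j <;> norm_num [bphV]

theorem bph_eval {Ω : Type} [Field Ω] : ∃ P : MvPolynomial (ν × ν) Ω,
    ∀ g : Matrix ν ν Ω, evalM g P = Dq g * Ph g := by
  let G : Matrix ν ν (MvPolynomial (ν × ν) Ω) := Matrix.of fun i j => MvPolynomial.X (i, j)
  refine ⟨Dq G * Ph G, fun g => ?_⟩
  let φ : MvPolynomial (ν × ν) Ω →+* Ω :=
    (MvPolynomial.aeval (R := Ω) fun p : ν × ν => g p.1 p.2).toRingHom
  have h : G.map φ = g := Matrix.ext fun i j => MvPolynomial.aeval_X _ _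
  calc evalM g (Dq G * Ph G) = φ (Dq G * Ph G) := rfl
    _ = Dq g * Ph g := by rw [map_mul, ← Dq_map, ← Ph_map, h]

/-- `Dq * Ph` is the value of a polynomial (`Dq_map`, `Ph_map` for the generic matrix) that vanishes on
`imU`, but not at the diagonal matrix with entries `2, 3, 5, 7` and their inverses. -/
theorem not_full (H : Hyp τ K r) (B : Base r l₀ f₀) (l : ℕ) [Fact l.Prime]
    (U : Subgroup (ℂ ≃ₐ[K] ℂ)) : ¬ Full (Matrix.J (Fin 4) (CM.Om l)) (lie (r l) U) := by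
  intro h
  obtain ⟨P, hP⟩ := bph_eval (Ω := CM.Om l)
  let φ : ℚ →+* CM.Om l := Rat.castHom _
  have hJ : (Matrix.J (Fin 4) ℚ).map φ = Matrix.J (Fin 4) (CM.Om l) := Matrix.map_J _ φ
  have hg : ((diagonal bphV).map φ)ᵀ * Matrix.J (Fin 4) (CM.Om l) * (diagonal bphV).map φ =
      Matrix.J (Fin 4) (CM.Om l) := by
    rw [← hJ, ← transpose_map, ← Matrix.map_mul, ← Matrix.map_mul, bph_sp]
  have h1 := full_mcl (imU (r l) U) (fun u => lie_tng (r l) U (h u)) hg P (by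
    rintro _ ⟨σ, -, rfl⟩
    rw [hP]
    by_cases h0 : Dq (ro r l σ) = 0
    · exact mul_eq_zero_of_left h0 _
    · exact mul_eq_zero_of_right _ (ph_zero H B l h0))
  rw [hP, Ph_map] at h1
  refine mul_ne_zero ?_ ((_root_.map_ne_zero φ).2 bph_ph) h1
  rw [Dq_ne_iff, diagonal_map (map_zero φ), charpoly_diagonal, sp2_iff]
  intro i j hij
  refine bph_inj (φ.injective ?_)
  simpa only [map_pow] using hij

end M5
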