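import Pool.Agent.Lib.MP_33b3f9_ag.M5.FPmA

/-!
The permutation of the slots.
-/

set_option autoImplicit false

noncomputable section

namespace M5

open Matrix Polynomial M4 M4.CM Pool.Agent.M4.Mx

variable {Ω : Type} [Field Ω] [CharZero Ω] {f : Fr ν Ω}

omit [CharZero Ω] in
theorem fpm_pow {g : Matrix ν ν Ω} {π : Equiv.Perm (Fin 3)} (h : Pm f g π) (n : ℕ) :
    Pm f (g ^ n) (π ^ n) := by
  induction n with
  | zero => exact ⟨1, fun i x => by simp [cj]⟩
  | succ n ih =>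
    rw [pow_succ, pow_succ]
    exact ih.mul h

omit [CharZero Ω] in
theorem fpm_tv (c : GL (Fin 2) Ω) (x y : M2 Ω) {s : Ω} (hs : s ≠ 0) (h : cj c x = s • y) :
    tv x = tv y := by
  have h1 : x.trace = s * y.trace := by
    rw [← smul_eq_mul, ← trace_smul, ← h, cj, trace_mul_cycle, Units.inv_mul, Matrix.one_mul]
  have h2 : x.det = s ^ 2 * y.det := by
    have := congrArg det h
    rwa [det_smul, Fintype.card_fin, cj, det_mul, det_mul, mul_right_comm, ← det_mul,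
      Units.mul_inv, det_one, one_mul] at this
  rw [tv, tv, h1, h2, mul_pow, mul_div_mul_left _ _ (pow_ne_zero 2 hs)]

/-- `π ^ 6 = 1`, so `g ^ 6 = T b` (`Pm.mul`, `Pm.inC`). Let `π i = k ≠ i`. As `g` commutes with `T b`,
`cj (c i) (b i x) * b k`-type identity: `cj (c i) (b i)` and `b k` induce the same conjugation, so
they are proportional and `tv (b i) = tv (b k)`; `cube_inj`, `Dq_ne_iff`. The `b i` are invertible
(`det_T_sq`). -/
theorem Pm.dq [IsAlgClosed Ω] {g : Matrix ν ν Ω} (hg : g.det ≠ 0) {π : Equiv.Perm (Fin 3)}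
    (h : Pm f g π) (h1 : π ≠ 1) : Dq (g ^ 6) = 0 := by
  have h6 := fpm_pow h 6
  rw [show π ^ 6 = 1 by simpa [Fintype.card_perm, Nat.factorial] using pow_card_eq_one (x := π)] at h6
  obtain ⟨b, hb⟩ := h6.inC
  obtain ⟨c, hc⟩ := h
  have hd : ∀ i, (b i).det ≠ 0 := fun i h0 => by
    have := det_T_sq f b
    rw [← hb, det_pow, Finset.prod_eq_zero (Finset.mem_univ i) h0, zero_pow (by norm_num)] at this
    exact pow_ne_zero _ (pow_ne_zero _ hg) this
  have e1 : g * f.T b = f.T (fun k => cj (c (π.symm k)) (b (π.symm k))) * g := by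
    rw [f.T_eq b, ← Matrix.mul_assoc, ← Matrix.mul_assoc, hc, Matrix.mul_assoc _ g, hc,
      ← Matrix.mul_assoc, Matrix.mul_assoc _ g, hc, ← Matrix.mul_assoc, Fr.u_apply, Fr.u_apply,
      Fr.u_apply, Fr.T_mul, Fr.T_mul]
    congr 2
    funext k
    obtain ⟨j, rfl⟩ := π.surjective k
    fin_cases j <;> simp
  have e2 : f.T b = f.T (fun k => cj (c (π.symm k)) (b (π.symm k))) := by
    rw [← hb, ← pow_succ', pow_succ, hb] at e1
    exact (isUnit_iff_isUnit_det g).2 (Ne.isUnit hg) |>.mul_right_cancel e1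
  by_contra h0
  rw [hb] at h0
  refine h1 (Equiv.ext fun i => ?_)
  obtain ⟨s, hs, e⟩ := T_unique f e2 (fun i h => hd i (by rw [h, det_zero])) (π i)
  simp only [Equiv.symm_apply_apply] at e
  exact ((cube_inj f b hd ((Dq_ne_iff _).1 h0)).1 (fpm_tv _ _ _ hs e)).symm

/-- Let `π i ≠ i`, `e = u i (bas 1)`, `e' = u i (bas 2)`. Then `tr (u (π i) y * e') = 0` for `y` of trace
zero and `tr (e * e') = 4` (`trace_T`). With `g = 1 + D`: `g e = u (π i) y g` gives
`u (π i) y = g e g⁻¹`, `g⁻¹ = 1 - D g⁻¹` is integral with `g⁻¹ - 1` small (`Le.inv`), so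
`‖tr (g e g⁻¹ e') - 4‖ ≤ C l ^ (-n) < ‖4‖`. -/
theorem pm_near {l : ℕ} [Fact l.Prime] (f : Fr ν (CM.Om l)) : ∃ n : ℕ, ∀ (g : Matrix ν ν (CM.Om l))
    (π : Equiv.Perm (Fin 3)), Le (g - 1) ((l : ℝ) ^ (-(n : ℤ))) → Pm f g π → π = 1 := by
  obtain ⟨A, hA⟩ := (Set.finite_range fun p : Fin 3 × Fin 4 × ν × ν =>
    ‖f.u p.1 (bas _ p.2.1) p.2.2.1 p.2.2.2‖).bddAbove
  have hA' : ∀ i v, Le (f.u i (bas _ v)) A := fun i v a b => hA ⟨(i, v, a, b), rfl⟩
  have hA0 : 0 ≤ A := (norm_nonneg _).trans (hA' 0 0 (.inl 0) (.inl 0))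
  have hl : (1 : ℝ) < l := by exact_mod_cast (Fact.out : l.Prime).one_lt
  have h4 : 0 < ‖(4 : CM.Om l)‖ := norm_pos_iff.2 (by norm_num)
  obtain ⟨n, hn⟩ := exists_pow_lt_of_lt_one
    (lt_min one_pos (div_pos h4 (show 0 < A * A + 1 by positivity))) (inv_lt_one_of_one_lt₀ hl)
  refine ⟨n, fun g π hD ⟨c, hc⟩ => ?_⟩
  rw [_root_.zpow_neg, zpow_natCast, ← inv_pow] at hD
  set ε : ℝ := (l : ℝ)⁻¹ ^ n
  have hε : 0 ≤ ε := by positivity
  have hε1 : ε < 1 := hn.trans_le (min_le_left _ _)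
  have hε2 : ε * (A * A + 1) < ‖(4 : CM.Om l)‖ :=
    (lt_div_iff₀ (by positivity)).1 (hn.trans_le (min_le_right _ _))
  refine Equiv.ext fun i => ?_
  by_contra hi
  have hi' : i ≠ π i := fun e => hi e.symm
  obtain ⟨D, rfl⟩ : ∃ D, g = 1 + D := ⟨g - 1, by simp⟩
  rw [add_sub_cancel_left] at hD
  have e := hc i (bas _ 1)
  set Y := f.u (π i) (cj (c i) (bas _ 1)) with hY
  have e' : Y = f.u i (bas _ 1) + D * f.u i (bas _ 1) - Y * D := by
    rw [Matrix.add_mul, Matrix.one_mul, Matrix.mul_add, Matrix.mul_one] at e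
    rw [e, add_sub_cancel_right]
  have h1 : Le (D * f.u i (bas _ 1)) (ε * A) := hD.mul (hA' _ _) hε hA0
  have hYA : Le Y A := by
    obtain ⟨p, hp⟩ := Finite.exists_max fun p : ν × ν => ‖Y p.1 p.2‖
    have h2 : Le (Y * D) (‖Y p.1 p.2‖ * ε) :=
      Le.mul (fun a b => hp (a, b)) hD (norm_nonneg _) hε
    have h3 := (((hA' i 1).add (h1.mono (mul_le_of_le_one_left hA0 hε1.le))).mono
      (le_max_left _ _)).sub (h2.mono (le_max_right _ _)) p.1 p.2
    rw [← e'] at h3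
    refine fun a b => (hp (a, b)).trans ((le_max_iff.1 h3).elim id fun h => ?_)
    nlinarith [norm_nonneg (Y p.1 p.2)]
  have t1 : (f.u i (bas _ 2) * Y).trace = 0 := by
    rw [hY, Fr.u_apply, Fr.u_apply, Fr.T_mul, trace_T]
    refine Finset.prod_eq_zero (Finset.mem_univ i) ?_
    simp [Function.update_of_ne hi', bas]
  have t2 : (f.u i (bas _ 2) * f.u i (bas _ 1)).trace = 4 := by
    rw [← map_mul, Fr.u_apply, trace_T]
    fin_cases i <;> simp [Fin.prod_univ_three, bas, trace_fin_two] <;> norm_num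
  have t3 : (4 : CM.Om l) = (f.u i (bas _ 2) * (Y * D - D * f.u i (bas _ 1))).trace := by
    rw [e', Matrix.mul_sub, Matrix.mul_add, trace_sub, trace_add, t2] at t1
    rw [Matrix.mul_sub, trace_sub]
    linear_combination t1
  have h5 : Le (f.u i (bas _ 2) * (Y * D - D * f.u i (bas _ 1))) (A * (A * ε)) :=
    (hA' i 2).mul ((hYA.mul hD hA0 hε).sub (h1.mono (mul_comm _ _).le)) hA0 (by positivity)
  have h6 := IsUltrametricDist.norm_sum_le_of_forall_le_of_nonneg (s := Finset.univ)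
    (show 0 ≤ A * (A * ε) by positivity) fun a _ => h5 a a
  change ‖Matrix.trace _‖ ≤ _ at h6
  rw [← t3] at h6
  nlinarith

end M5
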