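import Pool.Agent.Lib.MP_33b3f9_ag.M5.BSym
import Pool.Agent.Lib.MP_33b3f9_ag.M5.BPh
import Pool.Agent.Lib.MP_33b3f9_ag.M5.FPm
import Pool.Agent.Lib.MP_33b3f9_ag.M4.MxCube
import Pool.Agent.Lib.MP_33b3f9_ag.M4.MxRkB

/-!
The image lies in a cube at every prime.
-/

set_option autoImplicit false

noncomputable section

namespace M5

open Matrix Polynomial NumberField M4 M4.CM Pool.Agent.M4.Mx Pool.Agent.Lib.MP_33b3f9_ag

/-- `exists_pm`, `lie_conj`. -/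
theorem pm_all {Γ : Type} [Group Γ] {l : ℕ} [Fact l.Prime] {ρ : Γ →* GL ν ℤ_[l]} {U : Subgroup Γ}
    [U.Normal] {f : Fr ν (CM.Om l)} (h : Cu f (lie ρ U)) :
    ∃ χ : Γ →* Equiv.Perm (Fin 3), (∀ σ, Pm f (rO ρ σ) (χ σ)) ∧ ∃ n, kerM ρ n ≤ χ.ker := by
  obtain ⟨χ, hχ⟩ := exists_char (f := f) (rO ρ) fun σ =>
    exists_pm ((rO ρ).toHomUnits σ) fun X hX => h.2 (lie_conj σ (h.1 hX))
  obtain ⟨n, hn⟩ := pm_near f
  exact ⟨χ, hχ, n, fun σ hσ => hn _ _ (kerM_le hσ) (hχ σ)⟩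

theorem bconn_det {Γ : Type} [Group Γ] {l : ℕ} [Fact l.Prime] (ρ : Γ →* GL ν ℤ_[l]) (σ : Γ) :
    (rO ρ σ).det ≠ 0 :=
  ((isUnit_iff_isUnit_det _).1 ((Group.isUnit σ).map (rO ρ))).ne_zero

theorem bconn_gen {Ω : Type} [Field Ω] [IsAlgClosed Ω] [CharZero Ω] (f : Fr ν Ω) {c : Ω}
    (hc : c ≠ 0) : ∃ a : Fin 3 → M2 Ω, (∀ s, (a s).det = 1) ∧ Dq (c • f.T a) ≠ 0 := by
  let n : Fin 3 → Fin 2 → ℤ := ![![1, -1], ![2, -2], ![4, -4]]
  let e : Fin 3 → Ω := ![c, 1, 1]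
  have he : ∏ s, e s = c := by simp [e, Fin.prod_univ_three]
  have hn : Function.Injective fun ε : κ => ∑ s, n s (ε s) := by decide
  have h0 : ∀ s, n s 0 + n s 1 = 0 := by decide
  refine ⟨fun s => diagonal fun j => 2 ^ n s j, fun s => ?_, ?_⟩
  · rw [det_diagonal, Fin.prod_univ_two, ← zpow_add₀ two_ne_zero, h0, zpow_zero]
  · rw [← he, ← f.T_smul, Dq_ne_iff, charpoly_T f _ (fun s j => e s * 2 ^ n s j)
      (fun s => by simp [mul_add]) (fun s => by simp; ring), sp2_iff]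
    have h1 : ∀ ε : κ, (∏ s, e s * 2 ^ n s (ε s)) ^ 2 =
        c ^ 2 * (((2 : ℚ) ^ ((∑ s, n s (ε s)) * 2) : ℚ) : Ω) := fun ε => by
      rw [Finset.prod_mul_distrib, he, mul_pow, Rat.cast_zpow, Rat.cast_ofNat, _root_.zpow_mul,
        Fin.prod_univ_three, Fin.sum_univ_three, zpow_add₀ two_ne_zero, zpow_add₀ two_ne_zero,
        zpow_ofNat]
    intro ε ε' h
    simp only [h1] at h
    exact hn (mul_right_cancel₀ two_ne_zero (zpow_right_injective₀ two_pos (by norm_num)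
      (Rat.cast_injective (mul_left_cancel₀ (pow_ne_zero 2 hc) h))))

variable {τ : Mat} {K : IntermediateField ℚ ℂ} {r : Rep K} {l₀ : ℕ} [Fact l₀.Prime]
  {f₀ : Fr ν (CM.Om l₀)}

theorem cube_type (H : Hyp τ K r) (B : Base r l₀ f₀) (l : ℕ) [Fact l.Prime]
    (U : Subgroup (ℂ ≃ₐ[K] ℂ)) [U.Normal] [U.FiniteIndex] : ∃ f, Cu f (lie (r l) U) :=
  ((lie_type (H.gsp l) (H.sq l)).resolve_left (not_full H B l U)).resolve_left (not_sym7 H l U)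

/-- `cube_type` at `l₀` gives `f`; `lie ≤ tng ≤ f₀.m` (`lie_tng`, `Fr.tng_m`, `rk_tp`, `QTP`), so by
`cmp f₀ f` the `f₀.u s (bas v)` lie in `f.sl` (`MxSl_tr`), and `Fr.sl_mcl` applies to `f₀`. The polynomial
`x ↦ Dq (ro σ₀ * x)` (`zarA_two`, `Dq_map`) does not vanish at `x = T (adjugate b * a)` where
`ro σ₀ = c • T b` (`T_split`) and `a i` is diagonal with entries `2 ^ (± 2 ^ i)` (`charpoly_T`,
`sp2_iff`). -/
theorem dens (H : Hyp τ K r) (B : Base r l₀ f₀) (U : Subgroup (ℂ ≃ₐ[K] ℂ)) [U.Normal]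
    [U.FiniteIndex] (σ₀ : ℂ ≃ₐ[K] ℂ) : ∃ u ∈ U, Dq (ro r l₀ (σ₀ * u)) ≠ 0 := by
  obtain ⟨f, hf⟩ := cube_type H B l₀ U
  have h1 : f.sl ≤ tng (imU (r l₀) U) := hf.1.trans (lie_tng _ U)
  obtain ⟨π, c, hc⟩ := cmp f₀ f fun Y hY => f₀.tng_m (fun t ht => by
    obtain ⟨σ, -, rfl⟩ := ht
    obtain ⟨a, ha⟩ := B.inC σ
    change Rk (f₀.Q * ro r l₀ σ * f₀.P)
    rw [ha, f₀.QTP]
    exact rk_tp a) (h1 hY)
  have h2 : ∀ s (y : M2 (CM.Om l₀)), y.trace = 0 → f₀.u s y ∈ tng (imU (r l₀) U) := fun s y hy => by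
    obtain ⟨i, rfl⟩ := π.surjective s
    have e : cj (c i) (cj (c i)⁻¹ y) = y := by simp [cj, Matrix.mul_assoc]
    have e' : (cj (c i)⁻¹ y).trace = 0 := by
      rw [cj, trace_mul_cycle, Units.inv_mul, Matrix.one_mul, hy]
    rw [← e, ← hc]
    rw [trace_fin_two] at e'
    exact h1 (MxSl_tr f i _ (eq_neg_of_add_eq_zero_right e'))
  obtain ⟨a₀, ha₀⟩ := B.inC σ₀
  have hd : (ro r l₀ σ₀).det ≠ 0 := bconn_det (r l₀) σ₀
  obtain ⟨z, b, hb, e⟩ := f₀.T_split a₀ (ha₀ ▸ hd)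
  rw [← ha₀] at e
  obtain ⟨a, ha, hq⟩ := bconn_gen f₀ (c := z) fun h => hd (by rw [e, h, zero_smul, det_zero])
  have h3 := f₀.sl_mcl _ (fun s => ⟨h2 s _ (by simp [bas]), h2 s _ (by simp [bas])⟩)
    ((fun s => (b s).adjugate) * a) fun s => by
      rw [Pi.mul_apply, det_mul, det_adjugate, hb, ha, one_pow, mul_one]
  obtain ⟨Q, hQ⟩ := zarA_two (ro r l₀ σ₀) 1 (Dq (Matrix.of fun i j => MvPolynomial.X (i, j)))
  have h4 : ∀ x, evalM x Q = Dq (ro r l₀ σ₀ * x) := fun x => by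
    rw [hQ, Matrix.mul_one]
    refine (Dq_map (MvPolynomial.aeval (R := CM.Om l₀)
      fun p : ν × ν => (ro r l₀ σ₀ * x) p.1 p.2).toRingHom _).symm.trans ?_
    congr 1
    ext i j
    simp
  by_contra hn
  push Not at hn
  have h5 := h3 Q fun t ⟨u, hu, ht⟩ => by
    rw [h4, ← hn u hu, ← rO_eq, ← rO_eq, map_mul, ht]
    rfl
  have h6 : b * ((fun s => (b s).adjugate) * a) = a := funext fun s => by
    rw [Pi.mul_apply, Pi.mul_apply, ← Matrix.mul_assoc, mul_adjugate, hb, one_smul, Matrix.one_mul]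
  rw [h4, e, Matrix.smul_mul, f₀.T_mul, h6] at h5
  exact hq h5

/-- `cube_type` for `⊤`, `pm_all`. If `χ σ₀ ≠ 1`: `dens` for `χ.ker`, `frob_reg` at `l₀` with
`N = l ^ n`, `p₁ = l`; then `χ (σ ^ j) = χ σ₀`, so `χ σ ≠ 1`, against `Pm.dq`. `Pm.inC`. -/
theorem conn (H : Hyp τ K r) (B : Base r l₀ f₀) (l : ℕ) [Fact l.Prime] :
    ∃ f, Cu f (lie (r l) ⊤) ∧ ∀ σ, ∃ a, ro r l σ = f.T a := by
  obtain ⟨f, hf⟩ := cube_type H B l ⊤
  obtain ⟨χ, hχ, n, hn⟩ := pm_all hf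
  refine ⟨f, hf, fun σ₀ => Pm.inC (g := rO (r l) σ₀) ((?_ : χ σ₀ = 1) ▸ hχ σ₀)⟩
  obtain ⟨u, hu, h0⟩ := dens H B χ.ker σ₀
  obtain ⟨p, _, -, σ, j, -, hp, -, -, he, hr⟩ :=
    frob_reg H (B.neat _) h0 (pow_ne_zero n (Fact.out : l.Prime).ne_zero) l
  have h1 : χ (σ₀ * u) = χ (σ ^ j) := χ.eq_iff.2 (hn ((MonoidHom.eq_iff _).1 (Units.ext
    (Matrix.ext fun a b => by
      change PadicInt.toZModPow n _ = PadicInt.toZModPow n _
      rw [← RingHom.sub_mem_ker_iff, PadicInt.ker_toZModPow, Ideal.mem_span_singleton]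
      exact_mod_cast he l a b))))
  by_cases h2 : χ σ = 1
  · rwa [map_mul, hu, mul_one, map_pow, h2, one_pow] at h1
  · exact absurd (Pm.dq (bconn_det (r l) σ) (hχ σ) h2) (hr l hp.ne 6 (by norm_num))

end M5
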