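import Pool.Agent.Lib.MP_33b3f9_ag.M5.AReg
import Pool.Agent.Lib.MP_33b3f9_ag.M4.CmPlaces
import Pool.Agent.Lib.MP_33b3f9_ag.M4.CmOpen

/-!
Regular Frobenius elements.
-/

set_option autoImplicit false

noncomputable section

namespace M5

open Matrix Polynomial NumberField M4 M4.CM Pool.Agent.M4.Mx Pool.Agent.Lib.MP_33b3f9_ag

variable {τ : Mat} {K : IntermediateField ℚ ℂ} {r : Rep K}

/-- `pow_sums`, `ro_charpoly`. -/
theorem dq_int {p : ℕ} {σ : ℂ ≃ₐ[K] ℂ} {P : ℤ[X]} (h : Weil r p σ P) (m : ℕ) :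
    ∃ D : ℤ, ∀ (l : ℕ) [Fact l.Prime], l ≠ p → Dq (ro r l σ ^ m) = D := by
  obtain ⟨a, ha⟩ := pow_sums P h.monic
  refine ⟨(Matrix.of fun i j : Fin 8 => a (m * (2 * ((i : ℕ) + (j : ℕ))))).det, fun l _ hl => ?_⟩
  rw [Int.cast_det, Dq]
  congr 1
  ext i j
  rw [Matrix.map_apply, Matrix.of_apply, Matrix.of_apply, ← pow_mul, ha _ _ (ro_charpoly r h hl)]

theorem bfrob_norm {l : ℕ} [Fact l.Prime] (N n : ℕ) :
    ‖((N * l ^ n : ℕ) : CM.Om l)‖ ≤ (l : ℝ)⁻¹ ^ n := by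
  rw [Nat.cast_mul, Nat.cast_pow, norm_mul, norm_pow, norm_l]
  exact mul_le_of_le_one_left (by positivity) (by simpa using norm_int_le (l := l) N)

theorem bfrob_mono {N M : ℕ} {σ σ' : ℂ ≃ₐ[K] ℂ} (h : Eqm r (N * M) σ σ') : Eqm r N σ σ' :=
  fun l _ a b => (Nat.cast_dvd_cast (dvd_mul_right N M)).trans (h l a b)

/-- `frob_gen` with the modulus `N * l ^ n`, `l ^ (-n) < ‖Dq (ro r l σ₀)‖`; `Dq_eqm`, `Dq_pow_le`,
`weil_of_Dq`, `NT.Dvg.exists_ge`, `opn`. -/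
theorem frob_near (H : Hyp τ K r) {l : ℕ} [Fact l.Prime] {σ₀ : ℂ ≃ₐ[K] ℂ}
    (h0 : Dq (ro r l σ₀) ≠ 0) {N : ℕ} (hN : N ≠ 0) (p₁ : ℕ) :
    ∃ (p : ℕ) (_ : Fact p.Prime) (e : ℂ ≃+* PadicAlgCl p) (σ : ℂ ≃ₐ[K] ℂ) (j : ℕ) (P : ℤ[X]),
      p₁ < p ∧ l < p ∧ Frob τ r e σ ∧ Weil r p σ P ∧ Eqm r N σ₀ (σ ^ j) ∧
        Dq (ro r l σ ^ j) ≠ 0 := by
  have := H.av.fin
  have hl : l.Prime := Fact.out
  obtain ⟨n, hn⟩ := exists_pow_lt_of_lt_one (norm_pos_iff.2 h0)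
    (inv_lt_one_of_one_lt₀ (Nat.one_lt_cast.2 hl.one_lt : (1 : ℝ) < l))
  obtain ⟨p, ⟨hp, _, e, σ, j, -, h1, h2⟩, -⟩ := (frob_gen H.red (opn H.av) σ₀
    (mul_ne_zero hN (pow_ne_zero n hl.ne_zero)) (p₁ + l)).exists_ge 0
  have h3 := (bfrob_norm (l := l) N n).trans_lt hn
  obtain ⟨P, h4, -⟩ := weil_of_Dq h1 (l := l) (by omega)
    (norm_pos_iff.1 ((norm_pos_iff.2 h0).trans_le (cmPlaces_le h2 h3)))
  refine ⟨p, ‹_›, e, σ, j, P, by omega, by omega, h1, h4, bfrob_mono h2, fun h5 => ?_⟩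
  have h6 := Dq_eqm (l := l) h2
  rw [ro_pow, h5, sub_zero] at h6
  exact h3.not_ge h6

/-- `frob_near` with the modulus `N * l ^ 2`: `σ ^ j` is neat at `l`, so `Neat.reg'`; `j ≠ 0` since
`Dq 1 = 0`; `Dq_pow_le` for `(σ ^ m) ^ j`; `dq_int`. -/
theorem frob_reg (H : Hyp τ K r) {l : ℕ} [Fact l.Prime] {σ₀ : ℂ ≃ₐ[K] ℂ}
    (hn : Neat (ro r l σ₀)) (h0 : Dq (ro r l σ₀) ≠ 0) {N : ℕ} (hN : N ≠ 0) (p₁ : ℕ) :
    ∃ (p : ℕ) (_ : Fact p.Prime) (e : ℂ ≃+* PadicAlgCl p) (σ : ℂ ≃ₐ[K] ℂ) (j : ℕ) (P : ℤ[X]),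
      p₁ < p ∧ Frob τ r e σ ∧ Weil r p σ P ∧ Eqm r N σ₀ (σ ^ j) ∧
        ∀ (l' : ℕ) [Fact l'.Prime], l' ≠ p → Reg (ro r l' σ) := by
  have hl : l.Prime := Fact.out
  obtain ⟨p, _, e, σ, j, P, h1, h2, h3, h4, h5, h6⟩ := frob_near H h0
    (mul_ne_zero hN (pow_ne_zero 2 hl.ne_zero)) p₁
  have h7 : Le (ro r l σ₀ - ro r l σ ^ j) ((l : ℝ) ^ (-2 : ℤ)) := fun a b => by
    obtain ⟨c, hc⟩ := h5 l a b
    rw [← ro_pow, ro_eq, ro_eq, Matrix.sub_apply, Matrix.map_apply, Matrix.map_apply, ← map_sub, hc,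
      map_mul, map_natCast, norm_mul, norm_toOm, _root_.zpow_neg, zpow_ofNat, ← inv_pow]
    exact (mul_le_of_le_one_right (norm_nonneg _) c.norm_le_one).trans (bfrob_norm N 2)
  have h8 : Neat (ro r l σ ^ j) := by
    have h9 := Le.sub hn h7
    rwa [sub_sub_sub_cancel_left] at h9
  refine ⟨p, ‹_›, e, σ, j, P, h1, h3, h4, bfrob_mono h5, fun l' _ hl' m hm => ?_⟩
  obtain ⟨D, hD⟩ := dq_int h4 m
  have h9 := h8.reg' h6 m hm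
  rw [← pow_mul, mul_comm, pow_mul] at h9
  have h10 := (norm_pos_iff.2 h9).trans_le
    (Dq_pow_le (Le.pow (by rw [ro_eq]; exact le_toOm _) m) j)
  rw [hD l h2.ne, norm_pos_iff, Int.cast_ne_zero] at h10
  rwa [hD l' hl', Int.cast_ne_zero]

/-- The roots are algebraic. -/
theorem descend (P : ℤ[X]) {Ω α : Type} [Field Ω] [IsAlgClosed Ω] [CharZero Ω] [Fintype α]
    (a : α → Ω) (h : P.map (Int.castRingHom Ω) = ∏ i, (X - C (a i))) :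
    ∃ (j : Qb →+* Ω) (b : α → Qb), (∀ i, j (b i) = a i) ∧
      P.map (Int.castRingHom Qb) = ∏ i, (X - C (b i)) := by
  have : Algebra.IsAlgebraic ℚ Qb := AlgebraicClosure.isAlgebraic ℚ
  let φ : Qb →+* Ω := (IsAlgClosed.lift : Qb →ₐ[ℚ] Ω).toRingHom
  have h1 : P.map (Int.castRingHom Ω) = (P.map (Int.castRingHom Qb)).map φ := by
    rw [Polynomial.map_map, RingHom.ext_int (φ.comp _) (Int.castRingHom Ω)]
  have h2 : ∀ i, ∃ b, φ b = a i := fun i => by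
    have h3 : a i ∈ (P.map (Int.castRingHom Ω)).roots := by
      rw [h, cmspec_roots]
      exact Multiset.mem_map_of_mem a (Finset.mem_univ i)
    rw [h1, (IsAlgClosed.splits _).roots_map] at h3
    obtain ⟨b, -, hb⟩ := Multiset.mem_map.1 h3
    exact ⟨b, hb⟩
  choose b hb using h2
  refine ⟨φ, b, hb, Polynomial.map_injective φ φ.injective ?_⟩
  rw [← h1, h, Polynomial.map_prod]
  exact Finset.prod_congr rfl fun i _ => by rw [Polynomial.map_sub, map_X, map_C, hb]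

end M5
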