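import Pool.Agent.Lib.MP_33b3f9_ag.M5.BNorm

/-!
Integral frames.
-/

set_option autoImplicit false

noncomputable section

namespace M5

open Matrix Polynomial NumberField M4 M4.CM Pool.Agent.M4.Mx Pool.Agent.Lib.MP_33b3f9_ag

variable {Γ : Type} [Group Γ] {l : ℕ} [Fact l.Prime] {ρ : Γ →* GL ν ℤ_[l]}

theorem bint_conj {R : Type} [CommRing R] (f : Fr ν R) (c : Fin 3 → GL (Fin 2) R) :
    ∃ f' : Fr ν R, ∀ a, f'.T a = f.T fun i => cj (c i) (a i) := by
  have h1 : Pool.Agent.M4.tp (fun i => (c i : M2 R)) *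
      Pool.Agent.M4.tp (fun i => (((c i)⁻¹ : GL (Fin 2) R) : M2 R)) = 1 := by
    rw [tp_mul, ← tp_one]
    exact congrArg _ (funext fun i => Units.mul_inv (c i))
  have h2 : Pool.Agent.M4.tp (fun i => (((c i)⁻¹ : GL (Fin 2) R) : M2 R)) *
      Pool.Agent.M4.tp (fun i => (c i : M2 R)) = 1 := by
    rw [tp_mul, ← tp_one]
    exact congrArg _ (funext fun i => Units.inv_mul (c i))
  refine ⟨⟨f.P * Pool.Agent.M4.tp fun i => (c i : M2 R),
    Pool.Agent.M4.tp (fun i => (((c i)⁻¹ : GL (Fin 2) R) : M2 R)) * f.Q, ?_, ?_⟩, fun a => ?_⟩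
  · rw [Matrix.mul_assoc, ← Matrix.mul_assoc _ _ f.Q, h1, Matrix.one_mul, f.pq]
  · rw [Matrix.mul_assoc, ← Matrix.mul_assoc f.Q, f.qp, Matrix.one_mul, h2]
  · rw [Fr.T, Fr.T, ← Matrix.mul_assoc, Matrix.mul_assoc f.P, Matrix.mul_assoc f.P, tp_mul, tp_mul]
    rfl

theorem bint_scale (f : Fr ν (CM.Om l)) (h : ∀ a b c d, ‖f.Q a b * f.P c d‖ ≤ 1) :
    ∃ f' : Fr ν (CM.Om l), (∀ a, f'.T a = f.T a) ∧ Le f'.P 1 ∧ Le f'.Q 1 := by
  obtain ⟨⟨c, d⟩, h1⟩ := Finite.exists_max fun x : ν × κ => ‖f.P x.1 x.2‖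
  have h2 : f.P c d ≠ 0 := fun h0 => by
    have h3 : f.P = 0 := Matrix.ext fun a b =>
      norm_le_zero_iff.1 ((h1 (a, b)).trans (norm_eq_zero.2 h0).le)
    have h4 := f.pq
    rw [h3, Matrix.zero_mul] at h4
    exact zero_ne_one h4
  refine ⟨⟨(f.P c d)⁻¹ • f.P, f.P c d • f.Q, ?_, ?_⟩, fun a => ?_, fun a b => ?_, fun a b => ?_⟩
  · rw [Matrix.smul_mul, Matrix.mul_smul, smul_smul, inv_mul_cancel₀ h2, one_smul, f.pq]
  · rw [Matrix.smul_mul, Matrix.mul_smul, smul_smul, mul_inv_cancel₀ h2, one_smul, f.qp]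
  · rw [Fr.T, Fr.T, Matrix.smul_mul, Matrix.smul_mul, Matrix.mul_smul, smul_smul,
      inv_mul_cancel₀ h2, one_smul]
  · change ‖(f.P c d)⁻¹ * f.P a b‖ ≤ 1
    rw [norm_mul, norm_inv]
    exact inv_mul_le_one_of_le₀ (h1 (a, b)) (norm_nonneg _)
  · change ‖f.P c d * f.Q a b‖ ≤ 1
    rw [mul_comm]
    exact h a b c d

theorem bint_comb {m m' : Type} {n : ℕ} {o : Fin n → CM.Om l} (ho : ∀ j, ‖o j‖ ≤ 1)
    {A : Fin n → Matrix m m' (CM.Om l)} (hA : ∀ j, Le (A j) 1) : Le (∑ j, o j • A j) 1 :=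
  Le.sum _ zero_le_one fun j _ => ((hA j).smul (o j)).mono ((mul_one _).le.trans (ho j))

theorem bint_lat (b : Γ → M2 (CM.Om l)) (hd : ∀ σ, (b σ).det = 1)
    (hm : ∀ σ σ', b (σ * σ') = b σ * b σ' ∨ b (σ * σ') = -(b σ * b σ')) {n : ℕ} (s : Fin n → Γ)
    (hs : ∀ σ, ∃ o : Fin n → CM.Om l, (∀ j, ‖o j‖ ≤ 1) ∧ b σ = ∑ j, o j • b (s j)) :
    ∃ c : GL (Fin 2) (CM.Om l), ∀ σ, Le (cj c⁻¹ (b σ)) 1 := by
  obtain ⟨c, a, h1, h2⟩ := exists_lattice
    (fun (x : Option (Fin n) × Fin 2) p => b (x.1.elim 1 s) p x.2)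
    ⟨(none, 0), (none, 1), by
      have h1 := hd 1
      rw [det_fin_two, mul_comm (b 1 0 1)] at h1
      exact h1.trans_ne one_ne_zero⟩
  have h3 : ∀ σ, Le (((c⁻¹ : GL (Fin 2) (CM.Om l)) : M2 (CM.Om l)) * b σ) 1 := fun σ => by
    obtain ⟨o, h4, h5⟩ := hs σ
    rw [h5, Matrix.mul_sum]
    simp only [Matrix.mul_smul]
    exact bint_comb h4 fun j p q => h2 (some j, q) p
  refine ⟨c, fun σ p q => ?_⟩
  have h4 : cj c⁻¹ (b σ) p q = (((c⁻¹ : GL (Fin 2) (CM.Om l)) : M2 (CM.Om l)) *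
      (b σ * b ((a q).1.elim 1 s))) p (a q).2 := by
    rw [cj, inv_inv, ← Matrix.mul_assoc, Matrix.mul_apply, Matrix.mul_apply]
    simp only [h1]
  have h5 := h3 (σ * (a q).1.elim 1 s) p (a q).2
  rcases hm σ ((a q).1.elim 1 s) with h6 | h6
  · rwa [h4, ← h6]
  · rwa [h6, Matrix.mul_neg, Matrix.neg_apply, norm_neg, ← h4] at h5

theorem bint_tr {R : Type} [CommRing R] (A B : M2 R) :
    (A * B.adjugate).trace = A.trace * B.trace - (A * B).trace := by
  simp only [Matrix.trace_fin_two, Matrix.mul_apply, Fin.sum_univ_two, adjugate_fin_two, of_apply,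
    cons_val', cons_val_zero, cons_val_one, cons_val_fin_one]
  ring

/-- `exists_norm`, `Sz.fin`. Apply `exists_part` with `y k = b σ⁻¹ k` to `ρ σ = ∑ o j ρ (s j)`:
`± 4 z b σ i` is an integral combination of the `b (s j) i`. `exists_lattice` for the columns of the
`b (s j) i` (they contain a basis since one `b` is invertible) gives `c i` with `c⁻¹ b σ i` integral for
all `σ`; the columns of `c i` are columns of some `b (s j) i`, so `c⁻¹ b σ i c` is integral. In the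
frame `P * tp c`, `tp c⁻¹ * Q` all `Q' M P'` with `M` integral are integral, so
`‖Q' a b‖ ‖P' c d‖ ≤ 1`; divide `P'` by an entry of maximal norm and multiply `Q'` by it. -/
theorem int_frame (hl : l ≠ 2) (hs : Sz ρ) (f : Fr ν (CM.Om l)) (h : ∀ σ, ∃ a, rO ρ σ = f.T a) :
    ∃ f' : Fr ν (CM.Om l), (∀ i, ∃ c, ∀ x, f'.u i x = f.u i (cj c x)) ∧ Le f'.P 1 ∧ Le f'.Q 1 ∧
      ∀ σ, ∃ a, (∀ i, Le (a i) 1) ∧ rO ρ σ = f'.T a := by
  obtain ⟨z, b, h1, h2, h3⟩ := exists_norm f h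
  obtain ⟨n, s, h4⟩ := hs.fin
  have h5 : ∀ i σ, ∃ o : Fin n → CM.Om l, (∀ j, ‖o j‖ ≤ 1) ∧ b σ i = ∑ j, o j • b (s j) i := by
    intro i σ
    obtain ⟨o, h5, h6⟩ := h4 (rO ρ σ) (le_toOm _)
    obtain ⟨Φ, h7⟩ := exists_part f i fun k => (b σ k).adjugate
    have h8 : ∀ τ k, ‖(b τ k * (b σ k).adjugate).trace‖ ≤ 1 := fun τ k => by
      have h8 := (h2 (τ * σ) k).2
      rw [bint_tr, sub_eq_add_neg]
      refine cmnorm_add ((norm_mul _ _).le.trans
        (mul_le_one₀ (h2 τ k).2 (norm_nonneg _) (h2 σ k).2)) ?_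
      rcases h3 τ σ k with h9 | h9
      · rwa [norm_neg, ← h9]
      · rwa [← trace_neg, ← h9]
    have h9 : ‖z σ * ∏ k ∈ Finset.univ.erase i, (b σ k * (b σ k).adjugate).trace‖ = 1 := by
      rw [norm_mul, (h1 σ).1, one_mul, norm_prod]
      refine Finset.prod_eq_one fun k _ => ?_
      rw [mul_adjugate, (h2 σ k).1, one_smul, trace_one, Fintype.card_fin, Nat.cast_ofNat,
        norm_two hl]
    have h10 := congrArg Φ h6
    simp only [fun τ => (h1 τ).2, map_sum, map_smul, h7, smul_smul, mul_assoc] at h10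
    generalize z σ * ∏ k ∈ Finset.univ.erase i, (b σ k * (b σ k).adjugate).trace = w at h9 h10
    refine ⟨fun j => w⁻¹ * (o j * (z (s j) *
      ∏ k ∈ Finset.univ.erase i, (b (s j) k * (b σ k).adjugate).trace)), fun j => ?_, ?_⟩
    · rw [norm_mul, norm_inv, h9, inv_one, one_mul, norm_mul, norm_mul, (h1 _).1, one_mul]
      exact mul_le_one₀ (h5 j) (norm_nonneg _) (cmnorm_prod _ fun k _ => h8 _ k)
    · simp only [mul_smul w⁻¹]
      rw [← Finset.smul_sum, ← h10, inv_smul_smul₀ (norm_ne_zero_iff.1 (h9.trans_ne one_ne_zero))]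
  choose c hc using fun i =>
    bint_lat (fun σ => b σ i) (fun σ => (h2 σ i).1) (fun σ σ' => h3 σ σ' i) s (h5 i)
  obtain ⟨f₁, h6⟩ := bint_conj f c
  have h7 : ∀ σ, ∃ a, (∀ i, Le (a i) 1) ∧ rO ρ σ = f₁.T a := fun σ => by
    refine ⟨Function.update (fun i => cj (c i)⁻¹ (b σ i)) 0 (z σ • cj (c 0)⁻¹ (b σ 0)),
      fun i => ?_, ?_⟩
    · rcases eq_or_ne i 0 with rfl | hi
      · rw [Function.update_self]
        exact ((hc 0 σ).smul _).mono ((mul_one _).trans (h1 σ).1).le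
      · rw [Function.update_of_ne hi]
        exact hc i σ
    · rw [T_update_smul f₁ fun i => cj (c i)⁻¹ (b σ i), h6, (h1 σ).2]
      refine congrArg (fun a => z σ • f.T a) (funext fun i => ?_)
      simp only [cj, inv_inv, ← Matrix.mul_assoc, Units.mul_inv, Matrix.one_mul]
      rw [Matrix.mul_assoc, Units.mul_inv, Matrix.mul_one]
  obtain ⟨f', h8, h9, h10⟩ := bint_scale f₁ fun p q u v => by
    obtain ⟨o, h8, h9⟩ := h4 (single q u 1) fun i j => by
      rw [single_apply]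
      split_ifs <;> simp
    have h10 : Le (f₁.Q * single q u (1 : CM.Om l) * f₁.P) 1 := by
      rw [h9, Matrix.mul_sum, Matrix.sum_mul]
      simp only [Matrix.mul_smul, Matrix.smul_mul]
      refine bint_comb h8 fun j x y => ?_
      obtain ⟨a, h10, h11⟩ := h7 (s j)
      rw [h11, f₁.QTP, tp_apply]
      exact cmnorm_prod _ fun k _ => h10 k _ _
    simpa [Matrix.mul_apply, single_apply, ite_and] using h10 p v
  refine ⟨f', fun i => ⟨c i, fun x => ?_⟩, h9, h10, fun σ => ?_⟩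
  · rw [Fr.u_apply, Fr.u_apply, h8, h6]
    refine congrArg f.T (funext fun k => ?_)
    rcases eq_or_ne k i with rfl | hk
    · rw [Function.update_self, Function.update_self]
    · rw [Function.update_of_ne hk, Function.update_of_ne hk, Pi.one_apply, cj, Matrix.mul_one,
        Units.mul_inv]
  · simp only [h8]
    exact h7 σ

end M5
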