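import Pool.Agent.Lib.MP_33b3f9_ag.M5.SDefs
import Pool.Agent.Lib.MP_33b3f9_ag.M5.ALim
import Pool.Agent.Lib.MP_33b3f9_ag.M5.BInt

/-!
The action of the local Galois group on the slots.
-/

set_option autoImplicit false

noncomputable section

namespace M5

open Matrix Polynomial NumberField M4 M4.CM Pool.Agent.M4.Mx Pool.Agent.Lib.MP_33b3f9_ag

section aux

variable {R : Type} [CommRing R]

theorem bgal_trace (c : GL (Fin 2) R) (x : M2 R) : (cj c x).trace = x.trace := by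
  rw [cj, Matrix.trace_mul_cycle, Units.inv_mul, Matrix.one_mul]

theorem bgal_det (c : GL (Fin 2) R) (x : M2 R) : (cj c x).det = x.det := det_units_conj c x

theorem bgal_inv (c : GL (Fin 2) R) (x : M2 R) : cj c (cj c⁻¹ x) = x := by
  simp only [cj, inv_inv, Matrix.mul_assoc, Units.mul_inv, Matrix.mul_one]
  rw [← Matrix.mul_assoc, Units.mul_inv, Matrix.one_mul]

theorem bgal_map {S : Type} [CommRing S] (f : Fr ν R) (φ : R →+* S) (i : Fin 3) (x : M2 R) :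
    (f.u i x).map φ = (f.map φ).u i (x.map φ) := by
  rw [Fr.u_apply, Fr.u_apply, Fr.map_T]
  congr 1
  funext s
  by_cases h : s = i
  · rw [h, Function.update_self, Function.update_self]
  · rw [Function.update_of_ne h, Function.update_of_ne h]
    exact Matrix.map_one _ (map_zero φ) (map_one φ)

theorem bgal_bas {S : Type} [CommRing S] (φ : R →+* S) (v : Fin 4) :
    (bas R v).map φ = bas S v := by
  ext i j
  fin_cases v <;> fin_cases i <;> fin_cases j <;> simp [bas]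

theorem bgal_perm (f : Fr ν R) (π : Equiv.Perm (Fin 3)) (y : Fin 3 → M2 R) :
    f.u (π 0) (y 0) * f.u (π 1) (y 1) * f.u (π 2) (y 2) = f.T fun k => y (π.symm k) := by
  rw [Fr.u_apply, Fr.u_apply, Fr.u_apply, Fr.T_mul, Fr.T_mul]
  congr 1
  funext k
  obtain ⟨j, rfl⟩ := π.surjective k
  fin_cases j <;> simp

theorem bgal_tv {Ω : Type} [Field Ω] {s : Ω} (hs : s ≠ 0) (x : M2 Ω) : tv (s • x) = tv x := by
  rw [tv, tv, trace_smul, det_smul, Fintype.card_fin, smul_eq_mul, mul_pow,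
    mul_div_mul_left _ _ (pow_ne_zero 2 hs)]

end aux

variable {Γ : Type} [Group Γ] {l : ℕ} [Fact l.Prime] {ρ : Γ →* GL ν ℤ_[l]} {f : Fr ν (CM.Om l)}

/-- `MxSl_tr`. -/
theorem Cu.of_cj {Ω : Type} [Field Ω] [CharZero Ω] {f f' : Fr ν Ω} {g : Submodule Ω (Matrix ν ν Ω)}
    (h : Cu f g) (h' : ∀ i, ∃ c, ∀ x, f'.u i x = f.u i (cj c x)) : Cu f' g := by
  choose c hc using h'
  refine ⟨le_trans (Submodule.span_le.2 ?_) h.1, h.2.trans (iSup_le fun i => ?_)⟩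
  · rintro _ ⟨⟨i, v⟩, rfl⟩
    have h1 : (bas Ω v.succ).trace = 0 := by
      fin_cases v <;> simp [bas]
    rw [← bgal_trace (c i), trace_fin_two] at h1
    have h2 := MxSl_tr f i _ (eq_neg_of_add_eq_zero_right h1)
    rwa [← hc] at h2
  · rintro _ ⟨x, rfl⟩
    have h1 := f'.u_mem_m i (cj (c i)⁻¹ x)
    rwa [hc, bgal_inv] at h1

/-- `cmp f (f.map θ)`, `lie_gal`, `Fr.map_T`. -/
theorem Cu.gal {U : Subgroup Γ} (h : Cu f (lie ρ U)) (θ : CM.Om l ≃ₐ[ℚ_[l]] CM.Om l) :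
    ∃ π : Equiv.Perm (Fin 3), ∀ i, Gal f θ i (π i) := by
  obtain ⟨π, c, hc⟩ := cmp f (f.map (θ : CM.Om l →+* CM.Om l)) (Submodule.span_le.2 (by
    rintro _ ⟨⟨i, v⟩, rfl⟩
    have h1 := h.2 (lie_gal θ (h.1 (Submodule.subset_span ⟨(i, v), rfl⟩)))
    have h2 := bgal_map f (θ : CM.Om l →+* CM.Om l) i (bas _ v.succ)
    rw [bgal_bas] at h2
    exact Set.mem_of_eq_of_mem h2.symm h1))
  exact ⟨π, fun i => ⟨c i, fun x => (bgal_map f (θ : CM.Om l →+* CM.Om l) i x).trans (hc i _)⟩⟩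

/-- `T h = (T h).map θ = T (fun k => cj (c (π⁻¹ k)) ((h (π⁻¹ k)).map θ))` (`T_eq`, `u_comm`), and
`T_unique`. -/
theorem gal_T {θ : CM.Om l ≃ₐ[ℚ_[l]] CM.Om l} {π : Equiv.Perm (Fin 3)} (hπ : ∀ i, Gal f θ i (π i))
    {h : Fin 3 → M2 (CM.Om l)} (h1 : (f.T h).map θ = f.T h) (h0 : ∀ i, h i ≠ 0) (i : Fin 3) :
    θ (tv (h i)) = tv (h (π i)) ∧
      ∃ s : CM.Om l, (f.u i (h i)).map θ = s • f.u (π i) (h (π i)) := by
  choose c hc using hπ
  have h2 : f.T h = f.T fun k => cj (c (π.symm k)) ((h (π.symm k)).map θ) := by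
    rw [← bgal_perm f π fun k => cj (c k) ((h k).map θ), ← hc, ← hc, ← hc, ← h1, Fr.T_eq]
    exact (Matrix.map_mul (f := (θ : CM.Om l →+* CM.Om l))).trans
      (congrArg (· * _) (Matrix.map_mul (f := (θ : CM.Om l →+* CM.Om l))))
  obtain ⟨s, hs, h3⟩ := T_unique f h2 h0 (π i)
  rw [Equiv.symm_apply_apply] at h3
  refine ⟨?_, s, by rw [hc, h3, map_smul]⟩
  rw [← bgal_tv hs (h (π i)), ← h3, tv, tv, bgal_trace, bgal_det, map_div₀, map_pow,
    trace_fin_two, trace_fin_two, det_fin_two, det_fin_two]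
  simp

/-- `u i x` is integral with determinant of norm one, so it has an entry `y` of norm one; divide. -/
theorem norm_fix (hP : Le f.P 1) (hQ : Le f.Q 1) (i : Fin 3) {x : M2 (CM.Om l)} (h1 : Le x 1)
    (h2 : ‖x.det‖ = 1) : ∃ y : CM.Om l, ‖y‖ = 1 ∧ ∀ θ : CM.Om l ≃ₐ[ℚ_[l]] CM.Om l,
      (∃ s : CM.Om l, (f.u i x).map θ = s • f.u i x) → (f.u i (y • x)).map θ = f.u i (y • x) := by
  have h3 : ∀ z : M2 (CM.Om l), Le z 1 → Le (f.u i z) 1 := fun z hz =>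
    Le.T hP hQ fun s => by
      by_cases h : s = i
      · rwa [h, Function.update_self]
      · rw [Function.update_of_ne h]
        exact Le.one
  obtain ⟨⟨a, b⟩, -, hm⟩ := Finset.exists_max_image Finset.univ
    (fun p : ν × ν => ‖f.u i x p.1 p.2‖) Finset.univ_nonempty
  have h4 := Le.mul (A := f.u i x) (fun a' b' => hm (a', b') (Finset.mem_univ _))
    (h3 _ h1.adjugate) (norm_nonneg _) zero_le_one a a
  rw [← map_mul, mul_adjugate, map_smul, map_one, Matrix.smul_apply, one_apply_eq, smul_eq_mul,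
    mul_one, mul_one, h2] at h4
  have h5 : ‖f.u i x a b‖ = 1 := le_antisymm (h3 x h1 a b) h4
  have h6 : f.u i x a b ≠ 0 := norm_pos_iff.1 (h5 ▸ one_pos)
  refine ⟨(f.u i x a b)⁻¹, by rw [norm_inv, h5, inv_one], fun θ ⟨s, hs⟩ => ?_⟩
  have h7 : ∀ a' b', θ (f.u i x a' b') = s * f.u i x a' b' := fun a' b' =>
    congrFun (congrFun hs a') b'
  have h8 : s ≠ 0 := left_ne_zero_of_mul (h7 a b ▸ (map_ne_zero θ).2 h6)
  ext a' b'
  rw [map_smul, Matrix.map_apply, Matrix.smul_apply, smul_eq_mul, map_mul, map_inv₀, h7, h7]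
  field_simp

/-- `int_frame`, `Cu.of_cj`, `Cu.gal`. -/
theorem exists_cb (hl : l ≠ 2) (hs : Sz ρ) (h1 : Cu f (lie ρ ⊤)) (h2 : ∀ σ, ∃ a, rO ρ σ = f.T a) :
    ∃ f', Cb ρ f' := by
  obtain ⟨f', h3, h4, h5, h6⟩ := int_frame hl hs f h2
  exact ⟨f', h4, h5, h6, (h1.of_cj h3).gal⟩

end M5
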