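import Pool.Agent.Lib.MP_33b3f9_ag.M5.ADefs
import Pool.Agent.Lib.MP_33b3f9_ag.M4.CmDq

/-!
The seventh symmetric power does not occur.
-/

set_option autoImplicit false

noncomputable section

namespace M5

open Matrix Polynomial NumberField M4 M4.CM Pool.Agent.M4.Mx Pool.Agent.Lib.MP_33b3f9_ag

theorem bgp_diagonalise {n Ω : Type} [Fintype n] [DecidableEq n] [Field Ω] {g : Matrix n n Ω}
    {a : n → Ω} (hc : g.charpoly = ∏ i, (X - C (a i))) (hi : Function.Injective a) :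
    ∃ T T' : Matrix n n Ω, T * T' = 1 ∧ T' * T = 1 ∧ g * T = T * diagonal a := by
  have h1 : ∀ i, ∃ v : n → Ω, v ≠ 0 ∧ g *ᵥ v = a i • v := by
    intro i
    have h2 : (Matrix.scalar n (a i) - g).det = 0 := by
      rw [← Matrix.eval_charpoly, hc, eval_prod]
      exact Finset.prod_eq_zero (Finset.mem_univ i) (by simp)
    obtain ⟨v, hv, h3⟩ := Matrix.exists_mulVec_eq_zero_iff.2 h2
    refine ⟨v, hv, ?_⟩
    rw [sub_mulVec, sub_eq_zero, scalar_apply] at h3
    rw [← h3]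
    ext j
    rw [mulVec_diagonal, Pi.smul_apply, smul_eq_mul]
  choose v hv0 hv using h1
  have h4 : LinearIndependent Ω v :=
    Module.End.eigenvectors_linearIndependent' (Matrix.toLin' g) a hi v fun i =>
      ⟨Module.End.mem_eigenspace_iff.2 (hv i), hv0 i⟩
  obtain ⟨u, hu⟩ := (Matrix.linearIndependent_cols_iff_isUnit (A := (Matrix.of v)ᵀ)).1 h4
  refine ⟨(Matrix.of v)ᵀ, (u⁻¹ : (Matrix n n Ω)ˣ), hu ▸ u.mul_inv, hu ▸ u.inv_mul, ?_⟩
  ext i j
  rw [mul_diagonal, transpose_apply, of_apply, mul_comm]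
  exact congrFun (hv j) i

theorem bgp_diag {n Ω : Type} [Fintype n] [DecidableEq n] [Field Ω] (a : n → Ω)
    (ha0 : ∀ i, a i ≠ 0) (hr : ∀ i j, i ≠ j → ∀ k : ℕ, k ≠ 0 → a i ^ k ≠ a j ^ k)
    (hn8 : Fintype.card n = 8) (s : Submodule Ω (Matrix n n Ω))
    (h7 : ∀ x ∈ s, x ≠ 0 → x ^ 7 ≠ 0) (hc : ∃ x ∈ s, ∃ y ∈ s, x * y ≠ y * x)
    (hn : ∀ x ∈ s, diagonal a * x * (diagonal fun i => (a i)⁻¹) ∈ s) :
    ∃ β u : Ω, u ^ 8 ≠ 1 ∧ ∏ i, (X - C (a i)) = ∏ j : Fin 8, (X - C (β * u ^ (j : ℕ))) := by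
  classical
  obtain ⟨x, hx, i₀, j₀, hij, hx0⟩ : ∃ x ∈ s, ∃ i j, i ≠ j ∧ x i j ≠ 0 := by
    by_contra h
    push Not at h
    obtain ⟨x, hx, y, hy, hxy⟩ := hc
    have h1 : ∀ z ∈ s, diagonal (diag z) = z := fun z hz =>
      Matrix.IsDiag.diagonal_diag fun i j hij => h z hz i j hij
    apply hxy
    rw [← h1 x hx, ← h1 y hy, diagonal_mul_diagonal, diagonal_mul_diagonal]
    exact congrArg diagonal (funext fun i => mul_comm _ _)
  set u := a i₀ * (a j₀)⁻¹ with hu
  have key : ∀ S : Finset Ω, u ∉ S →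
      ∃ y ∈ s, y i₀ j₀ ≠ 0 ∧ ∀ i j, a i * (a j)⁻¹ ∈ S → y i j = 0 := by
    intro S
    induction S using Finset.induction_on with
    | empty => exact fun _ => ⟨x, hx, hx0, fun i j h => absurd h (Finset.notMem_empty _)⟩
    | insert c S _ ih =>
      intro hS
      rw [Finset.mem_insert, not_or] at hS
      obtain ⟨y, hy, h1, h2⟩ := ih hS.2
      have h3 : ∀ i j, (diagonal a * y * (diagonal fun i => (a i)⁻¹) - c • y) i j =
          (a i * (a j)⁻¹ - c) * y i j := by
        intro i j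
        rw [Matrix.sub_apply, mul_diagonal, diagonal_mul, Matrix.smul_apply, smul_eq_mul]
        ring
      refine ⟨_, s.sub_mem (hn y hy) (s.smul_mem c hy), ?_, fun i j hij => ?_⟩
      · rw [h3]
        exact mul_ne_zero (sub_ne_zero.2 hS.1) h1
      · rw [h3]
        rcases Finset.mem_insert.1 hij with h | h
        · rw [h, sub_self, zero_mul]
        · rw [h2 i j h, mul_zero]
  obtain ⟨y, hy, hy0, hy1⟩ := key
    ((Finset.univ.image fun p : n × n => a p.1 * (a p.2)⁻¹).erase u) (Finset.notMem_erase _ _)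
  have hy2 : ∀ i j, y i j ≠ 0 → a i = a j * u := by
    intro i j h
    by_contra h1
    refine h (hy1 i j (Finset.mem_erase.2 ⟨fun h2 => h1 ?_,
      Finset.mem_image.2 ⟨(i, j), Finset.mem_univ _, rfl⟩⟩))
    rw [← h2, mul_left_comm, mul_inv_cancel₀ (ha0 j), mul_one]
  have hy3 : ∀ (k : ℕ) i j, (y ^ k) i j ≠ 0 → a i = a j * u ^ k := by
    intro k
    induction k with
    | zero =>
      intro i j h
      by_cases hij : i = j
      · rw [hij, pow_zero, mul_one]
      · exact absurd (one_apply_ne hij) h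
    | succ k ih =>
      intro i j h
      rw [pow_succ', mul_apply] at h
      obtain ⟨m, -, hm⟩ := Finset.exists_ne_zero_of_sum_ne_zero h
      rw [hy2 i m (left_ne_zero_of_mul hm), ih m j (right_ne_zero_of_mul hm), pow_succ, mul_assoc]
  have hu1 : ∀ k : ℕ, k ≠ 0 → u ^ k ≠ 1 := by
    intro k hk h
    refine hr i₀ j₀ hij k hk ?_
    rwa [hu, mul_pow, inv_pow, mul_inv_eq_one₀ (pow_ne_zero k (ha0 j₀))] at h
  have hu0 : u ≠ 0 := mul_ne_zero (ha0 _) (inv_ne_zero (ha0 _))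
  obtain ⟨i, j, h⟩ : ∃ i j, (y ^ 7) i j ≠ 0 := by
    by_contra h
    push Not at h
    exact h7 y hy (fun h0 => hy0 (by rw [h0]; rfl)) (Matrix.ext h)
  have h4 : ∀ k : Fin 8, ∃ m, a m = a j * u ^ (k : ℕ) := by
    intro k
    rw [show 7 = (7 - (k : ℕ)) + k by omega, pow_add, mul_apply] at h
    obtain ⟨m, -, hm⟩ := Finset.exists_ne_zero_of_sum_ne_zero h
    exact ⟨m, hy3 k m j (right_ne_zero_of_mul hm)⟩
  choose f hf using h4
  have hlt : ∀ k l : Fin 8, k < l → f k ≠ f l := by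
    intro k l hkl h5
    have h6 := hf k
    rw [h5, hf l, show (l : ℕ) = k + (l - k) by omega, pow_add] at h6
    refine hu1 (l - k) (by omega) (mul_left_cancel₀ (pow_ne_zero k hu0) ?_)
    rw [mul_left_cancel₀ (ha0 j) h6, mul_one]
  have hinj : Function.Injective f := fun k l h5 => by
    rcases lt_trichotomy k l with h6 | h6 | h6
    · exact absurd h5 (hlt k l h6)
    · exact h6
    · exact absurd h5.symm (hlt l k h6)
  have hb : Function.Bijective f :=
    (Fintype.bijective_iff_injective_and_card f).2 ⟨hinj, by rw [hn8, Fintype.card_fin]⟩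
  refine ⟨a j, u, hu1 8 (by norm_num), ?_⟩
  rw [← hb.prod_comp fun i => X - C (a i)]
  exact Finset.prod_congr rfl fun k _ => by rw [hf k]

/-- Let `φ X = g X g⁻¹` on `s`. `g` has eight distinct eigenvalues `a i`, so it is diagonalisable
(the eigenvectors form a basis; `cmDq_interp`, or `Module.End.eigenspaces_iSupIndep`). If `φ = 1` on `s`,
`s` consists of diagonal matrices and is commutative. Otherwise the image of `φ - 1` on `s` is a
nonzero stable subspace, it contains an eigenvector `x` of `φ`, with eigenvalue `u`, and `u ≠ 1` because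
`φ` is diagonal on the elementary matrices; `u = a i / a j`, so `u ^ k ≠ 1` for `k ≠ 0` (`Reg`, `Dq_eq`).
As `x ^ 7 ≠ 0` some eigenvector `v` of `g` has `x ^ 7 v ≠ 0`, and the `x ^ j v` are eigenvectors for the
eight distinct values `β u ^ j`. -/
theorem gp {Ω : Type} [Field Ω] [IsAlgClosed Ω] [CharZero Ω] {g g' : Matrix ν ν Ω} (hg : g * g' = 1)
    {s : Submodule Ω (Matrix ν ν Ω)} (hs : Sym7 s) (hn : ∀ x ∈ s, g * x * g' ∈ s) (hr : Reg g) :
    ∃ β u : Ω, u ^ 8 ≠ 1 ∧ g.charpoly = ∏ j : Fin 8, (X - C (β * u ^ (j : ℕ))) := by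
  obtain ⟨a₀, ha₀⟩ := exists_roots8 g
  let e : ν ≃ Fin 8 := finSumFinEquiv
  have hc : g.charpoly = ∏ i, (X - C (a₀ (e i))) := by
    rw [ha₀]
    exact (e.prod_comp fun i => X - C (a₀ i)).symm
  have hreg : ∀ i j : ν, i ≠ j → ∀ k : ℕ, k ≠ 0 → a₀ (e i) ^ k ≠ a₀ (e j) ^ k := by
    intro i j hij k hk h
    have h1 := hr k hk
    rw [cmDq_van g a₀ ha₀, ne_eq, pow_eq_zero_iff two_ne_zero, ← ne_eq,
      det_vandermonde_ne_zero_iff] at h1
    refine hij (e.injective (h1 ?_))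
    beta_reduce
    rw [← pow_mul, ← pow_mul, mul_comm 2 k, pow_mul, pow_mul, h]
  obtain ⟨T, T', hT, hT', hgT⟩ := bgp_diagonalise hc
    fun i j h => by_contra fun hij => hreg i j hij 1 one_ne_zero (by rw [pow_one, pow_one]; exact h)
  set a : ν → Ω := fun i => a₀ (e i) with ha
  have hg1 : T' * g = diagonal a * T' := by
    rw [← Matrix.mul_one (T' * g), ← hT, ← Matrix.mul_assoc, Matrix.mul_assoc T', hgT,
      ← Matrix.mul_assoc, hT', Matrix.one_mul]
  have h1 : diagonal a * (T' * g' * T) = 1 := by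
    rw [← Matrix.mul_assoc, ← Matrix.mul_assoc, ← hg1, Matrix.mul_assoc T', hg, Matrix.mul_one, hT']
  have ha0 : ∀ i, a i ≠ 0 := by
    intro i hi
    have h2 := congrFun (congrFun h1 i) i
    rw [diagonal_mul, hi, zero_mul, one_apply_eq] at h2
    exact zero_ne_one h2
  have h2 : T' * g' * T = diagonal fun i => (a i)⁻¹ := by
    have h3 : (diagonal fun i => (a i)⁻¹) * diagonal a = 1 := by
      rw [diagonal_mul_diagonal, ← diagonal_one]
      exact congrArg diagonal (funext fun i => inv_mul_cancel₀ (ha0 i))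
    rw [← Matrix.one_mul (T' * g' * T), ← h3, Matrix.mul_assoc, h1, Matrix.mul_one]
  let ψ : Matrix ν ν Ω →ₐ[Ω] Matrix ν ν Ω :=
    { toFun := fun x => T' * x * T
      map_one' := by rw [Matrix.mul_one, hT']
      map_mul' := fun x y => by
        simp only [Matrix.mul_assoc]
        rw [← Matrix.mul_assoc T, hT, Matrix.one_mul]
      map_zero' := by rw [Matrix.mul_zero, Matrix.zero_mul]
      map_add' := fun x y => by rw [Matrix.mul_add, Matrix.add_mul]
      commutes' := fun c => by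
        rw [Algebra.algebraMap_eq_smul_one, Matrix.mul_smul, Matrix.smul_mul, Matrix.mul_one, hT'] }
  have hψ : Function.Injective ψ := ψ.toRingHom.injective
  have hψg : ψ g = diagonal a := by
    change T' * g * T = _
    rw [hg1, Matrix.mul_assoc, hT', Matrix.mul_one]
  rw [hc]
  refine bgp_diag a ha0 hreg (by simp) (s.map ψ.toLinearMap) ?_ ?_ ?_
  · rintro _ ⟨x, hx, rfl⟩ h0 h7
    refine hs.1 x hx (fun h => h0 (by rw [h, map_zero])) (hψ ?_)
    rw [map_pow, map_zero]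
    exact h7
  · obtain ⟨x, hx, y, hy, hxy⟩ := hs.2.1
    refine ⟨ψ x, ⟨x, hx, rfl⟩, ψ y, ⟨y, hy, rfl⟩, fun h => hxy ?_⟩
    rw [← map_mul, ← map_mul] at h
    rw [br, hψ h, sub_self]
  · rintro _ ⟨x, hx, rfl⟩
    refine ⟨_, hn x hx, ?_⟩
    change ψ (g * x * g') = diagonal a * ψ x * _
    rw [map_mul, map_mul, hψg, ← h2]
    rfl

end M5
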