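import Pool.Agent.Lib.MP_33b3f9_ag.M5.BIrrA

/-!
The invariants of a Frobenius are irrational.
-/

set_option autoImplicit false

noncomputable section

namespace M5

open Matrix Polynomial NumberField M4 M4.CM Pool.Agent.M4.Mx Pool.Agent.Lib.MP_33b3f9_ag

theorem birr_trace {Ω : Type} [Field Ω] (x : M2 Ω) {a b : Ω} (h1 : a + b = x.trace)
    (h2 : a * b = x.det) (n : ℕ) : a ^ n + b ^ n = (x ^ n).trace := by
  have h3 : x ^ 2 = (a + b) • x - (a * b) • (1 : M2 Ω) := by
    rw [h1, h2, trace_fin_two, det_fin_two]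
    ext i j
    fin_cases i <;> fin_cases j <;> simp [pow_two, Matrix.mul_apply, Fin.sum_univ_two] <;> ring
  induction n using Nat.twoStepInduction with
  | zero => simp [one_add_one_eq_two]
  | one => simpa using h1
  | more n ih ih' =>
    rw [pow_add x, h3, mul_sub, mul_smul_comm, mul_smul_comm, mul_one, ← pow_succ, trace_sub,
      trace_smul, trace_smul, ← ih, ← ih', smul_eq_mul, smul_eq_mul]
    ring

/-- `CmCubeB_eig`, `charpoly_T`, `descend` (for the index set `κ`), `u i = b (single i 1) / b 0`;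
`CmCubeB_one` for the powers (`T_pow`, `Dq_ne_iff`). -/
theorem tv_irr {Ω : Type} [Field Ω] [IsAlgClosed Ω] [CharZero Ω] (f : Fr ν Ω) (h : Fin 3 → M2 Ω)
    {p : ℕ} (hp : p.Prime) (h65 : 65 ≤ p) {P : ℤ[X]} (hm : P.Monic)
    (hw : ∀ z : ℂ, aeval z P = 0 → ‖z‖ ^ 2 = p)
    (hc : (f.T h).charpoly = P.map (Int.castRingHom Ω)) (hd : ∏ i, (h i).det = p)
    (hr : Reg (f.T h)) (i : Fin 3) (q : ℚ) : tv (h i) ≠ q := by
  intro hq
  obtain ⟨μ, h1, h2⟩ := CmCubeB_eig h
  have hp0 : (p : Ω) ≠ 0 := Nat.cast_ne_zero.2 hp.ne_zero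
  have hd0 : ∀ k, μ k 0 * μ k 1 ≠ 0 := fun k => by
    rw [h2]
    exact Finset.prod_ne_zero_iff.1 (hd ▸ hp0) k (Finset.mem_univ k)
  have h0 : ∀ k, μ k 0 ≠ 0 := fun k => left_ne_zero_of_mul (hd0 k)
  obtain ⟨j, b, hb, hP⟩ := descend P _ (hc.symm.trans (charpoly_T f h μ h1 h2))
  have hβ : j (b 0) = ∏ k, μ k 0 := hb 0
  have hu : ∀ k, j (b (Pi.single k 1) / b 0) = μ k 1 / μ k 0 := fun k => by
    have h3 : ∏ l ∈ Finset.univ.erase k, μ l 0 ≠ 0 := Finset.prod_ne_zero_iff.2 fun l _ => h0 l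
    rw [map_div₀, hβ, hb, ← Finset.mul_prod_erase _ _ (Finset.mem_univ k),
      ← Finset.mul_prod_erase _ (fun l => μ l 0) (Finset.mem_univ k), Pi.single_eq_same,
      Finset.prod_congr rfl fun l hl => by
        rw [Pi.single_eq_of_ne (Finset.ne_of_mem_erase hl)], mul_div_mul_right _ _ h3]
  refine irr_core hp h65 hm hw (b 0) (fun k => b (Pi.single k 1) / b 0) ?_ ?_ ?_ i q ?_
  · rw [hP]
    refine Finset.prod_congr rfl fun ε _ => ?_
    congr 2
    apply j.injective
    rw [hb, map_mul, hβ, map_prod, ← Finset.prod_mul_distrib]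
    refine Finset.prod_congr rfl fun k _ => ?_
    rw [map_pow, hu]
    have h3 := h0 k
    generalize ε k = a
    fin_cases a
    · simp
    · simp [mul_div_cancel₀ _ h3]
  · apply j.injective
    rw [map_mul, map_pow, hβ, map_prod, map_natCast, ← hd, ← Finset.prod_pow,
      ← Finset.prod_mul_distrib]
    refine Finset.prod_congr rfl fun k _ => ?_
    have h3 := h0 k
    rw [hu, ← h2]
    field_simp
  · intro k n hn h3
    have h4 := hr n hn
    rw [Dq_ne_iff, T_pow] at h4
    refine CmCubeB_one (μ := fun l a => μ l a ^ n) (CmCubeB_inj f (fun l => h l ^ n)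
      (μ := fun l a => μ l a ^ n) (fun l => birr_trace _ (h1 l) (h2 l) n)
      (fun l => by rw [← mul_pow, h2, det_pow]) h4) k ?_
    have h5 := congrArg j h3
    rw [map_pow, hu, map_one, div_pow, div_eq_one_iff_eq (pow_ne_zero _ (h0 k))] at h5
    simp only [h5]
  · apply j.injective
    have h3 := h0 i
    have h4 : μ i 1 ≠ 0 := right_ne_zero_of_mul (hd0 i)
    rw [map_pow, map_add, map_mul, hu, map_one, map_ratCast, ← hq, tv, ← h1, ← h2]
    field_simp

end M5
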