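import Pool.Agent.Lib.MP_33b3f9_ag.M5.BFrob
import Pool.Agent.Lib.MP_33b3f9_ag.M4.CmEmb
import Pool.Agent.Lib.MP_33b3f9_ag.M4.CmCubeB

/-!
The invariants of a Frobenius are irrational.
-/

set_option autoImplicit false

noncomputable section

namespace M5

open Matrix Polynomial NumberField M4 M4.CM Pool.Agent.M4.Mx Pool.Agent.Lib.MP_33b3f9_ag

/-- `isIntegral_of_le` in the number field generated by `u`, `exists_j`;
`NumberField.Embeddings.pow_eq_one_of_norm_eq_one`. -/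
theorem kron {u : Qb} (h1 : ∀ (l : ℕ) [Fact l.Prime] (j : Qb →+* CM.Om l), ‖j u‖ ≤ 1)
    (h2 : ∀ j : Qb →+* ℂ, ‖j u‖ = 1) : ∃ n : ℕ, n ≠ 0 ∧ u ^ n = 1 := by
  have hi : IsIntegral ℚ u := ((AlgebraicClosure.isAlgebraic ℚ).isAlgebraic u).isIntegral
  let F := IntermediateField.adjoin ℚ {u}
  have : FiniteDimensional ℚ F := IntermediateField.adjoin.finiteDimensional hi
  have : NumberField F := {}
  let x : F := ⟨u, IntermediateField.mem_adjoin_simple_self ℚ u⟩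
  obtain ⟨n, hn, hx⟩ := NumberField.Embeddings.pow_eq_one_of_norm_eq_one F ℂ (x := x)
    (isIntegral_of_le fun l _ ι => by
      obtain ⟨j, hj⟩ := exists_j (algebraMap F Qb) ι
      rw [← hj]
      exact h1 l j) fun ι => by
      obtain ⟨j, hj⟩ := exists_j (algebraMap F Qb) ι
      rw [← hj]
      exact h2 j
  exact ⟨n, hn.ne', by simpa using congrArg (algebraMap F Qb) hx⟩

theorem birra_single (x : Fin 3 → ℝ) (k : Fin 3) :
    ∏ i, x i ^ ((Pi.single k 1 : κ) i : ℕ) = x k := by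
  rw [Finset.prod_eq_single k (fun i _ hi => by simp [hi]) (by simp)]
  simp

theorem birra_eq {f g : Fin 3 → ℝ} (h0 : ∀ i, 0 < f i) (h1 : ∀ i, f i ≤ g i)
    (h2 : ∏ i, g i ≤ ∏ i, f i) (i : Fin 3) : f i = g i :=
  (h1 i).antisymm (not_lt.1 fun h => h2.not_gt
    (Finset.prod_lt_prod (fun k _ => h0 k) (fun k _ => h1 k) ⟨i, Finset.mem_univ i, h⟩))

theorem birra_max {x : ℝ} (h : max 1 x ^ 2 ≤ x) : x = 1 := by
  rcases le_total 1 x with h1 | h1
  · rw [max_eq_right h1] at h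
    nlinarith
  · rw [max_eq_left h1] at h
    linarith

theorem birra_real {p c y : ℝ} (hp : 0 < p) {x s : Fin 3 → ℝ} {i : Fin 3} (hy : 0 ≤ y)
    (hx : ∀ k, 0 < x k) (hs : ∀ k, 0 ≤ s k) (h1 : ∀ k, s k ≤ max 1 (x k)) (h2 : y * ∏ k, s k = 1)
    (h3 : ∀ ε : κ, y * ∏ k, x k ^ (ε k : ℕ) ≤ 1) (h4 : y ^ 2 * ∏ k, x k = p⁻¹)
    (h5 : s i ^ 2 = c * x i) : (c ≤ 1 → x i = 1) ∧ (p ≤ c → ∀ k, k ≠ i → x k = 1) := by
  have hne : y * ∏ k, s k ≠ 0 := h2 ▸ one_ne_zero
  have hy' : 0 < y := hy.lt_of_ne' (left_ne_zero_of_mul hne)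
  have h6 := h3 fun k => if 1 ≤ x k then 1 else 0
  rw [Finset.prod_congr rfl (g := fun k => max 1 (x k)) fun k _ => by
    split_ifs with h
    · simp [h]
    · simp [(not_le.1 h).le]] at h6
  have h7 := birra_eq (fun k => (hs k).lt_of_ne' (Finset.prod_ne_zero_iff.1
    (right_ne_zero_of_mul hne) k (Finset.mem_univ k))) h1 (le_of_mul_le_mul_left (h6.trans h2.ge) hy')
  refine ⟨fun hc => birra_max ?_, fun hc k hk => birra_max ?_⟩
  · rw [← h7, h5]
    exact mul_le_of_le_one_left (hx i).le hc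
  · have h8 := birra_eq (f := fun k => (if k = i then p else 1) * x k) (g := fun k => s k ^ 2)
      (fun k => mul_pos (by split_ifs <;> simp [hp]) (hx k)) (fun k => by
        split_ifs with h
        · rw [h, h5]
          exact mul_le_mul_of_nonneg_right hc (hx i).le
        · rw [h7]
          nlinarith [le_max_left 1 (x k), le_max_right 1 (x k)]) (by
        rw [Finset.prod_mul_distrib, Finset.prod_pow, Finset.prod_ite_eq', if_pos (Finset.mem_univ _)]
        refine le_of_mul_le_mul_left (le_of_eq ?_) (pow_pos hy' 2)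
        rw [← mul_pow, h2, mul_left_comm, h4, mul_inv_cancel₀ hp.ne', one_pow]) k
    rw [if_neg hk, one_mul, h7] at h8
    exact h8.ge

/-- The roots are `b ε = β ∏ u i ^ ε i`, `β ^ 2 ∏ u i = p`, `t i = (1 + u i) ^ 2 / u i`. At `l ≠ p` all roots
are units (opposite roots have product `p`), so the `u i` are units. At `p`, for each `j`: the sum of
the roots is an integer `a ≠ 0` with `a ^ 2 ≤ 64 p`, so some root has norm one, the opposite one has norm
`1 / p`, and all norms lie between; so `∏ max (x i) (x i)⁻¹ = p` for `x i = ‖j (u i)‖`. Moreover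
`‖t i‖ = max (x i) (x i)⁻¹` if `x i ≠ 1`, and `‖t i‖ ≤ 1` otherwise. If `t i = q` is rational with
`‖q‖ ≤ 1` then `x i = 1` for all `j`; otherwise `‖q‖ ≥ p` and `x k = 1` for `k ≠ i` and all `j`. In both
cases `kron` gives a root of unity. -/
theorem irr_core {p : ℕ} (hp : p.Prime) (h65 : 65 ≤ p) {P : ℤ[X]} (hm : P.Monic)
    (hw : ∀ z : ℂ, aeval z P = 0 → ‖z‖ ^ 2 = p) (β : Qb) (u : Fin 3 → Qb)
    (h : P.map (Int.castRingHom Qb) = ∏ ε : κ, (X - C (β * ∏ i, u i ^ (ε i : ℕ))))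
    (hd : β ^ 2 * ∏ i, u i = p) (hu : ∀ i (n : ℕ), n ≠ 0 → u i ^ n ≠ 1) (i : Fin 3) (q : ℚ) :
    (1 + u i) ^ 2 ≠ q * u i := by
  intro hq
  have : Fact p.Prime := ⟨hp⟩
  have hp0 : (0 : ℝ) < p := by exact_mod_cast hp.pos
  have hr : ∀ ε : κ, aeval (β * ∏ i, u i ^ (ε i : ℕ)) P = 0 := fun ε => by
    rw [aeval_def, ← eval_map, RingHom.ext_int (algebraMap ℤ Qb) (Int.castRingHom Qb), h, eval_prod]
    exact Finset.prod_eq_zero (Finset.mem_univ ε) (by rw [eval_sub, eval_X, eval_C, sub_self])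
  have hb : ∀ (l : ℕ) [Fact l.Prime] (j : Qb →+* CM.Om l) (ε : κ),
      ‖j β‖ * ∏ i, ‖j (u i)‖ ^ (ε i : ℕ) ≤ 1 := fun l _ j ε => by
    have h1 := le_of_integral (IsIntegral.map j.toIntAlgHom ⟨P, hm, hr ε⟩)
    simpa using h1
  have hc : ∀ (j : Qb →+* ℂ) (ε : κ), (‖j β‖ * ∏ i, ‖j (u i)‖ ^ (ε i : ℕ)) ^ 2 = p :=
    fun j ε => by
    have h1 := hw (j.toIntAlgHom (β * ∏ i, u i ^ (ε i : ℕ)))
      (by rw [aeval_algHom_apply, hr, map_zero])
    simpa using h1
  have hc0 : ∀ j : Qb →+* ℂ, ‖j β‖ ^ 2 = p := fun j => by simpa using hc j 0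
  have hc1 : ∀ (j : Qb →+* ℂ) k, ‖j (u k)‖ = 1 := fun j k => by
    have h1 := hc j (Pi.single k 1)
    rw [birra_single, mul_pow, hc0, mul_right_eq_self₀, or_iff_left hp0.ne'] at h1
    exact (pow_eq_one_iff_of_nonneg (norm_nonneg _) two_ne_zero).1 h1
  have hdn : ∀ (l : ℕ) [Fact l.Prime] (j : Qb →+* CM.Om l),
      ‖j β‖ ^ 2 * ∏ i, ‖j (u i)‖ = ‖(p : CM.Om l)‖ := fun l _ j => by
    simpa using congrArg (fun z => ‖j z‖) hd
  have hk : ∀ k, ¬ ∀ j : Qb →+* CM.Om p, ‖j (u k)‖ = 1 := fun k hk => by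
    obtain ⟨n, hn, h1⟩ := kron (u := u k) (fun l _ j => by
      by_cases hl : l = p
      · subst hl
        exact (hk j).le
      have h1 := hdn l j
      rw [norm_nat_eq_one fun h' => hl ((Nat.prime_dvd_prime_iff_eq Fact.out hp).1 h')] at h1
      have h2 := hb l j fun _ => 1
      have h3 := hb l j (Pi.single k 1)
      rw [birra_single] at h3
      simp only [Fin.val_one, pow_one] at h2
      have h4 : 1 ≤ ‖j β‖ := by nlinarith [norm_nonneg (j β)]
      nlinarith [norm_nonneg (j (u k))]) fun j => hc1 j k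
    exact hu k n hn h1
  have ha : ((-P.nextCoeff : ℤ) : Qb) = β * ∏ i, (1 + u i) := by
    have h1 := congrArg nextCoeff h
    rw [nextCoeff_map (RingHom.injective_int _), prod_X_sub_C_nextCoeff, ← Finset.mul_sum,
      ← Fintype.prod_sum fun i (e : Fin 2) => u i ^ (e : ℕ)] at h1
    simp only [Fin.sum_univ_two, Fin.val_zero, Fin.val_one, pow_zero, pow_one, eq_intCast] at h1
    rw [Int.cast_neg, h1, neg_neg]
  generalize -P.nextCoeff = a at ha
  have hne : β ^ 2 * ∏ i, u i ≠ 0 := hd ▸ Nat.cast_ne_zero.2 hp.ne_zero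
  have ha0 : a ≠ 0 := by
    rintro rfl
    refine mul_ne_zero (fun h0 => hne (by simp [h0])) (Finset.prod_ne_zero_iff.2 fun k _ h0 =>
      hu k 2 two_ne_zero ?_) (ha.symm.trans Int.cast_zero)
    rw [← neg_eq_of_add_eq_zero_right h0]
    norm_num
  have hpa : ¬ (p : ℤ) ∣ a := fun hpa => by
    obtain ⟨j, -⟩ := exists_j (Rat.castHom Qb) (Rat.castHom ℂ)
    have h1 : |(a : ℝ)| = ‖j β‖ * ∏ i, ‖1 + j (u i)‖ := by
      simpa using congrArg (fun z => ‖j z‖) ha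
    have h2 : ∏ i, ‖1 + j (u i)‖ ≤ ∏ _i : Fin 3, (2 : ℝ) :=
      Finset.prod_le_prod (fun _ _ => norm_nonneg _) fun k _ =>
        (norm_add_le _ _).trans (by rw [hc1, norm_one, one_add_one_eq_two])
    have h3 : (p : ℝ) ≤ |(a : ℝ)| := by
      exact_mod_cast Int.le_of_dvd (abs_pos.2 ha0) ((dvd_abs _ _).2 hpa)
    have h4 : (65 : ℝ) ≤ p := by exact_mod_cast h65
    simp only [Finset.prod_const, Finset.card_univ, Fintype.card_fin] at h2
    have h5 : (p : ℝ) ≤ ‖j β‖ * 2 ^ 3 :=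
      h3.trans (h1.le.trans (mul_le_mul_of_nonneg_left h2 (norm_nonneg _)))
    have h6 := pow_le_pow_left₀ hp0.le h5 2
    rw [mul_pow, hc0] at h6
    nlinarith
  have hf : ∀ j : Qb →+* CM.Om p, (‖(q : ℚ_[p])‖ ≤ 1 → ‖j (u i)‖ = 1) ∧
      ((p : ℝ) ≤ ‖(q : ℚ_[p])‖ → ∀ k, k ≠ i → ‖j (u k)‖ = 1) := fun j => by
    refine birra_real hp0 (y := ‖j β‖) (s := fun k => ‖1 + j (u k)‖) (norm_nonneg _)
      (fun k => norm_pos_iff.2 ((map_ne_zero j).2 (Finset.prod_ne_zero_iff.1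
        (right_ne_zero_of_mul hne) k (Finset.mem_univ k)))) (fun k => norm_nonneg _)
      (fun k => (IsUltrametricDist.norm_add_le_max _ _).trans (by rw [norm_one])) ?_ (hb p j)
      ((hdn p j).trans norm_l) ?_
    · rw [← norm_int_eq_one hpa]
      simpa using congrArg (fun z => ‖j z‖) ha.symm
    · rw [← norm_rat]
      simpa using congrArg (fun z => ‖j z‖) hq
  by_cases h1 : ‖(q : ℚ_[p])‖ ≤ 1
  · exact hk i fun j => (hf j).1 h1
  · have h2 := mt (Padic.norm_le_pow_iff_norm_lt_pow_add_one (q : ℚ_[p]) 0).2 (by simpa using h1)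
    obtain ⟨k, hki⟩ := exists_ne i
    exact hk k fun j => (hf j).2 (by simpa using h2) k hki

end M5
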