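import Pool.Agent.Lib.MP_33b3f9_ag.M5.BFrob

/-!
The seventh symmetric power does not occur.
-/

set_option autoImplicit false

noncomputable section

namespace M5

open Matrix Polynomial NumberField M4 M4.CM Pool.Agent.M4.Mx Pool.Agent.Lib.MP_33b3f9_ag

theorem bnogp_one {p : ℕ} [Fact p.Prime] {x : CM.Om p} (h : ‖x‖ < 1) : ‖1 + x‖ = 1 := by
  rw [IsUltrametricDist.norm_add_eq_max_of_norm_ne_norm (by rw [norm_one]; exact h.ne'), norm_one,
    max_eq_left h.le]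

theorem bnogp_loc {p : ℕ} [hp : Fact p.Prime] (h2 : p ≠ 2) {β u : CM.Om p} {a₁ a₂ : ℤ}
    (e1 : β * ((1 + u) * (1 + u ^ 2) * (1 + u ^ 4)) = a₁)
    (e2 : β ^ 2 * ((1 + u ^ 2) * (1 + u ^ 4) * (1 + u ^ 8)) = a₂)
    (eN : (β ^ 8 * u ^ 28) ^ 2 = (p : CM.Om p) ^ 8) (ha : ¬ (p : ℤ) ∣ a₁) (hu : ‖u‖ ≤ 1) :
    False := by
  have hp1 : (1 : ℝ) < p := by exact_mod_cast hp.out.one_lt
  have hq0 : (0 : ℝ) < (p : ℝ)⁻¹ := by positivity
  have hq1 : (p : ℝ)⁻¹ < 1 := inv_lt_one_of_one_lt₀ hp1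
  have n1 := congrArg norm e1
  have nN := congrArg norm eN
  rw [norm_int_eq_one ha] at n1
  simp only [norm_pow, norm_mul, norm_l] at n1 nN
  rcases hu.eq_or_lt with hu1 | hu1
  · have b : ∀ k : ℕ, ‖1 + u ^ k‖ ≤ 1 := fun k =>
      cmnorm_add norm_one.le (by rw [norm_pow, hu1, one_pow])
    have b1 := b 1
    rw [pow_one] at b1
    have h3 : ‖1 + u‖ * ‖1 + u ^ 2‖ * ‖1 + u ^ 4‖ ≤ 1 :=
      mul_le_one₀ (mul_le_one₀ b1 (norm_nonneg _) (b 2)) (norm_nonneg _) (b 4)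
    have h4 : 1 ≤ ‖β‖ := by
      rw [← n1]
      exact mul_le_of_le_one_right (norm_nonneg _) h3
    rw [hu1, one_pow, mul_one] at nN
    have h5 : 1 ≤ (‖β‖ ^ 8) ^ 2 := one_le_pow₀ (one_le_pow₀ h4)
    exact absurd (nN ▸ h5) (not_le.2 (pow_lt_one₀ hq0.le hq1 (by norm_num)))
  · have b : ∀ k : ℕ, k ≠ 0 → ‖1 + u ^ k‖ = 1 := fun k hk =>
      bnogp_one (by rw [norm_pow]; exact pow_lt_one₀ (norm_nonneg _) hu1 hk)
    rw [bnogp_one hu1, b 2 (by norm_num), b 4 (by norm_num), mul_one, mul_one, mul_one] at n1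
    have e3 : ((a₁ ^ 2 - a₂ : ℤ) : CM.Om p) * (1 + -u) =
        2 * β ^ 2 * u * (1 + u ^ 2) * (1 + u ^ 4) * (1 + -u ^ 7) := by
      push_cast
      rw [← e1, ← e2]
      ring
    have n3 := congrArg norm e3
    simp only [norm_mul, norm_pow] at n3
    rw [bnogp_one (by rwa [norm_neg]), bnogp_one (x := -u ^ 7) (by
      rw [norm_neg, norm_pow]; exact pow_lt_one₀ (norm_nonneg _) hu1 (by norm_num)),
      b 2 (by norm_num), b 4 (by norm_num), norm_two h2, n1] at n3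
    simp only [mul_one, one_pow, one_mul] at n3
    have h6 : ‖u‖ ≤ (p : ℝ)⁻¹ := by
      rw [← n3]
      exact le_inv_of_lt ⟨((a₁ ^ 2 - a₂ : ℤ) : ℚ_[p]), map_intCast _ _⟩ (n3 ▸ hu1)
    rw [n1, one_pow, one_mul, ← pow_mul] at nN
    have h7 : ‖u‖ ^ (28 * 2) ≤ (p : ℝ)⁻¹ ^ (28 * 2) := pow_le_pow_left₀ (norm_nonneg _) h6 _
    rw [nN] at h7
    exact absurd h7 (not_le.2 (pow_lt_pow_right_of_lt_one₀ hq0 hq1 (by norm_num)))

/-- `descend`, then map to `ℂ` and to `Om p` (`exists_j`). The sums `a₁ = ∑ b j`, `a₂ = ∑ b j ^ 2` and the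
product are integers (coefficients, or `pow_sums` for a companion or diagonal matrix); `a₁ ≠ 0`,
`a₁ ^ 2 ≤ 64 p < p ^ 2`, so `‖a₁‖ = 1` in `Om p`; the product is `± p ^ 4`. If `‖u‖ = 1` all roots have
the same norm `< 1`. If `‖u‖ < 1` then `‖β‖ = 1`, `‖u‖ ^ 28 = p ^ (-4)` and
`a₁ ^ 2 - a₂ = 2 β ^ 2 u (1 + u q (u))` is an integer of norm `‖u‖`, which is not a power of `p`. If
`‖u‖ > 1` replace `(β, u)` by `(β u ^ 7, u⁻¹)`. -/
theorem no_gp {p : ℕ} (hp : p.Prime) (h65 : 65 ≤ p) {P : ℤ[X]}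
    (hw : ∀ z : ℂ, aeval z P = 0 → ‖z‖ ^ 2 = p) {Ω : Type} [Field Ω] [IsAlgClosed Ω] [CharZero Ω]
    {β u : Ω} (hu : u ^ 8 ≠ 1)
    (h : P.map (Int.castRingHom Ω) = ∏ j : Fin 8, (X - C (β * u ^ (j : ℕ)))) : False := by
  have : Fact p.Prime := ⟨hp⟩
  obtain ⟨j, b, hb, hP⟩ := descend P _ h
  obtain ⟨φ, -⟩ := exists_j (algebraMap ℚ Qb) (algebraMap ℚ ℂ)
  obtain ⟨ψ, -⟩ := exists_j (algebraMap ℚ Qb) (algebraMap ℚ (CM.Om p))
  have hc : ∀ i, ‖φ (b i)‖ ^ 2 = p := fun i => hw _ (by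
    have h1 : aeval (b i) P = 0 := by
      rw [aeval_def, eval₂_eq_eval_map, RingHom.ext_int (algebraMap ℤ Qb) (Int.castRingHom Qb), hP,
        eval_prod]
      exact Finset.prod_eq_zero (Finset.mem_univ i) (by simp)
    have h2 := aeval_algHom_apply φ.toIntAlgHom (b i) P
    rw [h1, map_zero] at h2
    exact h2)
  have hp0 : (0 : ℝ) < p := by exact_mod_cast hp.pos
  have hb0 : ∀ i, b i ≠ 0 := fun i h0 => by
    have h1 := hc i
    rw [h0, map_zero, norm_zero] at h1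
    linarith
  have hβ : j (b 0) = β := by simpa using hb 0
  have hβ0 : β ≠ 0 := hβ ▸ (_root_.map_ne_zero j).2 (hb0 0)
  obtain ⟨v, hv⟩ : ∃ v, j v = u := ⟨b 1 / b 0, by
    rw [map_div₀, hβ, hb 1]
    simp [hβ0]⟩
  have hbv : ∀ i : Fin 8, b i = b 0 * v ^ (i : ℕ) := fun i => j.injective (by
    rw [hb i, map_mul, map_pow, hβ, hv])
  have hv8 : v ^ 8 ≠ 1 := fun h1 => hu (by rw [← hv, ← map_pow, h1, map_one])
  have hm : P.Monic := monic_of_injective (Int.castRingHom Qb).injective_int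
    (hP ▸ monic_prod_of_monic _ _ fun i _ => monic_X_sub_C _)
  obtain ⟨a, ha⟩ := pow_sums P hm
  have hs : ∀ k, ∑ i, b i ^ k = a k := fun k => by
    rw [← ha Qb (diagonal fun i => b (finSumFinEquiv i)) (by
      rw [charpoly_diagonal, hP]
      exact (finSumFinEquiv.prod_comp fun i : Fin (4 + 4) => X - C (b i)).symm) k, diagonal_pow,
      trace_diagonal]
    exact (finSumFinEquiv.sum_comp fun i : Fin (4 + 4) => b i ^ k).symm
  have hN : ∏ i, b i = ((P.eval 0 : ℤ) : Qb) := by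
    have h1 := congrArg (eval ((0 : ℤ) : Qb)) hP
    rw [eval_intCast_map, eval_prod] at h1
    simp only [Fin.prod_univ_eight, eval_sub, eval_X, eval_C, Int.cast_zero, eq_intCast]
      at h1 ⊢
    rw [h1]
    ring
  have hN2 : (P.eval 0) ^ 2 = (p : ℤ) ^ 8 := by
    have h1 := congrArg (fun x => ‖φ x‖ ^ 2) hN
    simp only [map_prod, norm_prod, ← Finset.prod_pow, hc, map_intCast, Complex.norm_intCast,
      sq_abs, Finset.prod_const, Finset.card_univ, Fintype.card_fin] at h1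
    exact_mod_cast h1.symm
  have ha1 : (a 1) ^ 2 ≤ 64 * (p : ℤ) := by
    have h1 := congrArg (fun x => ‖φ x‖) (hs 1)
    simp only [map_sum, pow_one, map_intCast, Complex.norm_intCast] at h1
    have h2 : |(a 1 : ℝ)| ≤ 8 * Real.sqrt p := by
      rw [← h1]
      refine (norm_sum_le _ _).trans ?_
      rw [Finset.sum_congr rfl fun i _ => (Real.sqrt_sq (norm_nonneg (φ (b i)))).symm.trans
        (congrArg Real.sqrt (hc i))]
      simp
    have h3 := pow_le_pow_left₀ (abs_nonneg _) h2 2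
    rw [sq_abs, mul_pow, Real.sq_sqrt hp0.le] at h3
    have h4 : ((a 1 : ℝ)) ^ 2 ≤ 64 * p := by linarith
    exact_mod_cast h4
  have e1 : b 0 * ((1 + v) * (1 + v ^ 2) * (1 + v ^ 4)) = a 1 := by
    rw [← hs 1, Finset.sum_congr rfl fun i _ => congrArg (· ^ 1) (hbv i)]
    simp only [Fin.sum_univ_eight, Fin.coe_ofNat_eq_mod]
    ring
  have e2 : b 0 ^ 2 * ((1 + v ^ 2) * (1 + v ^ 4) * (1 + v ^ 8)) = a 2 := by
    rw [← hs 2, Finset.sum_congr rfl fun i _ => congrArg (· ^ 2) (hbv i)]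
    simp only [Fin.sum_univ_eight, Fin.coe_ofNat_eq_mod]
    ring
  have eN : (b 0 ^ 8 * v ^ 28) ^ 2 = (p : Qb) ^ 8 := by
    have h1 : (((P.eval 0) ^ 2 : ℤ) : Qb) = (((p : ℤ) ^ 8 : ℤ) : Qb) := by rw [hN2]
    push_cast at h1
    rw [← h1, ← hN, Finset.prod_congr rfl fun i _ => hbv i]
    simp only [Fin.prod_univ_eight, Fin.coe_ofNat_eq_mod]
    ring
  have hd : ¬ (p : ℤ) ∣ a 1 := fun hd => by
    have h0 : a 1 ≠ 0 := fun h0 => by
      rw [h0, Int.cast_zero] at e1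
      refine hv8 (sub_eq_zero.1 (mul_left_cancel₀ (hb0 0) ?_))
      linear_combination (v - 1) * e1
    have h1 := Int.le_of_dvd (abs_pos.2 h0) ((dvd_abs _ _).2 hd)
    have h2 : (65 : ℤ) ≤ p := by exact_mod_cast h65
    nlinarith [sq_abs (a 1)]
  have f1 := congrArg ψ e1
  have f2 := congrArg ψ e2
  have fN := congrArg ψ eN
  simp only [map_mul, map_add, map_pow, map_one, map_intCast, map_natCast] at f1 f2 fN
  have h2 : p ≠ 2 := by omega
  rcases le_or_gt ‖ψ v‖ 1 with h1 | h1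
  · exact bnogp_loc h2 f1 f2 fN hd h1
  · have h0 : ψ v ≠ 0 := fun h0 => by
      rw [h0, norm_zero] at h1
      linarith
    refine bnogp_loc (β := ψ (b 0) * ψ v ^ 7) (u := (ψ v)⁻¹) (a₂ := a 2) h2 ?_ ?_ ?_ hd ?_
    · rw [← f1]
      field_simp
      ring
    · rw [← f2]
      field_simp
      ring
    · rw [← fN]
      field_simp
    · rw [norm_inv]
      exact inv_le_one_of_one_le₀ h1.le

end M5
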