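import Pool.Agent.Lib.MP_33b3f9_ag.M5.FOne

/-!
Comparison of two frames.
-/

set_option autoImplicit false

noncomputable section

namespace M5

open Matrix Pool.Agent.M4.Mx

variable {ν : Type} [Fintype ν] [DecidableEq ν] {Ω : Type} [Field Ω]

theorem fcmp_mul (c : GL (Fin 2) Ω) (x y : M2 Ω) : cj c (x * y) = cj c x * cj c y := by
  simp only [cj, Matrix.mul_assoc, Units.inv_mul_cancel_left]

theorem fcmp_inv (c : GL (Fin 2) Ω) (x : M2 Ω) : cj c (cj c⁻¹ x) = x := by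
  simp only [cj, inv_inv, Matrix.mul_assoc, Units.mul_inv, Matrix.mul_one,
    Units.mul_inv_cancel_left]

theorem fcmp_bas (x : M2 Ω) : x = x 0 0 • (bas Ω 1 * bas Ω 2) + x 0 1 • bas Ω 1 + x 1 0 • bas Ω 2 +
    x 1 1 • (bas Ω 2 * bas Ω 1) := by
  ext i j
  fin_cases i <;> fin_cases j <;> simp [bas]

theorem fcmp_ne (f : Fr ν Ω) (s : Fin 3) :
    f.u s (bas Ω 1) * f.u s (bas Ω 2) ≠ f.u s (bas Ω 2) * f.u s (bas Ω 1) := fun h => by
  have h1 := MxSl_inj f s (bas Ω 3) (by rw [← bas_br, map_sub, map_mul, map_mul, h, sub_self])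
  simpa [bas] using congrFun (congrFun h1 0) 0

variable [CharZero Ω]

theorem fcmp_slot (f f' : Fr ν Ω) (h : f'.sl ≤ f.m) (i : Fin 3) :
    ∃ (s : Fin 3) (c : GL (Fin 2) Ω), ∀ x, f'.u i x = f.u s (cj c x) := by
  obtain ⟨s, a, ha⟩ := one_slot f (Y := f'.u i (bas Ω 1)) (d := 0)
    (h (Submodule.subset_span ⟨(i, 0), rfl⟩)) (by rw [← map_mul, bas_sq1, map_zero, zero_smul])
  obtain ⟨t, b, hb⟩ := one_slot f (Y := f'.u i (bas Ω 2)) (d := 0)
    (h (Submodule.subset_span ⟨(i, 1), rfl⟩)) (by rw [← map_mul, bas_sq2, map_zero, zero_smul])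
  obtain rfl : s = t := by
    by_contra hst
    exact fcmp_ne f' i (by rw [ha, hb, f.u_comm hst])
  have e : bas Ω 1 * bas Ω 2 + bas Ω 2 * bas Ω 1 = 1 := by
    ext i j
    fin_cases i <;> fin_cases j <;> simp [bas]
  obtain ⟨c, h1, h2⟩ := units_conj (a := a) (b := b)
    (MxSl_inj f s _ (by rw [map_mul, ← ha, ← map_mul, bas_sq1, map_zero]))
    (MxSl_inj f s _ (by rw [map_mul, ← hb, ← map_mul, bas_sq2, map_zero]))
    (sub_eq_zero.1 (MxSl_inj f s _ (by
      rw [map_sub, map_add, map_mul, map_mul, ← ha, ← hb, ← map_mul, ← map_mul, ← map_add, e,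
        map_one, map_one, sub_self])))
  refine ⟨s, c, fun x => ?_⟩
  have h3 : cj c x = x 0 0 • (a * b) + x 0 1 • a + x 1 0 • b + x 1 1 • (b * a) := by
    rw [← h1, ← h2, ← fcmp_mul, ← fcmp_mul]
    conv_lhs => rw [fcmp_bas x]
    simp only [cj, Matrix.mul_add, Matrix.add_mul, Matrix.mul_smul, Matrix.smul_mul]
  rw [h3]
  conv_lhs => rw [fcmp_bas x]
  simp only [map_add, map_smul, map_mul, ha, hb]

/-- `one_slot` for `f'.u i e`, `f'.u i f`; they do not commute, so they lie in the same slot `π i`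
(`u_comm`), and are images of matrix units (`MxSl_inj`, `units_conj`). If `π i = π j`, `i ≠ j`, the
two systems of matrix units of `M2` commute, which is impossible. `mxwd_bas`, `bas_br`. -/
theorem cmp (f f' : Fr ν Ω) (h : f'.sl ≤ f.m) :
    ∃ (π : Equiv.Perm (Fin 3)) (c : Fin 3 → GL (Fin 2) Ω),
      ∀ i x, f'.u i x = f.u (π i) (cj (c i) x) := by
  choose π c hc using fcmp_slot f f' h
  have hπ : Function.Injective π := fun i j e => by
    by_contra hij
    refine fcmp_ne f (π i) ?_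
    rw [← fcmp_inv (c i) (bas Ω 1), ← fcmp_inv (c j) (bas Ω 2), ← hc i, e, ← hc j, f'.u_comm hij]
  exact ⟨Equiv.ofBijective π hπ.bijective_of_finite, c, hc⟩

end M5
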