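import Pool.Agent.Lib.MP_33b3f9_ag.M5.ADefs
import Pool.Agent.Lib.MP_33b3f9_ag.M5.FCmp
import Pool.Agent.Lib.MP_33b3f9_ag.M4.CmNorm
import Pool.Agent.Lib.MP_33b3f9_ag.M4.CmCubeA
import Pool.Agent.Lib.MP_33b3f9_ag.M4.MxCube

/-!
Integral frames.
-/

set_option autoImplicit false

noncomputable section

namespace M5

open Matrix Polynomial NumberField M4 M4.CM Pool.Agent.M4.Mx Pool.Agent.Lib.MP_33b3f9_ag

/-- The trace over two slots: the entry `(p, q)` is `tr (M * T (update y i E_qp))` (`trace_T`, `T_mul`). -/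
theorem exists_part {R : Type} [CommRing R] (f : Fr ν R) (i : Fin 3) (y : Fin 3 → M2 R) :
    ∃ Φ : Matrix ν ν R →ₗ[R] M2 R,
      ∀ a, Φ (f.T a) = (∏ k ∈ Finset.univ.erase i, (a k * y k).trace) • a i := by
  refine ⟨⟨⟨fun M => Matrix.of fun p q => (M * f.T (Function.update y i (single q p 1))).trace,
    fun M N => ?_⟩, fun c M => ?_⟩, fun a => ?_⟩
  · ext p q
    simp [Matrix.add_mul]
  · ext p q
    simp
  ext p q
  change (f.T a * f.T _).trace = _
  rw [f.T_mul, trace_T, ← Finset.mul_prod_erase _ _ (Finset.mem_univ i), Pi.mul_apply,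
    Function.update_self, trace_mul_single, MulOpposite.op_one, one_smul, mul_comm,
    Matrix.smul_apply, smul_eq_mul]
  congr 1
  exact Finset.prod_congr rfl fun k hk => by
    rw [Pi.mul_apply, Function.update_of_ne (Finset.ne_of_mem_erase hk)]

variable {Γ : Type} [Group Γ] {l : ℕ} [Fact l.Prime] {ρ : Γ →* GL ν ℤ_[l]}

/-- The image spans the integral matrices. -/
def Sz (ρ : Γ →* GL ν ℤ_[l]) : Prop :=
  Submodule.span ℤ_[l] (Set.range fun σ => (ρ σ : Matrix ν ν ℤ_[l])) = ⊤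

/-- Nakayama. -/
theorem Sf1.sz {d : ℕ} (h : Sf1 ρ d) (hd : 1 ≤ d) : Sz ρ := by
  set N := Submodule.span ℤ_[l] (Set.range fun σ => (ρ σ : Matrix ν ν ℤ_[l]))
  have h1 : ∀ X : Matrix ν ν (ZMod l), ∃ Y ∈ N, Y.map PadicInt.toZMod = X := fun X => by
    have hX := (h ⊤ (by simp) (by simpa using hd)).ge (Submodule.mem_top (x := X))
    induction hX using Submodule.span_induction with
    | mem X hX =>
      obtain ⟨σ, -, rfl⟩ := hX
      exact ⟨_, Submodule.subset_span ⟨σ, rfl⟩, rfl⟩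
    | zero => exact ⟨0, N.zero_mem, Matrix.map_zero _ (map_zero _)⟩
    | add X X' _ _ h1 h2 =>
      obtain ⟨Y, hY, rfl⟩ := h1
      obtain ⟨Y', hY', rfl⟩ := h2
      exact ⟨_, N.add_mem hY hY', Matrix.map_add _ (map_add _) _ _⟩
    | smul c X _ h1 =>
      obtain ⟨Y, hY, rfl⟩ := h1
      obtain ⟨c, rfl⟩ := ZMod.ringHom_surjective (PadicInt.toZMod (p := l)) c
      exact ⟨_, N.smul_mem c hY, Matrix.ext fun i j => map_mul PadicInt.toZMod c (Y i j)⟩
  refine top_le_iff.1 (Submodule.le_of_le_smul_of_le_jacobson_bot Module.Finite.fg_top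
    (IsLocalRing.maximalIdeal_le_jacobson _) fun M _ => ?_)
  obtain ⟨Y, hY, h2⟩ := h1 (M.map PadicInt.toZMod)
  rw [← add_sub_cancel Y M, matrix_eq_sum_single (M - Y)]
  refine Submodule.add_mem_sup hY (Submodule.sum_mem _ fun i _ => Submodule.sum_mem _ fun j _ => ?_)
  rw [← mul_one ((M - Y) i j), ← smul_eq_mul, ← smul_single]
  refine Submodule.smul_mem_smul ?_ Submodule.mem_top
  rw [← PadicInt.ker_toZMod, RingHom.mem_ker, Matrix.sub_apply, map_sub, sub_eq_zero]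
  exact (congrFun (congrFun h2 i) j).symm

/-- A finite family spans. -/
theorem Sz.fin (h : Sz ρ) : ∃ (n : ℕ) (s : Fin n → Γ), ∀ M : Matrix ν ν (CM.Om l), Le M 1 →
    ∃ o : Fin n → CM.Om l, (∀ j, ‖o j‖ ≤ 1) ∧ M = ∑ j, o j • rO ρ (s j) := by
  obtain ⟨S, hS, h1⟩ := (Submodule.fg_span_iff_fg_span_finset_subset _).1
    (h.symm ▸ Module.Finite.fg_top : (Submodule.span ℤ_[l] _).FG)
  choose s hs using fun j : Fin S.card => hS (S.equivFin.symm j).2
  have h2 : ∀ p : ν × ν, ∃ c : Fin S.card → ℤ_[l],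
      ∑ j, c j • (ρ (s j) : Matrix ν ν ℤ_[l]) = single p.1 p.2 1 := fun p => by
    refine (Submodule.mem_span_range_iff_exists_fun _).1 (Submodule.span_mono (fun X hX => ?_)
      (h1.le (h.ge Submodule.mem_top)))
    exact ⟨S.equivFin ⟨X, hX⟩, (hs _).trans (by rw [Equiv.symm_apply_apply])⟩
  choose c hc using h2
  refine ⟨_, s, fun M hM => ⟨fun j => ∑ p : ν × ν, M p.1 p.2 * CM.toOm l (c p j), fun j => ?_, ?_⟩⟩
  · refine IsUltrametricDist.norm_sum_le_of_forall_le_of_nonneg zero_le_one fun p _ => ?_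
    rw [norm_mul, norm_toOm]
    exact mul_le_one₀ (hM _ _) (norm_nonneg _) (PadicInt.norm_le_one _)
  have h3 : ∀ p : ν × ν, ∑ j, CM.toOm l (c p j) • rO ρ (s j) = single p.1 p.2 1 := fun p => by
    have h4 := congrArg (CM.toOm l).mapMatrix (hc p)
    rw [map_sum, RingHom.mapMatrix_apply (M := single _ _ _), map_single, map_one] at h4
    rw [← h4]
    exact Finset.sum_congr rfl fun j _ => Matrix.ext fun _ _ => (map_mul _ _ _).symm
  simp only [Finset.sum_smul, mul_smul]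
  rw [Finset.sum_comm]
  simp only [← Finset.smul_sum, h3, smul_single, smul_eq_mul, mul_one]
  rw [Fintype.sum_prod_type]
  exact matrix_eq_sum_single M

theorem bnorm_uniq {Ω : Type} [Field Ω] (f : Fr ν Ω) {a b : Fin 3 → M2 Ω} {c : Ω}
    (h : f.T a = c • f.T b) (ha : ∀ i, (a i).det = 1) (hb : ∀ i, (b i).det = 1) (i : Fin 3) :
    b i = a i ∨ b i = -a i := by
  have h1 : f.T a = f.T fun s => ![c, 1, 1] s • b s := by
    rw [f.T_smul, h, Fin.prod_univ_three]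
    simp
  obtain ⟨s, hs, h2⟩ := T_unique f h1 (fun k hk => by simpa [hk] using ha k) i
  have h3 := congrArg det h2
  rw [det_smul, det_smul, ha, hb, mul_one, mul_one, Fintype.card_fin,
    sq_eq_sq_iff_eq_or_eq_neg] at h3
  refine h3.imp (fun h4 => ?_) fun h4 => ?_
  · exact smul_right_injective _ hs (h4 ▸ h2 :)
  · rw [h4, neg_smul, neg_eq_iff_eq_neg, ← smul_neg] at h2
    exact smul_right_injective _ hs h2

theorem bnorm_root (t : CM.Om l) : ∃ x y, x + y = t ∧ x * y = 1 ∧ ‖y‖ ≤ 1 := by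
  obtain ⟨s, hs⟩ := IsAlgClosed.exists_eq_mul_self (t ^ 2 - 4)
  have h1 : (t + s) / 2 * ((t - s) / 2) = 1 := by linear_combination hs / 4
  rcases le_total ‖(t - s) / 2‖ 1 with h | h
  · exact ⟨_, _, by ring, h1, h⟩
  refine ⟨_, _, by ring, (mul_comm _ _).trans h1, ?_⟩
  refine (le_mul_of_one_le_right (norm_nonneg _) h).trans ?_
  rw [← norm_mul, h1, norm_one]

/-- The eigenvalues of an integral matrix are integral. -/
theorem bnorm_tr (f : Fr ν (CM.Om l)) {b : Fin 3 → M2 (CM.Om l)} (hb : ∀ i, (b i).det = 1)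
    (h : Le (f.T b) 1) (i : Fin 3) : ‖(b i).trace‖ ≤ 1 := by
  choose x y h1 h2 h3 using fun k => bnorm_root (b k).trace
  have h4 : ‖∏ k, x k‖ ≤ 1 := h.root (by
    rw [charpoly_T f b (fun k => ![x k, y k]) h1 fun k => (h2 k).trans (hb k).symm, eval_prod]
    exact Finset.prod_eq_zero (Finset.mem_univ 0) (by
      rw [eval_sub, eval_X, eval_C]
      exact sub_self _))
  have h5 : ‖∏ k, x k‖ * ‖∏ k, y k‖ = 1 := by
    simp only [← norm_mul, ← Finset.prod_mul_distrib, h2, Finset.prod_const_one, norm_one]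
  have h6 := norm_eq_one_of_prod h3 (le_antisymm (cmnorm_prod _ fun k _ => h3 k)
    (h5.ge.trans (mul_le_of_le_one_left (norm_nonneg _) h4))) i
  have h7 := congrArg norm (h2 i)
  rw [norm_mul, h6, mul_one, norm_one] at h7
  rw [← h1]
  exact cmnorm_add h7.le h6.le

/-- `T_split`; `‖z‖ = 1` from the determinant. `b (σ σ') i = ± b σ i * b σ' i` (`T_unique`). The
entries of `tp (b σ) = z⁻¹ Q ρ σ P` are bounded and each `b σ k` has an entry of norm at least one,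
so the `b σ i` are bounded. If `‖tr b‖ > 1` then `tr (b ^ 2) = (tr b) ^ 2 - 2` has norm `‖tr b‖ ^ 2`,
and so on. -/
theorem exists_norm (f : Fr ν (CM.Om l)) (h : ∀ σ, ∃ a, rO ρ σ = f.T a) :
    ∃ (z : Γ → CM.Om l) (b : Γ → Fin 3 → M2 (CM.Om l)), (∀ σ, ‖z σ‖ = 1 ∧ rO ρ σ = z σ • f.T (b σ)) ∧
      (∀ σ i, (b σ i).det = 1 ∧ ‖(b σ i).trace‖ ≤ 1) ∧
      ∀ σ σ' i, b (σ * σ') i = b σ i * b σ' i ∨ b (σ * σ') i = -(b σ i * b σ' i) := by
  choose a ha using h
  have h0 : ∀ σ, Le (rO ρ σ) 1 := fun σ => le_toOm _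
  have h1 : ∀ σ, ‖(rO ρ σ).det‖ = 1 := fun σ => by
    have h2 : ‖(rO ρ σ).det‖ * ‖(rO ρ σ⁻¹).det‖ = 1 := by
      rw [← norm_mul, ← det_mul, ← map_mul, mul_inv_cancel, map_one, det_one, norm_one]
    exact le_antisymm (h0 σ).det
      (h2.ge.trans (mul_le_of_le_one_right (norm_nonneg _) (h0 σ⁻¹).det))
  choose z b hb hz using fun σ => f.T_split (a σ) (by
    rw [← ha, ← norm_ne_zero_iff, h1]
    exact one_ne_zero)
  simp only [← ha] at hz
  have h2 : ∀ σ, ‖z σ‖ = 1 := fun σ => by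
    have h3 := h1 σ
    rw [hz, det_smul, f.T_eq, det_mul, det_mul, mxCube_det_u f _ _ (hb σ 0),
      mxCube_det_u f _ _ (hb σ 1), mxCube_det_u f _ _ (hb σ 2), mul_one, mul_one, mul_one,
      norm_pow] at h3
    exact (pow_eq_one_iff_of_nonneg (norm_nonneg _) Fintype.card_ne_zero).1 h3
  have h3 : ∀ σ, z σ ≠ 0 := fun σ => norm_ne_zero_iff.1 ((h2 σ).trans_ne one_ne_zero)
  refine ⟨z, b, fun σ => ⟨h2 σ, hz σ⟩, fun σ i => ⟨hb σ i, bnorm_tr f (hb σ) ?_ i⟩, fun σ σ' i => ?_⟩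
  · rw [← inv_smul_smul₀ (h3 σ) (f.T (b σ)), ← hz]
    exact ((h0 σ).smul _).mono (by rw [norm_inv, h2, inv_one, one_mul])
  refine bnorm_uniq f (a := b σ * b σ') (c := (z σ * z σ')⁻¹ * z (σ * σ')) ?_
    (fun k => by rw [Pi.mul_apply, det_mul, hb, hb, one_mul]) (hb _) i
  rw [mul_smul, ← hz, map_mul, hz, hz, smul_mul_smul_comm, f.T_mul,
    inv_smul_smul₀ (mul_ne_zero (h3 σ) (h3 σ'))]

/-- Among finitely many vectors that contain a basis take two with maximal determinant; Cramer. -/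
theorem exists_lattice {α : Type} [Finite α] (v : α → Fin 2 → CM.Om l)
    (h : ∃ a b, v a 0 * v b 1 - v a 1 * v b 0 ≠ 0) :
    ∃ (c : GL (Fin 2) (CM.Om l)) (a : Fin 2 → α), (∀ i j, (c : M2 (CM.Om l)) i j = v (a j) i) ∧
      ∀ x i, ‖(((c⁻¹ : GL (Fin 2) (CM.Om l)) : M2 (CM.Om l)) *ᵥ v x) i‖ ≤ 1 := by
  obtain ⟨a₀, b₀, h⟩ := h
  have : Nonempty (α × α) := ⟨(a₀, b₀)⟩
  obtain ⟨⟨a, b⟩, hp⟩ := Finite.exists_max fun p : α × α => ‖v p.1 0 * v p.2 1 - v p.1 1 * v p.2 0‖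
  have h1 : 0 < ‖v a 0 * v b 1 - v a 1 * v b 0‖ := (norm_pos_iff.2 h).trans_le (hp (a₀, b₀))
  have h2 := norm_pos_iff.1 h1
  set c := Matrix.GeneralLinearGroup.mkOfDetNeZero !![v a 0, v b 0; v a 1, v b 1]
    (by rwa [det_fin_two_of, mul_comm (v b 0)])
  have hc : (c : M2 (CM.Om l)) = !![v a 0, v b 0; v a 1, v b 1] := rfl
  refine ⟨c, ![a, b], fun i j => by fin_cases i <;> fin_cases j <;> rfl, fun x i => ?_⟩
  have h3 : v x = (c : M2 (CM.Om l)) *ᵥ
      ![(v x 0 * v b 1 - v x 1 * v b 0) / (v a 0 * v b 1 - v a 1 * v b 0),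
        (v a 0 * v x 1 - v a 1 * v x 0) / (v a 0 * v b 1 - v a 1 * v b 0)] := by
    have h4 := mul_inv_cancel₀ h2
    funext k
    fin_cases k <;> simp [hc, mulVec, dotProduct, Fin.sum_univ_two, div_eq_mul_inv]
    · linear_combination -v x 0 * h4
    · linear_combination -v x 1 * h4
  rw [h3, mulVec_mulVec, Units.inv_mul, one_mulVec]
  fin_cases i
  · exact (norm_div _ _).le.trans ((div_le_one h1).2 (hp (x, b)))
  · exact (norm_div _ _).le.trans ((div_le_one h1).2 (hp (a, x)))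

end M5
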