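import Pool.Agent.Lib.MP_33b3f9_ag.M5.BOrdA

/-!
Matrix units in an order.
-/

set_option autoImplicit false

noncomputable section

namespace M5

open Matrix Polynomial NumberField M4 M4.CM Pool.Agent.M4.Mx Pool.Agent.Lib.MP_33b3f9_ag

variable {l : ℕ} [Fact l.Prime]

theorem bord_rk {S : Type} [CommRing S] {A : M2 S} (hA : A.det = 0) (M : M2 S) :
    A * M * A = (A * M).trace • A := by
  have h : A * M * A = (A * M).trace • A - A.det • M.adjugate := by
    ext i j
    fin_cases i <;> fin_cases j <;>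
      simp [Matrix.mul_apply, Fin.sum_univ_two, det_fin_two, adjugate_fin_two, trace_fin_two] <;>
      ring
  rw [h, hA, zero_smul, sub_zero]

theorem bord_det {S : Type} [CommRing S] (A : M2 S) (u m : S) :
    (u • (A - m • 1)).det = u ^ 2 * (m ^ 2 - A.trace * m + A.det) ∧
      (u • (A - m • 1)).trace = u * (A.trace - 2 * m) := by
  constructor <;> simp [det_fin_two, trace_fin_two] <;> ring

theorem bord_add {x y : CM.Om l} (hx : ‖x‖ < 1) (hy : ‖y‖ < 1) : ‖x + y‖ < 1 :=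
  (IsUltrametricDist.norm_add_le_max x y).trans_lt (max_lt hx hy)

theorem bord_single (a b : Fin 2) : Le (single a b (1 : CM.Om l)) 1 := fun i j => by
  rw [single_apply]
  split_ifs <;> simp

theorem bord_lin {R : Subring (M2 (CM.Om l))} (h : Ord R) (φ : M2 (CM.Om l) →ₗ[CM.Om l] CM.Om l)
    {x : M2 (CM.Om l)} (hx : Le x 1) (h1 : 1 ≤ ‖φ x‖) : ∃ y ∈ R, 1 ≤ ‖φ y‖ := by
  by_contra hn
  push Not at hn
  obtain ⟨n, o, y, hy, rfl⟩ := h.span x hx
  refine h1.not_gt ?_
  rw [map_sum]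
  refine Finset.sum_induction _ (fun z : CM.Om l => ‖z‖ < 1) (fun _ _ => bord_add) (by simp)
    fun j _ => ?_
  rw [map_smul, smul_eq_mul, norm_mul]
  exact (mul_le_of_le_one_left (norm_nonneg _) (hy j).1).trans_lt (hn _ (hy j).2)

theorem bord_smul {R : Subring (M2 (CM.Om l))} (h : Ord R) (z : ℤ_[l]) {x : M2 (CM.Om l)}
    (hx : x ∈ R) : CM.toOm l z • x ∈ R := by
  simpa using R.mul_mem (h.sc z) hx

theorem bord_inv {y : CM.Om l} (h1 : y ∈ NT.Qp l) (h2 : ‖y‖ = 1) :
    ∃ z, CM.toOm l z * y = 1 := by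
  obtain ⟨x, rfl⟩ := exists_toOm h1 h2.le
  obtain ⟨z, hz⟩ := (PadicInt.isUnit_iff.mpr ((norm_toOm x).symm.trans h2)).exists_left_inv
  exact ⟨z, by rw [← map_mul, hz, map_one]⟩

theorem bord_diag {A : M2 (CM.Om l)} (h : A.trace = 1) : ∃ a, 1 ≤ ‖A a a‖ := by
  by_contra hn
  push Not at hn
  have := bord_add (hn 0) (hn 1)
  rw [← trace_fin_two, h, norm_one] at this
  exact this.false

/-- `Ord.sing`; some `y ∈ R` has `‖tr (x y)‖ = 1`; for `z = x y` the polynomial `T ^ 2 - s T + d` has a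
root `μ` in `ℤ_l` of norm less than one (`hensels_lemma`, `exists_toOm`); `ε = (z - μ) / (s - 2 μ)`. -/
theorem Ord.idem {R : Subring (M2 (CM.Om l))} (h : Ord R) (hl : l ≠ 2) :
    ∃ ε ∈ R, ε * ε = ε ∧ ε.trace = 1 ∧ ε.det = 0 := by
  have _ := hl
  obtain ⟨x, hx, hd, a, b, hab⟩ := h.sing hl
  obtain ⟨y, hy, h1⟩ := bord_lin h ((traceLinearMap _ _ _).comp (LinearMap.mulLeft _ x))
    (bord_single b a) (by simp [trace_mul_single, hab])
  have hz := R.mul_mem hx hy
  have h2 : ‖(x * y).trace‖ = 1 := le_antisymm (h.le _ hz).trace h1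
  have h3 : ‖(x * y).det‖ < 1 := by
    rw [det_mul, norm_mul]
    exact (mul_le_of_le_one_right (norm_nonneg _) (h.le _ hy).det).trans_lt hd
  generalize x * y = z at hz h2 h3
  obtain ⟨s, hs⟩ := exists_toOm (h.tr _ hz).1 h2.le
  obtain ⟨d, hd⟩ := exists_toOm (h.tr _ hz).2 h3.le
  rw [← hs, norm_toOm] at h2
  rw [← hd, norm_toOm] at h3
  obtain ⟨μ, g1, g2, g3, -⟩ := hensels_lemma (p := l) (F := (X ^ 2 - C s * X + C d : ℤ_[l][X]))
    (a := 0) (by simpa [h2] using h3)
  have g4 : μ ^ 2 - s * μ + d = 0 := by simpa using g1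
  have g5 : ‖s - 2 * μ‖ = 1 := by
    rw [← norm_neg, ← h2]
    simpa [two_mul, add_mul] using g3
  obtain ⟨u, hu⟩ := (PadicInt.isUnit_iff.mpr g5).exists_left_inv
  obtain ⟨k1, k2⟩ := bord_det z (CM.toOm l u) (CM.toOm l μ)
  have k3 := congrArg (CM.toOm l) g4
  have k4 := congrArg (CM.toOm l) hu
  simp only [map_add, map_sub, map_mul, map_pow, map_zero, map_one, map_ofNat, hs, hd] at k3 k4
  rw [k3, mul_zero] at k1
  rw [k4] at k2
  refine ⟨_, bord_smul h u (R.sub_mem hz (h.sc μ)), ?_, k2, k1⟩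
  simpa only [Matrix.mul_one, k2, one_smul] using bord_rk k1 1

/-- `∑ a b, tr (ε E_ab (1 - ε) E_ba) = tr ε * tr (1 - ε) = 1`, so some `γ = tr (ε y₁ (1 - ε) y₂)`,
`y₁, y₂ ∈ R`, has norm one; `e = ε y₁ (1 - ε)`, `f = γ⁻¹ (1 - ε) y₂ ε`; `A M A = tr (A M) A` for
`det A = 0`. -/
theorem Ord.units {R : Subring (M2 (CM.Om l))} (h : Ord R) (hl : l ≠ 2) :
    ∃ e ∈ R, ∃ f ∈ R, Pr e f := by
  obtain ⟨ε, hε, h1, h2, h3⟩ := h.idem hl
  obtain ⟨η, hη⟩ : ∃ η, η = 1 - ε := ⟨_, rfl⟩
  have hR : η ∈ R := hη ▸ R.sub_mem R.one_mem hε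
  have g1 : η * η = η := by rw [hη, sub_mul, mul_sub, mul_sub, h1]; simp
  have g2 : η.trace = 1 := by rw [hη, trace_sub, h2, trace_one]; norm_num
  have g3 : η.det = 0 := by
    rw [trace_fin_two] at h2
    rw [det_fin_two] at h3
    simp only [hη, det_fin_two, Matrix.sub_apply, one_apply_eq, ne_eq, zero_ne_one, one_ne_zero,
      not_false_eq_true, one_apply_ne]
    linear_combination h3 - h2
  have g4 : η * ε = 0 := by rw [hη, sub_mul, h1]; simp
  have g5 : ε * η = 0 := by rw [hη, mul_sub, h1]; simp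
  obtain ⟨a, ha⟩ := bord_diag h2
  obtain ⟨b, hb⟩ := bord_diag g2
  obtain ⟨y, hy, k1⟩ := bord_lin h ((traceLinearMap _ _ _).comp ((LinearMap.mulLeft _ ε).comp
    (LinearMap.mulRight _ (η * single b a 1)))) (bord_single a b) (by
      change 1 ≤ ‖(ε * (single a b 1 * (η * single b a 1))).trace‖
      rw [← Matrix.mul_assoc (single a b 1), single_mul_mul_single, trace_mul_single]
      simpa using one_le_mul_of_one_le_of_one_le ha hb)
  obtain ⟨w, hw, k2⟩ := bord_lin h ((traceLinearMap _ _ _).comp (LinearMap.mulLeft _ (ε * y * η)))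
    (bord_single b a) (by
      change 1 ≤ ‖(ε * y * η * single b a 1).trace‖
      rw [Matrix.mul_assoc, Matrix.mul_assoc]
      exact k1)
  have hz := R.mul_mem (R.mul_mem (R.mul_mem hε hy) hR) hw
  obtain ⟨u, hu⟩ := bord_inv (h.tr _ hz).1 (le_antisymm (h.le _ hz).trace k2)
  refine ⟨ε * y * η, R.mul_mem (R.mul_mem hε hy) hR, CM.toOm l u • (η * w * ε),
    bord_smul h u (R.mul_mem (R.mul_mem hR hw) hε), ?_, ?_, ?_⟩
  · calc _ = ε * y * (η * ε) * y * η := by simp only [Matrix.mul_assoc]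
      _ = 0 := by simp [g4]
  · rw [Matrix.smul_mul, Matrix.mul_smul]
    have : η * w * ε * (η * w * ε) = η * w * (ε * η) * w * ε := by simp only [Matrix.mul_assoc]
    simp [this, g5]
  · have e1 : ε * y * η * (η * w * ε) = (ε * y * η * w).trace • ε := by
      rw [Matrix.mul_assoc (ε * y), ← Matrix.mul_assoc η, ← Matrix.mul_assoc η, g1]
      simpa only [Matrix.mul_assoc] using bord_rk h3 (y * η * w)
    have e2 : η * w * ε * (ε * y * η) = (ε * y * η * w).trace • η := by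
      rw [Matrix.mul_assoc (η * w), ← Matrix.mul_assoc ε, ← Matrix.mul_assoc ε, h1,
        Matrix.mul_assoc (ε * y) η w, trace_mul_comm]
      simpa only [Matrix.mul_assoc] using bord_rk g3 (w * ε * y)
    rw [Matrix.mul_smul, Matrix.smul_mul, e1, e2, smul_smul, smul_smul, hu, one_smul, one_smul, hη,
      add_sub_cancel]

/-- `e` has an entry `(a, b)` of norm one (`e f + f e = 1`); the columns of `c` are `e v`, `f e v` with
`v` the basis vector `b`, the rows of the inverse are the rows `a` of `e f` and `e`, divided by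
`e a b`. -/
theorem units_int {e f : M2 (CM.Om l)} (he : Le e 1) (hf : Le f 1) (h : Pr e f) :
    ∃ c : GL (Fin 2) (CM.Om l), Le (c : M2 (CM.Om l)) 1 ∧
      Le ((c⁻¹ : GL (Fin 2) (CM.Om l)) : M2 (CM.Om l)) 1 ∧
        cj c (bas (CM.Om l) 1) = e ∧ cj c (bas (CM.Om l) 2) = f := by
  obtain ⟨a, b, hab⟩ : ∃ a b, ‖e a b‖ = 1 := by
    by_contra hn
    push Not at hn
    have h1 : ∀ a b c d, ‖e a b * f c d‖ < 1 := fun a b c d => by
      rw [norm_mul]
      exact (mul_le_of_le_one_right (norm_nonneg _) (hf c d)).trans_lt ((he a b).lt_of_ne (hn a b))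
    have h2 := bord_add (bord_add (h1 0 0 0 0) (h1 0 1 1 0)) (bord_add (h1 0 0 0 0) (h1 1 0 0 1))
    have h3 := congrFun (congrFun h.ef 0) 0
    simp only [Matrix.add_apply, Matrix.mul_apply, Fin.sum_univ_two, one_apply_eq] at h3
    rw [show e 0 0 * f 0 0 + e 0 1 * f 1 0 + (e 0 0 * f 0 0 + e 1 0 * f 0 1) = 1 by
      linear_combination h3, norm_one] at h2
    exact h2.false
  have h0 : e a b ≠ 0 := fun h0 => by simp [h0] at hab
  have efe : e * (f * e) = e := by
    have := congrArg (e * ·) h.ef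
    simpa only [Matrix.mul_add, ← Matrix.mul_assoc, h.ee, Matrix.zero_mul, zero_add,
      Matrix.mul_one] using this
  obtain ⟨c, hc⟩ : ∃ c, c = e * single b 0 1 + f * e * single b 1 1 := ⟨_, rfl⟩
  obtain ⟨d, hd⟩ : ∃ d, d = (e a b)⁻¹ • (single 0 a 1 * (e * f) + single 1 a 1 * e) := ⟨_, rfl⟩
  have h1 : e * c = e * single b 1 1 := by
    rw [hc, Matrix.mul_add, ← Matrix.mul_assoc, ← Matrix.mul_assoc, h.ee, efe]
    simp
  have h2 : f * c = f * e * single b 0 1 := by
    simp [hc, Matrix.mul_add, ← Matrix.mul_assoc, h.ff]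
  have h3 : d * c = 1 := by
    rw [hd, Matrix.smul_mul, Matrix.add_mul, Matrix.mul_assoc, Matrix.mul_assoc, Matrix.mul_assoc,
      h1, h2, ← Matrix.mul_assoc e, efe, ← Matrix.mul_assoc, ← Matrix.mul_assoc,
      single_mul_mul_single, single_mul_mul_single]
    ext i j
    fin_cases i <;> fin_cases j <;> simp [h0]
  have h4 : c * d = 1 := mul_eq_one_comm.mp h3
  have b1 : bas (CM.Om l) 1 = single 0 1 1 := by
    ext i j
    fin_cases i <;> fin_cases j <;> simp [bas]
  have b2 : bas (CM.Om l) 2 = single 1 0 1 := by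
    ext i j
    fin_cases i <;> fin_cases j <;> simp [bas]
  refine ⟨⟨c, d, h4, h3⟩, ?_, ?_, ?_, ?_⟩
  · change Le c 1
    rw [hc]
    exact (he.mul_one (bord_single _ _)).add ((hf.mul_one he).mul_one (bord_single _ _))
  · change Le d 1
    rw [hd]
    exact ((((bord_single _ _).mul_one (he.mul_one hf)).add ((bord_single _ _).mul_one he)).smul
      _).mono (by simp [hab])
  · change c * _ * d = e
    have : c * bas (CM.Om l) 1 = e * c := by
      rw [h1, b1, hc]
      simp [Matrix.add_mul, Matrix.mul_assoc]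
    rw [this, Matrix.mul_assoc, h4, Matrix.mul_one]
  · change c * _ * d = f
    have : c * bas (CM.Om l) 2 = f * c := by
      rw [h2, b2, hc]
      simp [Matrix.add_mul, Matrix.mul_assoc]
    rw [this, Matrix.mul_assoc, h4, Matrix.mul_one]

end M5
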