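import Pool.Agent.Lib.MP_33b3f9_ag.M5.SDefs
import Pool.Agent.Lib.MP_33b3f9_ag.M4.CmNorm

/-!
Matrix units in an order.
-/

set_option autoImplicit false

noncomputable section

namespace M5

open Matrix Polynomial NumberField M4 M4.CM Pool.Agent.M4.Mx Pool.Agent.Lib.MP_33b3f9_ag

variable {l : ℕ} [Fact l.Prime]

/-- An order in `M2` over `ℤ_l` with unit discriminant. -/
structure Ord (R : Subring (M2 (CM.Om l))) : Prop where
  le : ∀ x ∈ R, Le x 1
  sc : ∀ z : ℤ_[l], CM.toOm l z • (1 : M2 (CM.Om l)) ∈ R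
  tr : ∀ x ∈ R, x.trace ∈ NT.Qp l ∧ x.det ∈ NT.Qp l
  span : ∀ x, Le x 1 → ∃ (n : ℕ) (o : Fin n → CM.Om l) (y : Fin n → M2 (CM.Om l)),
    (∀ j, ‖o j‖ ≤ 1 ∧ y j ∈ R) ∧ x = ∑ j, o j • y j

/-- A ternary quadratic form over a prime field has a nontrivial zero. -/
theorem borda_iso (q : Fin 3 → Fin 3 → ZMod l) :
    ∃ v : Fin 3 → ZMod l, v ≠ 0 ∧ ∑ i, ∑ j, q i j * v i * v j = 0 := by
  by_contra hn
  have hd : (∑ i, ∑ j, MvPolynomial.C (q i j) * MvPolynomial.X i * MvPolynomial.X j :
      MvPolynomial (Fin 3) (ZMod l)).totalDegree < Fintype.card (Fin 3) :=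
    Nat.lt_succ_of_le (MvPolynomial.totalDegree_finsetSum_le fun i _ =>
      MvPolynomial.totalDegree_finsetSum_le fun j _ => (MvPolynomial.totalDegree_mul _ _).trans
        (add_le_add ((MvPolynomial.totalDegree_mul _ _).trans (add_le_add
          (MvPolynomial.totalDegree_C _).le (MvPolynomial.totalDegree_X _).le))
          (MvPolynomial.totalDegree_X _).le))
  have h1 := char_dvd_card_solutions l hd
  rw [Fintype.card_eq_one_iff.2 ⟨⟨0, by simp⟩, fun y => Subtype.ext (by
    by_contra h0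
    exact hn ⟨y.1, h0, by simpa using y.2⟩)⟩] at h1
  exact (Fact.out : l.Prime).one_lt.ne' (Nat.dvd_one.1 h1)

theorem borda_comm {R : Subring (M2 (CM.Om l))} (h : Ord R) :
    ∃ a ∈ R, ∃ b ∈ R, 1 ≤ ‖(a * b - b * a) 0 0‖ := by
  by_contra hn
  have hb : ∀ k, Le (bas (CM.Om l) k) 1 := fun k i j => by
    fin_cases k <;> fin_cases i <;> fin_cases j <;> simp [bas]
  obtain ⟨n, o, y, hy, e⟩ := h.span _ (hb 1)
  obtain ⟨n', o', y', hy', e'⟩ := h.span _ (hb 2)
  have h1 : (1 : CM.Om l) = ∑ j, ∑ k, o j * o' k * (y j * y' k - y' k * y j) 0 0 := by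
    have h2 : (bas (CM.Om l) 1 * bas (CM.Om l) 2 - bas (CM.Om l) 2 * bas (CM.Om l) 1) 0 0 = 1 := by
      simp [bas]
    rw [← h2, e, e', Finset.sum_mul_sum, Finset.sum_mul_sum, Finset.sum_comm (f := fun k j =>
      o' k • y' k * o j • y j), ← Finset.sum_sub_distrib, Matrix.sum_apply]
    refine Finset.sum_congr rfl fun j _ => ?_
    rw [← Finset.sum_sub_distrib, Matrix.sum_apply]
    refine Finset.sum_congr rfl fun k _ => ?_
    rw [smul_mul_smul_comm, smul_mul_smul_comm, mul_comm (o' k), ← smul_sub]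
    rfl
  have ha : ∀ u v : CM.Om l, ‖u‖ < 1 → ‖v‖ < 1 → ‖u + v‖ < 1 := fun u v hu hv =>
    (IsUltrametricDist.norm_add_le_max u v).trans_lt (max_lt hu hv)
  have h3 : ‖(1 : CM.Om l)‖ < 1 := by
    rw [h1]
    refine Finset.sum_induction _ (‖·‖ < 1) ha (by simp) fun j _ =>
      Finset.sum_induction _ (‖·‖ < 1) ha (by simp) fun k _ => ?_
    rw [norm_mul, norm_mul]
    exact (mul_le_of_le_one_left (norm_nonneg _) (mul_le_one₀ (hy j).1 (norm_nonneg _)
      (hy' k).1)).trans_lt (not_le.1 fun h4 => hn ⟨_, (hy j).2, _, (hy' k).2, h4⟩)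
  simp at h3

/-- There are `a, b ∈ R` whose commutator has an entry of norm one (`span` for `bas 1`, `bas 2`). Replace
`a` by `2 a - tr a`, so `a * a = α`. If `‖α‖ < 1` take `a`. Otherwise replace `b` by
`b' = 2 b - tr b` minus a multiple of `a`, so that `a b + b a = 0`, `b * b = β`; then
`det (s + t a + b) = s ^ 2 - α t ^ 2 - β` has a zero modulo `l`
(`FiniteField.exists_root_sum_quadratic`, or a pigeonhole as in `ZMod.sq_add_sq`), and the commutator
with `a` shows that some entry has norm one. -/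
theorem Ord.sing {R : Subring (M2 (CM.Om l))} (h : Ord R) (hl : l ≠ 2) :
    ∃ x ∈ R, ‖x.det‖ < 1 ∧ ∃ a b, ‖x a b‖ = 1 := by
  obtain ⟨a, ha, b, hb, hc⟩ := borda_comm h
  let y : Fin 3 → M2 (CM.Om l) := ![1, a, b]
  have hy : ∀ i, y i ∈ R := fun i => by
    fin_cases i
    exacts [R.one_mem, ha, hb]
  have ht : ∀ x ∈ R, ∃ z, CM.toOm l z = x.trace := fun x hx =>
    exists_toOm (h.tr x hx).1 (h.le x hx).trace
  choose! t ht using ht
  obtain ⟨v, hv, hq⟩ := borda_iso fun i j => PadicInt.toZMod (t (y i) * t (y j) - t (y i * y j))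
  choose w hw using fun i => ZMod.ringHom_surjective (PadicInt.toZMod (p := l)) (v i)
  set x := ∑ i, CM.toOm l (w i) • y i with hx
  have hxR : x ∈ R := R.sum_mem fun i _ => by
    simpa using R.mul_mem (h.sc (w i)) (hy i)
  refine ⟨x, hxR, ?_, ?_⟩
  · have h1 : 2 * x.det =
        CM.toOm l (∑ i, ∑ j, (t (y i) * t (y j) - t (y i * y j)) * w i * w j) := by
      simp only [map_sum, map_mul, map_sub, ht _ (hy _), ht _ (R.mul_mem (hy _) (hy _))]
      simp only [hx, y, Fin.sum_univ_three, Matrix.det_fin_two, Matrix.trace_fin_two,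
        Matrix.mul_apply, Fin.sum_univ_two, Matrix.add_apply, Matrix.smul_apply, smul_eq_mul,
        cons_val_zero, cons_val_one, cons_val_two, head_cons, tail_cons, one_apply_eq,
        one_apply_ne (zero_ne_one (α := Fin 2)), one_apply_ne (one_ne_zero (α := Fin 2))]
      ring
    have h2 := (toZMod_eq_zero_iff _).1 (by simpa only [map_sum, map_mul, hw] using hq :
      PadicInt.toZMod (∑ i, ∑ j, (t (y i) * t (y j) - t (y i * y j)) * w i * w j) = 0)
    rwa [← h1, norm_mul, norm_two hl, one_mul] at h2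
  · by_contra hn
    let η := ‖fun p : Fin 2 × Fin 2 => x p.1 p.2‖
    have h0 : 0 ≤ η := norm_nonneg _
    have h1 : η < 1 := (pi_norm_lt_iff one_pos).2 fun p =>
      (h.le x hxR _ _).lt_of_ne fun e => hn ⟨_, _, e⟩
    have h2 : Le x η := fun i j => norm_le_pi_norm (fun p : Fin 2 × Fin 2 => x p.1 p.2) (i, j)
    have h3 : ∀ z ∈ R, ∀ c : CM.Om l, x * z - z * x = c • (a * b - b * a) → ‖c‖ ≤ η :=
      fun z hz c e => by
      have h4 := (((h2.mul (h.le z hz) h0 zero_le_one).mono (mul_one _).le).sub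
        (((h.le z hz).mul h2 zero_le_one h0).mono (one_mul _).le)) 0 0
      rw [e, Matrix.smul_apply, smul_eq_mul, norm_mul] at h4
      exact (le_mul_of_one_le_right (norm_nonneg _) hc).trans h4
    have e : x = CM.toOm l (w 0) • 1 + CM.toOm l (w 1) • a + CM.toOm l (w 2) • b := by
      rw [hx, Fin.sum_univ_three]
      rfl
    have w1 := h3 b hb (CM.toOm l (w 1)) (by
      simp only [e, add_mul, mul_add, smul_mul_assoc, mul_smul_comm, one_mul, mul_one, smul_sub]
      abel)
    have w2 := h3 a ha (-CM.toOm l (w 2)) (by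
      simp only [e, add_mul, mul_add, smul_mul_assoc, mul_smul_comm, one_mul, mul_one, smul_sub,
        neg_smul]
      abel)
    rw [norm_neg] at w2
    have w0 := ((h2.sub (((h.le a ha).smul _).mono ((mul_one _).le.trans w1))).sub
      (((h.le b hb).smul _).mono ((mul_one _).le.trans w2))) 0 0
    rw [e, add_sub_right_comm, add_sub_cancel_right, add_sub_cancel_right, Matrix.smul_apply,
      one_apply_eq, smul_eq_mul, mul_one] at w0
    refine hv (funext fun i => (hw i).symm.trans ((toZMod_eq_zero_iff _).2 ?_))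
    fin_cases i
    exacts [w0.trans_lt h1, w1.trans_lt h1, w2.trans_lt h1]

end M5
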