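import Pool.Agent.Lib.MP_33b3f9_ag.M5.BFrob
import Pool.Agent.Lib.MP_33b3f9_ag.M4.CmCubeB
import Pool.Agent.Lib.MP_33b3f9_ag.IgExp

/-!
The type does not depend on the prime.
-/

set_option autoImplicit false

noncomputable section

namespace M5

open Matrix Polynomial NumberField M4 M4.CM Pool.Agent.M4.Mx Pool.Agent.Lib.MP_33b3f9_ag

/-- The multiplier. -/
def mu {R : Type} [CommRing R] (g : Matrix ν ν R) : R :=
  (gᵀ * Matrix.J (Fin 4) R * g) (.inr 0) (.inl 0)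

/-- The relation between the traces of the powers of an element of the cube. -/
def Ph {R : Type} [CommRing R] (g : Matrix ν ν R) : R :=
  2 * (g.trace ^ 3 + 2 * (g ^ 3).trace - 6 * mu g * g.trace) ^ 2 -
    (g.trace ^ 3 + 3 * g.trace * (g ^ 2).trace - 4 * (g ^ 3).trace) ^ 2 -
      18 * g.trace ^ 2 * (g ^ 4).trace

theorem ph_id {R : Type} [CommRing R] (s₀ s₁ s₂ d₀ d₁ d₂ a₁ a₂ a₃ a₄ : R) (h1 : a₁ = s₀ * s₁ * s₂)
    (h2 : a₂ = (s₀ ^ 2 - 2 * d₀) * (s₁ ^ 2 - 2 * d₁) * (s₂ ^ 2 - 2 * d₂))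
    (h3 : a₃ = (s₀ ^ 3 - 3 * s₀ * d₀) * (s₁ ^ 3 - 3 * s₁ * d₁) * (s₂ ^ 3 - 3 * s₂ * d₂))
    (h4 : a₄ = (s₀ ^ 4 - 4 * s₀ ^ 2 * d₀ + 2 * d₀ ^ 2) * (s₁ ^ 4 - 4 * s₁ ^ 2 * d₁ + 2 * d₁ ^ 2) *
      (s₂ ^ 4 - 4 * s₂ ^ 2 * d₂ + 2 * d₂ ^ 2)) :
    2 * (a₁ ^ 3 + 2 * a₃ - 6 * (d₀ * d₁ * d₂) * a₁) ^ 2 - (a₁ ^ 3 + 3 * a₁ * a₂ - 4 * a₃) ^ 2 -
      18 * a₁ ^ 2 * a₄ = 0 := by
  subst h1 h2 h3 h4
  ring

theorem Ph_map {R S : Type} [CommRing R] [CommRing S] (φ : R →+* S) (g : Matrix ν ν R) :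
    Ph (g.map φ) = φ (Ph g) := by
  have h1 : ∀ k, ((g.map φ) ^ k).trace = φ (g ^ k).trace := fun k => by
    rw [← Matrix.map_pow]
    exact (AddMonoidHom.map_trace φ (g ^ k)).symm
  have h2 : (g.map φ).trace = φ g.trace := (AddMonoidHom.map_trace φ g).symm
  have h3 : mu (g.map φ) = φ (mu g) := by
    rw [mu, mu, ← Matrix.map_J (Fin 4) φ, ← Matrix.transpose_map, ← Matrix.map_mul,
      ← Matrix.map_mul, map_apply]
  simp only [Ph, h1, h2, h3, map_sub, map_add, map_mul, map_pow, map_ofNat]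

theorem bpha_tr {R : Type} [CommRing R] (x : M2 R) :
    (x ^ 2).trace = x.trace ^ 2 - 2 * x.det ∧ (x ^ 3).trace = x.trace ^ 3 - 3 * x.trace * x.det ∧
      (x ^ 4).trace = x.trace ^ 4 - 4 * x.trace ^ 2 * x.det + 2 * x.det ^ 2 := by
  simp only [pow_succ, pow_zero, Matrix.one_mul, trace_fin_two, det_fin_two, Matrix.mul_apply,
    Fin.sum_univ_two]
  refine ⟨?_, ?_, ?_⟩ <;> ring

/-- `T_pow`, `trace_T`, `ph_id`. -/
theorem ph_cube {R : Type} [CommRing R] (f : Fr ν R) (h : Fin 3 → M2 R)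
    (hd : ∏ i, (h i).det = mu (f.T h)) : Ph (f.T h) = 0 := by
  rw [Ph, ← hd, Fin.prod_univ_three]
  refine ph_id (h 0).trace (h 1).trace (h 2).trace _ _ _ _ _ _ _ ?_ ?_ ?_ ?_
  · rw [trace_T, Fin.prod_univ_three]
  all_goals
    rw [T_pow, trace_T, Fin.prod_univ_three]
    simp only [(bpha_tr _).1, (bpha_tr _).2.1, (bpha_tr _).2.2]

variable {τ : Mat} {K : IntermediateField ℚ ℂ} {r : Rep K} {l₀ : ℕ} [Fact l₀.Prime]
  {f₀ : Fr ν (CM.Om l₀)}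

theorem bpha_mult {p : ℕ} [Fact p.Prime] {e : ℂ ≃+* PadicAlgCl p} {σ : ℂ ≃ₐ[K] ℂ}
    (hF : Frob τ r e σ) (l : ℕ) [Fact l.Prime] (hl : l ≠ p) (j : ℕ) :
    (ro r l σ ^ j)ᵀ * J (Fin 4) (CM.Om l) * ro r l σ ^ j =
      (p : CM.Om l) ^ j • J (Fin 4) (CM.Om l) := by
  have h1 : (ro r l σ)ᵀ * J (Fin 4) (CM.Om l) * ro r l σ = (p : CM.Om l) • J (Fin 4) (CM.Om l) := by
    have h2 := congrArg (fun A => A.map (algebraMap ℚ_[l] (CM.Om l))) (hF.mult l hl)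
    simp only [Matrix.map_mul, Matrix.map_J, Matrix.transpose_map] at h2
    rw [ro, h2, ← Matrix.map_J (Fin 4) (algebraMap ℚ_[l] (CM.Om l))]
    ext a b
    simp only [map_apply, Matrix.smul_apply, smul_eq_mul, map_mul, map_natCast]
  induction j with
  | zero => simp
  | succ j ih =>
    rw [pow_succ, transpose_mul, Matrix.mul_assoc, Matrix.mul_assoc, ← Matrix.mul_assoc _ _ (ro r l σ),
      ← Matrix.mul_assoc _ _ (ro r l σ), ← Matrix.mul_assoc _ _ (ro r l σ ^ j), ih,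
      Matrix.smul_mul, Matrix.mul_smul, ← Matrix.mul_assoc, h1, smul_smul, pow_succ]

theorem bpha_mu {R : Type} [CommRing R] {g : Matrix ν ν R} {c : R}
    (h : gᵀ * J (Fin 4) R * g = c • J (Fin 4) R) : mu g = c := by
  rw [mu, h]
  simp [J]

theorem bpha_eqm {l N : ℕ} [Fact l.Prime] {σ σ' : ℂ ≃ₐ[K] ℂ} (h : Eqm r N σ σ') :
    ‖Ph (ro r l σ) - Ph (ro r l σ')‖ ≤ ‖(N : CM.Om l)‖ := by
  have h1 : (r l σ : Matrix ν ν ℤ_[l]).map (Ideal.Quotient.mk (Ideal.span {(N : ℤ_[l])})) =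
      (r l σ' : Matrix ν ν ℤ_[l]).map (Ideal.Quotient.mk (Ideal.span {(N : ℤ_[l])})) := by
    ext i j
    exact Ideal.Quotient.eq.2 (Ideal.mem_span_singleton.2 (h l i j))
  have h2 := congrArg Ph h1
  rw [Ph_map, Ph_map] at h2
  obtain ⟨c, hc⟩ := Ideal.mem_span_singleton.1 (Ideal.Quotient.eq.1 h2)
  rw [ro_eq, ro_eq, Ph_map, Ph_map, ← map_sub, hc, map_mul, map_natCast, norm_mul, norm_toOm]
  exact mul_le_of_le_one_right (norm_nonneg _) c.norm_le_one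

/-- For every `n`: `frob_near` with `N = l ^ n`, `p₁ = l₀`. `mu (ro r l' σ ^ j) = p ^ j` (`Frob.mult`) and
the traces are integers (`pow_sums`), so `Ph (ro r l' σ ^ j)` is an integer that does not depend on
`l' ≠ p`; at `l₀` it vanishes (`dq_int`, `Dq_ne_iff`, `cube_det`, `ph_cube`). `Ph` respects congruences
(`Ph_map` for the quotient of `ℤ_[l]` by `N`), so `l ^ n` divides `Ph (r l σ₀)`. -/
theorem ph_zero (H : Hyp τ K r) (B : Base r l₀ f₀) (l : ℕ) [Fact l.Prime] {σ₀ : ℂ ≃ₐ[K] ℂ}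
    (h0 : Dq (ro r l σ₀) ≠ 0) : Ph (ro r l σ₀) = 0 := by
  have hl : l.Prime := Fact.out
  have key : ∀ n : ℕ, ‖Ph (ro r l σ₀)‖ ≤ (l : ℝ)⁻¹ ^ n := fun n => by
    obtain ⟨p, hp, e, σ, j, P, hp1, hp2, hF, hW, hE, hD⟩ :=
      frob_near H h0 (pow_ne_zero n hl.ne_zero) l₀
    obtain ⟨a, ha⟩ := pow_sums P hW.monic
    obtain ⟨z, hz⟩ : ∃ z : ℤ, ∀ (l' : ℕ) [Fact l'.Prime], l' ≠ p → Ph (ro r l' σ ^ j) = z :=
      ⟨2 * (a j ^ 3 + 2 * a (j * 3) - 6 * p ^ j * a j) ^ 2 -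
        (a j ^ 3 + 3 * a j * a (j * 2) - 4 * a (j * 3)) ^ 2 - 18 * a j ^ 2 * a (j * 4),
        fun l' _ h => by
          have h1 := ha _ _ (ro_charpoly r hW h)
          rw [Ph, bpha_mu (bpha_mult hF l' h j), ← pow_mul, ← pow_mul, ← pow_mul, h1, h1, h1, h1]
          push_cast
          rfl⟩
    obtain ⟨D, hD'⟩ := dq_int hW j
    rw [hD' l hp2.ne] at hD
    have h2 : Dq (ro r l₀ σ ^ j) ≠ 0 := by
      rw [hD' l₀ hp1.ne]
      exact Int.cast_ne_zero.2 (Int.cast_ne_zero.1 hD)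
    have h3 := bpha_mult hF l₀ hp1.ne j
    have h4 := hz l₀ hp1.ne
    obtain ⟨b, hb⟩ := B.inC (σ ^ j)
    rw [← ro_pow, hb] at h2 h3 h4
    rw [ph_cube f₀ b ((cube_det f₀ b (pow_ne_zero _ (Nat.cast_ne_zero.2 hp.out.ne_zero)) h3
      ((Dq_ne_iff _).1 h2)).trans (bpha_mu h3).symm)] at h4
    have h5 := bpha_eqm (l := l) hE
    rwa [ro_pow, hz l hp2.ne, Int.cast_eq_zero.1 h4.symm, Int.cast_zero, sub_zero, Nat.cast_pow,
      norm_pow, norm_l] at h5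
  by_contra h
  obtain ⟨n, hn⟩ := exists_pow_lt_of_lt_one (norm_pos_iff.2 h)
    (inv_lt_one_of_one_lt₀ (show (1 : ℝ) < l by exact_mod_cast hl.one_lt))
  exact absurd (key n) (not_le.2 hn)

end M5
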