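import Pool.Agent.Lib.MP_33b3f9_ag.M5.BSplA

/-!
Rational frames at the split primes.
-/

set_option autoImplicit false

noncomputable section

namespace M5

open Matrix Polynomial NumberField M4 M4.CM Pool.Agent.M4.Mx Pool.Agent.Lib.MP_33b3f9_ag

variable {Γ : Type} [Group Γ] {l : ℕ} [Fact l.Prime] {ρ : Γ →* GL ν ℤ_[l]} {f : Fr ν (CM.Om l)}

theorem bspl_fix (θ : CM.Om l ≃ₐ[ℚ_[l]] CM.Om l) {m n : Type} (A : Matrix m n ℤ_[l]) :
    (A.map (CM.toOm l)).map θ = A.map (CM.toOm l) := by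
  ext i j
  exact (mem_Qp_iff _).1 (toOm_mem _) θ

theorem bspl_inj {m n : Type} {A B : Matrix m n ℤ_[l]}
    (h : A.map (CM.toOm l) = B.map (CM.toOm l)) : A = B :=
  Matrix.map_injective toOm_inj h

/-- All `T (E_(k i, k' i))` are fixed, and their entries are the products `P x k * Q k' y`. Some entry
`q` of `Q` has norm one; replace `P`, `Q` by `q • P`, `q⁻¹ • Q`; `exists_mat`. -/
theorem rat_frame (hP : Le f.P 1) (hQ : Le f.Q 1)
    (h : ∀ (θ : CM.Om l ≃ₐ[ℚ_[l]] CM.Om l) i, (f.u i (bas _ 1)).map θ = f.u i (bas _ 1) ∧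
      (f.u i (bas _ 2)).map θ = f.u i (bas _ 2)) :
    ∃ fz : Fr ν ℤ_[l], ∀ a, (fz.map (CM.toOm l)).T a = f.T a := by
  have h1 : ∀ (θ : CM.Om l ≃ₐ[ℚ_[l]] CM.Om l) i (a b : Fin 2),
      (f.u i (single a b 1)).map θ = f.u i (single a b 1) := by
    intro θ i a b
    have e1 : (single 0 1 1 : M2 (CM.Om l)) = bas _ 1 := by
      ext x y; fin_cases x <;> fin_cases y <;> simp [bas]
    have e2 : (single 1 0 1 : M2 (CM.Om l)) = bas _ 2 := by
      ext x y; fin_cases x <;> fin_cases y <;> simp [bas]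
    have e0 : (single 0 0 1 : M2 (CM.Om l)) = bas _ 1 * bas _ 2 := by
      rw [← e1, ← e2, single_mul_single_same, mul_one]
    have e3 : (single 1 1 1 : M2 (CM.Om l)) = bas _ 2 * bas _ 1 := by
      rw [← e1, ← e2, single_mul_single_same, mul_one]
    fin_cases a <;> fin_cases b
    · change (f.u i (single 0 0 1)).map θ = f.u i (single 0 0 1)
      rw [e0, map_mul, Matrix.map_mul, (h θ i).1, (h θ i).2]
    · change (f.u i (single 0 1 1)).map θ = f.u i (single 0 1 1)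
      rw [e1, (h θ i).1]
    · change (f.u i (single 1 0 1)).map θ = f.u i (single 1 0 1)
      rw [e2, (h θ i).2]
    · change (f.u i (single 1 1 1)).map θ = f.u i (single 1 1 1)
      rw [e3, map_mul, Matrix.map_mul, (h θ i).1, (h θ i).2]
  have h2 : ∀ (θ : CM.Om l ≃ₐ[ℚ_[l]] CM.Om l) x k k' y,
      θ (f.P x k * f.Q k' y) = f.P x k * f.Q k' y := by
    intro θ x k k' y
    have e : f.T (fun s => single (k s) (k' s) 1) x y = f.P x k * f.Q k' y := by
      rw [Fr.T, tp_single, Matrix.mul_apply, Finset.sum_eq_single k']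
      · rw [mul_single_apply_same, mul_one]
      · intro b _ hb
        rw [mul_single_apply_of_ne _ _ _ _ _ hb, zero_mul]
      · simp
    have e' : (f.T (fun s => single (k s) (k' s) 1)).map θ =
        f.T (fun s => single (k s) (k' s) 1) := by
      rw [Fr.T_eq, Matrix.map_mul, Matrix.map_mul, h1, h1, h1]
    rw [← e]
    exact congrFun (congrFun e' x) y
  obtain ⟨y, -, hy⟩ := IsUltrametricDist.exists_norm_finsetSum_le_of_nonempty
    (Finset.univ_nonempty (α := ν)) fun y => f.Q 0 y * f.P y 0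
  rw [← Matrix.mul_apply, f.qp, one_apply_eq, norm_one, norm_mul] at hy
  have hq : ‖f.Q 0 y‖ = 1 :=
    le_antisymm (hQ _ _) (hy.trans (mul_le_of_le_one_right (norm_nonneg _) (hP _ _)))
  have hp : ‖f.P y 0‖ = 1 :=
    le_antisymm (hP _ _) (hy.trans (mul_le_of_le_one_left (norm_nonneg _) (hQ _ _)))
  have hq0 : f.Q 0 y ≠ 0 := norm_ne_zero_iff.1 (by rw [hq]; exact one_ne_zero)
  have hp0 : f.P y 0 ≠ 0 := norm_ne_zero_iff.1 (by rw [hp]; exact one_ne_zero)
  obtain ⟨A, hA⟩ := exists_mat (A := f.Q 0 y • f.P)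
    (fun i j => (mem_Qp_iff _).2 fun θ => by
      rw [Matrix.smul_apply, smul_eq_mul, mul_comm]; exact h2 θ _ _ _ _)
    ((hP.smul _).mono (by rw [hq, mul_one]))
  obtain ⟨B, hB⟩ := exists_mat (A := (f.Q 0 y)⁻¹ • f.Q)
    (fun i j => (mem_Qp_iff _).2 fun θ => by
      have e : ((f.Q 0 y)⁻¹ • f.Q) i j = f.P y 0 * f.Q i j / (f.P y 0 * f.Q 0 y) := by
        rw [Matrix.smul_apply, smul_eq_mul]; field_simp
      rw [e, map_div₀, h2, h2])
    ((hQ.smul _).mono (by rw [norm_inv, hq, inv_one, mul_one]))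
  refine ⟨⟨A, B, bspl_inj ?_, bspl_inj ?_⟩, fun a => ?_⟩
  · rw [Matrix.map_mul, hA, hB, Matrix.smul_mul, Matrix.mul_smul, smul_smul, mul_inv_cancel₀ hq0,
      one_smul, f.pq, Matrix.map_one _ (map_zero _) (map_one _)]
  · rw [Matrix.map_mul, hA, hB, Matrix.smul_mul, Matrix.mul_smul, smul_smul, inv_mul_cancel₀ hq0,
      one_smul, f.qp, Matrix.map_one _ (map_zero _) (map_one _)]
  · change A.map (CM.toOm l) * _ * B.map (CM.toOm l) = _
    rw [hA, hB, Matrix.smul_mul, Matrix.smul_mul, Matrix.mul_smul, smul_smul, mul_inv_cancel₀ hq0,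
      one_smul, Fr.T]

theorem bspl_frame (hP : Le f.P 1) (hQ : Le f.Q 1) (c : Fin 3 → GL (Fin 2) (CM.Om l))
    (h1 : ∀ i, Le (c i : M2 (CM.Om l)) 1)
    (h2 : ∀ i, Le (((c i)⁻¹ : GL (Fin 2) (CM.Om l)) : M2 (CM.Om l)) 1) :
    ∃ g : Fr ν (CM.Om l), Le g.P 1 ∧ Le g.Q 1 ∧ ∀ a, g.T a = f.T fun i => cj (c i) (a i) := by
  have ht : ∀ a : Fin 3 → M2 (CM.Om l), (∀ i, Le (a i) 1) → Le (Pool.Agent.M4.tp a) 1 :=
    fun a ha i j => by
      rw [tp_apply]
      exact cmnorm_prod _ fun s _ => ha s _ _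
  have e1 : Pool.Agent.M4.tp (fun i => (c i : M2 (CM.Om l))) *
      Pool.Agent.M4.tp (fun i => (((c i)⁻¹ : GL (Fin 2) (CM.Om l)) : M2 (CM.Om l))) = 1 := by
    rw [tp_mul, ← tp_one]
    congr 1
    funext i
    exact Units.mul_inv _
  have e2 : Pool.Agent.M4.tp (fun i => (((c i)⁻¹ : GL (Fin 2) (CM.Om l)) : M2 (CM.Om l))) *
      Pool.Agent.M4.tp (fun i => (c i : M2 (CM.Om l))) = 1 := by
    rw [tp_mul, ← tp_one]
    congr 1
    funext i
    exact Units.inv_mul _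
  refine ⟨⟨f.P * Pool.Agent.M4.tp (fun i => (c i : M2 (CM.Om l))),
    Pool.Agent.M4.tp (fun i => (((c i)⁻¹ : GL (Fin 2) (CM.Om l)) : M2 (CM.Om l))) * f.Q, ?_, ?_⟩,
    hP.mul_one (ht _ h1), (ht _ h2).mul_one hQ, fun a => ?_⟩
  · rw [Matrix.mul_assoc, ← Matrix.mul_assoc _ _ f.Q, e1, Matrix.one_mul, f.pq]
  · rw [Matrix.mul_assoc, ← Matrix.mul_assoc f.Q, f.qp, Matrix.one_mul, e2]
  · rw [Fr.T, Fr.T]
    change f.P * _ * _ * (_ * f.Q) = _
    rw [Matrix.mul_assoc f.P, ← Matrix.mul_assoc _ _ f.Q, Matrix.mul_assoc f.P, tp_mul, tp_mul]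
    rfl

theorem bspl_u {Ω : Type} [CommRing Ω] (g : Fr ν Ω) (φ : Ω →+* Ω) (h1 : g.P.map φ = g.P)
    (h2 : g.Q.map φ = g.Q) (i : Fin 3) (x : M2 Ω) : (g.u i x).map φ = g.u i (x.map φ) := by
  have e5 : (fun s => ((Function.update (1 : Fin 3 → M2 Ω) i x) s).map φ) =
      Function.update (1 : Fin 3 → M2 Ω) i (x.map φ) := by
    funext k
    by_cases hk : k = i
    · subst hk
      simp
    · simp [Function.update_of_ne hk]
  rw [Fr.u_apply, Fr.u_apply, Fr.T, Fr.T, Matrix.map_mul, Matrix.map_mul, tp_map, e5, h1, h2]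

/-- `exists_ord`, `Ord.units`, `units_int`, the frame `P * tp c`, `tp c⁻¹ * Q`, `rat_frame`. In the
rational frame `ρ σ = T h` with `h` integral; `gal_T` and `norm_fix` make the `y i • h i` rational, and
the scalar `∏ (y i)⁻¹` is then fixed too (`T_update_smul`). -/
theorem split (hl : l ≠ 2) (hs : Sz ρ) (C : Cb ρ f) (hg : ∀ θ i, Gal f θ i i) :
    ∃ fz : Fr ν ℤ_[l], ∀ σ, ∃ hz, (ρ σ : Matrix ν ν ℤ_[l]) = fz.T hz := by
  choose R hR hR' using exists_ord hl hs C hg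
  choose e he e' he' hee using fun i => (hR i).units hl
  choose c hc1 hc2 hc3 hc4 using fun i => units_int ((hR i).le _ (he i)) ((hR i).le _ (he' i)) (hee i)
  obtain ⟨g, gP, gQ, hgT⟩ := bspl_frame C.P_le C.Q_le c hc1 hc2
  have hu : ∀ i x, g.u i x = f.u i (cj (c i) x) := by
    intro i x
    rw [Fr.u_apply, Fr.u_apply, hgT]
    congr 1
    funext k
    by_cases hk : k = i
    · subst hk
      simp
    · simp [Function.update_of_ne hk, cj]
  obtain ⟨fz, hfz⟩ := rat_frame gP gQ fun θ i => by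
    rw [hu, hu, hc3, hc4]
    exact ⟨hR' i _ (he i) θ, hR' i _ (he' i) θ⟩
  refine ⟨fz, fun σ => ?_⟩
  obtain ⟨h, hh, hσ⟩ := C.ex σ
  have hρ : rO ρ σ = (ρ σ : Matrix ν ν ℤ_[l]).map (CM.toOm l) := rfl
  have hd : ‖(rO ρ σ).det‖ = 1 := by
    rw [hρ, ← RingHom.mapMatrix_apply, ← RingHom.map_det, norm_toOm]
    exact PadicInt.isUnit_iff.1 (Matrix.isUnits_det_units _)
  have hd' : ∀ i, ‖(h i).det‖ = 1 := by
    refine norm_eq_one_of_prod (fun i => (hh i).det) ?_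
    have := congrArg norm (det_T_sq f h)
    rw [← hσ, norm_pow, norm_pow, hd, one_pow] at this
    exact (pow_eq_one_iff_of_nonneg (norm_nonneg _) (by norm_num)).1 this.symm
  have h0 : ∀ i, h i ≠ 0 := fun i hi => by
    have := hd' i
    rw [hi, det_zero, norm_zero] at this
    exact zero_ne_one this
  choose y hy hy' using fun i => norm_fix C.P_le C.Q_le i (hh i) (hd' i)
  have hy0 : ∀ i, y i ≠ 0 := fun i => norm_ne_zero_iff.1 (by rw [hy]; exact one_ne_zero)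
  have hcj : ∀ i x, cj (c i) (cj (c i)⁻¹ x) = x := fun i x => by
    simp [cj, Matrix.mul_assoc]
  have hx : ∀ i, ∃ z : M2 ℤ_[l], z.map (CM.toOm l) = cj (c i)⁻¹ (y i • h i) := by
    intro i
    refine exists_mat (fun a b => (mem_Qp_iff _).2 fun θ => ?_) ?_
    · have e1 := hy' i θ (gal_T (π := 1) (hg θ) (by rw [← hσ, hρ, bspl_fix]) h0 i).2
      have e2 : ∀ x, (fz.map (CM.toOm l)).u i x = f.u i (cj (c i) x) := fun x => by
        rw [← hu, Fr.u_apply, hfz, Fr.u_apply]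
      have e3 := bspl_u (fz.map (CM.toOm l)) (θ : CM.Om l →+* CM.Om l) (bspl_fix θ fz.P)
        (bspl_fix θ fz.Q) i (cj (c i)⁻¹ (y i • h i))
      rw [← hcj i (y i • h i), ← e2] at e1
      exact congrFun (congrFun (((fz.map (CM.toOm l)).u i).toRingHom.injective
        (e3.symm.trans e1)) a) b
    · rw [cj, inv_inv]
      exact ((hc2 i).mul_one (((hh i).smul _).mono (by rw [hy, mul_one]))).mul_one (hc1 i)
  choose z hz using hx
  have e1 : (fz.T z).map (CM.toOm l) = (∏ i, y i) • rO ρ σ := by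
    rw [Fr.map_T, hfz, hgT, hσ, ← Fr.T_smul]
    congr 1
    funext i
    rw [hz, hcj]
  have hy1 : ‖(∏ i, y i)⁻¹‖ ≤ 1 := by
    rw [norm_inv, norm_prod, Finset.prod_eq_one fun i _ => hy i, inv_one]
  have hp0 : ∏ i, y i ≠ 0 := Finset.prod_ne_zero_iff.2 fun i _ => hy0 i
  obtain ⟨w, hw⟩ := exists_toOm (y := (∏ i, y i)⁻¹) ((mem_Qp_iff _).2 fun θ => by
    have e2 := bspl_fix θ (fz.T z)
    have hne : rO ρ σ ≠ 0 := fun h0 => by
      rw [h0, det_zero, norm_zero] at hd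
      exact zero_ne_one hd
    have e3 : ((∏ i, y i) • rO ρ σ).map θ = θ (∏ i, y i) • (rO ρ σ).map θ := by
      ext a b
      simp only [Matrix.map_apply, Matrix.smul_apply, smul_eq_mul, map_mul]
    rw [e1, e3, hρ, bspl_fix, ← hρ] at e2
    rw [map_inv₀, smul_left_injective _ hne e2]) hy1
  refine ⟨Function.update z 0 (w • z 0), bspl_inj ?_⟩
  rw [T_update_smul, ← hρ]
  have e4 : (w • fz.T z).map (CM.toOm l) = CM.toOm l w • (fz.T z).map (CM.toOm l) := by
    ext a b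
    simp only [Matrix.map_apply, Matrix.smul_apply, smul_eq_mul, map_mul]
  rw [e4, e1, hw, smul_smul, inv_mul_cancel₀ hp0, one_smul]

end M5
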