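import Pool.Agent.Lib.MP_33b3f9_ag.M5.BGal
import Pool.Agent.Lib.MP_33b3f9_ag.M5.BOrd

/-!
Rational frames at the split primes.
-/

set_option autoImplicit false

noncomputable section

namespace M5

open Matrix Polynomial NumberField M4 M4.CM Pool.Agent.M4.Mx Pool.Agent.Lib.MP_33b3f9_ag

variable {Γ : Type} [Group Γ] {l : ℕ} [Fact l.Prime] {ρ : Γ →* GL ν ℤ_[l]} {f : Fr ν (CM.Om l)}

lemma bsplA_tr {R : Type} [CommRing R] (x : M2 R) (i : Fin 3) :
    ∏ k ∈ Finset.univ.erase i, (Function.update (1 : Fin 3 → M2 R) i x k).trace = 4 := by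
  rw [Finset.prod_congr rfl (g := fun _ => (2 : R)) fun k hk => by
    rw [Function.update_of_ne (Finset.ne_of_mem_erase hk)]
    simp]
  simp
  norm_num

lemma bsplA_tru (i : Fin 3) (x : M2 (CM.Om l)) : (f.u i x).trace = 4 * x.trace := by
  rw [Fr.u_apply, trace_T, ← Finset.mul_prod_erase _ _ (Finset.mem_univ i), bsplA_tr,
    Function.update_self, mul_comm]

lemma bsplA_fix (i : Fin 3) {x : M2 (CM.Om l)} {θ : CM.Om l ≃ₐ[ℚ_[l]] CM.Om l}
    (h : (f.u i x).map θ = f.u i x) : θ x.trace = x.trace := by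
  have h1 : θ (f.u i x).trace = ((f.u i x).map θ).trace := by simp [Matrix.trace, map_sum]
  rw [h, bsplA_tru, map_mul, map_ofNat] at h1
  exact mul_left_cancel₀ (by norm_num) h1

lemma bsplA_det {σ : Γ} {h : Fin 3 → M2 (CM.Om l)} (h1 : ∀ i, Le (h i) 1) (h2 : rO ρ σ = f.T h)
    (i : Fin 3) : ‖(h i).det‖ = 1 := by
  refine norm_eq_one_of_prod (fun k => (h1 k).det) ?_ i
  have h3 : ‖(rO ρ σ).det‖ = 1 := by
    have e : (rO ρ σ).det = CM.toOm l (ρ σ : Matrix ν ν ℤ_[l]).det :=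
      (RingHom.map_det (CM.toOm l) (ρ σ : Matrix ν ν ℤ_[l])).symm
    rw [e, norm_toOm]
    exact PadicInt.isUnit_iff.mp (Matrix.isUnits_det_units _)
  have h4 := congrArg norm (det_T_sq (f := f) (h := h))
  rw [norm_pow, norm_pow, ← h2, h3, one_pow] at h4
  exact (pow_eq_one_iff_of_nonneg (norm_nonneg _) (by norm_num)).mp h4.symm

/-- `R` consists of the integral `x` such that `u i x` is fixed by all `θ`. Traces:
`tr (u i x) = 4 tr x`, `2 det x = (tr x) ^ 2 - tr (x * x)`, `mem_Qp_iff`. Span: `Sz.fin` for `u i x`,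
`exists_part` with `y = 1`, then `gal_T` (`π = 1`) and `norm_fix` for the `h (s j) i`. -/
theorem exists_ord (hl : l ≠ 2) (hs : Sz ρ) (C : Cb ρ f) (hg : ∀ θ i, Gal f θ i i) (i : Fin 3) :
    ∃ R : Subring (M2 (CM.Om l)), Ord R ∧
      ∀ x ∈ R, ∀ θ : CM.Om l ≃ₐ[ℚ_[l]] CM.Om l, (f.u i x).map θ = f.u i x := by
  have hz : ∀ (θ : CM.Om l ≃ₐ[ℚ_[l]] CM.Om l) (z : ℤ_[l]), θ (CM.toOm l z) = CM.toOm l z :=
    fun θ z => θ.commutes _
  let R : Subring (M2 (CM.Om l)) :=
    { carrier := {x | Le x 1 ∧ ∀ θ : CM.Om l ≃ₐ[ℚ_[l]] CM.Om l, (f.u i x).map θ = f.u i x}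
      mul_mem' := fun {a b} ha hb => ⟨ha.1.mul_one hb.1, fun θ => by
        rw [map_mul, Matrix.map_mul, ha.2, hb.2]⟩
      one_mem' := ⟨Le.one, fun θ => by
        rw [map_one, Matrix.map_one _ (map_zero θ) (map_one θ)]⟩
      add_mem' := fun {a b} ha hb => ⟨ha.1.add hb.1, fun θ => by
        rw [map_add, Matrix.map_add _ (map_add θ), ha.2, hb.2]⟩
      zero_mem' := ⟨fun _ _ => by simp, fun θ => by
        rw [map_zero, Matrix.map_zero _ (map_zero θ)]⟩
      neg_mem' := fun {a} ha => ⟨fun p q => (norm_neg _).le.trans (ha.1 p q), fun θ => by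
        rw [map_neg, Matrix.map_neg _ (map_neg θ), ha.2]⟩ }
  refine ⟨R, ⟨fun x hx => hx.1, fun z => ⟨?_, fun θ => ?_⟩, fun x hx => ?_, fun x hx => ?_⟩,
    fun x hx => hx.2⟩
  · exact (Le.one.smul _).mono (by rw [mul_one, norm_toOm]; exact PadicInt.norm_le_one z)
  · rw [map_smul, map_one]
    ext p q
    simp only [Matrix.map_apply, Matrix.smul_apply, Matrix.one_apply, smul_eq_mul, map_mul, hz]
    split_ifs <;> simp
  · refine ⟨(mem_Qp_iff _).2 fun θ => bsplA_fix i (hx.2 θ), (mem_Qp_iff _).2 fun θ => ?_⟩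
    have h1 := bsplA_fix i (hx.2 θ)
    have h2 := bsplA_fix i ((R.mul_mem hx hx).2 θ)
    have h3 : 2 * x.det = x.trace ^ 2 - (x * x).trace := by
      simp [Matrix.det_fin_two, Matrix.trace_fin_two, Matrix.mul_apply]
      ring
    have h4 := congrArg θ h3
    rw [map_sub, map_pow, h1, h2, ← h3, map_mul, map_ofNat] at h4
    exact mul_left_cancel₀ two_ne_zero h4
  · obtain ⟨n, s, hs'⟩ := hs.fin
    have hM : Le (f.u i x) 1 := Le.T C.P_le C.Q_le fun k => by
      by_cases hk : k = i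
      · rwa [hk, Function.update_self]
      · rw [Function.update_of_ne hk]
        exact Le.one
    obtain ⟨o, ho, hx'⟩ := hs' _ hM
    choose h h1 h2 using C.ex
    have hd := fun σ => bsplA_det (h1 σ) (h2 σ)
    choose y y1 y2 using fun σ => norm_fix C.P_le C.Q_le i (h1 σ i) (hd σ i)
    obtain ⟨Φ, hΦ⟩ := exists_part f i 1
    simp only [Pi.one_apply, Matrix.mul_one] at hΦ
    have y0 : ∀ σ, y σ ≠ 0 := fun σ => norm_ne_zero_iff.mp (by rw [y1]; exact one_ne_zero)
    have n4 : ‖(4 : CM.Om l)‖ = 1 := by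
      rw [show (4 : CM.Om l) = 2 * 2 by norm_num, norm_mul, norm_two hl, mul_one]
    refine ⟨n, fun j => 4⁻¹ * (o j * (∏ k ∈ Finset.univ.erase i, (h (s j) k).trace) * (y (s j))⁻¹),
      fun j => y (s j) • h (s j) i, fun j => ⟨?_, ?_, fun θ => y2 _ θ ?_⟩, ?_⟩
    · rw [norm_mul, norm_mul, norm_mul, norm_inv, norm_inv, n4, y1, inv_one, one_mul, mul_one]
      exact mul_le_one₀ (ho j) (norm_nonneg _) (cmnorm_prod _ fun k _ => (h1 _ k).trace)
    · exact ((h1 _ i).smul _).mono (by rw [y1, mul_one])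
    · refine (gal_T (π := 1) (hg θ) ?_ (fun k hk => ?_) i).2
      · rw [← h2]
        ext p q
        exact hz θ _
      · have := hd (s j) k
        rw [hk, Matrix.det_zero, norm_zero] at this
        exact zero_ne_one this
    · have e := congrArg Φ hx'
      rw [Fr.u_apply, hΦ, bsplA_tr, Function.update_self, map_sum] at e
      have e' : x = (4 : CM.Om l)⁻¹ • (4 : CM.Om l) • x := by
        rw [smul_smul, inv_mul_cancel₀ (by norm_num), one_smul]
      rw [e', e, Finset.smul_sum]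
      refine Finset.sum_congr rfl fun j _ => ?_
      rw [map_smul, h2, hΦ, smul_smul, smul_smul, smul_smul]
      congr 1
      field_simp [y0]

end M5
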