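import Pool.Agent.Lib.MP_33b3f9_ag.M5.BNoGp
import Pool.Agent.Lib.MP_33b3f9_ag.M5.BGp

/-!
The seventh symmetric power does not occur.
-/

set_option autoImplicit false

noncomputable section

namespace M5

open Matrix Polynomial NumberField M4 M4.CM Pool.Agent.M4.Mx Pool.Agent.Lib.MP_33b3f9_ag

theorem tl_conj {Ω : Type} [Field Ω] {g g' : Matrix ν ν Ω} (h : g * g' = 1) (x : Matrix ν ν Ω) :
    tl (g * x * g') = g * tl x * g' := by
  have h1 : (g * x * g').trace = x.trace := by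
    rw [trace_mul_comm, ← Matrix.mul_assoc, mul_eq_one_comm.1 h, Matrix.one_mul]
  simp [tl, h1, Matrix.mul_sub, Matrix.sub_mul, h]

/-- `exists_reg`, `frob_reg`, `lie_conj`, `gp`, `no_gp`. -/
theorem not_sym7 {τ : Mat} {K : IntermediateField ℚ ℂ} {r : Rep K} (H : Hyp τ K r) (l : ℕ)
    [Fact l.Prime] (U : Subgroup (ℂ ≃ₐ[K] ℂ)) [U.Normal] : ¬ Sym7 ((lie (r l) U).map tl) := by
  intro hs
  obtain ⟨σ₀, -, h1, h2⟩ := exists_reg hs.2.2
  obtain ⟨p, _, e, σ, j, P, h3, -, hW, -, h4⟩ := frob_reg H h1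
    (pow_one (ro r l σ₀) ▸ h2 1 one_ne_zero) one_ne_zero (max 64 l)
  rw [max_lt_iff] at h3
  have h5 : rO (r l) σ * rO (r l) σ⁻¹ = 1 := by rw [← map_mul, mul_inv_cancel, map_one]
  obtain ⟨β, u, h6, h7⟩ := gp h5 hs (by
    rintro _ ⟨x, hx, rfl⟩
    exact ⟨_, lie_conj σ hx, tl_conj h5 x⟩) (h4 l h3.2.ne)
  exact no_gp Fact.out h3.1 hW.weil h6 ((ro_charpoly r hW h3.2.ne).symm.trans h7)

end M5
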