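import Pool.Agent.Lib.MP_33b3f9_ag.M4.G.Arith
import Pool.Agent.Lib.MP_33b3f9_ag.M4.INum
import Pool.Agent.Lib.MP_33b3f9_ag.M4.ZGeo
import Pool.Agent.Lib.MP_33b3f9_ag.M4.B5
import Pool.Agent.Lib.MP_33b3f9_ag.M4.Fin
import Pool.Agent.Lib.MP_33b3f9_ag.M4.KzFinM
import Pool.Agent.Lib.MP_33b3f9_ag.M4.KzFinL
import Pool.Agent.Lib.MP_33b3f9_ag.M4.KzFinP
import Pool.Agent.Lib.MP_33b3f9_ag.M4.SH.Out
import Pool.Agent.Lib.MP_33b3f9_ag.M4.SH.Fin
import Pool.Agent.Lib.MP_33b3f9_ag.M4.CL.Main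

/-!
The class bound implies that the Hodge structure is not generic.
-/

set_option autoImplicit false

namespace M5

open M4 Pool.Agent.Lib.MP_33b3f9_ag

variable {τ : Mat} {K : IntermediateField ℚ ℂ} {r : Rep K}

theorem core_cl (y : Matrix (Fin 11) Bits ℂ) (a : Sy) (ha : InH (mat a)) (hg : GEN (cst (mat a)))
    (hy : FinProj y) (he : EtProj y a) : CLst y a := by
  obtain ⟨N0, kk, gg, -, h⟩ := fin_MI hy (q := 32) (by norm_num) (S := {γ | Lv 32 γ})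
    (fun _ h => h) fun _ h => Lv.of_dvd h (by norm_num)
  exact CL.cl y a ha hy ⟨N0, kk, gg, h⟩ (SH.monoO (hasRed _) y a ha hg hy he)

theorem core (h : AV τ K r) (F : Type) [Field F] [NumberField F] (hF : Module.finrank ℚ F = 3)
    (hc : CBst τ r F) : ¬ GEN (cst τ) := fun hg => by
  obtain ⟨a, rfl⟩ : ∃ a : Sy, mat a = τ :=
    ⟨Sym2.lift ⟨fun i j => τ i j, fun i j => (h.inH.1.apply j i)⟩, by ext i j; simp [mat]⟩
  obtain ⟨y, hy, he⟩ := proj a h.inH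
  exact num (Z.geo y a h.inH hg he (hn y hy) (fib y hy) SH.stabI (core_cl y a h.inH hg hy he))
    (G.arith h (Kz.mu h) Kz.lagr (Kz.points h) F hF hc)

end M5
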