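import Pool.Agent.Lib.MP_33b3f9_ag.M4.MxSl
import Pool.Agent.Lib.MP_33b3f9_ag.M4.MxWd

/-!
Comparison of two frames.
-/

set_option autoImplicit false

noncomputable section

namespace M5

open Matrix Pool.Agent.M4.Mx

variable {ν : Type} [Fintype ν] [DecidableEq ν] {Ω : Type} [Field Ω]

/-- Conjugation of a `2 × 2` matrix. -/
def cj {R : Type} [CommRing R] (c : GL (Fin 2) R) (x : M2 R) : M2 R :=
  (c : M2 R) * x * ((c⁻¹ : GL (Fin 2) R) : M2 R)

/-- Matrix units in `M2` are conjugate to the standard ones: the columns of `c` are `a v` and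
`b a v` for a basis vector `v` with `a v ≠ 0`. -/
theorem units_conj {a b : M2 Ω} (ha : a * a = 0) (hb : b * b = 0) (hab : a * b + b * a = 1) :
    ∃ c : GL (Fin 2) Ω, cj c (bas Ω 1) = a ∧ cj c (bas Ω 2) = b := by
  obtain ⟨v, hv⟩ : ∃ v, a *ᵥ v ≠ 0 := by
    by_contra h
    have h0 : a = 0 := Matrix.ext_iff_mulVec.2 fun v => by
      rw [zero_mulVec]
      exact not_not.1 fun h1 => h ⟨v, h1⟩
    rw [h0, zero_mul, mul_zero, add_zero] at hab
    exact zero_ne_one hab
  obtain ⟨w, hw⟩ : ∃ w, w = a *ᵥ v := ⟨_, rfl⟩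
  have h1 : a *ᵥ w = 0 := by rw [hw, mulVec_mulVec, ha, zero_mulVec]
  have h2 : a *ᵥ (b *ᵥ w) = w := by
    rw [mulVec_mulVec, eq_sub_of_add_eq hab, sub_mulVec, one_mulVec, ← mulVec_mulVec, h1,
      mulVec_zero, sub_zero]
  have h3 : b *ᵥ (b *ᵥ w) = 0 := by rw [mulVec_mulVec, hb, zero_mulVec]
  rw [← hw] at hv
  let C : M2 Ω := Matrix.of fun i j => ![w, b *ᵥ w] j i
  have hC : ∀ x, C *ᵥ x = x 0 • w + x 1 • b *ᵥ w := fun x => by
    funext i
    change ∑ j, ![w, b *ᵥ w] j i * x j = x 0 * w i + x 1 * (b *ᵥ w) i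
    rw [Fin.sum_univ_two, mul_comm, mul_comm (x 1)]
    rfl
  have hu : IsUnit C := by
    rw [← mulVec_injective_iff_isUnit]
    refine (injective_iff_map_eq_zero C.mulVecLin).2 fun x hx => ?_
    rw [mulVecLin_apply, hC] at hx
    have h4 := congrArg (a *ᵥ ·) hx
    simp only [mulVec_add, mulVec_smul, h1, h2, smul_zero, zero_add, mulVec_zero] at h4
    have h5 : x 1 = 0 := (smul_eq_zero.1 h4).resolve_right hv
    rw [h5, zero_smul, add_zero] at hx
    have h6 : x 0 = 0 := (smul_eq_zero.1 hx).resolve_right hv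
    funext i
    fin_cases i
    exacts [h6, h5]
  have e1 : C * bas Ω 1 = a * C := Matrix.ext_iff_mulVec.2 fun x => by
    rw [← mulVec_mulVec, ← mulVec_mulVec, hC, hC, mulVec_add, mulVec_smul, mulVec_smul, h1, h2]
    simp [bas, mulVec, dotProduct]
  have e2 : C * bas Ω 2 = b * C := Matrix.ext_iff_mulVec.2 fun x => by
    rw [← mulVec_mulVec, ← mulVec_mulVec, hC, hC, mulVec_add, mulVec_smul, mulVec_smul, h3]
    simp [bas, mulVec, dotProduct]
  obtain ⟨c, hc⟩ := hu
  refine ⟨c, ?_, ?_⟩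
  · rw [cj, hc, e1, ← hc, mul_assoc, Units.mul_inv, mul_one]
  · rw [cj, hc, e2, ← hc, mul_assoc, Units.mul_inv, mul_one]

lemma fone_entry (a : Fin 3 → M2 Ω) (s : Fin 3) (p q : κ) (x y : Fin 2) :
    Pool.Agent.M4.tp a (Function.update p s x) (Function.update q s y) =
      a s x y * ∏ t ∈ Finset.univ.erase s, a t (p t) (q t) := by
  rw [tp_apply, ← Finset.mul_prod_erase _ _ (Finset.mem_univ s), Function.update_self,
    Function.update_self]
  congr 1
  refine Finset.prod_congr rfl fun t ht => ?_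
  rw [Function.update_of_ne (Finset.ne_of_mem_erase ht),
    Function.update_of_ne (Finset.ne_of_mem_erase ht)]

lemma fone_ne {a : Fin 3 → M2 Ω} (h0 : ∀ i, a i ≠ 0) : ∃ p q : κ, ∀ t, a t (p t) (q t) ≠ 0 := by
  have h : ∀ t, ∃ x y, a t x y ≠ 0 := fun t => by
    by_contra h
    push Not at h
    exact h0 t (Matrix.ext h)
  choose p q hpq using h
  exact ⟨p, q, hpq⟩

lemma fone_mul (f : Fr ν Ω) {s t : Fin 3} (hst : s ≠ t) {x y : M2 Ω}
    (h : f.u s x * f.u t y = 0) : x = 0 ∨ y = 0 := by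
  by_contra hn
  push Not at hn
  rw [f.u_apply, f.u_apply, f.T_mul] at h
  obtain ⟨p, q, hpq⟩ := fone_ne (a := Function.update (1 : Fin 3 → M2 Ω) s x *
      Function.update (1 : Fin 3 → M2 Ω) t y) fun r => by
    by_cases h1 : r = s
    · subst h1
      simpa [Function.update_of_ne hst] using hn.1
    · by_cases h2 : r = t
      · subst h2
        simpa [Function.update_of_ne h1] using hn.2
      · simp [Function.update_of_ne h1, Function.update_of_ne h2]
  have h1 := f.QTP (Function.update (1 : Fin 3 → M2 Ω) s x * Function.update (1 : Fin 3 → M2 Ω) t y)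
  rw [h, Matrix.mul_zero, Matrix.zero_mul] at h1
  have h2 := (congrFun (congrFun h1 p) q).symm
  rw [tp_apply] at h2
  exact Finset.prod_ne_zero_iff.2 (fun r _ => hpq r) h2

lemma fone_scalar {z : Matrix ν ν Ω} (h : ∀ y, z * y = y * z) : ∃ c : Ω, z = c • 1 := by
  obtain ⟨c, hc⟩ := Matrix.mem_range_scalar_of_commute_single (M := z) fun i j _ => (h _).symm
  exact ⟨c, by rw [← hc, Matrix.scalar_apply, Matrix.smul_one_eq_diagonal]⟩

/-- `QTP`, `tp_apply`: pure tensors. -/
theorem T_unique (f : Fr ν Ω) {a b : Fin 3 → M2 Ω} (h : f.T a = f.T b) (h0 : ∀ i, a i ≠ 0)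
    (i : Fin 3) : ∃ s : Ω, s ≠ 0 ∧ b i = s • a i := by
  have h1 : Pool.Agent.M4.tp a = Pool.Agent.M4.tp b := by rw [← f.QTP a, h, f.QTP]
  obtain ⟨p, q, hpq⟩ := fone_ne h0
  have hb : ∏ t, b t (p t) (q t) ≠ 0 := by
    rw [← tp_apply, ← h1, tp_apply]
    exact Finset.prod_ne_zero_iff.2 fun t _ => hpq t
  have hA : ∏ t ∈ Finset.univ.erase i, a t (p t) (q t) ≠ 0 :=
    Finset.prod_ne_zero_iff.2 fun t _ => hpq t
  have hB : ∏ t ∈ Finset.univ.erase i, b t (p t) (q t) ≠ 0 :=
    Finset.prod_ne_zero_iff.2 fun t _ => Finset.prod_ne_zero_iff.1 hb t (Finset.mem_univ t)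
  refine ⟨_, div_ne_zero hA hB, ?_⟩
  ext x y
  have h2 := fone_entry a i p q x y
  rw [h1, fone_entry] at h2
  rw [Matrix.smul_apply, smul_eq_mul, div_mul_eq_mul_div, eq_div_iff hB, h2, mul_comm]

variable [CharZero Ω]

/-- Write `Y = c + ∑ u s (x s)` with `x s` of trace zero, so `x s * x s` is a scalar. In the frame
`Y * Y = scalar + 2 c ∑ u s (x s) + 2 ∑ u s (x s) * u t (x t)`. The words in `bas` are independent
(look at entries of `tp`, or multiply by `u s y * u t z` and take traces, `trace (tp a) = ∏ trace`):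
if `x s ≠ 0` and `x t ≠ 0`, `s ≠ t`, take `y, z` of trace zero with `tr (x s y) ≠ 0`, `tr (x t z) ≠ 0`. -/
theorem one_slot (f : Fr ν Ω) {Y : Matrix ν ν Ω} (hY : Y ∈ f.m) {d : Ω} (h2 : Y * Y = d • 1) :
    ∃ (s : Fin 3) (x : M2 Ω), Y = f.u s x := by
  obtain ⟨x, hx⟩ : ∃ x : Fin 3 → M2 Ω, Y = ∑ s, f.u s (x s) := by
    clear h2
    unfold Fr.m at hY
    induction hY using Submodule.iSup_induction' with
    | zero => exact ⟨0, by simp⟩
    | add a b _ _ h1 h2 =>
      obtain ⟨x, rfl⟩ := h1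
      obtain ⟨y, rfl⟩ := h2
      exact ⟨x + y, by simp only [Pi.add_apply, map_add, Finset.sum_add_distrib]⟩
    | mem s a ha =>
      obtain ⟨y, rfl⟩ := ha
      refine ⟨Pi.single s y, ?_⟩
      rw [Finset.sum_eq_single s, Pi.single_eq_same]
      · rfl
      · intro t _ ht
        rw [Pi.single_eq_of_ne ht, map_zero]
      · simp
  have hbr : ∀ s y, Y * f.u s y - f.u s y * Y = f.u s (x s * y - y * x s) := fun s y => by
    rw [hx, Finset.sum_mul, Finset.mul_sum, ← Finset.sum_sub_distrib, Finset.sum_eq_single s,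
      map_sub, map_mul, map_mul]
    · intro t _ ht
      rw [f.u_comm ht, sub_self]
    · simp
  have key : ∀ s t, s ≠ t → ∀ y z, x s * y - y * x s = 0 ∨ x t * z - z * x t = 0 := by
    intro s t hst y z
    refine fone_mul f hst ?_
    have a1 := hbr s y
    have a2 := hbr t z
    have a3 := f.u_comm hst (x s * y - y * x s) z
    have a4 := f.u_comm hst (x s * y - y * x s) (x t * z - z * x t)
    generalize f.u s (x s * y - y * x s) = P at a1 a3 a4 ⊢
    generalize f.u t (x t * z - z * x t) = Q at a2 a4 ⊢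
    generalize f.u s y = A at a1
    generalize f.u t z = B at a2 a3
    have a5 : Y * P + P * Y = 0 := by
      have e : Y * P + P * Y = Y * Y * A - A * (Y * Y) := by
        rw [← a1]
        noncomm_ring
      rw [e, h2, smul_mul_assoc, mul_smul_comm, one_mul, mul_one, sub_self]
    have a6 : (2 : Ω) • (P * Q) = 0 := by
      have e : P * Q + Q * P = (Y * P + P * Y) * B - B * (Y * P + P * Y) +
          (Y * (B * P - P * B) + (B * P - P * B) * Y) := by
        rw [← a2]
        noncomm_ring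
      rw [two_smul]
      nth_rewrite 2 [a4]
      rw [e, a5, a3]
      simp
    exact (smul_eq_zero.1 a6).resolve_left two_ne_zero
  obtain ⟨s, hs⟩ : ∃ s, ∀ t, t ≠ s → ∀ z, x t * z - z * x t = 0 := by
    by_cases h : ∀ t z, x t * z - z * x t = 0
    · exact ⟨0, fun t _ => h t⟩
    · push Not at h
      obtain ⟨s, y, hy⟩ := h
      exact ⟨s, fun t ht z => (key s t ht.symm y z).resolve_left hy⟩
  have hc : ∀ t, ∃ c : Ω, t ≠ s → x t = c • 1 := fun t => by
    by_cases ht : t = s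
    · exact ⟨0, fun h => absurd ht h⟩
    · obtain ⟨c, hc⟩ := fone_scalar fun z => sub_eq_zero.1 (hs t ht z)
      exact ⟨c, fun _ => hc⟩
  choose c hc using hc
  refine ⟨s, x s + ∑ t ∈ Finset.univ.erase s, c t • 1, ?_⟩
  rw [hx, ← Finset.add_sum_erase _ _ (Finset.mem_univ s), map_add, map_sum]
  congr 1
  refine Finset.sum_congr rfl fun t ht => ?_
  rw [hc t (Finset.ne_of_mem_erase ht), map_smul, map_smul, map_one, map_one]

/-- `words_span`, `mxwd_bas`. -/
theorem scalar_of_comm (f : Fr ν Ω) {z : Matrix ν ν Ω} (h : ∀ i x, z * f.u i x = f.u i x * z) :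
    ∃ c : Ω, z = c • 1 := by
  refine fone_scalar fun y => ?_
  obtain ⟨w, rfl⟩ := words_span f y
  simp only [Finset.mul_sum, Finset.sum_mul, mul_smul_comm, smul_mul_assoc]
  refine Finset.sum_congr rfl fun a _ => Finset.sum_congr rfl fun b _ =>
    Finset.sum_congr rfl fun c _ => ?_
  congr 1
  exact ((Commute.mul_right (h 0 _) (h 1 _)).mul_right (h 2 _)).eq

end M5
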