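import Pool.Agent.Lib.MP_33b3f9_ag.M5.FCmp
import Pool.Agent.Lib.MP_33b3f9_ag.M4.CmDq
import Pool.Agent.Lib.MP_33b3f9_ag.M4.CmCubeB

/-!
The permutation of the slots.
-/

set_option autoImplicit false

noncomputable section

namespace M5

open Matrix Polynomial M4 M4.CM Pool.Agent.M4.Mx

/-- `g` permutes the slots by `π`. -/
def Pm {Ω : Type} [Field Ω] (f : Fr ν Ω) (g : Matrix ν ν Ω) (π : Equiv.Perm (Fin 3)) : Prop :=
  ∃ c : Fin 3 → GL (Fin 2) Ω, ∀ i x, g * f.u i x = f.u (π i) (cj (c i) x) * g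

variable {Ω : Type} [Field Ω] [CharZero Ω] {f : Fr ν Ω}

omit [CharZero Ω] in
theorem fpma_mul (a b : GL (Fin 2) Ω) (x : M2 Ω) : cj (a * b) x = cj a (cj b x) := by
  simp only [cj, _root_.mul_inv_rev, Units.val_mul, Matrix.mul_assoc]

omit [CharZero Ω] in
theorem fpma_inv (a : GL (Fin 2) Ω) (x : M2 Ω) : cj a (cj a⁻¹ x) = x := by
  rw [← fpma_mul, mul_inv_cancel, cj, inv_one, Units.val_one, Matrix.one_mul, Matrix.mul_one]

/-- `cmp f (f.conj g)`, `Fr.conj_T`. -/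
theorem exists_pm (g : GL ν Ω) (h : ∀ X ∈ f.sl,
    (g : Matrix ν ν Ω) * X * ((g⁻¹ : GL ν Ω) : Matrix ν ν Ω) ∈ f.m) : ∃ π, Pm f g π := by
  obtain ⟨π, c, hc⟩ := cmp f (f.conj g) (Submodule.span_le.2 (by
    rintro _ ⟨p, rfl⟩
    have h1 := h _ (Submodule.subset_span ⟨p, rfl⟩)
    dsimp only at h1 ⊢
    rwa [Fr.u_apply, ← Fr.conj_T] at h1))
  refine ⟨π, c, fun i x => ?_⟩
  rw [← hc, Fr.u_apply, Fr.u_apply, Fr.conj_T, Units.inv_mul_cancel_right]

omit [CharZero Ω] in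
theorem Pm.mul {g g' : Matrix ν ν Ω} {π π' : Equiv.Perm (Fin 3)} (h : Pm f g π) (h' : Pm f g' π') :
    Pm f (g * g') (π * π') := by
  obtain ⟨c, hc⟩ := h
  obtain ⟨c', hc'⟩ := h'
  refine ⟨fun i => c (π' i) * c' i, fun i x => ?_⟩
  rw [Matrix.mul_assoc, hc', ← Matrix.mul_assoc, hc, Matrix.mul_assoc, fpma_mul,
    Equiv.Perm.mul_apply]

/-- An element of two slots commutes with everything in both (`u_comm`, `MxSl_inj`). -/
theorem Pm.unique {g : Matrix ν ν Ω} (hg : g.det ≠ 0) {π π' : Equiv.Perm (Fin 3)} (h : Pm f g π)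
    (h' : Pm f g π') : π = π' := by
  obtain ⟨c, hc⟩ := h
  obtain ⟨c', hc'⟩ := h'
  have hu : IsUnit g := (Matrix.isUnit_iff_isUnit_det g).2 hg.isUnit
  refine Equiv.ext fun i => by_contra fun hne => ?_
  have key : ∀ y z : M2 Ω, y * z = z * y := fun y z => by
    have h1 := hu.mul_right_cancel ((hc i (cj (c i)⁻¹ y)).symm.trans (hc' i _))
    rw [fpma_inv] at h1
    refine sub_eq_zero.1 (MxSl_inj f (π i) _ ?_)
    rw [map_sub, map_mul, map_mul, h1, f.u_comm hne, sub_self]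
  simpa [Matrix.mul_apply] using congrFun (congrFun (key !![0, 1; 0, 0] !![0, 0; 1, 0]) 0) 0

/-- `T (c⁻¹) * g` commutes with all `u i x`; `scalar_of_comm`, `T_update_smul`. -/
theorem Pm.inC {g : Matrix ν ν Ω} (h : Pm f g 1) : ∃ a, g = f.T a := by
  obtain ⟨c, hc⟩ := h
  have h1 : ∀ i x, f.T (fun r => ((c r)⁻¹ : GL (Fin 2) Ω)) * f.u i (cj (c i) x) =
      f.u i x * f.T fun r => ((c r)⁻¹ : GL (Fin 2) Ω) := fun i x => by
    rw [Fr.u_apply, Fr.u_apply, Fr.T_mul, Fr.T_mul]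
    refine congrArg f.T (funext fun r => ?_)
    by_cases hr : r = i
    · subst hr
      simp only [Pi.mul_apply, Function.update_self, cj, Matrix.mul_assoc, Units.inv_mul_cancel_left]
    · simp only [Pi.mul_apply, Function.update_of_ne hr, Pi.one_apply, mul_one, one_mul]
  obtain ⟨s, hs⟩ := scalar_of_comm f (z := f.T (fun r => ((c r)⁻¹ : GL (Fin 2) Ω)) * g)
    fun i x => by rw [Matrix.mul_assoc, hc, ← Matrix.mul_assoc, Equiv.Perm.one_apply, h1,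
      Matrix.mul_assoc]
  have h2 : f.T (fun r => c r) * f.T (fun r => ((c r)⁻¹ : GL (Fin 2) Ω)) = 1 := by
    rw [Fr.T_mul, ← f.T_one]
    exact congrArg f.T (funext fun r => (c r).mul_inv)
  refine ⟨_, Eq.trans ?_ (T_update_smul f (fun r => c r) s).symm⟩
  rw [← Matrix.one_mul g, ← h2, Matrix.mul_assoc, hs, Matrix.mul_smul, Matrix.mul_one]

/-- The permutation character. -/
theorem exists_char {Γ : Type} [Group Γ] (ρ : Γ →* Matrix ν ν Ω) (h : ∀ σ, ∃ π, Pm f (ρ σ) π) :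
    ∃ χ : Γ →* Equiv.Perm (Fin 3), ∀ σ, Pm f (ρ σ) (χ σ) := by
  choose χ hχ using h
  refine ⟨MonoidHom.mk' χ fun a b => (hχ (a * b)).unique
    ((Matrix.isUnit_iff_isUnit_det _).1 ((Group.isUnit (a * b)).map ρ)).ne_zero ?_, hχ⟩
  rw [map_mul]
  exact (hχ a).mul (hχ b)

end M5
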