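import Pool.Agent.Lib.MP_33b3f9_ag.M5.GComm

/-!
The image modulo l is big.
-/

set_option autoImplicit false

noncomputable section

namespace M5

open Matrix Pool.Agent.M4 Pool.Agent.M4.Mx
open scoped commutatorElement

variable {l : ℕ} [Fact l.Prime] {G : Subgroup (G3 l)}

theorem gbig_comm {H : Type} [Group H] {z w : H} (hz : ∀ g, Commute z g) (hw : ∀ g, Commute w g)
    (a b : H) : ⁅z * a, w * b⁆ = ⁅a, b⁆ := by
  rw [commutatorElement_def, commutatorElement_def]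
  calc z * a * (w * b) * (z * a)⁻¹ * (w * b)⁻¹
      = z * (a * (w * b) * a⁻¹) * z⁻¹ * (w * b)⁻¹ := by group
    _ = a * w * (b * a⁻¹ * b⁻¹) * w⁻¹ := by rw [(hz _).eq]; group
    _ = w * (a * b * a⁻¹ * b⁻¹) * w⁻¹ := by rw [← (hw a).eq]; group
    _ = _ := by rw [(hw _).eq]; group

section

variable {ν Γ : Type} [Fintype ν] [DecidableEq ν] [Group Γ]

/-- The tensor product as a homomorphism. -/
def gbigT (f : Fr ν (ZMod l)) : G3 l →* Matrix ν ν (ZMod l) where
  toFun a := f.T fun i => (a i : M2 (ZMod l))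
  map_one' := f.T_one
  map_mul' _ _ := (f.T_mul _ _).symm

/-- The scalars. -/
def gbigZ (ν : Type) [Fintype ν] [DecidableEq ν] : (ZMod l)ˣ →* (Matrix ν ν (ZMod l))ˣ :=
  Units.map (algebraMap (ZMod l) (Matrix ν ν (ZMod l)) : ZMod l →* Matrix ν ν (ZMod l))

theorem gbigZ_comm (s : (ZMod l)ˣ) (g : (Matrix ν ν (ZMod l))ˣ) : Commute (gbigZ ν s) g :=
  Units.ext (Algebra.commutes (s : ZMod l) (g : Matrix ν ν (ZMod l)))

/-- The graph of the projective representation. -/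
def gbigP (ρ : Γ →* Matrix ν ν (ZMod l)) (f : Fr ν (ZMod l)) : Subgroup (Γ × G3 l) where
  carrier := {p | ∃ s, ρ.toHomUnits p.1 = gbigZ ν s * (gbigT f).toHomUnits p.2}
  one_mem' := ⟨1, by simp⟩
  mul_mem' := by
    rintro p q ⟨s, hs⟩ ⟨t, ht⟩
    refine ⟨s * t, ?_⟩
    rw [Prod.fst_mul, Prod.snd_mul, map_mul, map_mul, map_mul, hs, ht]
    exact ((gbigZ_comm t _).symm.mul_mul_mul_comm _ _)
  inv_mem' := by
    rintro p ⟨s, hs⟩
    refine ⟨s⁻¹, ?_⟩
    rw [Prod.fst_inv, Prod.snd_inv, map_inv, map_inv, map_inv, hs, (gbigZ_comm s _).eq,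
      _root_.mul_inv_rev]

theorem gbig_val {ρ : Γ →* Matrix ν ν (ZMod l)} {f : Fr ν (ZMod l)} {p : Γ × G3 l}
    {s : (ZMod l)ˣ} (h : ρ.toHomUnits p.1 = gbigZ ν s * (gbigT f).toHomUnits p.2) :
    ρ p.1 = (s : ZMod l) • f.T fun i => (p.2 i : M2 (ZMod l)) := by
  rw [Algebra.smul_def]
  exact congrArg Units.val h

theorem gbig_ex (ρ : Γ →* Matrix ν ν (ZMod l)) (f : Fr ν (ZMod l)) (ex : ∀ σ, ∃ h, ρ σ = f.T h)
    (σ : Γ) : ∃ a, (σ, a) ∈ gbigP ρ f := by
  obtain ⟨h, hh⟩ := ex σ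
  have ha : (f.T h).det ≠ 0 := by
    rw [← hh]
    exact ((Matrix.isUnit_iff_isUnit_det _).1 (ρ.toHomUnits σ).isUnit).ne_zero
  have hd : ∀ s, (h s).det ≠ 0 := fun s => by
    rw [f.T_eq, det_mul, det_mul] at ha
    refine mxCube_det_ne f s _ ?_
    fin_cases s
    · exact left_ne_zero_of_mul (left_ne_zero_of_mul ha)
    · exact right_ne_zero_of_mul (left_ne_zero_of_mul ha)
    · exact right_ne_zero_of_mul ha
  refine ⟨fun i => GeneralLinearGroup.mkOfDetNeZero (h i) (hd i), 1, Units.ext ?_⟩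
  rw [map_one, one_mul]
  exact hh

theorem gbig_big (hl : 5 ≤ l) (ρ : Γ →* Matrix ν ν (ZMod l)) (f : Fr ν (ZMod l))
    (ex : ∀ σ, ∃ h, ρ σ = f.T h)
    (hs : ∀ U : Subgroup Γ, U.index ≠ 0 → U.index ≤ 180 → Submodule.span (ZMod l) (ρ '' U) = ⊤) :
    Big ((MonoidHom.snd Γ (G3 l)).comp (gbigP ρ f).subtype).range where
  five := hl
  sc := fun a ha => by
    choose s hsc using ha
    have h1 : gbigT f a = (∏ i, s i) • (1 : Matrix ν ν (ZMod l)) := by
      rw [← f.T_one, ← f.T_smul]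
      exact congrArg f.T (funext hsc)
    have h0 : ∏ i, s i ≠ 0 := Finset.prod_ne_zero_iff.2 fun i _ h => (a i).ne_zero (by
      rw [hsc, h, zero_smul])
    refine ⟨⟨(1, a), (Units.mk0 _ h0)⁻¹, ?_⟩, rfl⟩
    rw [map_one, map_inv, eq_inv_mul_iff_mul_eq, mul_one]
    refine Units.ext ?_
    rw [MonoidHom.coe_toHomUnits, h1, ← Algebra.algebraMap_eq_smul_one]
    rfl
  sp := fun U _ hU => by
    have h1 : Function.Surjective ((MonoidHom.fst Γ (G3 l)).comp (gbigP ρ f).subtype) := fun σ =>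
      (gbig_ex ρ f ex σ).elim fun a ha => ⟨⟨_, ha⟩, rfl⟩
    have h2 := Subgroup.index_map_dvd
      (U.comap ((MonoidHom.snd Γ (G3 l)).comp (gbigP ρ f).subtype)) h1
    rw [Subgroup.index_comap] at h2
    have h3 : U.relIndex ((MonoidHom.snd Γ (G3 l)).comp (gbigP ρ f).subtype).range ≠ 0 :=
      Subgroup.index_ne_zero_of_finite
    have h4 := hs _ (ne_zero_of_dvd_ne_zero h3 h2)
      ((Nat.le_of_dvd (Nat.pos_of_ne_zero h3) h2).trans hU)
    rw [eq_top_iff]
    intro M _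
    have h5 : ∀ g ∈ (⊤ : Submodule (ZMod l) (Matrix ν ν (ZMod l))), f.Q * g * f.P ∈
        Submodule.span (ZMod l) ((fun a : G3 l => tp fun i => (a i : M2 (ZMod l))) '' U) := by
      rw [← h4]
      intro g hg
      induction hg using Submodule.span_induction with
      | mem x hx =>
        obtain ⟨_, ⟨⟨p, s, hp⟩, hp', rfl⟩, rfl⟩ := hx
        have h6 := gbig_val hp
        change f.Q * ρ p.1 * f.P ∈ _
        rw [h6, Matrix.mul_smul, Matrix.smul_mul, f.QTP]
        exact Submodule.smul_mem _ _ (Submodule.subset_span ⟨p.2, hp', rfl⟩)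
      | zero => simp
      | add x y _ _ hx hy =>
        rw [Matrix.mul_add, Matrix.add_mul]
        exact add_mem hx hy
      | smul c x _ hx =>
        rw [Matrix.mul_smul, Matrix.smul_mul]
        exact Submodule.smul_mem _ _ hx
    have h7 := h5 (f.P * M * f.Q) trivial
    rwa [show f.Q * (f.P * M * f.Q) * f.P = (f.Q * f.P) * M * (f.Q * f.P) by
      simp only [Matrix.mul_assoc], f.qp, Matrix.one_mul, Matrix.mul_one] at h7

end

/-- `G = {a | ∃ σ s, ρ σ = s • T a}`. For `U ≤ G` the subgroup `U' = {σ | ∃ a ∈ U, ∃ s, ρ σ = s • T a}` has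
index at most `U.relIndex G` and nonzero (the cosets of `U'` are images of the cosets of `U`; `G3 l` is
finite), and conjugation by the frame maps the span of `ρ U'` into the span of `tp U`. The `a` with
`ρ σ = T a` for some `σ` form a subgroup that contains the commutators
(`Subgroup.commutator_le`). The `h i` are invertible (`mxCube_det_ne`, `T_eq`). -/
theorem ts_big {ν Γ : Type} [Fintype ν] [DecidableEq ν] [Group Γ] (hl : 5 ≤ l)
    (ρ : Γ →* Matrix ν ν (ZMod l)) (f : Fr ν (ZMod l)) (ex : ∀ σ, ∃ h, ρ σ = f.T h)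
    (hs : ∀ U : Subgroup Γ, U.index ≠ 0 → U.index ≤ 180 → Submodule.span (ZMod l) (ρ '' U) = ⊤)
    (i : Fin 3) {u : M2 (ZMod l)} (hu : u.det = 1) :
    ∃ σ, ρ σ = f.T (Function.update 1 i u) := by
  have h1 := (gbig_big hl ρ f ex hs).comm i
    (u := GeneralLinearGroup.mkOfDetNeZero u (hu ▸ one_ne_zero)) hu
  have h2 := (Subgroup.commutator_le (H₃ := ρ.toHomUnits.range.comap (gbigT f).toHomUnits)).2
    (by
      rintro _ ⟨⟨p, s, hp⟩, rfl⟩ _ ⟨⟨q, t, hq⟩, rfl⟩
      refine ⟨⁅p.1, q.1⁆, ?_⟩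
      change ρ.toHomUnits ⁅p.1, q.1⁆ = (gbigT f).toHomUnits ⁅p.2, q.2⁆
      rw [map_commutatorElement, map_commutatorElement, hp, hq,
        gbig_comm (gbigZ_comm s) (gbigZ_comm t)]) h1
  obtain ⟨σ, hσ⟩ := h2
  refine ⟨σ, (congrArg Units.val hσ).trans (congrArg f.T (funext fun j => ?_))⟩
  by_cases h : j = i
  · subst h
    rw [Function.update_self, Function.update_self]
    rfl
  · rw [Function.update_of_ne h, Function.update_of_ne h]
    rfl

end M5
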