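import Pool.Agent.Lib.MP_33b3f9_ag.M5.GGraph

/-!
The image modulo l is big.
-/

set_option autoImplicit false

noncomputable section

namespace M5

open Matrix Pool.Agent.M4 Pool.Agent.M4.Mx

variable {l : ℕ} [Fact l.Prime] {G : Subgroup (G3 l)}

theorem gcomm_commute {a : GL (Fin 2) (ZMod l)} (h : Sc a) (b : GL (Fin 2) (ZMod l)) :
    Commute a b := by
  obtain ⟨s, hs⟩ := h
  refine Units.ext ?_
  rw [Units.val_mul, Units.val_mul, hs]
  simp

theorem gcomm_kr (B : Big G) {i j : Fin 3} (hij : i ≠ j) {u : GL (Fin 2) (ZMod l)}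
    (hu : (u : M2 (ZMod l)).det = 1) : ∃ a ∈ Kr G j, a i = u := by
  rcases B.dich (N := Kr G j) (fun a ha => ha.1) (fun a ha b hb => ⟨G.mul_mem (G.mul_mem ha hb.1)
    (G.inv_mem ha), by
      rw [Pi.mul_apply, Pi.mul_apply, Pi.inv_apply, ← (gcomm_commute hb.2 (a j)).eq,
        mul_inv_cancel_right]
      exact hb.2⟩) (fun a ha => ⟨B.sc a ha, ha j⟩) i with h | h
  · obtain ⟨a, ha, hn⟩ := B.graph hij
    exact absurd (h a ha) hn
  · exact h u hu

open scoped commutatorElement in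
theorem gcomm_mem (B : Big G) (i : Fin 3) {u v : GL (Fin 2) (ZMod l)}
    (hu : (u : M2 (ZMod l)).det = 1) (hv : (v : M2 (ZMod l)).det = 1) :
    Function.update (1 : G3 l) i ⁅u, v⁆ ∈ ⁅G, G⁆ := by
  obtain ⟨j, k, hij, hik, hall⟩ : ∃ j k : Fin 3, i ≠ j ∧ i ≠ k ∧ ∀ m, m = i ∨ m = j ∨ m = k := by
    revert i
    decide
  obtain ⟨a, ha, rfl⟩ := gcomm_kr B hij hu
  obtain ⟨b, hb, rfl⟩ := gcomm_kr B hik hv
  have e : Function.update (1 : G3 l) i ⁅a i, b i⁆ = ⁅a, b⁆ := by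
    funext m
    have e' : ⁅a, b⁆ m = ⁅a m, b m⁆ := rfl
    rw [e']
    rcases hall m with rfl | rfl | rfl
    · simp
    · rw [Function.update_of_ne hij.symm, (gcomm_commute ha.2 _).commutator_eq]
      rfl
    · rw [Function.update_of_ne hik.symm, (gcomm_commute hb.2 _).symm.commutator_eq]
      rfl
  rw [e]
  exact Subgroup.commutator_mem_commutator ha.1 hb.1

/-- Let `j, k` be the other indices. By `graph` and `dich`, `Kr G j` and `Kr G k` contain all of `SL2` in the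
slot `i`; the commutator of `a ∈ Kr G j` and `b ∈ Kr G k` is `update 1 i ⁅a i, b i⁆`. The `u` with
`update 1 i u ∈ ⁅G, G⁆` form a subgroup; it contains `⁅diag (2, 1/2), 1 + E₀₁⁆ = 1 + 3 E₀₁` and the
transpose type; `two_transv`. -/
theorem Big.comm (B : Big G) (i : Fin 3) {u : GL (Fin 2) (ZMod l)}
    (hu : (u : M2 (ZMod l)).det = 1) : Function.update (1 : G3 l) i u ∈ ⁅G, G⁆ := by
  have hp : l.Prime := Fact.out
  have hn : ∀ n : ℕ, 0 < n → n < 5 → (n : ZMod l) ≠ 0 := fun n h0 h5 h =>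
    absurd (Nat.le_of_dvd h0 ((ZMod.natCast_eq_zero_iff n l).1 h)) (by have := B.five; omega)
  have h2 : (2 : ZMod l) ≠ 0 := by exact_mod_cast hn 2 (by omega) (by omega)
  have h3 : (3 : ZMod l) ≠ 0 := by exact_mod_cast hn 3 (by omega) (by omega)
  obtain ⟨h, hh⟩ : ∃ h : ZMod l, 2 * h = 1 := ⟨2⁻¹, mul_inv_cancel₀ h2⟩
  have hh' : h * 2 = 1 := by rw [mul_comm, hh]
  let d : GL (Fin 2) (ZMod l) := ⟨!![2, 0; 0, h], !![h, 0; 0, 2],
    by simp [hh, hh', one_fin_two], by simp [hh, hh', one_fin_two]⟩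
  let d' : GL (Fin 2) (ZMod l) := ⟨!![h, 0; 0, 2], !![2, 0; 0, h],
    by simp [hh, hh', one_fin_two], by simp [hh, hh', one_fin_two]⟩
  let t : GL (Fin 2) (ZMod l) := ⟨!![1, 1; 0, 1], !![1, -1; 0, 1],
    by simp [one_fin_two], by simp [one_fin_two]⟩
  let t' : GL (Fin 2) (ZMod l) := ⟨!![1, 0; 1, 1], !![1, 0; -1, 1],
    by simp [one_fin_two], by simp [one_fin_two]⟩
  refine two_transv ((⁅G, G⁆).comap (MonoidHom.mulSingle (fun _ : Fin 3 => GL (Fin 2) (ZMod l)) i))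
    (a := d * t * d⁻¹ * t⁻¹) (a' := d' * t' * d'⁻¹ * t'⁻¹) (n := !![0, 3; 0, 0]) (n' := !![0, 0; 3, 0])
    (gcomm_mem B i (by simp [d, hh]) (by simp [t])) (gcomm_mem B i (by simp [d', hh']) (by simp [t']))
    ?_ ?_ (by simp; ext p q; fin_cases p <;> fin_cases q <;> rfl)
    (by simp; ext p q; fin_cases p <;> fin_cases q <;> rfl) (fun e => ?_) hu
  · show (!![2, 0; 0, h] * !![1, 1; 0, 1] * !![h, 0; 0, 2] * !![1, -1; 0, 1] : M2 (ZMod l)) = _
    ext p q
    fin_cases p <;> fin_cases q <;> simp [hh, hh']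
    ring
  · show (!![h, 0; 0, 2] * !![1, 0; 1, 1] * !![2, 0; 0, h] * !![1, 0; -1, 1] : M2 (ZMod l)) = _
    ext p q
    fin_cases p <;> fin_cases q <;> simp [hh, hh']
    ring
  · have := congrFun (congrFun e 0) 0
    simp [h3] at this

end M5
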