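import Pool.Agent.Lib.MP_33b3f9_ag.M5.GLine
import Pool.Agent.Lib.MP_33b3f9_ag.M5.FCmp

/-!
Two slots are independent.
-/

set_option autoImplicit false

noncomputable section

namespace M5

open Matrix Pool.Agent.M4 Pool.Agent.M4.Mx

variable {l : ℕ} [Fact l.Prime] {G : Subgroup (G3 l)}

/-- The elements that are scalar in the slot `j`. -/
def Kr (G : Subgroup (G3 l)) (j : Fin 3) : Subgroup (G3 l) where
  carrier := {a | a ∈ G ∧ Sc (a j)}
  one_mem' := ⟨G.one_mem, 1, by simp⟩
  mul_mem' := by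
    rintro a b ⟨ha, s, hs⟩ ⟨hb, t, ht⟩
    exact ⟨G.mul_mem ha hb, s * t, by rw [Pi.mul_apply, Units.val_mul, hs, ht]; simp [smul_smul, mul_comm]⟩
  inv_mem' := by
    rintro a ⟨ha, s, hs⟩
    have h0 : s ≠ 0 := by
      rintro rfl
      exact (a j).det_ne_zero (by rw [hs, zero_smul, det_zero])
    refine ⟨G.inv_mem ha, s⁻¹, ?_⟩
    rw [Pi.inv_apply]
    refine Units.inv_eq_of_mul_eq_one_right ?_
    rw [hs, smul_mul_smul_comm, mul_inv_cancel₀ h0, mul_one, one_smul]

/-- `(x - s) ^ l = x ^ l - s ^ l = 0` (`sub_pow_char_of_commute`, `ZMod.pow_card`), and a nilpotent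
`2 × 2` matrix has square zero. -/
theorem unip_of_pow {x : GL (Fin 2) (ZMod l)} (h : Sc (x ^ l)) :
    ∃ (s : ZMod l) (n : M2 (ZMod l)), s ≠ 0 ∧ n * n = 0 ∧ (x : M2 (ZMod l)) = s • (1 + n) := by
  obtain ⟨s, hs⟩ := h
  have h0 : s ≠ 0 := by
    rintro rfl
    exact (x ^ l).det_ne_zero (by rw [hs, zero_smul, det_zero])
  have h1 : ((x : M2 (ZMod l)) - s • 1) ^ l = 0 := by
    rw [sub_pow_char_of_commute l ((Commute.one_right _).smul_right s), ← Units.val_pow_eq_pow_val,
      hs, _root_.smul_pow, one_pow, ZMod.pow_card, sub_self]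
  have h2 : ((x : M2 (ZMod l)) - s • 1).trace = 0 :=
    (Matrix.isNilpotent_trace_of_isNilpotent ⟨l, h1⟩).eq_zero
  have h3 : ((x : M2 (ZMod l)) - s • 1).det = 0 := by
    have h4 := congrArg det h1
    rw [det_pow, det_zero] at h4
    exact pow_eq_zero_iff (Fact.out : l.Prime).ne_zero |>.1 h4
  refine ⟨s, s⁻¹ • ((x : M2 (ZMod l)) - s • 1), h0, ?_, ?_⟩
  · generalize (x : M2 (ZMod l)) - s • 1 = m at h2 h3
    rw [trace_fin_two] at h2
    rw [det_fin_two] at h3
    have h5 : m * m = 0 := by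
      ext p q
      fin_cases p <;> fin_cases q <;> simp [Matrix.mul_apply, Fin.sum_univ_two]
      · linear_combination m 0 0 * h2 - h3
      · linear_combination m 0 1 * h2
      · linear_combination m 1 0 * h2
      · linear_combination m 1 1 * h2 - h3
    rw [smul_mul_smul_comm, h5, smul_zero]
  · rw [smul_add, smul_inv_smul₀ h0, add_sub_cancel]

/-- The action on a vector in the slots `i` and `j`. -/
def gconjL (i j : Fin 3) (v : M2 (ZMod l)) : Matrix κ κ (ZMod l) →ₗ[ZMod l] M2 (ZMod l) where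
  toFun M := Matrix.of fun p' q' => ∑ q, ∑ p, M (Function.update (Function.update 0 i p') j q')
    (Function.update (Function.update 0 i p) j q) * v p q
  map_add' M N := by
    ext p q
    simp [add_mul, Finset.sum_add_distrib]
  map_smul' c M := by
    ext p q
    simp [mul_assoc, mul_add]

theorem gconjL_tp {i j : Fin 3} (hij : i ≠ j) (v : M2 (ZMod l)) (b : Fin 3 → M2 (ZMod l)) :
    gconjL i j v (tp b) =
      (∏ s ∈ (Finset.univ.erase i).erase j, b s 0 0) • (b i * v * (b j)ᵀ) := by
  have h1 : ∀ p q p' q' : Fin 2, tp b (Function.update (Function.update 0 i p') j q')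
      (Function.update (Function.update 0 i p) j q) =
      b i p' p * (b j q' q * ∏ s ∈ (Finset.univ.erase i).erase j, b s 0 0) := fun p q p' q' => by
    rw [tp_apply, ← Finset.mul_prod_erase _ _ (Finset.mem_univ i),
      ← Finset.mul_prod_erase _ _ (Finset.mem_erase.2 ⟨hij.symm, Finset.mem_univ j⟩)]
    simp only [Function.update_self, Function.update_of_ne hij]
    congr 2
    refine Finset.prod_congr rfl fun s hs => ?_
    have h2 := Finset.ne_of_mem_erase hs
    have h3 := Finset.ne_of_mem_erase (Finset.mem_of_mem_erase hs)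
    simp only [Function.update_of_ne h2, Function.update_of_ne h3, Pi.zero_apply]
  ext p' q'
  simp only [gconjL, LinearMap.coe_mk, AddHom.coe_mk, of_apply, h1, Matrix.smul_apply, Matrix.mul_apply, transpose_apply, smul_eq_mul,
    Fin.sum_univ_two]
  ring

theorem gconj_om (b : M2 (ZMod l)) :
    b * !![0, 1; -1, 0] * bᵀ = b.det • (!![0, 1; -1, 0] : M2 (ZMod l)) := by
  ext p q
  fin_cases p <;> fin_cases q <;> simp [Matrix.mul_apply, Fin.sum_univ_two, det_fin_two] <;> ring

/-- `cj c` maps `a j` to a multiple of `a i` for all `a ∈ U`: let `k` be the third index,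
`v = ∑ p q, (c ω) p q • e (i ↦ p, j ↦ q, k ↦ 0)` with `ω = !![0, 1; -1, 0]`; since `b ω bᵀ = det b • ω`,
the slots `i, j` of `tp a` multiply `c ω` by a scalar. Take a covector that kills `c ω`. -/
theorem Big.no_conj (B : Big G) {i j : Fin 3} (hij : i ≠ j) (c : GL (Fin 2) (ZMod l))
    {U : Subgroup (G3 l)} (hU : U ≤ G) (hi : U.relIndex G ≤ 180) :
    ∃ a ∈ U, ∀ s : ZMod l, (a i : M2 (ZMod l)) ≠ s • cj c (a j : M2 (ZMod l)) := by
  by_contra hc
  push Not at hc
  set v : M2 (ZMod l) := (c : M2 (ZMod l)) * !![0, 1; -1, 0] with hv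
  have hd : v.det ≠ 0 := by
    rw [hv, det_mul]
    exact mul_ne_zero c.det_ne_zero (by simp [det_fin_two])
  have h1 : Submodule.span (ZMod l) ((fun a : G3 l => tp fun i => (a i : M2 (ZMod l))) '' U) ≤
      (Submodule.span (ZMod l) {v}).comap (gconjL i j v) := by
    rw [Submodule.span_le]
    rintro _ ⟨a, ha, rfl⟩
    obtain ⟨s, hs⟩ := hc a ha
    change gconjL i j v (tp _) ∈ Submodule.span (ZMod l) {v}
    rw [gconjL_tp hij, hs, cj, hv, Matrix.smul_mul, Matrix.smul_mul, Matrix.mul_assoc _ _ (_ * _),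
      ← Matrix.mul_assoc _ (c : M2 (ZMod l)), Units.inv_mul, Matrix.one_mul,
      Matrix.mul_assoc (c : M2 (ZMod l)), Matrix.mul_assoc (c : M2 (ZMod l)), gconj_om,
      Matrix.mul_smul]
    exact Submodule.smul_mem _ _ (Submodule.smul_mem _ _ (Submodule.smul_mem _ _
      (Submodule.mem_span_singleton_self _)))
  rw [B.sp U hU hi] at h1
  obtain ⟨t, ht⟩ := Submodule.mem_span_singleton.1
    (h1 (Submodule.mem_top (x := tp (Function.update 1 i !![1, 0; 0, 0]))))
  rw [gconjL_tp hij, Function.update_self, Function.update_of_ne hij.symm, Pi.one_apply,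
    transpose_one, Matrix.mul_one, Finset.prod_eq_one (fun s hs => by
      rw [Function.update_of_ne (Finset.ne_of_mem_erase (Finset.mem_of_mem_erase hs)),
        Pi.one_apply, one_apply_eq]), one_smul] at ht
  have h2 := congrFun (congrFun ht 0)
  have h3 := congrFun (congrFun ht 1)
  simp only [Matrix.smul_apply, Matrix.mul_apply, Fin.sum_univ_two, smul_eq_mul] at h2 h3
  have h4 := h2 0
  have h5 := h2 1
  have h6 := h3 0
  have h7 := h3 1
  simp at h4 h5 h6 h7
  apply hd
  rw [det_fin_two]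
  by_cases h : t = 0
  · rw [h, zero_mul] at h4 h5
    rw [← h4, ← h5]
    ring
  · rw [h6.resolve_left h, h7.resolve_left h]
    ring

end M5
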