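import Pool.Agent.Lib.MP_33b3f9_ag.M4.MxT

/-!
Subgroups of `GL2 × GL2 × GL2` over a prime field: definitions.
-/

set_option autoImplicit false

noncomputable section

namespace M5

open Matrix Pool.Agent.M4 Pool.Agent.M4.Mx

variable {l : ℕ} [Fact l.Prime]

/-- Triples of invertible matrices. -/
abbrev G3 (l : ℕ) : Type := Fin 3 → GL (Fin 2) (ZMod l)

/-- Scalar matrices. -/
def Sc (a : GL (Fin 2) (ZMod l)) : Prop := ∃ s : ZMod l, (a : M2 (ZMod l)) = s • 1

/-- `G` contains the scalars, and its subgroups of small index span all matrices. -/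
structure Big (G : Subgroup (G3 l)) : Prop where
  five : 5 ≤ l
  sc : ∀ a : G3 l, (∀ i, Sc (a i)) → a ∈ G
  sp : ∀ U : Subgroup (G3 l), U ≤ G → U.relIndex G ≤ 180 →
    Submodule.span (ZMod l) ((fun a : G3 l => tp fun i => (a i : M2 (ZMod l))) '' U) = ⊤

end M5
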