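import Pool.Agent.Lib.MP_33b3f9_ag.M5.GConj

/-!
Two slots are independent.
-/

set_option autoImplicit false

noncomputable section

namespace M5

open Matrix Pool.Agent.M4 Pool.Agent.M4.Mx

variable {l : ℕ} [Fact l.Prime] {G : Subgroup (G3 l)}

theorem ggraph_braid {F : Type} [Field F] (h2 : (2 : F) ≠ 0) {n m : M2 F} (hn : n * n = 0)
    (hm : m * m = 0) (hm0 : m ≠ 0) (hne : n ≠ m) {μ : F}
    (h : (1 + n) * (1 + m) * (1 + n) = μ • ((1 + m) * (1 + n) * (1 + m))) :
    n * (-m) + (-m) * n = 1 := by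
  have tr : ∀ x : M2 F, x * x = 0 → x 0 0 + x 1 1 = 0 := fun x hx => by
    simpa [trace_fin_two] using (isNilpotent_trace_of_isNilpotent ⟨2, (pow_two x).trans hx⟩).eq_zero
  have t1 := tr n hn
  have t2 := tr m hm
  obtain ⟨τ, hτ⟩ : ∃ τ : F, n * m + m * n = τ • 1 := by
    refine ⟨2 * n 0 0 * m 0 0 + n 0 1 * m 1 0 + n 1 0 * m 0 1, ?_⟩
    ext a b
    fin_cases a <;> fin_cases b <;> simp [mul_apply, Fin.sum_univ_two]
    · ring
    · linear_combination m 0 1 * t1 + n 0 1 * t2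
    · linear_combination m 1 0 * t1 + n 1 0 * t2
    · linear_combination 2 * m 1 1 * t1 - 2 * n 0 0 * t2
  have a1 : n * m * n = τ • n := by
    have := congrArg (· * n) hτ
    simpa [add_mul, mul_assoc, hn] using this
  have a2 : m * n * m = τ • m := by
    have := congrArg (· * m) hτ
    simpa [add_mul, mul_assoc, hm] using this
  have e1 : (1 + n) * (1 + m) * (1 + n) = (1 + τ) • 1 + (2 + τ) • n + m := by
    have : (1 + n) * (1 + m) * (1 + n) = 1 + n + n + m + (n * m + m * n) + n * n + n * m * n := by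
      noncomm_ring
    rw [this, hτ, hn, a1]; module
  have e2 : (1 + m) * (1 + n) * (1 + m) = (1 + τ) • 1 + n + (2 + τ) • m := by
    have : (1 + m) * (1 + n) * (1 + m) = 1 + m + m + n + (n * m + m * n) + m * m + m * n * m := by
      noncomm_ring
    rw [this, hτ, hm, a2]; module
  rw [e1, e2] at h
  have b1 : 1 + τ = μ * (1 + τ) := by
    have c0 := congrFun (congrFun h 0) 0
    have c1 := congrFun (congrFun h 1) 1
    simp only [Matrix.add_apply, Matrix.smul_apply, one_apply_eq, smul_eq_mul] at c0 c1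
    refine mul_left_cancel₀ h2 ?_
    linear_combination c0 + c1 + (μ - 2 - τ) * t1 + (μ * (2 + τ) - 1) * t2
  have b2 : τ * (2 + τ - μ) = 0 := by
    have := congrArg (fun x => m * x * m) h
    simp only [mul_add, add_mul, Matrix.mul_smul, Matrix.smul_mul, mul_one, hm, smul_zero,
      a2, zero_add, add_zero] at this
    refine (smul_eq_zero.1 (?_ : (τ * (2 + τ - μ)) • m = 0)).resolve_right hm0
    linear_combination (norm := module) this
  have : τ = -1 := by
    rcases mul_eq_zero.1 b2 with t | t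
    · subst t
      obtain rfl : μ = 1 := by linear_combination -b1
      exact absurd (by linear_combination (norm := module) h) hne
    · have : (1 + τ) ^ 2 = 0 := by linear_combination -b1 + (1 + τ) * t
      linear_combination pow_eq_zero_iff (two_ne_zero) |>.1 this
  rw [this] at hτ
  rw [mul_neg, neg_mul, ← neg_add, hτ]
  simp

theorem ggraph_rel {p q : GL (Fin 2) (ZMod l)} :
    Sc (p * q⁻¹) ↔ ∃ s : ZMod l, (p : M2 (ZMod l)) = s • (q : M2 (ZMod l)) := by
  refine exists_congr fun s => ?_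
  rw [Units.val_mul, Units.mul_inv_eq_iff_eq_mul, Matrix.smul_mul, one_mul]

theorem ggraph_tr {i j : Fin 3} (h : ∀ a ∈ Kr G j, Sc (a i)) {a b : G3 l} (ha : a ∈ G) (hb : b ∈ G)
    (e : ∃ s : ZMod l, (a j : M2 (ZMod l)) = s • (b j : M2 (ZMod l))) :
    ∃ s : ZMod l, (a i : M2 (ZMod l)) = s • (b i : M2 (ZMod l)) :=
  ggraph_rel.1 (h (a * b⁻¹) ⟨G.mul_mem ha (G.inv_mem hb), ggraph_rel.2 e⟩)

theorem ggraph_ne {p : GL (Fin 2) (ZMod l)} {s : ZMod l} {x : M2 (ZMod l)}
    (h : (p : M2 (ZMod l)) = s • x) : s ≠ 0 := by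
  rintro rfl
  exact p.det_ne_zero (by rw [h, zero_smul, det_zero])

/-- The elements whose slot `i` is a multiple of the conjugate of the slot `j`. -/
def ggraphU (G : Subgroup (G3 l)) (i j : Fin 3) (c : GL (Fin 2) (ZMod l)) : Subgroup (G3 l) where
  carrier := {a | a ∈ G ∧ ∃ s : ZMod l, (a i : M2 (ZMod l)) = s • cj c (a j : M2 (ZMod l))}
  one_mem' := ⟨G.one_mem, 1, by simp [cj]⟩
  mul_mem' := by
    rintro a b ⟨ha, s, hs⟩ ⟨hb, t, ht⟩
    refine ⟨G.mul_mem ha hb, s * t, ?_⟩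
    rw [Pi.mul_apply, Pi.mul_apply, Units.val_mul, Units.val_mul, hs, ht, smul_mul_smul_comm]
    simp only [cj, mul_assoc, Units.inv_mul_cancel_left]
  inv_mem' := by
    rintro a ⟨ha, s, hs⟩
    refine ⟨G.inv_mem ha, s⁻¹, ?_⟩
    rw [Pi.inv_apply, Pi.inv_apply]
    refine Units.inv_eq_of_mul_eq_one_right ?_
    rw [hs, smul_mul_smul_comm, mul_inv_cancel₀ (ggraph_ne hs), one_smul]
    simp only [cj, mul_assoc, Units.inv_mul_cancel_left, Units.mul_inv_cancel_left, Units.mul_inv]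

theorem ggraph_XY (B : Big G) (j : Fin 3) : ∃ x ∈ G, ∃ y ∈ G,
    (x j : M2 (ZMod l)) = !![1, 1; 0, 1] ∧ (y j : M2 (ZMod l)) = !![1, 0; -1, 1] := by
  obtain ⟨x, hx, e⟩ := B.onto j (u := GeneralLinearGroup.mkOfDetNeZero !![1, 1; 0, 1] (by simp))
    (by simp)
  obtain ⟨y, hy, e'⟩ := B.onto j (u := GeneralLinearGroup.mkOfDetNeZero !![1, 0; -1, 1] (by simp))
    (by simp)
  exact ⟨x, hx, y, hy, by rw [e]; rfl, by rw [e']; rfl⟩

theorem ggraph_back (B : Big G) {i j : Fin 3} (h : ∀ a ∈ Kr G j, Sc (a i)) :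
    ∀ a ∈ Kr G i, Sc (a j) := by
  refine (B.dich (N := Kr G i) (fun a ha => ha.1) ?_ (fun a ha => ⟨B.sc a ha, ha i⟩)
    j).resolve_right fun hS => ?_
  · rintro a ha b ⟨hb, s, hs⟩
    refine ⟨G.mul_mem (G.mul_mem ha hb) (G.inv_mem ha), ggraph_rel.2 ⟨s, ?_⟩⟩
    rw [Pi.mul_apply, Units.val_mul, hs, Matrix.mul_smul, mul_one]
  · obtain ⟨x, hx, y, hy, ex, ey⟩ := ggraph_XY B i
    obtain ⟨b, ⟨hb, t, ht⟩, e⟩ := hS ((x * y * (y * x)⁻¹) j) (by
      rw [Pi.mul_apply, Pi.inv_apply, Units.val_mul, det_mul, Matrix.coe_units_inv, det_nonsing_inv,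
        Pi.mul_apply, Pi.mul_apply, Units.val_mul, Units.val_mul, det_mul, det_mul, mul_comm (det _),
        Ring.mul_inverse_cancel]
      exact (mul_ne_zero (y j).det_ne_zero (x j).det_ne_zero).isUnit)
    obtain ⟨s, hs⟩ := ggraph_tr h
      (G.mul_mem (G.mul_mem hx hy) (G.inv_mem (G.mul_mem hy hx))) hb ⟨1, by rw [e, one_smul]⟩
    rw [ht, smul_smul] at hs
    obtain ⟨r, hr⟩ := ggraph_rel.1 (⟨_, hs⟩ : Sc ((x * y) i * ((y * x) i)⁻¹))
    rw [Pi.mul_apply, Pi.mul_apply, Units.val_mul, Units.val_mul, ex, ey] at hr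
    have c0 := congrFun (congrFun hr 0) 0
    have c1 := congrFun (congrFun hr 0) 1
    simp [mul_apply, Fin.sum_univ_two] at c0 c1
    exact one_ne_zero (c1.trans c0.symm)

theorem ggraph_pow (n : M2 (ZMod l)) (h : n * n = 0) : (1 + n) ^ l = 1 := by
  have : ∀ k : ℕ, (1 + n) ^ k = 1 + (k : ZMod l) • n := by
    intro k
    induction k with
    | zero => simp
    | succ k ih =>
      rw [pow_succ, ih, mul_add, mul_one, add_mul, one_mul, Matrix.smul_mul, h, Nat.cast_succ]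
      module
  rw [this, ZMod.natCast_self, zero_smul, add_zero]

/-- Suppose `Kr G j ≤ Kr G i`. If `Kr G i` is not contained in `Kr G j`, `dich` gives all of `SL2` in the
slot `j` of `Kr G i`; then every square `a ^ 2`, `a ∈ G`, lies in `Kr G i * Kr G j ≤ Kr G i`, which is false
when `a i` is a transvection (`onto`). So `Kr G i = Kr G j`. Take `x, y ∈ G` with `x j = !![1, 1; 0, 1]`,
`y j = !![1, 0; -1, 1]`; `unip_of_pow` for `x i`, `y i`, with `n, n' ≠ 0`; `n * n' ≠ 0` since otherwise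
`n' * n = 0` too and the commutator lies in `Kr G i`. In a basis `c`, `n = E₀₁`, `n' = - b E₁₀`; the square of
`x y x` is scalar in the slot `j`, so in the slot `i`, so `b = 1`. The subgroup
`U = {a ∈ G | a i ∈ scalars * cj c (a j)}` contains `x`, `y`, `Kr G j`, hence (`two_transv` for the image of
`U` in the slot `j`) all `a` with `det (a j)` a square; its index is at most two
(`IsCyclic.index_powMonoidHom_range` or `quadraticChar`). This contradicts `no_conj`. -/
theorem Big.graph (B : Big G) {i j : Fin 3} (hij : i ≠ j) : ∃ a ∈ Kr G j, ¬ Sc (a i) := by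
  by_contra hcon
  have h : ∀ a ∈ Kr G j, Sc (a i) := fun a ha => by_contra fun t => hcon ⟨a, ha, t⟩
  have h' := ggraph_back B h
  obtain ⟨x, hx, y, hy, ex, ey⟩ := ggraph_XY B j
  have ex' : (x j : M2 (ZMod l)) = 1 + bas (ZMod l) 1 := by
    rw [ex]; ext a b; fin_cases a <;> fin_cases b <;> simp [bas]
  have ey' : (y j : M2 (ZMod l)) = 1 + -bas (ZMod l) 2 := by
    rw [ey]; ext a b; fin_cases a <;> fin_cases b <;> simp [bas]
  have q1 : bas (ZMod l) 1 * bas (ZMod l) 1 = 0 := by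
    ext a b; fin_cases a <;> fin_cases b <;> simp [bas]
  have q2 : -bas (ZMod l) 2 * -bas (ZMod l) 2 = 0 := by
    ext a b; fin_cases a <;> fin_cases b <;> simp [bas]
  have q3 : bas (ZMod l) 1 * -bas (ZMod l) 2 ≠ 0 := fun t => by
    simpa [bas] using congrFun (congrFun t 0) 0
  have up : ∀ z ∈ G, ∀ e : M2 (ZMod l), e * e = 0 → (z j : M2 (ZMod l)) = 1 + e → Sc (z i ^ l) :=
    fun z hz e he ez => h (z ^ l) ⟨G.pow_mem hz l, 1, by
      rw [Pi.pow_apply, Units.val_pow_eq_pow_val, ez, ggraph_pow e he, one_smul]⟩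
  obtain ⟨s, n, hs, hn, en⟩ := unip_of_pow (up x hx _ q1 ex')
  obtain ⟨t, m, ht, hm, em⟩ := unip_of_pow (up y hy _ q2 ey')
  have hm0 : m ≠ 0 := by
    rintro rfl
    obtain ⟨r, hr⟩ := h' y ⟨hy, t, by simpa using em⟩
    simpa [ey] using congrFun (congrFun hr 1) 0
  have hne : n ≠ m := by
    rintro rfl
    obtain ⟨r, hr⟩ := ggraph_tr h' hx hy ⟨s / t, by rw [en, em, smul_smul, div_mul_cancel₀ _ ht]⟩
    simpa [ex, ey] using congrFun (congrFun hr 0) 1
  have h2 : (2 : ZMod l) ≠ 0 := fun e => by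
    have := Nat.le_of_dvd two_pos ((ZMod.natCast_eq_zero_iff 2 l).1 (by exact_mod_cast e))
    have := B.five
    omega
  obtain ⟨μ, hμ⟩ := ggraph_tr h (G.mul_mem (G.mul_mem hx hy) hx) (G.mul_mem (G.mul_mem hy hx) hy)
    ⟨1, by
      simp only [Pi.mul_apply, Units.val_mul, ex, ey, one_smul]
      ext a b; fin_cases a <;> fin_cases b <;> simp⟩
  simp only [Pi.mul_apply, Units.val_mul, en, em, smul_mul_smul_comm, smul_smul] at hμ
  have hb := ggraph_braid h2 hn hm hm0 hne (μ := (s * t * s)⁻¹ * (μ * (t * s * t))) (by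
    rw [← smul_smul, ← hμ, smul_smul, inv_mul_cancel₀ (by positivity), one_smul])
  obtain ⟨c, c1, c2⟩ := units_conj hn (by rwa [neg_mul_neg]) hb
  have hxU : x ∈ ggraphU G i j c := ⟨hx, s, by
    rw [en, ex', ← c1]; simp only [cj, mul_add, add_mul, mul_one, Units.mul_inv]⟩
  have hyU : y ∈ ggraphU G i j c := ⟨hy, t, by
    rw [em, ey', ← neg_neg m, ← c2]
    simp only [cj, mul_add, add_mul, mul_one, Units.mul_inv, mul_neg, neg_mul]⟩
  let ψ : G3 l →* ℤˣ := (quadraticChar (ZMod l)).toUnitHom.comp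
    (GeneralLinearGroup.det.comp (Pi.evalMonoidHom _ j))
  obtain ⟨a, ⟨ha, haG⟩, hno⟩ := B.no_conj hij c (U := ψ.ker ⊓ G) inf_le_right (by
    rw [Subgroup.inf_relIndex_right, Subgroup.relIndex_ker]
    refine (Subgroup.card_le_card_group _).trans ?_
    rw [Nat.card_eq_fintype_card, Fintype.card_units_int]
    omega)
  obtain ⟨d, hd⟩ : IsSquare (a j : M2 (ZMod l)).det := by
    refine (quadraticChar_one_iff_isSquare (a j).det_ne_zero).1 ?_
    have := congrArg Units.val (MonoidHom.mem_ker.1 ha)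
    simpa [ψ] using this
  have hd0 : d ≠ 0 := by
    rintro rfl
    exact (a j).det_ne_zero (by rw [hd, mul_zero])
  have hu : (d⁻¹ • (a j : M2 (ZMod l))).det = 1 := by
    rw [det_smul, hd, Fintype.card_fin]; field_simp
  obtain ⟨b, hb', eb⟩ := two_transv ((ggraphU G i j c).map (Pi.evalMonoidHom _ j)) ⟨x, hxU, rfl⟩
    ⟨y, hyU, rfl⟩ ex' ey' q1 q2 q3
    (u := GeneralLinearGroup.mkOfDetNeZero _ (hu.trans_ne one_ne_zero)) hu
  have eb' : (b j : M2 (ZMod l)) = d⁻¹ • (a j : M2 (ZMod l)) := congrArg Units.val eb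
  obtain ⟨r, hr⟩ := ggraph_tr h haG hb'.1
    ⟨d, by rw [eb', smul_smul, mul_inv_cancel₀ hd0, one_smul]⟩
  obtain ⟨r', hr'⟩ := hb'.2
  refine hno (r * (r' * d⁻¹)) ?_
  rw [hr, hr', eb', cj, cj, Matrix.mul_smul, Matrix.smul_mul, smul_smul, smul_smul, mul_assoc]

end M5
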