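import Mathlib

/-!
The counting argument of Klein.
-/

set_option autoImplicit false

namespace M5

open MulAction

theorem gklein_case {N n o : ℕ} (h1 : n * o = N) (h2 : 2 ≤ n) :
    2 * o = N ∨ 3 * o = N ∨ 4 * o = N ∨ 5 * o = N ∨ 6 * o ≤ N := by
  rcases le_or_gt 6 n with h | h
  · exact Or.inr (Or.inr (Or.inr (Or.inr (h1 ▸ Nat.mul_le_mul_right o h))))
  · interval_cases n <;> simp [h1]

/-- If all `n j ≥ 3` the sum is at most `N`; so one is `2`, and so on. -/
theorem klein_num {N : ℕ} {ι : Type} [Fintype ι] (o n : ι → ℕ) (h1 : ∀ j, n j * o j = N)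
    (h2 : ∀ j, 2 ≤ n j) (hN : 2 ≤ N) (h3 : ∑ j, o j + 2 * N = Fintype.card ι * N + 2) :
    Fintype.card ι ≤ 3 ∧ ∃ j, o j ≤ 60 := by
  have hc := fun j => gklein_case (h1 j) (h2 j)
  have h4 : 2 * ∑ j, o j ≤ Fintype.card ι * N := by
    rw [Finset.mul_sum, ← smul_eq_mul, ← Finset.card_univ]
    exact Finset.sum_le_card_nsmul _ _ _ fun j _ => by have := hc j; omega
  have h5 : Fintype.card ι ≤ 3 := by
    by_contra h
    have := Nat.mul_le_mul_right N (Nat.succ_le_of_lt (not_le.1 h))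
    omega
  refine ⟨h5, ?_⟩
  by_contra h
  simp only [not_exists, not_le] at h
  obtain ⟨c, hc'⟩ : ∃ c, Fintype.card ι = c := ⟨_, rfl⟩
  have e := Fintype.equivFinOfCardEq hc'
  rw [← e.symm.sum_comp, hc'] at h3
  rw [hc'] at h5
  interval_cases c
  · simp at h3
    omega
  · have := h (e.symm 0)
    rw [Fin.sum_univ_one] at h3
    omega
  · have := h (e.symm 0)
    rw [Fin.sum_univ_two] at h3
    omega
  · have a0 := h (e.symm 0)
    have a1 := h (e.symm 1)
    have a2 := h (e.symm 2)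
    have b0 := hc (e.symm 0)
    have b1 := hc (e.symm 1)
    have b2 := hc (e.symm 2)
    rw [Fin.sum_univ_three] at h3
    omega

theorem gklein_fin {G Y : Type} [Group G] [Finite G] [Nontrivial G] [Finite Y] [MulAction G Y]
    (h2 : ∀ g : G, g ≠ 1 → (fixedBy Y g).ncard = 2) (hY : ∀ y : Y, ∃ g : G, g ≠ 1 ∧ g • y = y) :
    (∃ y : Y, (orbit G y).ncard ≤ 60) ∧ {y : Y | (orbit G y).ncard ≤ 60}.ncard ≤ 180 := by
  classical
  have := Fintype.ofFinite G
  have := Fintype.ofFinite Y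
  have := Fintype.ofFinite (orbitRel.Quotient G Y)
  have hB := sum_card_fixedBy_eq_card_orbits_mul_card_group G Y
  have hS : Fintype.card Y = ∑ ω : orbitRel.Quotient G Y, (orbit G ω.out).ncard := by
    rw [Fintype.card_congr (selfEquivSigmaOrbits G Y), Fintype.card_sigma]
    exact Finset.sum_congr rfl fun ω _ => by rw [← Nat.card_eq_fintype_card, Nat.card_coe_set_eq]
  have hF : ∑ g : G, Fintype.card (fixedBy Y g) + 2 = Fintype.card Y + 2 * Fintype.card G := by
    have e1 : ∑ g ∈ Finset.univ.erase (1 : G), Fintype.card (fixedBy Y g) =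
        (Fintype.card G - 1) * 2 := by
      rw [Finset.sum_congr rfl fun g hg => (show Fintype.card (fixedBy Y g) = 2 by
        rw [← Nat.card_eq_fintype_card, Nat.card_coe_set_eq, h2 g (Finset.ne_of_mem_erase hg)]),
        Finset.sum_const, Finset.card_erase_of_mem (Finset.mem_univ _), Finset.card_univ,
        smul_eq_mul]
    have e2 : Fintype.card (fixedBy Y (1 : G)) = Fintype.card Y := by
      rw [← Nat.card_eq_fintype_card, Nat.card_coe_set_eq, fixedBy_one_eq_univ, Set.ncard_univ,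
        Nat.card_eq_fintype_card]
    rw [← Finset.add_sum_erase _ _ (Finset.mem_univ (1 : G)), e1, e2]
    have := Fintype.card_pos (α := G)
    omega
  obtain ⟨h3, ω, hω⟩ := klein_num (N := Fintype.card G)
    (fun ω : orbitRel.Quotient G Y => (orbit G ω.out).ncard)
    (fun ω => Nat.card (stabilizer G ω.out))
    (fun ω => by rw [← index_stabilizer, Subgroup.card_mul_index, Nat.card_eq_fintype_card])
    (fun ω => (Subgroup.one_lt_card_iff_ne_bot _).2 fun h => by
      obtain ⟨g, hg, hy⟩ := hY ω.out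
      exact hg (Subgroup.mem_bot.1 (h ▸ mem_stabilizer_iff.2 hy)))
    Fintype.one_lt_card (by rw [← hS, ← hF, hB])
  refine ⟨⟨_, hω⟩, ?_⟩
  rw [Set.ncard_eq_toFinset_card']
  refine (Finset.card_le_mul_card_image_of_maps_to (t := Finset.univ)
    (f := fun y : Y => (Quotient.mk'' y : orbitRel.Quotient G Y)) (fun _ _ => Finset.mem_univ _) 60
    fun ω _ => ?_).trans (Nat.mul_le_mul_left 60 h3)
  rcases (Finset.filter (fun y : Y => (Quotient.mk'' y : orbitRel.Quotient G Y) = ω)
    {y : Y | (orbit G y).ncard ≤ 60}.toFinset).eq_empty_or_nonempty with h | ⟨y, hy⟩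
  · rw [h]
    exact Nat.zero_le _
  · rw [Finset.mem_filter, Set.mem_toFinset] at hy
    refine le_trans ?_ hy.1
    rw [← Set.ncard_coe_finset]
    refine Set.ncard_le_ncard fun z hz => ?_
    exact orbitRel_apply.1 (Quotient.exact' ((Finset.mem_filter.1 hz).2.trans hy.2.symm))

theorem gklein_inf {G X : Type} [Group G] [Finite G] [Nontrivial G] [MulAction G X]
    (h2 : ∀ g : G, g ≠ 1 → (fixedBy X g).ncard = 2) :
    ∃ S : Set X, S.Nonempty ∧ S.Finite ∧ S.ncard ≤ 180 ∧
      ∀ x, x ∈ S ↔ (∃ g : G, g ≠ 1 ∧ g • x = x) ∧ (orbit G x).ncard ≤ 60 := by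
  let Y : SubMulAction G X := ⟨{x | ∃ g : G, g ≠ 1 ∧ g • x = x}, by
    rintro c x ⟨g, hg, hx⟩
    refine ⟨c * g * c⁻¹, fun h => hg (by simpa [mul_inv_eq_one] using h), ?_⟩
    rw [mul_smul, mul_smul, inv_smul_smul, hx]⟩
  have hf : (Y : Set X).Finite := by
    refine (Set.finite_iUnion (ι := {g : G // g ≠ 1}) (f := fun g => fixedBy X g.1)
      fun g => Set.finite_of_ncard_ne_zero (by rw [h2 g.1 g.2]; exact two_ne_zero)).subset ?_
    rintro x ⟨g, hg, hx⟩
    exact Set.mem_iUnion.2 ⟨⟨g, hg⟩, hx⟩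
  have : Finite Y := hf
  have ho : ∀ y : Y, (orbit G (y : X)).ncard = (orbit G y).ncard := fun y => by
    rw [← SubMulAction.val_image_orbit, Set.ncard_image_of_injective _ Subtype.val_injective]
  obtain ⟨⟨y, hy⟩, h⟩ := gklein_fin (G := G) (Y := Y) (fun g hg => by
    rw [← h2 g hg, ← Set.ncard_image_of_injective _ Subtype.val_injective]
    congr 1
    ext x
    exact ⟨fun ⟨y, hy, e⟩ => e ▸ congrArg Subtype.val hy,
      fun hx => ⟨⟨x, g, hg, hx⟩, Subtype.ext hx, rfl⟩⟩)
    (fun ⟨y, g, hg, hy⟩ => ⟨g, hg, Subtype.ext hy⟩)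
  refine ⟨Subtype.val '' {y : Y | (orbit G y).ncard ≤ 60}, ⟨_, y, hy, rfl⟩,
    (Set.toFinite _).image _, ?_, fun x => ⟨?_, fun hx => ⟨⟨x, hx.1⟩, ?_, rfl⟩⟩⟩
  · rwa [Set.ncard_image_of_injective _ Subtype.val_injective]
  · rintro ⟨z, hz, rfl⟩
    exact ⟨z.2, (ho z).trans_le hz⟩
  · exact (ho ⟨x, hx.1⟩).symm.trans_le hx.2

/-- Let `M` be the image of `N` in the permutations of `X` (`MulAction.toPermHom`), `Y` the finite set of
the points that are fixed by some element `≠ 1` of `M`; it is stable under `H`. Burnside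
(`MulAction.sum_card_fixedBy_eq_card_orbits_mul_card_group`) for `M` acting on `Y`:
`card Y + 2 (card M - 1) = card orbits * card M`. `klein_num` for the sizes of the orbits and of the
stabilisers. An element of `H` maps an orbit of `M` onto an orbit of the same size, so the orbit of
`x` under `H` lies in the union of at most three sets with at most `60` elements;
`MulAction.index_stabilizer`. -/
theorem klein {H X : Type} [Group H] [MulAction H X] (N : Subgroup H) [N.Normal] [Finite N]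
    (h2 : ∀ g ∈ N, (∀ x : X, g • x = x) ∨ (MulAction.fixedBy X g).ncard = 2)
    (h1 : ∃ g ∈ N, ∃ x : X, g • x ≠ x) :
    ∃ x : X, (MulAction.stabilizer H x).index ≠ 0 ∧ (MulAction.stabilizer H x).index ≤ 180 := by
  let M := N.map (toPermHom H X)
  have : Finite M := Finite.of_surjective _ ((toPermHom H X).subgroupMap_surjective N)
  have up : ∀ n ∈ N, ∃ g : M, ∀ x : X, g • x = n • x :=
    fun n hn => ⟨⟨_, n, hn, rfl⟩, fun _ => rfl⟩
  have down : ∀ g : M, ∃ n ∈ N, ∀ x : X, g • x = n • x := by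
    rintro ⟨_, n, hn, rfl⟩
    exact ⟨n, hn, fun _ => rfl⟩
  have one : ∀ g : M, (∀ x : X, g • x = x) → g = 1 := fun g h => Subtype.ext (Equiv.ext h)
  have : Nontrivial M := by
    obtain ⟨n, hn, x, hx⟩ := h1
    obtain ⟨g, hg⟩ := up n hn
    exact ⟨g, 1, fun h => hx (by rw [← hg, h, one_smul])⟩
  obtain ⟨S, ⟨x, hx⟩, hf, hc, hS⟩ := gklein_inf (G := M) (X := X) fun g hg => by
    obtain ⟨n, hn, e⟩ := down g
    have e' : fixedBy X g = fixedBy X n := Set.ext fun x => by rw [mem_fixedBy, mem_fixedBy, e]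
    rw [e']
    exact (h2 n hn).resolve_left fun h => hg (one g fun x => (e x).trans (h x))
  have hsub : orbit H x ⊆ S := by
    rintro _ ⟨h, rfl⟩
    obtain ⟨⟨g, hg, hgx⟩, ho⟩ := (hS x).1 hx
    obtain ⟨n, hn, e⟩ := down g
    obtain ⟨g', e'⟩ := up _ (Subgroup.Normal.conj_mem ‹_› n hn h)
    refine (hS _).2 ⟨⟨g', fun h1 => hg (one g fun z => ?_), ?_⟩, ?_⟩
    · have := e' (h • z)
      rw [h1, one_smul, mul_smul, mul_smul, inv_smul_smul, smul_left_cancel_iff] at this
      rw [e, ← this]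
    · rw [e', mul_smul, mul_smul, inv_smul_smul, ← e, hgx]
    · have hO : (orbit M x).Finite := Set.finite_range _
      refine le_trans (Set.ncard_le_ncard (t := (h • ·) '' orbit M x) ?_
        (hO.image _)) ((Set.ncard_image_le hO).trans ho)
      rintro _ ⟨a, rfl⟩
      obtain ⟨m, hm, ea⟩ := down a
      obtain ⟨b, eb⟩ := up _ (Subgroup.Normal.conj_mem' ‹_› m hm h)
      refine ⟨b • x, mem_orbit x b, ?_⟩
      simp only [ea, eb, mul_smul, smul_inv_smul]
  refine ⟨x, ?_, ?_⟩
  · rw [index_stabilizer]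
    exact ((Set.ncard_pos (hf.subset hsub)).2 ⟨x, mem_orbit_self x⟩).ne'
  · rw [index_stabilizer]
    exact (Set.ncard_le_ncard hsub hf).trans hc

end M5
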