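import Pool.Agent.Lib.MP_33b3f9_ag.M5.GLineA

/-!
Normal subgroups.
-/

set_option autoImplicit false

noncomputable section

namespace M5

open Matrix Pool.Agent.M4 Pool.Agent.M4.Mx

variable {l : ℕ} [Fact l.Prime] {G : Subgroup (G3 l)}

section pts

open OnePoint

variable {K : Type} [Field K] [DecidableEq K]

theorem gline_some {g : GL (Fin 2) K} {c : K} : g • (c : OnePoint K) = c ↔
    g 1 0 * (c * c) + (g 1 1 - g 0 0) * c + -g 0 1 = 0 := by
  rw [← GeneralLinearGroup.fixpointPolynomial_aeval_eq_zero_iff]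
  simp [GeneralLinearGroup.fixpointPolynomial, sq, sub_eq_add_neg]

theorem gline_two [IsAlgClosed K] [NeZero (2 : K)] {g : GL (Fin 2) K}
    (hd : (g 1 1 - g 0 0) ^ 2 + 4 * g 1 0 * g 0 1 ≠ 0) :
    (MulAction.fixedBy (OnePoint K) g).ncard = 2 := by
  rw [Set.ncard_eq_two]
  by_cases h : g 1 0 = 0
  · have h1 : g 1 1 - g 0 0 ≠ 0 := fun h0 => hd (by rw [h, h0]; ring)
    refine ⟨∞, (g 0 1 / (g 1 1 - g 0 0) : K), infty_ne_coe _, Set.ext fun x => ?_⟩
    rw [MulAction.mem_fixedBy]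
    cases x with
    | infty => simp [smul_infty_eq_self_iff, h]
    | coe c =>
      rw [gline_some, h]
      simp [eq_div_iff h1, add_neg_eq_zero, mul_comm]
  · obtain ⟨s, hs⟩ := IsAlgClosed.exists_eq_mul_self (discrim (g 1 0) (g 1 1 - g 0 0) (-g 0 1))
    have h2 : (2 : K) ≠ 0 := NeZero.ne _
    refine ⟨((-(g 1 1 - g 0 0) + s) / (2 * g 1 0) : K), ((-(g 1 1 - g 0 0) - s) / (2 * g 1 0) : K),
      fun h0 => hd ?_, Set.ext fun x => ?_⟩
    · rw [coe_eq_coe, div_left_inj' (mul_ne_zero h2 h)] at h0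
      have h3 : s = 0 := mul_left_cancel₀ h2 (by linear_combination h0)
      rw [discrim, h3] at hs
      linear_combination hs
    · rw [MulAction.mem_fixedBy]
      cases x with
      | infty => simp [smul_infty_eq_self_iff, h]
      | coe c =>
        rw [gline_some, quadratic_eq_zero_iff h hs]
        simp

theorem gline_fix (x : OnePoint K) : ∃ v : Fin 2 → K, v ≠ 0 ∧
    ∀ g : GL (Fin 2) K, g • x = x → ∃ s : K, (g : M2 K) *ᵥ v = s • v := by
  cases x with
  | infty =>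
    refine ⟨![1, 0], by simp, fun g hg => ⟨g 0 0, ?_⟩⟩
    rw [smul_infty_eq_self_iff] at hg
    simp [hg]
  | coe c =>
    refine ⟨![c, 1], by simp, fun g hg => ⟨g 1 0 * c + g 1 1, ?_⟩⟩
    rw [gline_some] at hg
    ext i
    fin_cases i
    · simp only [mulVec_fin_two]
      simp
      linear_combination -hg
    · simp

theorem gline_sc {g : GL (Fin 2) K} {s : K} (h : (g : M2 K) = s • 1) (x : OnePoint K) :
    g • x = x := by
  cases x with
  | infty => rw [smul_infty_eq_self_iff]; simp [h]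
  | coe c => rw [gline_some]; simp [h]

omit [DecidableEq K] in
theorem gline_ker {n : M2 K} (hn : n ≠ 0) {u v : Fin 2 → K} (hv : v ≠ 0) (h1 : n *ᵥ u = 0)
    (h2 : n *ᵥ v = 0) : ∃ s : K, u = s • v := by
  have h3 : u 0 * v 1 = u 1 * v 0 := by
    by_contra h
    refine hn (Matrix.ext fun i j => mul_right_cancel₀ (sub_ne_zero.2 h) ?_)
    have e1 := congrFun h1 i
    have e2 := congrFun h2 i
    simp only [mulVec, dotProduct, Fin.sum_univ_two, Pi.zero_apply] at e1 e2
    fin_cases j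
    · simp only [Fin.zero_eta, Matrix.zero_apply]
      linear_combination v 1 * e1 - u 1 * e2
    · simp only [Fin.mk_one, Matrix.zero_apply]
      linear_combination u 0 * e2 - v 0 * e1
  by_cases h : v 0 = 0
  · have h4 : v 1 ≠ 0 := fun h4 => hv (funext fun i => by fin_cases i <;> simp [h, h4])
    refine ⟨u 1 / v 1, funext fun i => ?_⟩
    fin_cases i
    · simpa [h, h4] using h3
    · simp [h4]
  · refine ⟨u 0 / v 0, funext fun i => ?_⟩
    fin_cases i
    · simp [h]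
    · simp only [Fin.mk_one, Pi.smul_apply, smul_eq_mul]
      field_simp
      linear_combination -h3

end pts

theorem gline_ne (B : Big G) : (2 : ZMod l) ≠ 0 := fun h => by
  have h1 : l ∣ 2 := (ZMod.natCast_eq_zero_iff 2 l).1 (by exact_mod_cast h)
  have := Nat.le_of_dvd two_pos h1
  have := B.five
  omega

theorem gline_par (B : Big G) {N : Subgroup (G3 l)} (h1 : N ≤ G)
    (h2 : ∀ a ∈ G, ∀ b ∈ N, a * b * a⁻¹ ∈ N) (i : Fin 3) {a : G3 l} (ha : a ∈ N) (hs : ¬ Sc (a i)) :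
    ∃ b ∈ N, (b i : M2 (ZMod l)).IsParabolic := by
  classical
  by_contra hp
  let Ω := AlgebraicClosure (ZMod l)
  have hf : Function.Injective (algebraMap (ZMod l) Ω) := (algebraMap (ZMod l) Ω).injective
  have : NeZero (2 : Ω) := ⟨by
    rw [← map_ofNat (algebraMap (ZMod l) Ω) 2]
    exact (map_ne_zero_iff _ hf).2 (gline_ne B)⟩
  let φ : G →* GL (Fin 2) Ω := (GeneralLinearGroup.map (algebraMap (ZMod l) Ω)).comp
    ((Pi.evalMonoidHom _ i).comp G.subtype)
  let _ : MulAction G (OnePoint Ω) := MulAction.compHom _ φ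
  have : (N.subgroupOf G).Normal := ⟨fun b hb g => h2 g g.2 b hb⟩
  have key : ∀ g ∈ N.subgroupOf G, ¬ Sc (g.1 i) →
      (MulAction.fixedBy (OnePoint Ω) g).ncard = 2 := fun g hg hg' => by
    refine gline_two (g := φ g) fun h0 => hp ⟨g.1, hg, ?_, hf ?_⟩
    · rintro ⟨s, h3⟩
      exact hg' ⟨s, by rw [← h3, scalar_apply, smul_one_eq_diagonal]⟩
    · rw [discr_fin_two, trace_fin_two, det_fin_two, map_zero, ← h0]
      simp only [map_sub, map_mul, map_add, map_pow, map_ofNat]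
      change _ = (algebraMap (ZMod l) Ω ((g.1 i : M2 (ZMod l)) 1 1) -
        algebraMap (ZMod l) Ω ((g.1 i : M2 (ZMod l)) 0 0)) ^ 2 +
        4 * algebraMap (ZMod l) Ω ((g.1 i : M2 (ZMod l)) 1 0) *
          algebraMap (ZMod l) Ω ((g.1 i : M2 (ZMod l)) 0 1)
      ring
  obtain ⟨x, -, hx⟩ := klein (X := OnePoint Ω) (N.subgroupOf G) (fun g hg => by
    by_cases h3 : Sc (g.1 i)
    · obtain ⟨s, h3⟩ := h3
      refine Or.inl (gline_sc (g := φ g) (s := algebraMap _ Ω s) ?_)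
      change (g.1 i : M2 (ZMod l)).map (algebraMap _ Ω) = _
      rw [h3, smul_one_eq_diagonal, smul_one_eq_diagonal, diagonal_map (map_zero _)]
    · exact Or.inr (key g hg h3)) (by
    refine ⟨⟨a, h1 ha⟩, ha, ?_⟩
    by_contra h3
    push Not at h3
    have h4 := key ⟨a, h1 ha⟩ ha hs
    rw [Set.eq_univ_of_forall (s := MulAction.fixedBy _ _) h3, Set.infinite_univ.ncard] at h4
    omega)
  obtain ⟨v, hv, hv'⟩ := gline_fix x
  obtain ⟨_, ⟨g, hg, rfl⟩, h5⟩ := B.no_line i hv (U := (MulAction.stabilizer G x).map G.subtype)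
    (Subgroup.map_subtype_le _) (by
      rwa [Subgroup.relIndex, Subgroup.subgroupOf,
        Subgroup.comap_map_eq_self_of_injective G.subtype_injective])
  obtain ⟨s, h6⟩ := hv' (φ g) hg
  exact h5 s h6

/-- Suppose that `a i` is not scalar for some `a ∈ N`. If `tr ^ 2 ≠ 4 det` for all such, they fix
exactly two points of the projective line over the algebraic closure of `ZMod l`, on which `G` acts
through the slot `i`; `klein` contradicts `no_line`. Otherwise `a i = s (1 + n)`, `n * n = 0`, `n ≠ 0`;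
divide by the scalar. By `no_line` for a vector that spans the kernel of `n` some conjugate `n'` has
`n * n' ≠ 0`; `two_transv` for the image of `N` in the slot `i`. -/
theorem Big.dich (B : Big G) {N : Subgroup (G3 l)} (h1 : N ≤ G)
    (h2 : ∀ a ∈ G, ∀ b ∈ N, a * b * a⁻¹ ∈ N) (h3 : ∀ a : G3 l, (∀ i, Sc (a i)) → a ∈ N) (i : Fin 3) :
    (∀ a ∈ N, Sc (a i)) ∨
      ∀ u : GL (Fin 2) (ZMod l), (u : M2 (ZMod l)).det = 1 → ∃ a ∈ N, a i = u := by
  by_cases hs : ∀ a ∈ N, Sc (a i)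
  · exact Or.inl hs
  push Not at hs
  obtain ⟨a, ha, hs⟩ := hs
  have : NeZero (2 : ZMod l) := ⟨gline_ne B⟩
  obtain ⟨b, hb, hp⟩ := gline_par B h1 h2 i ha hs
  have h4 := GeneralLinearGroup.parabolicEigenvalue_ne_zero hp
  have h5 := hp.sub_eigenvalue_sq_eq_zero
  have h6 : (b i : M2 (ZMod l)) - scalar _ (b i : M2 (ZMod l)).parabolicEigenvalue ≠ 0 :=
    sub_ne_zero.2 fun h => hp.1 ⟨_, h.symm⟩
  generalize (b i : M2 (ZMod l)).parabolicEigenvalue = s at h4 h5 h6
  obtain ⟨n, hn⟩ : ∃ n, n = s⁻¹ • ((b i : M2 (ZMod l)) - scalar _ s) := ⟨_, rfl⟩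
  have n0 : n ≠ 0 := hn ▸ smul_ne_zero (inv_ne_zero h4) h6
  have nn : n * n = 0 := by rw [← sq, hn, _root_.smul_pow, h5, smul_zero]
  let c : G3 l := fun _ => GeneralLinearGroup.scalar _ (Units.mk0 s h4)⁻¹
  have hc : ∀ j, (c j : M2 (ZMod l)) = s⁻¹ • 1 := fun j => by
    rw [smul_one_eq_diagonal]
    rfl
  have hb' : c * b ∈ N := N.mul_mem (h3 c fun j => ⟨_, hc j⟩) hb
  have e : ((c * b) i : M2 (ZMod l)) = 1 + n := by
    rw [Pi.mul_apply, Units.val_mul, hc i, hn, smul_sub, scalar_apply, ← smul_one_eq_diagonal,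
      inv_smul_smul₀ h4, smul_one_mul, add_sub_cancel]
  obtain ⟨w, hw⟩ : ∃ w, n *ᵥ w ≠ 0 := by
    by_contra h
    push Not at h
    exact n0 (ext_of_mulVec_single fun j => by rw [h, zero_mulVec])
  obtain ⟨g, hg, h7⟩ := B.no_line i hw le_rfl (by simp)
  have h8 : n * ((g i : M2 (ZMod l)) * n * ((g i)⁻¹ : GL _ _)) ≠ 0 := fun h => by
    rw [← mul_assoc, Units.mul_left_eq_zero] at h
    obtain ⟨t, ht⟩ := gline_ker n0 hw (u := (g i : M2 (ZMod l)) *ᵥ n *ᵥ w)
      (by rw [mulVec_mulVec, mulVec_mulVec, mul_assoc, h, zero_mulVec])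
      (by rw [mulVec_mulVec, nn, zero_mulVec])
    exact h7 t (by simpa using ht)
  refine Or.inr fun u hu => two_transv (N.map (Pi.evalMonoidHom (fun _ => GL (Fin 2) (ZMod l)) i))
    ⟨_, hb', rfl⟩ ⟨_, h2 g hg _ hb', rfl⟩ e ?_ nn ?_ h8 hu
  · change (g i : M2 (ZMod l)) * ((c * b) i : M2 (ZMod l)) * ((g i)⁻¹ : GL _ _) = _
    rw [e, mul_add, add_mul, mul_one, Units.mul_inv]
  · simp only [mul_assoc, Units.inv_mul_cancel_left]
    rw [← mul_assoc n, nn, zero_mul, mul_zero]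

/-- `dich` for `N = G`, `no_line`. -/
theorem Big.onto (B : Big G) (i : Fin 3) {u : GL (Fin 2) (ZMod l)}
    (hu : (u : M2 (ZMod l)).det = 1) : ∃ a ∈ G, a i = u := by
  refine (B.dich le_rfl (fun a ha b hb => G.mul_mem (G.mul_mem ha hb) (G.inv_mem ha)) B.sc i).elim
    (fun h => ?_) fun h => h u hu
  obtain ⟨a, ha, h1⟩ := B.no_line i (Ω := ZMod l) (v := 1) one_ne_zero le_rfl (by simp)
  obtain ⟨s, hs⟩ := h a ha
  exact (h1 s (by simp [hs, smul_mulVec])).elim

end M5
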