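import Pool.Agent.Lib.MP_33b3f9_ag.M5.GDefs
import Pool.Agent.Lib.MP_33b3f9_ag.M5.GKlein
import Pool.Agent.Lib.MP_33b3f9_ag.M4.MxCube

/-!
Normal subgroups.
-/

set_option autoImplicit false

noncomputable section

namespace M5

open Matrix Pool.Agent.M4 Pool.Agent.M4.Mx

variable {l : ℕ} [Fact l.Prime] {G : Subgroup (G3 l)}

theorem glinea_tp {R : Type} [CommRing R] (a : Fin 3 → M2 R) (i : Fin 3) (p q : Fin 2) :
    tp a (Function.update 0 i p) (Function.update 0 i q) =
      (∏ t ∈ Finset.univ.erase i, a t 0 0) * a i p q := by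
  rw [tp_apply, ← Finset.prod_erase_mul _ _ (Finset.mem_univ i), Function.update_self,
    Function.update_self]
  congr 1
  refine Finset.prod_congr rfl fun t ht => ?_
  rw [Function.update_of_ne (Finset.ne_of_mem_erase ht),
    Function.update_of_ne (Finset.ne_of_mem_erase ht)]
  rfl

theorem glinea_basis {K : Type} [Field K] {n n' : M2 K} (h : n * n = 0) (h' : n' * n' = 0)
    (h0 : n * n' ≠ 0) : ∃ (P : M2 K) (β : K), P.det ≠ 0 ∧ β ≠ 0 ∧ n * P = P * bas K 1 ∧
      n' * P = β • (P * bas K 2) := by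
  obtain ⟨z, hz⟩ : ∃ z, (n * n') *ᵥ z ≠ 0 := by
    by_contra hc
    push Not at hc
    exact h0 (Matrix.ext_iff_mulVec.2 fun z => by rw [hc, zero_mulVec])
  rw [← mulVec_mulVec] at hz
  have hy : n' *ᵥ (n' *ᵥ z) = 0 := by rw [mulVec_mulVec, h', zero_mulVec]
  generalize n' *ᵥ z = y at hz hy
  have hx : n *ᵥ (n *ᵥ y) = 0 := by rw [mulVec_mulVec, h, zero_mulVec]
  obtain ⟨x, ex⟩ : ∃ x, n *ᵥ y = x := ⟨_, rfl⟩
  rw [ex] at hz hx
  obtain ⟨P, hP⟩ : ∃ P : M2 K, ∀ c, P *ᵥ c = c 0 • x + c 1 • y :=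
    ⟨Matrix.of fun r s => ![x, y] s r, fun c => by
      funext r
      simp [mulVec, dotProduct, Fin.sum_univ_two, mul_comm]⟩
  have hd : P.det ≠ 0 := by
    intro hd
    obtain ⟨c, hc0, hc⟩ := Matrix.exists_mulVec_eq_zero_iff.2 hd
    rw [hP] at hc
    have e1 := congrArg (fun u => n *ᵥ u) hc
    simp only [mulVec_add, mulVec_smul, hx, ex, smul_zero, zero_add, mulVec_zero] at e1
    have c1 : c 1 = 0 := (smul_eq_zero.1 e1).resolve_right hz
    rw [c1, zero_smul, add_zero] at hc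
    have c0 : c 0 = 0 := (smul_eq_zero.1 hc).resolve_right hz
    refine hc0 (funext fun r => ?_)
    fin_cases r
    exacts [c0, c1]
  have hs : ∀ u, ∃ c, u = P *ᵥ c := fun u =>
    ⟨P⁻¹ *ᵥ u, by rw [mulVec_mulVec, mul_nonsing_inv _ hd.isUnit, one_mulVec]⟩
  have hnx : n' *ᵥ x ≠ 0 := fun h1 => h0 (by
    have : n' = 0 := Matrix.ext_iff_mulVec.2 fun u => by
      obtain ⟨c, rfl⟩ := hs u
      rw [hP, mulVec_add, mulVec_smul, mulVec_smul, h1, hy, smul_zero, smul_zero, add_zero,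
        zero_mulVec]
    rw [this, mul_zero])
  obtain ⟨c, hc⟩ := hs (n' *ᵥ x)
  rw [hP] at hc
  have e1 := congrArg (fun u => n' *ᵥ u) hc
  simp only [mulVec_add, mulVec_smul, hy, smul_zero, add_zero] at e1
  rw [mulVec_mulVec, h', zero_mulVec] at e1
  have c0 : c 0 = 0 := (smul_eq_zero.1 e1.symm).resolve_right hnx
  rw [c0, zero_smul, zero_add] at hc
  refine ⟨P, c 1, hd, fun c1 => hnx (by rw [hc, c1, zero_smul]),
    Matrix.ext_iff_mulVec.2 fun u => ?_, Matrix.ext_iff_mulVec.2 fun u => ?_⟩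
  · rw [← mulVec_mulVec, ← mulVec_mulVec, hP, hP, mulVec_add, mulVec_smul, mulVec_smul, hx, ex]
    simp [bas, mulVec, dotProduct, Fin.sum_univ_two]
  · rw [smul_mulVec, ← mulVec_mulVec, ← mulVec_mulVec, hP, hP, mulVec_add, mulVec_smul,
      mulVec_smul, hy, hc]
    simp [bas, mulVec, dotProduct, Fin.sum_univ_two, smul_smul, mul_comm]

theorem glinea_pow {a : GL (Fin 2) (ZMod l)} {n : M2 (ZMod l)} (e : (a : M2 (ZMod l)) = 1 + n)
    (h : n * n = 0) (c : ZMod l) : ((a ^ c.val : GL (Fin 2) (ZMod l)) : M2 (ZMod l)) = 1 + c • n := by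
  have key : ∀ k : ℕ, (1 + n) ^ k = 1 + (k : ZMod l) • n := fun k => by
    induction k with
    | zero => simp
    | succ k ih =>
      rw [pow_succ, ih, add_mul, one_mul, mul_add, mul_one, smul_mul_assoc, h, smul_zero, add_zero,
        Nat.cast_succ, add_smul, one_smul]
      abel
  rw [Units.val_pow_eq_pow_val, e, key, ZMod.natCast_zmod_val]

/-- With `w = (- v 1, v 0)` the map `M ↦ ∑ p q, w p * M (update 0 i p) (update 0 i q) * v q` is linear
over `ZMod l`, vanishes on the `tp a`, `a ∈ U`, and not on all elementary matrices. -/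
theorem Big.no_line (B : Big G) (i : Fin 3) {Ω : Type} [Field Ω] [Algebra (ZMod l) Ω]
    {v : Fin 2 → Ω} (hv : v ≠ 0) {U : Subgroup (G3 l)} (hU : U ≤ G) (hi : U.relIndex G ≤ 180) :
    ∃ a ∈ U, ∀ s : Ω, (a i : M2 (ZMod l)).map (algebraMap _ Ω) *ᵥ v ≠ s • v := by
  by_contra hc
  push Not at hc
  let w : Fin 2 → Ω := ![-v 1, v 0]
  let L : Matrix κ κ (ZMod l) →ₗ[ZMod l] Ω :=
    { toFun := fun M => ∑ p, ∑ q, M (Function.update 0 i p) (Function.update 0 i q) • (w p * v q)
      map_add' := fun M M' => by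
        simp only [Matrix.add_apply, add_smul, Finset.sum_add_distrib]
      map_smul' := fun c M => by
        simp only [Matrix.smul_apply, smul_eq_mul, mul_smul, Finset.smul_sum, RingHom.id_apply] }
  have hL : ∀ M, L M =
      ∑ p, ∑ q, M (Function.update 0 i p) (Function.update 0 i q) • (w p * v q) := fun _ => rfl
  have hk : ⊤ ≤ LinearMap.ker L := by
    rw [← B.sp U hU hi, Submodule.span_le]
    rintro _ ⟨a, ha, rfl⟩
    obtain ⟨s, hs⟩ := hc a ha
    have e0 := congrFun hs 0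
    have e1 := congrFun hs 1
    simp only [mulVec, dotProduct, Fin.sum_univ_two, Matrix.map_apply, Pi.smul_apply,
      smul_eq_mul] at e0 e1
    show L _ = 0
    rw [hL]
    simp only [glinea_tp, Fin.sum_univ_two, Algebra.smul_def, map_mul, w, Matrix.cons_val_zero,
      Matrix.cons_val_one]
    generalize algebraMap (ZMod l) Ω (∏ t ∈ Finset.univ.erase i, (a t : M2 (ZMod l)) 0 0) = c
    linear_combination (-c * v 1) * e0 + (c * v 0) * e1
  have hw : ∀ p q, w p * v q = 0 := fun p q => by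
    have e : L (single (Function.update 0 i p) (Function.update 0 i q) 1) = 0 :=
      hk Submodule.mem_top
    have inj : ∀ p p' : Fin 2,
        (Function.update (0 : κ) i p = Function.update (0 : κ) i p') ↔ p = p' := fun p p' =>
      (Function.update_injective (0 : κ) i).eq_iff
    rw [hL] at e
    simp only [Matrix.single_apply, inj] at e
    simpa [ite_and] using e
  have v0 : v 0 = 0 := mul_self_eq_zero.1 (hw 1 0)
  have v1 : v 1 = 0 := by
    have := hw 0 1
    simp only [w, Matrix.cons_val_zero, neg_mul, neg_eq_zero] at this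
    exact mul_self_eq_zero.1 this
  refine hv (funext fun r => ?_)
  fin_cases r
  exacts [v0, v1]

/-- In a basis `(x, y)` with `n x = 0`, `n' y = 0` the matrices are `α E₀₁`, `β E₁₀` with `α, β ≠ 0`; the
powers of `1 + n` are the `1 + t n`, `t ∈ ZMod l`; `mxCube_ind`. -/
theorem two_transv (N : Subgroup (GL (Fin 2) (ZMod l))) {a a' : GL (Fin 2) (ZMod l)}
    {n n' : M2 (ZMod l)} (ha : a ∈ N) (ha' : a' ∈ N) (e : (a : M2 (ZMod l)) = 1 + n)
    (e' : (a' : M2 (ZMod l)) = 1 + n') (h : n * n = 0) (h' : n' * n' = 0) (h0 : n * n' ≠ 0)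
    {u : GL (Fin 2) (ZMod l)} (hu : (u : M2 (ZMod l)).det = 1) : u ∈ N := by
  obtain ⟨P, β, hd, hβ, e1, e2⟩ := glinea_basis h h' h0
  have key := mxCube_ind (fun m : M2 (ZMod l) => ∃ b ∈ N, (b : M2 (ZMod l)) * P = P * m)
    (fun x y ⟨b, hb, eb⟩ ⟨b', hb', eb'⟩ => ⟨b * b', N.mul_mem hb hb', by
      rw [Units.val_mul, mul_assoc, eb', ← mul_assoc, eb, mul_assoc]⟩)
    (fun c => ⟨a ^ c.val, N.pow_mem ha _, by
      rw [glinea_pow e h, add_mul, mul_add, one_mul, mul_one, smul_mul_assoc, mul_smul_comm, e1]⟩)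
    (fun c => ⟨a' ^ (c / β).val, N.pow_mem ha' _, by
      rw [glinea_pow e' h', add_mul, mul_add, one_mul, mul_one, smul_mul_assoc, mul_smul_comm, e2,
        smul_smul, div_mul_cancel₀ _ hβ]⟩)
    (P⁻¹ * (u * P)) (by
      rw [det_mul, det_mul, hu, one_mul, ← det_mul, nonsing_inv_mul _ hd.isUnit, det_one])
  obtain ⟨b, hb, eb⟩ := key
  rw [mul_nonsing_inv_cancel_left _ _ hd.isUnit] at eb
  have e3 : b = u := Units.ext (by
    have := congrArg (fun X => X * P⁻¹) eb
    simpa only [mul_nonsing_inv_cancel_right _ _ hd.isUnit] using this)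
  rwa [← e3]

end M5
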