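import Pool.Agent.Lib.MP_33b3f9_ag.M5.LDefs

/-!
The grading defined by a long root.
-/

set_option autoImplicit false

noncomputable section

namespace M5

open Matrix Polynomial Pool.Agent.M4.Mx Pool.Agent.Lib.MP_33b3f9_ag

variable {ν : Type} [Fintype ν] [DecidableEq ν] {Ω : Type} [Field Ω] [CharZero Ω]
  {E : Matrix ν ν Ω} {g : Submodule Ω (Matrix ν ν Ω)} {h e f : Matrix ν ν Ω}

omit [CharZero Ω] in
theorem mem_dg {X : Matrix ν ν Ω} {k : ℤ} : X ∈ dg g h k ↔ X ∈ g ∧ br h X = (k : Ω) • X := Iff.rfl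

omit [CharZero Ω] in
theorem mem_Vk {v : ν → Ω} {k : ℤ} : v ∈ Vk h k ↔ h *ᵥ v = (k : Ω) • v := Iff.rfl

omit [CharZero Ω] in
theorem mem_cent {z : Matrix ν ν Ω} : z ∈ cent g e f ↔ z ∈ g ∧ z * e = e * z ∧ z * f = f * z :=
  Iff.rfl

omit [CharZero Ω] in
theorem lbas_add (h A B : Matrix ν ν Ω) : br h (A + B) = br h A + br h B := by
  rw [br, br, br, mul_add, add_mul]
  abel

omit [CharZero Ω] in
theorem lbas_smul (h : Matrix ν ν Ω) (c : Ω) (A : Matrix ν ν Ω) : br h (c • A) = c • br h A := by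
  rw [br, br, mul_smul_comm, smul_mul_assoc, smul_sub]

omit [CharZero Ω] in
theorem lbas_swap (A B : Matrix ν ν Ω) : br A B = -br B A := (neg_sub _ _).symm

omit [CharZero Ω] in
theorem lbas_jac (h X Y : Matrix ν ν Ω) : br h (br X Y) = br X (br h Y) - br Y (br h X) := by
  simp only [br]
  noncomm_ring

omit [CharZero Ω] in
theorem lbas_pow (T : Ext g h e f) {X : Matrix ν ν Ω} {k : ℤ} (hX : X ∈ dg g h k) :
    ∃ (a b : Ω) (x z y : Matrix ν ν Ω), ∀ n : ℕ, (k : Ω) ^ n • X =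
      (2 : Ω) ^ n • a • e + x + (0 : Ω) ^ n • z + (-1 : Ω) ^ n • y + (-2 : Ω) ^ n • b • f := by
  obtain ⟨a, b, x, z, y, hx, hz, hy, h0⟩ := T.dec X hX.1
  refine ⟨a, b, x, z, y, fun n => ?_⟩
  induction n with
  | zero => simpa using h0
  | succ n ih =>
    have h1 := congrArg (br h) ih
    simp only [lbas_add, lbas_smul, hX.2, hx.2, hz.2, hy.2, T.he, T.hf, Int.cast_one,
      Int.cast_zero, Int.cast_neg] at h1
    simp only [pow_succ]
    linear_combination (norm := module) h1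

omit [CharZero Ω] in
/-- Jacobi. -/
theorem dg_br (hc : Cl g) {X Y : Matrix ν ν Ω} {j k : ℤ} (hX : X ∈ dg g h j) (hY : Y ∈ dg g h k) :
    br X Y ∈ dg g h (j + k) := by
  refine ⟨hc _ hX.1 _ hY.1, ?_⟩
  rw [lbas_jac, hX.2, hY.2, lbas_smul, lbas_smul, lbas_swap Y X, Int.cast_add]
  module

omit [CharZero Ω] in
theorem dg_Vk {X : Matrix ν ν Ω} {v : ν → Ω} {j k : ℤ} (hX : X ∈ dg g h j) (hv : v ∈ Vk h k) :
    X *ᵥ v ∈ Vk h (j + k) := by
  have h1 : h * X = X * h + (j : Ω) • X := by rw [← hX.2, br, add_sub_cancel]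
  rw [mem_Vk, mulVec_mulVec, h1, add_mulVec, ← mulVec_mulVec, mem_Vk.1 hv, mulVec_smul,
    smul_mulVec, Int.cast_add, add_smul, add_comm]

/-- Eigenspaces are independent (`Module.End.eigenspaces_iSupIndep`). -/
theorem Vk_indep (h : Matrix ν ν Ω) : iSupIndep fun k : ℤ => Vk h k := by
  have e : (fun k : ℤ => Vk h k) =
      (fun c : Ω => Module.End.eigenspace (Matrix.toLin' h) c) ∘ fun k : ℤ => (k : Ω) := by
    funext k
    ext v
    rw [Function.comp, Module.End.mem_eigenspace_iff, toLin'_apply, mem_Vk]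
  rw [e]
  exact (Module.End.eigenspaces_iSupIndep _).comp Int.cast_injective

namespace Ext

variable (T : Ext g h e f)
include T

theorem e_dg : e ∈ dg g h 2 := by
  exact ⟨T.e_mem, by rw [T.he, Int.cast_ofNat]⟩

theorem f_dg : f ∈ dg g h (-2) := by
  exact ⟨T.f_mem, by rw [T.hf, Int.cast_neg, Int.cast_ofNat]⟩

theorem h_dg : h ∈ dg g h 0 := by
  exact ⟨T.h_mem, by rw [br, sub_self, Int.cast_zero, zero_smul]⟩

theorem e_ne : e ≠ 0 := by
  rintro rfl
  exact T.ne (T.ef.symm.trans (by simp [br]))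

theorem f_ne : f ≠ 0 := by
  rintro rfl
  exact T.ne (T.ef.symm.trans (by simp [br]))

/-- Apply `∏ (ad h - j)` over `j ∈ {1, 0, -1, -2}` to the decomposition. -/
theorem two {X : Matrix ν ν Ω} (hX : X ∈ dg g h 2) : ∃ a : Ω, X = a • e := by
  obtain ⟨a, b, x, z, y, H⟩ := lbas_pow T hX
  refine ⟨a, smul_right_injective _ (show (24 : Ω) ≠ 0 by norm_num) ?_⟩
  simp only [Int.cast_ofNat] at H
  linear_combination (norm := module) H 4 + (2 : Ω) • H 3 - H 2 - (2 : Ω) • H 1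

theorem neg_two {X : Matrix ν ν Ω} (hX : X ∈ dg g h (-2)) : ∃ a : Ω, X = a • f := by
  obtain ⟨a, b, x, z, y, H⟩ := lbas_pow T hX
  refine ⟨b, smul_right_injective _ (show (24 : Ω) ≠ 0 by norm_num) ?_⟩
  simp only [Int.cast_ofNat, Int.cast_neg] at H
  linear_combination (norm := module) H 4 - (2 : Ω) • H 3 - H 2 + (2 : Ω) • H 1

theorem far {X : Matrix ν ν Ω} {k : ℤ} (hk : 2 < |k|) (hX : X ∈ dg g h k) : X = 0 := by
  obtain ⟨a, b, x, z, y, H⟩ := lbas_pow T hX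
  have h1 : (k - 2) * (k - 1) * k * (k + 1) * (k + 2) ≠ 0 := by
    rcases lt_abs.1 hk with h1 | h1 <;> simp only [ne_eq, mul_eq_zero] <;> omega
  refine (smul_eq_zero_iff_right (Int.cast_ne_zero (α := Ω).2 h1)).1 ?_
  push_cast
  linear_combination (norm := module) H 5 - (5 : Ω) • H 3 + (4 : Ω) • H 1

/-- `[z, e] = 2 a e`, `[z, f] = c f`, and `0 = [z, h] = (2 a + c) h`. -/
theorem zero (hc : Cl g) {z : Matrix ν ν Ω} (hz : z ∈ dg g h 0) : ∃ a : Ω, z - a • h ∈ cent g e f := by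
  obtain ⟨a, ha⟩ := T.two (X := br z e) (by simpa using dg_br hc hz T.e_dg)
  obtain ⟨c, hc'⟩ := T.neg_two (X := br z f) (by simpa using dg_br hc hz T.f_dg)
  have h1 := lbas_jac z e f
  rw [ha, hc', lbas_smul, lbas_smul, lbas_swap f, T.ef, lbas_swap, hz.2, Int.cast_zero] at h1
  have h2 : a + c = 0 :=
    (smul_eq_zero_iff_left T.ne).1 (by linear_combination (norm := module) -h1)
  obtain rfl := eq_neg_of_add_eq_zero_right h2
  have h3 := T.he
  have h4 := T.hf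
  obtain ⟨d, rfl⟩ : ∃ d, a = d * 2 := ⟨a / 2, by field_simp⟩
  refine ⟨d, g.sub_mem hz.1 (g.smul_mem _ T.h_mem), ?_, ?_⟩ <;>
    simp only [br, sub_mul, mul_sub, smul_mul_assoc, mul_smul_comm] at *
  · linear_combination (norm := module) ha - d • h3
  · linear_combination (norm := module) hc' - d • h4

/-- `x = [e, [f, x]]` for `x` of degree one. -/
theorem one_eq_bot (hc : Cl g) (h1 : dg g h (-1) = ⊥) : dg g h 1 = ⊥ := by
  refine eq_bot_iff.2 fun x hx => ?_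
  have h2 : br f x ∈ dg g h (-1) := by simpa using dg_br hc T.f_dg hx
  have h3 := T.far (by norm_num) (dg_br hc T.e_dg hx)
  have h4 := lbas_jac x e f
  rw [h1, Submodule.mem_bot] at h2
  rw [T.ef, lbas_swap, hx.2, lbas_swap x, lbas_swap x, h2, h3] at h4
  simpa [br] using h4

theorem cent_le : cent g e f ≤ dg g h 0 := by
  rintro z ⟨h1, h2, h3⟩
  refine ⟨h1, ?_⟩
  rw [lbas_swap, ← T.ef, lbas_jac]
  simp [br, h2, h3]

theorem f_pow {v : ν → Ω} {k : ℤ} (hv : v ∈ Vk h k) (j : ℕ) : f ^ j *ᵥ v ∈ Vk h (k - 2 * j) := by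
  induction j with
  | zero => simpa using hv
  | succ j ih =>
    have h1 := dg_Vk T.f_dg ih
    rwa [mulVec_mulVec, ← pow_succ', show -2 + (k - 2 * j) = k - 2 * (j + 1 : ℕ) by
      push_cast; ring] at h1

theorem e_f_pow {v : ν → Ω} {k : ℤ} (hv : v ∈ Vk h k) (h0 : e *ᵥ v = 0) (j : ℕ) :
    e *ᵥ (f ^ (j + 1) *ᵥ v) = (((j : Ω) + 1) * ((k : Ω) - j)) • (f ^ j *ᵥ v) := by
  have h1 : e * f = h + f * e := by rw [← T.ef, br, sub_add_cancel]
  have h2 : ∀ w, e *ᵥ (f *ᵥ w) = h *ᵥ w + f *ᵥ (e *ᵥ w) := fun w => by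
    rw [mulVec_mulVec, mulVec_mulVec, h1, add_mulVec]
  induction j with
  | zero => simp [h2, h0, mem_Vk.1 hv]
  | succ j ih =>
    rw [pow_succ' f (j + 1), ← mulVec_mulVec, h2, ih, mem_Vk.1 (T.f_pow hv (j + 1)), mulVec_smul,
      mulVec_mulVec, ← pow_succ', ← add_smul]
    congr 1
    push_cast
    ring

theorem f_pow_ne {v : ν → Ω} {k : ℤ} (hv : v ∈ Vk h k) (h0 : e *ᵥ v = 0) (h1 : v ≠ 0) {j : ℕ}
    (hj : (j : ℤ) ≤ k) : f ^ j *ᵥ v ≠ 0 := by
  induction j with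
  | zero => simpa using h1
  | succ j ih =>
    intro h2
    have h3 := T.e_f_pow hv h0 j
    have h4 : ((j : ℤ) + 1) * (k - j) ≠ 0 := mul_ne_zero (by omega) (by omega)
    rw [h2, mulVec_zero, eq_comm, smul_eq_zero_iff_right (by exact_mod_cast h4)] at h3
    exact ih (by omega) h3

end Ext

end M5
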