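import Pool.Agent.Lib.MP_33b3f9_ag.M4.MxT
import Pool.Agent.Lib.MP_33b3f9_ag.Trans

/-!
Irreducible Lie algebras of symplectic `8 × 8` matrices: definitions.
-/

set_option autoImplicit false

noncomputable section

namespace M5

open Matrix Polynomial Pool.Agent.M4.Mx Pool.Agent.Lib.MP_33b3f9_ag

variable {ν : Type} [Fintype ν] [DecidableEq ν] {Ω : Type} [Field Ω]

/-- The bracket. -/
def br (X Y : Matrix ν ν Ω) : Matrix ν ν Ω := X * Y - Y * X

/-- Closed under brackets. -/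
def Cl (g : Submodule Ω (Matrix ν ν Ω)) : Prop := ∀ X ∈ g, ∀ Y ∈ g, br X Y ∈ g

/-- Irreducible. -/
def Ir (g : Submodule Ω (Matrix ν ν Ω)) : Prop :=
  ∀ W : Submodule Ω (ν → Ω), (∀ X ∈ g, ∀ v ∈ W, X *ᵥ v ∈ W) → W = ⊥ ∨ W = ⊤

/-- No abelian ideals. -/
def SS (g : Submodule Ω (Matrix ν ν Ω)) : Prop :=
  ∀ I : Submodule Ω (Matrix ν ν Ω), I ≤ g → (∀ X ∈ g, ∀ Y ∈ I, br X Y ∈ I) →
    (∀ X ∈ I, ∀ Y ∈ I, br X Y = 0) → I = ⊥

/-- An irreducible subalgebra of the symplectic Lie algebra in dimension eight. -/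
structure Irr (E : Matrix ν ν Ω) (g : Submodule Ω (Matrix ν ν Ω)) : Prop where
  card : Fintype.card ν = 8
  skew : Eᵀ = -E
  det : E.det ≠ 0
  cl : Cl g
  sp : ∀ X ∈ g, Sp E X
  ir : Ir g

/-- The part of degree `k` of `g`. -/
def dg (g : Submodule Ω (Matrix ν ν Ω)) (h : Matrix ν ν Ω) (k : ℤ) :
    Submodule Ω (Matrix ν ν Ω) where
  carrier := {X | X ∈ g ∧ br h X = (k : Ω) • X}
  zero_mem' := ⟨g.zero_mem, by simp [br]⟩
  add_mem' := fun {a b} ha hb => ⟨g.add_mem ha.1 hb.1, by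
    rw [smul_add, ← ha.2, ← hb.2, br, br, br, mul_add, add_mul]; abel⟩
  smul_mem' := fun c a ha => ⟨g.smul_mem c ha.1, by
    rw [smul_comm, ← ha.2, br, br, mul_smul_comm, smul_mul_assoc, smul_sub]⟩

/-- The vectors of degree `k`. -/
def Vk (h : Matrix ν ν Ω) (k : ℤ) : Submodule Ω (ν → Ω) where
  carrier := {v | h *ᵥ v = (k : Ω) • v}
  zero_mem' := by simp
  add_mem' := fun {a b} ha hb => by
    change h *ᵥ (a + b) = _
    rw [mulVec_add, ha, hb, smul_add]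
  smul_mem' := fun c a ha => by
    change h *ᵥ (c • a) = _
    rw [mulVec_smul, ha, smul_comm]

/-- The centraliser of `e` and `f` in `g`. -/
def cent (g : Submodule Ω (Matrix ν ν Ω)) (e f : Matrix ν ν Ω) : Submodule Ω (Matrix ν ν Ω) where
  carrier := {z | z ∈ g ∧ z * e = e * z ∧ z * f = f * z}
  zero_mem' := ⟨g.zero_mem, by simp, by simp⟩
  add_mem' := fun {a b} ha hb => ⟨g.add_mem ha.1 hb.1, by rw [add_mul, mul_add, ha.2.1, hb.2.1],
    by rw [add_mul, mul_add, ha.2.2, hb.2.2]⟩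
  smul_mem' := fun c a ha => ⟨g.smul_mem c ha.1, by rw [smul_mul_assoc, mul_smul_comm, ha.2.1],
    by rw [smul_mul_assoc, mul_smul_comm, ha.2.2]⟩

/-- The triple of a long root. -/
structure Ext (g : Submodule Ω (Matrix ν ν Ω)) (h e f : Matrix ν ν Ω) : Prop where
  h_mem : h ∈ g
  e_mem : e ∈ g
  f_mem : f ∈ g
  he : br h e = (2 : Ω) • e
  hf : br h f = (-2 : Ω) • f
  ef : br e f = h
  ne : h ≠ 0
  dec : ∀ X ∈ g, ∃ (a b : Ω) (x z y : Matrix ν ν Ω), x ∈ dg g h 1 ∧ z ∈ dg g h 0 ∧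
    y ∈ dg g h (-1) ∧ X = a • e + x + z + y + b • f
  nd : ∀ y ∈ dg g h (-1), y ≠ 0 → ∃ y' ∈ dg g h (-1), br y y' = f

/-- `h` is diagonalisable with integral eigenvalues, the largest is `m`. -/
structure Gr (h : Matrix ν ν Ω) (m : ℕ) : Prop where
  top : Vk h m ≠ ⊥
  bd : ∀ k : ℤ, (m : ℤ) < k → Vk h k = ⊥
  span : ⨆ k : ℤ, Vk h k = ⊤

/-- The dimension of the part of degree `k`. -/
def dk (h : Matrix ν ν Ω) (k : ℤ) : ℕ := Module.finrank Ω (Vk h k)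

/-- Matrix units. -/
structure Pr {A : Type} [Ring A] (e f : A) : Prop where
  ee : e * e = 0
  ff : f * f = 0
  ef : e * f + f * e = 1

/-- `g` contains all transvections. -/
def Full (E : Matrix ν ν Ω) (g : Submodule Ω (Matrix ν ν Ω)) : Prop := ∀ u, sqm E u ∈ g

/-- `g` is the direct sum of the span of `e f - f e`, `e`, `f` and the centraliser. -/
def Slot (g : Submodule Ω (Matrix ν ν Ω)) (e f : Matrix ν ν Ω) : Prop :=
  Pr e f ∧ ∀ X ∈ g, ∃ a b c : Ω, X - (a • br e f + b • e + c • f) ∈ cent g e f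

/-- The properties of the seventh symmetric power that are used. -/
def Sym7 (g : Submodule Ω (Matrix ν ν Ω)) : Prop :=
  (∀ x ∈ g, x ≠ 0 → x ^ 7 ≠ 0) ∧ (∃ x ∈ g, ∃ y ∈ g, br x y ≠ 0) ∧
    ∃ x ∈ g, x.charpoly = ∏ j : Fin 8, (X - C (7 - 2 * ((j : ℕ) : Ω)))

end M5
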