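import Pool.Agent.Lib.MP_33b3f9_ag.M5.LDimA

/-!
Dimensions of the graded pieces.
-/

set_option autoImplicit false

noncomputable section

namespace M5

open Matrix Polynomial Pool.Agent.M4.Mx Pool.Agent.Lib.MP_33b3f9_ag

variable {ν : Type} [Fintype ν] [DecidableEq ν] {Ω : Type} [Field Ω] [CharZero Ω]
  {E : Matrix ν ν Ω} {g : Submodule Ω (Matrix ν ν Ω)} {h e f : Matrix ν ν Ω} {m : ℕ}

theorem ldim_inj (T : Ext g h e f) {k : ℤ} (hk : Vk h (k + 2) = ⊥) {j : ℕ} (hj : (j : ℤ) ≤ k)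
    {l : ℤ} (hl : k - 2 * j = l) : ∃ φ : Vk h k →ₗ[Ω] Vk h l, Function.Injective φ ∧
      ∀ v, (φ v : ν → Ω) = f ^ j *ᵥ v := by
  subst hl
  refine ⟨(f ^ j).mulVecLin.restrict fun v hv => T.f_pow hv j,
    (injective_iff_map_eq_zero _).2 fun v hv => ?_, fun _ => rfl⟩
  by_contra h1
  have h0 := dg_Vk T.e_dg v.2
  rw [add_comm, hk, Submodule.mem_bot] at h0
  exact T.f_pow_ne v.2 h0 (fun h2 => h1 (Subtype.ext h2)) hj (congrArg Subtype.val hv)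

/-- `f ^ j` is injective on `Vk h k` (`Ext.f_pow_ne`). -/
theorem dk_le (T : Ext g h e f) {k : ℤ} (hk : Vk h (k + 2) = ⊥) {j : ℕ} (hj : (j : ℤ) ≤ k) :
    dk h k ≤ dk h (k - 2 * j) := by
  obtain ⟨φ, hφ, -⟩ := ldim_inj T hk hj rfl
  exact LinearMap.finrank_le_finrank_of_injective hφ

/-- injective, and the dimensions agree -/
theorem f_pow_surj (H : Irr E g) (T : Ext g h e f) (G : Gr h m) {k : ℕ} (hk : Vk h (k + 2) = ⊥)
    {w : ν → Ω} (hw : w ∈ Vk h (-k)) : ∃ v ∈ Vk h k, w = f ^ k *ᵥ v := by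
  obtain ⟨φ, hφ, h1⟩ := ldim_inj T hk (j := k) le_rfl (l := -k) (by ring)
  obtain ⟨v, hv⟩ := (LinearMap.injective_iff_surjective_of_finrank_eq_finrank
    (dk_neg H T G k).symm).1 hφ ⟨w, hw⟩
  exact ⟨v, v.2, (congrArg Subtype.val hv).symm.trans (h1 v)⟩

theorem q_nd (H : Irr E g) (T : Ext g h e f) (G : Gr h m) {k : ℕ} (hk : Vk h (k + 2) = ⊥)
    {v : ν → Ω} (hv : v ∈ Vk h k) (h0 : v ≠ 0) : ∃ w ∈ Vk h k, v ⬝ᵥ E *ᵥ (f ^ k *ᵥ w) ≠ 0 := by
  obtain ⟨w', hw', h1⟩ := Vk_nd H T G hv h0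
  obtain ⟨w, hw, rfl⟩ := f_pow_surj H T G hk hw'
  exact ⟨w, hw, h1⟩

omit [CharZero Ω] in
theorem q_symm (hE : Eᵀ = -E) (hf : Sp E f) (k : ℕ) (v w : ν → Ω) :
    w ⬝ᵥ E *ᵥ (f ^ k *ᵥ v) = (-1) ^ (k + 1) * (v ⬝ᵥ E *ᵥ (f ^ k *ᵥ w)) := by
  induction k generalizing v w with
  | zero =>
    rw [pow_zero, one_mulVec, one_mulVec, dotProduct_mulVec, ← mulVec_transpose, hE, neg_mulVec,
      neg_dotProduct, dotProduct_comm]
    ring
  | succ k ih =>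
    rw [pow_succ f, ← mulVec_mulVec, ih, sp_form hf, mulVec_mulVec _ f, ← pow_succ', pow_succ f]
    ring

/-- an alternating form on a line vanishes -/
theorem dk_ne_one (H : Irr E g) (T : Ext g h e f) (G : Gr h m) {k : ℕ} (hk : Vk h (k + 2) = ⊥)
    (he : Even k) : dk h k ≠ 1 := by
  intro h1
  obtain ⟨v, hv, h2⟩ := finrank_eq_one_iff'.1 h1
  obtain ⟨w, hw, h3⟩ := q_nd H T G hk v.2 fun h0 => hv (Subtype.ext h0)
  obtain ⟨c, hc⟩ := h2 ⟨w, hw⟩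
  obtain rfl : c • (v : ν → Ω) = w := congrArg Subtype.val hc
  have h4 := q_symm H.skew (H.sp f T.f_mem) k v v
  rw [he.add_one.neg_one_pow, neg_one_mul, CharZero.eq_neg_self_iff] at h4
  rw [mulVec_smul, mulVec_smul, dotProduct_smul, h4, smul_zero] at h3
  exact h3 rfl

/-- `h ≠ 0` -/
theorem Gr.pos (H : Irr E g) (T : Ext g h e f) (G : Gr h m) : 0 < m := by
  refine Nat.pos_of_ne_zero fun hm => T.ne ?_
  subst hm
  have h1 : (⊤ : Submodule Ω (ν → Ω)) ≤ Vk h 0 := by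
    rw [← G.span]
    refine iSup_le fun k => ?_
    rcases lt_trichotomy k 0 with hk | rfl | hk
    · have h2 := dk_neg H T G k
      rw [dk, dk, G.bd (-k) (by simpa using hk), finrank_bot, eq_comm,
        Submodule.finrank_eq_zero] at h2
      exact h2.le.trans bot_le
    · exact le_rfl
    · exact (G.bd k hk).le.trans bot_le
  refine Matrix.toLin'.injective (LinearMap.ext fun v => ?_)
  simpa [mem_Vk] using h1 (Submodule.mem_top : v ∈ ⊤)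

end M5
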