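import Pool.Agent.Lib.MP_33b3f9_ag.M5.LBas

/-!
Dimensions of the graded pieces.
-/

set_option autoImplicit false

noncomputable section

namespace M5

open Matrix Polynomial Pool.Agent.M4.Mx Pool.Agent.Lib.MP_33b3f9_ag

variable {ν : Type} [Fintype ν] [DecidableEq ν] {Ω : Type} [Field Ω] [CharZero Ω]
  {E : Matrix ν ν Ω} {g : Submodule Ω (Matrix ν ν Ω)} {h e f : Matrix ν ν Ω} {m : ℕ}

omit [CharZero Ω] [DecidableEq ν] in
theorem sp_form {X : Matrix ν ν Ω} (hX : Sp E X) (v w : ν → Ω) :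
    (X *ᵥ v) ⬝ᵥ E *ᵥ w = -(v ⬝ᵥ E *ᵥ (X *ᵥ w)) := by
  rw [← vecMul_transpose, ← dotProduct_mulVec, mulVec_mulVec, mulVec_mulVec,
    eq_neg_of_add_eq_zero_left hX, neg_mulVec, dotProduct_neg]

/-- `(j + k) ω (v, w) = 0`. -/
theorem Vk_orth (hh : Sp E h) {v w : ν → Ω} {j k : ℤ} (hv : v ∈ Vk h j) (hw : w ∈ Vk h k)
    (hjk : j + k ≠ 0) : v ⬝ᵥ E *ᵥ w = 0 := by
  have h1 := sp_form hh v w
  rw [mem_Vk.1 hv, mem_Vk.1 hw, mulVec_smul, smul_dotProduct, dotProduct_smul, smul_eq_mul,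
    smul_eq_mul] at h1
  refine (mul_eq_zero.1 ?_).resolve_left (Int.cast_ne_zero (α := Ω).2 hjk)
  push_cast
  linear_combination h1

/-- `Gr.span`, `Vk_orth`, `trans_nondeg`, `trans_skew`. -/
theorem Vk_nd (H : Irr E g) (T : Ext g h e f) (G : Gr h m) {v : ν → Ω} {k : ℤ} (hv : v ∈ Vk h k)
    (h0 : v ≠ 0) : ∃ w ∈ Vk h (-k), v ⬝ᵥ E *ᵥ w ≠ 0 := by
  by_contra hn
  push Not at hn
  obtain ⟨x, hx⟩ := trans_nondeg H.det h0
  refine hx ?_
  rw [trans_skew H.skew, neg_eq_zero]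
  refine Submodule.iSup_induction (motive := fun x => v ⬝ᵥ E *ᵥ x = 0) _
    (G.span.ge Submodule.mem_top) (fun j w hw => ?_) (by simp) fun a b ha hb => ?_
  · by_cases hj : j = -k
    · exact hn w (hj ▸ hw)
    · exact Vk_orth (H.sp h T.h_mem) hv hw (by omega)
  · rw [mulVec_add, dotProduct_add, ha, hb, add_zero]

/-- `Vk h k` embeds in the dual of `Vk h (-k)`. -/
theorem dk_neg (H : Irr E g) (T : Ext g h e f) (G : Gr h m) (k : ℤ) : dk h (-k) = dk h k := by
  have key : ∀ k, dk h k ≤ dk h (-k) := fun k => by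
    refine (LinearMap.finrank_le_finrank_of_injective
      (f := (Matrix.toBilin' E).domRestrict₁₂ (Vk h k) (Vk h (-k))) ?_).trans
      Subspace.dual_finrank_eq.le
    refine (injective_iff_map_eq_zero _).2 fun v hv => Subtype.ext (by_contra fun h0 => ?_)
    obtain ⟨w, hw, h1⟩ := Vk_nd H T G v.2 h0
    exact h1 ((Matrix.toBilin'_apply' E v w).symm.trans (LinearMap.congr_fun hv ⟨w, hw⟩))
  exact le_antisymm ((key _).trans (by rw [neg_neg])) (key k)

theorem ldima_sup (h : Matrix ν ν Ω) (S : Finset ℤ) :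
    Module.finrank Ω (S.sup (Vk h) :) = ∑ k ∈ S, dk h k := by
  induction S using Finset.induction_on with
  | empty => simp
  | insert a S ha ih =>
    have h1 : Disjoint (Vk h a) (S.sup (Vk h)) := (Vk_indep h a).mono_right
      (Finset.sup_le fun k hk => le_iSup₂_of_le k (ne_of_mem_of_not_mem hk ha) le_rfl)
    rw [Finset.sup_insert, Finset.sum_insert ha, ← ih, dk,
      ← Submodule.finrank_sup_add_finrank_inf_eq, h1.eq_bot, finrank_bot, add_zero]

theorem dk_sum_le (H : Irr E g) (h : Matrix ν ν Ω) (S : Finset ℤ) : ∑ k ∈ S, dk h k ≤ 8 := by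
  rw [← ldima_sup, ← H.card, ← Module.finrank_fintype_fun_eq_card Ω]
  exact Submodule.finrank_le _

theorem dk_sum (H : Irr E g) (T : Ext g h e f) (G : Gr h m) :
    ∑ k ∈ Finset.Icc (-(m : ℤ)) m, dk h k = 8 := by
  rw [← ldima_sup, ← H.card, ← Module.finrank_fintype_fun_eq_card Ω, ← finrank_top Ω (ν → Ω)]
  refine congrArg (fun W : Submodule Ω (ν → Ω) => Module.finrank Ω W)
    (top_le_iff.1 (G.span.ge.trans (iSup_le fun k => ?_)))
  by_cases h1 : (m : ℤ) < k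
  · exact (G.bd k h1).le.trans bot_le
  by_cases h2 : (m : ℤ) < -k
  · refine fun v hv => by_contra fun hn => ?_
    obtain ⟨w, hw, h3⟩ := Vk_nd H T G hv fun h0 => hn (h0 ▸ Submodule.zero_mem _)
    rw [G.bd _ h2, Submodule.mem_bot] at hw
    simp [hw] at h3
  exact Finset.le_sup (f := Vk h) (Finset.mem_Icc.2 ⟨by omega, by omega⟩)

end M5
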