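import Mathlib

/-!
The triple of a long root in a semisimple Lie algebra.
-/

set_option autoImplicit false

namespace M5

section
open LieAlgebra LieAlgebra.IsKilling LieModule

variable {Ω L : Type} [Field Ω] [CharZero Ω] [LieRing L] [LieAlgebra Ω L]
  [Module.Finite Ω L] [IsKilling Ω L]

theorem lext_root [Nontrivial L] (H : LieSubalgebra Ω L) [H.IsCartanSubalgebra]
    [IsTriangularizable Ω H L] : Nonempty H.root := by
  by_contra hn
  have h0 : ∀ α : Weight Ω H L, (α : H → Ω) = 0 := fun α => by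
    by_contra h
    exact hn ⟨⟨α, Finset.mem_filter.mpr ⟨Finset.mem_univ _, h⟩⟩⟩
  have h1 : ∀ X : L, X ∈ rootSpace H 0 := fun X => by
    have hX : X ∈ ⨆ χ : Weight Ω H L, genWeightSpace L χ := by
      rw [iSup_genWeightSpace_eq_top']
      trivial
    exact (iSup_le fun χ => by rw [h0 χ] : _ ≤ rootSpace H 0) hX
  have h2 : IsLieAbelian L := ⟨fun x y => by
    have hx : x ∈ H := by simpa using h1 x
    simpa using lie_eq_smul_of_mem_rootSpace (h1 y) ⟨x, hx⟩⟩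
  exact not_subsingleton L ((isLieAbelian_iff_subsingleton Ω L).mp h2)

theorem lext_long [Nontrivial L] (H : LieSubalgebra Ω L) [H.IsCartanSubalgebra]
    [IsTriangularizable Ω H L] : ∃ θ : Weight Ω H L, θ.IsNonZero ∧ ∀ α : Weight Ω H L,
      α = θ ∨ α = -θ ∨ α (coroot θ) = 1 ∨ α (coroot θ) = 0 ∨ α (coroot θ) = -1 := by
  have := lext_root H
  obtain ⟨θ, hθ⟩ := Finite.exists_max fun i => ((rootSystem H).posRootForm ℤ).rootLength i
  refine ⟨θ, H.isNonZero_coe_root θ, fun α => ?_⟩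
  by_cases hα : α.IsZero
  · exact .inr (.inr (.inr (.inl (congrFun hα _))))
  by_cases h1 : α = θ
  · exact .inl h1
  by_cases h2 : α = -θ
  · exact .inr (.inl h2)
  let a : H.root := ⟨α, Finset.mem_filter.mpr ⟨Finset.mem_univ _, hα⟩⟩
  have h3 : (rootSystem H).pairingIn ℤ a θ ∈ ({-1, 0, 1} : Set ℤ) := by
    by_contra hn
    refine (hθ a).not_gt (RootPairing.RootPositiveForm.rootLength_lt_of_pairingIn_notMem _
      (fun h => h1 ?_) (fun h => h2 ?_) hn)
    · ext x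
      exact LinearMap.congr_fun h x
    · ext x
      exact LinearMap.congr_fun h x
  have h4 : α (coroot θ.1) = ((rootSystem H).pairingIn ℤ a θ : Ω) :=
    ((rootSystem H).algebraMap_pairingIn ℤ a θ).symm
  rw [h4]
  simp only [Set.mem_insert_iff, Set.mem_singleton_iff] at h3
  rcases h3 with h | h | h <;> simp [h]

theorem lext_dec [IsAlgClosed Ω] [Nontrivial L] : ∃ h e f : L, IsSl2Triple h e f ∧
    ∀ X : L, ∃ (a b : Ω) (x z y : L), ⁅h, x⁆ = x ∧ ⁅h, z⁆ = 0 ∧ ⁅h, y⁆ = -y ∧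
      X = a • e + x + z + y + b • f := by
  obtain ⟨x₀, hx₀⟩ := exists_isCartanSubalgebra_engel Ω L
  generalize LieSubalgebra.engel Ω x₀ = H at hx₀
  obtain ⟨θ, hθ, hα⟩ := lext_long H
  obtain ⟨h, e, f, t, he, hf⟩ := exists_isSl2Triple_of_weight_isNonZero hθ
  refine ⟨h, e, f, t, fun X => ?_⟩
  have hh := t.h_eq_coroot hθ he hf
  have hX : X ∈ ⨆ χ : Weight Ω H L, genWeightSpace L χ := by
    rw [iSup_genWeightSpace_eq_top']
    trivial
  have one : ∀ (β : Weight Ω H L), β.IsNonZero → ∀ u ∈ rootSpace H β, u ≠ 0 →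
      ∀ v ∈ rootSpace H β, ∃ c : Ω, v = c • u := fun β hβ u hu hu0 v hv => by
    obtain ⟨c, hc⟩ := (finrank_eq_one_iff_of_nonzero' (⟨u, hu⟩ : rootSpace H β)
      (fun h0 => hu0 (congrArg Subtype.val h0))).mp (finrank_rootSpace_eq_one β hβ) ⟨v, hv⟩
    exact ⟨c, (congrArg Subtype.val hc).symm⟩
  induction hX using LieSubmodule.iSup_induction' with
  | mem α X hX =>
    have hl : ⁅h, X⁆ = α (coroot θ) • X := by
      rw [hh]
      exact lie_eq_smul_of_mem_rootSpace hX (coroot θ)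
    rcases hα α with rfl | rfl | h1 | h1 | h1
    · obtain ⟨c, hc⟩ := one _ hθ e he t.e_ne_zero X hX
      exact ⟨c, 0, 0, 0, 0, by simp, by simp, by simp, by simp [hc]⟩
    · obtain ⟨c, hc⟩ := one _ hθ.neg f hf t.f_ne_zero X hX
      exact ⟨0, c, 0, 0, 0, by simp, by simp, by simp, by simp [hc]⟩
    · exact ⟨0, 0, X, 0, 0, by simp [hl, h1], by simp, by simp, by simp⟩
    · exact ⟨0, 0, 0, X, 0, by simp, by simp [hl, h1], by simp, by simp⟩
    · exact ⟨0, 0, 0, 0, X, by simp, by simp, by simp [hl, h1], by simp⟩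
  | zero => exact ⟨0, 0, 0, 0, 0, by simp, by simp, by simp, by simp⟩
  | add X X' _ _ ih ih' =>
    obtain ⟨a, b, x, z, y, h1, h2, h3, rfl⟩ := ih
    obtain ⟨a', b', x', z', y', g1, g2, g3, rfl⟩ := ih'
    refine ⟨a + a', b + b', x + x', z + z', y + y', by simp [h1, g1], by simp [h2, g2],
      by simp [h3, g3, add_comm], ?_⟩
    module

omit [CharZero Ω] [Module.Finite Ω L] [IsKilling Ω L] in
theorem lext_orth {h u v : L} {p q : Ω} (hu : ⁅h, u⁆ = p • u) (hv : ⁅h, v⁆ = q • v)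
    (hpq : p + q ≠ 0) : killingForm Ω L u v = 0 := by
  have := traceForm_apply_lie_apply' Ω L L h u v
  rw [hu, hv, map_smul, map_smul, LinearMap.smul_apply, smul_eq_mul, smul_eq_mul] at this
  exact (mul_eq_zero.mp (by linear_combination this)).resolve_left hpq

omit [CharZero Ω] [Module.Finite Ω L] in
theorem lext_zero {h e f w : L} (t : IsSl2Triple h e f)
    (hd : ∀ X : L, ∃ (a b : Ω) (x z y : L), ⁅h, x⁆ = x ∧ ⁅h, z⁆ = 0 ∧ ⁅h, y⁆ = -y ∧
      X = a • e + x + z + y + b • f) {p : Ω} (hw : ⁅h, w⁆ = p • w) (he : killingForm Ω L w e = 0)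
    (hx : ∀ x, ⁅h, x⁆ = x → killingForm Ω L w x = 0) (h0 : p + 0 ≠ 0) (h1 : p + -1 ≠ 0)
    (h2 : p + -2 ≠ 0) : w = 0 := by
  refine LinearMap.ker_eq_bot'.mp (ker_killingForm_eq_bot Ω L) w (LinearMap.ext fun X => ?_)
  obtain ⟨a, b, x, z, y, g1, g2, g3, rfl⟩ := hd X
  have k1 := lext_orth hw (show ⁅h, z⁆ = (0 : Ω) • z by simp [g2]) h0
  have k2 := lext_orth hw (show ⁅h, y⁆ = (-1 : Ω) • y by simp [g3]) h1
  have k3 := lext_orth hw (show ⁅h, f⁆ = (-2 : Ω) • f by rw [t.lie_lie_smul_f Ω, neg_smul]) h2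
  simp only [map_add, map_smul, he, hx x g1, k1, k2, k3, smul_zero, add_zero, LinearMap.zero_apply]

omit [Module.Finite Ω L] in
theorem lext_last {h e f : L} (t : IsSl2Triple h e f)
    (hd : ∀ X : L, ∃ (a b : Ω) (x z y : L), ⁅h, x⁆ = x ∧ ⁅h, z⁆ = 0 ∧ ⁅h, y⁆ = -y ∧
      X = a • e + x + z + y + b • f) (y : L) (hy : ⁅h, y⁆ = -y) (hy0 : y ≠ 0) :
    ∃ y' : L, ⁅h, y'⁆ = -y' ∧ ⁅y, y'⁆ = f := by
  have he := t.lie_h_e_smul Ω
  have hf : ⁅h, f⁆ = (-2 : Ω) • f := by rw [t.lie_lie_smul_f Ω, neg_smul]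
  have hy' : ⁅h, y⁆ = (-1 : Ω) • y := by simp [hy]
  have two : ∀ w : L, ⁅h, w⁆ = (-2 : Ω) • w → killingForm Ω L w e = 0 → w = 0 := fun w hw h0 =>
    lext_zero t hd hw h0 (fun x hx => lext_orth hw (show _ = (1 : Ω) • x by simp [hx])
      (by norm_num)) (by norm_num) (by norm_num) (by norm_num)
  obtain ⟨x, hx, hk⟩ : ∃ x, ⁅h, x⁆ = x ∧ killingForm Ω L y x ≠ 0 := by
    by_contra hn
    push Not at hn
    exact hy0 (lext_zero t hd hy' (lext_orth hy' he (by norm_num)) hn (by norm_num) (by norm_num)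
      (by norm_num))
  have h3 : ⁅h, ⁅e, x⁆⁆ = (3 : Ω) • ⁅e, x⁆ := by
    rw [leibniz_lie, he, hx, smul_lie]
    module
  have h4 : ⁅e, x⁆ = 0 := lext_zero t hd h3 (lext_orth h3 he (by norm_num))
    (fun x hx => lext_orth h3 (show _ = (1 : Ω) • x by simp [hx]) (by norm_num)) (by norm_num)
    (by norm_num) (by norm_num)
  have h5 : ⁅e, ⁅f, x⁆⁆ = x := by rw [leibniz_lie, t.lie_e_f, hx, h4, lie_zero, add_zero]
  have h6 : ⁅h, ⁅f, x⁆⁆ = -⁅f, x⁆ := by
    rw [leibniz_lie, hf, hx, smul_lie]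
    module
  have h7 : ⁅h, ⁅y, ⁅f, x⁆⁆⁆ = (-2 : Ω) • ⁅y, ⁅f, x⁆⁆ := by
    rw [leibniz_lie, hy, h6, neg_lie, lie_neg]
    module
  have h8 : killingForm Ω L ⁅y, ⁅f, x⁆⁆ e ≠ 0 := by
    rw [traceForm_apply_lie_apply, ← lie_skew, h5, map_neg]
    exact neg_ne_zero.mpr hk
  refine ⟨(killingForm Ω L f e / killingForm Ω L ⁅y, ⁅f, x⁆⁆ e) • ⁅f, x⁆,
    by rw [lie_smul, h6, smul_neg], ?_⟩
  rw [lie_smul, ← sub_eq_zero]
  refine two _ ?_ ?_
  · rw [lie_sub, lie_smul, h7, hf]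
    module
  · rw [map_sub, map_smul, LinearMap.sub_apply, LinearMap.smul_apply, smul_eq_mul,
      div_mul_cancel₀ _ h8, sub_self]

end

/-- `LieAlgebra.HasTrivialRadical.instIsKilling`, `LieAlgebra.exists_isCartanSubalgebra`. There is a
nonzero root (else `L = H` is abelian). Choose the root `θ` with `killingForm (coroot θ) (coroot θ)
= ∑ β, (β (coroot θ)) ^ 2` (a natural number, `apply_coroot_eq_cast`) minimal. For a root `α`:
`α (coroot θ) * N α = θ (coroot α) * N θ`, so `|α θ^| ≤ |θ α^|`; for `α ≠ ± θ` the product is at most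
`3` (`RootPairing.coxeterWeightIn_mem_set_of_isCrystallographic`, `isReduced`), so `|α θ^| ≤ 1`.
(Alternative: `θ` maximises an additive map to a linearly ordered group that is injective on roots.)
`exists_isSl2Triple_of_weight_isNonZero`, `IsSl2Triple.h_eq_coroot`, `finrank_rootSpace_eq_one`,
`lie_eq_smul_of_mem_rootSpace`, `LieModule.iSup_genWeightSpace_eq_top'` give the decomposition.
Last part: let `⁅h, y⁆ = -y`, `y ≠ 0`. For `y'` of degree `-1` the bracket `⁅y, y'⁆` has degree `-2`,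
so it is `c • f` (apply the decomposition). If `c = 0` for all `y'` then `y` is orthogonal for the
Killing form to every `x` of degree `1`, because `x = ⁅e, ⁅f, x⁆⁆`, and to the other degrees. -/
theorem ext_abs {Ω L : Type} [Field Ω] [IsAlgClosed Ω] [CharZero Ω] [LieRing L] [LieAlgebra Ω L]
    [Module.Finite Ω L] [Nontrivial L] [LieAlgebra.HasTrivialRadical Ω L] :
    ∃ h e f : L, IsSl2Triple h e f ∧
      (∀ X : L, ∃ (a b : Ω) (x z y : L), ⁅h, x⁆ = x ∧ ⁅h, z⁆ = 0 ∧ ⁅h, y⁆ = -y ∧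
        X = a • e + x + z + y + b • f) ∧
      ∀ y : L, ⁅h, y⁆ = -y → y ≠ 0 → ∃ y' : L, ⁅h, y'⁆ = -y' ∧ ⁅y, y'⁆ = f := by
  obtain ⟨h, e, f, t, hd⟩ := lext_dec (Ω := Ω) (L := L)
  exact ⟨h, e, f, t, hd, lext_last t hd⟩

end M5
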