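import Pool.Agent.Lib.MP_33b3f9_ag.M5.LDefs

/-!
Three commuting systems of matrix units define a frame.
-/

set_option autoImplicit false

noncomputable section

namespace M5

open Matrix Polynomial Pool.Agent.M4.Mx Pool.Agent.Lib.MP_33b3f9_ag

/-- The four matrix units of a pair. -/
def lframeU {A : Type} [Ring A] (e f : A) : Fin 2 → Fin 2 → A := ![![e * f, e], ![f, f * e]]

lemma lframe_sum {A : Type} [Ring A] {e f : A} (h : Pr e f) :
    lframeU e f 0 0 + lframeU e f 1 1 = 1 := h.ef

lemma lframe_mul {A : Type} [Ring A] {e f : A} (h : Pr e f) (a b c d : Fin 2) :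
    lframeU e f a b * lframeU e f c d = if b = c then lframeU e f a d else 0 := by
  have efe : e * (f * e) = e := by
    have := congrArg (fun x => e * x) h.ef
    simpa [mul_add, ← mul_assoc, h.ee] using this
  have fef : f * (e * f) = f := by
    have := congrArg (fun x => f * x) h.ef
    simpa [mul_add, ← mul_assoc, h.ff] using this
  have ee : ∀ x, e * (e * x) = 0 := fun x => by rw [← mul_assoc, h.ee, zero_mul]
  have ff : ∀ x, f * (f * x) = 0 := fun x => by rw [← mul_assoc, h.ff, zero_mul]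
  fin_cases a <;> fin_cases b <;> fin_cases c <;> fin_cases d <;>
    simp [lframeU, mul_assoc, efe, fef, ee, ff, h.ee, h.ff]

lemma lframe_comm {A : Type} [Ring A] {e f e' f' : A} (h1 : Commute e e') (h2 : Commute e f')
    (h3 : Commute f e') (h4 : Commute f f') (a b c d : Fin 2) :
    Commute (lframeU e f a b) (lframeU e' f' c d) := by
  have k : ∀ x, Commute x e' → Commute x f' → Commute x (lframeU e' f' c d) := by
    intro x p q
    fin_cases c <;> fin_cases d
    exacts [p.mul_right q, p, q, q.mul_right p]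
  have p := k e h1 h2
  have q := k f h3 h4
  fin_cases a <;> fin_cases b
  exacts [p.mul_left q, p, q, q.mul_left p]

lemma lframe_three {A : Type} [Ring A] {a b c a' b' c' : A} (h1 : Commute b a') (h2 : Commute c a')
    (h3 : Commute c b') : a * b * c * (a' * b' * c') = a * a' * (b * b') * (c * c') := by
  simp only [mul_assoc]
  rw [h2.left_comm, h1.left_comm, h3.left_comm]

/-- `e₀ e₁ e₂ ≠ 0` (multiply by the `f i`); let its entry `(a, b)` be `c ≠ 0`. The column `ε` of `P` is
`∏ f i ^ ε i * e₀ e₁ e₂` applied to the basis vector `b`, the row `ε` of `Q` is the row `a` of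
`c⁻¹ • e₀ e₁ e₂ * ∏ (if ε i = 0 then f i else 1)`. With `e f e = e`: `Q * P` is `1` because
`e (f or 1) (1 or f) e` is `e` if exactly one `f` occurs and `0` otherwise. `P * Q = 1` by the
cardinalities (`Matrix.mul_eq_one_comm_of_card_eq` or `submatrix`), and `e i * P = P * tp (update 1 i E₀₁)`,
`f i * P = P * tp (update 1 i E₁₀)` column by column. -/
theorem exists_frame {ν : Type} [Fintype ν] [DecidableEq ν] {Ω : Type} [Field Ω]
    (hc : Fintype.card ν = 8) (e f : Fin 3 → Matrix ν ν Ω) (h1 : ∀ i, Pr (e i) (f i))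
    (h2 : ∀ i j, i ≠ j → e i * e j = e j * e i ∧ e i * f j = f j * e i ∧ f i * f j = f j * f i) :
    ∃ F : Fr ν Ω, ∀ i, F.u i (bas Ω 1) = e i ∧ F.u i (bas Ω 2) = f i := by
  set U : Fin 3 → Fin 2 → Fin 2 → Matrix ν ν Ω := fun i => lframeU (e i) (f i) with hU
  have hcm : ∀ i j, i ≠ j → ∀ a b c d, Commute (U i a b) (U j c d) := fun i j hij =>
    lframe_comm (h2 i j hij).1 (h2 i j hij).2.1 (h2 j i hij.symm).2.1.symm (h2 i j hij).2.2
  have hs : ∀ i, U i 0 0 + U i 1 1 = 1 := fun i => lframe_sum (h1 i)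
  set W : κ → κ → Matrix ν ν Ω :=
    fun x y => U 0 (x 0) (y 0) * U 1 (x 1) (y 1) * U 2 (x 2) (y 2) with hW
  have hm : ∀ x y z w, W x y * W z w = if y = z then W x w else 0 := by
    intro x y z w
    simp only [hW]
    rw [lframe_three (hcm 1 0 (by decide) _ _ _ _) (hcm 2 0 (by decide) _ _ _ _)
      (hcm 2 1 (by decide) _ _ _ _)]
    simp only [hU, lframe_mul (h1 _)]
    by_cases h : y = z
    · simp [h]
    · rw [if_neg h]
      by_cases k0 : y 0 = z 0
      · by_cases k1 : y 1 = z 1
        · by_cases k2 : y 2 = z 2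
          · exact absurd (_root_.funext fun i => by fin_cases i <;> assumption) h
          · simp [k2]
        · simp [k1]
      · simp [k0]
  have hne : W 0 0 ≠ 0 := by
    intro h0
    have hz : ∀ x, W x x = 0 := fun x => by
      have : W x 0 * W 0 0 * W 0 x = W x x := by simp [hm]
      rw [← this, h0, Matrix.mul_zero, Matrix.zero_mul]
    have h1' : (U 0 0 0 + U 0 1 1) * (U 1 0 0 + U 1 1 1) * (U 2 0 0 + U 2 1 1) = 0 := by
      have k : ∀ a b c, U 0 a a * U 1 b b * U 2 c c = 0 := fun a b c => hz ![a, b, c]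
      simp only [add_mul, mul_add, k, add_zero]
    have : Nonempty ν := Fintype.card_pos_iff.mp (by omega)
    simp [hs] at h1'
  obtain ⟨a, b, hab⟩ : ∃ a b, W 0 0 a b ≠ 0 := by
    by_contra hcon
    push Not at hcon
    exact hne (Matrix.ext hcon)
  let P : Matrix ν κ Ω := Matrix.of fun i x => W x 0 i b
  let Q : Matrix κ ν Ω := Matrix.of fun y j => (W 0 0 a b)⁻¹ * W 0 y a j
  have qp : Q * P = 1 := by
    ext y x
    have : (Q * P) y x = (W 0 0 a b)⁻¹ * (W 0 y * W x 0) a b := by
      simp [Q, P, Matrix.mul_apply, Finset.mul_sum, mul_assoc]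
    rw [this, hm, Matrix.one_apply]
    split_ifs
    · exact inv_mul_cancel₀ hab
    · simp
  have pq : P * Q = 1 :=
    (Matrix.mul_eq_one_comm_of_card_eq _ _ Ω (by simp [hc])).mp qp
  let F : Fr ν Ω := ⟨P, Q, pq, qp⟩
  have hWP : ∀ x y, W x y * P = P * single x y (1 : Ω) := by
    intro x y
    ext i z
    have : (W x y * P) i z = (W x y * W z 0) i b := by simp [P, Matrix.mul_apply]
    rw [this, hm]
    by_cases h : y = z
    · simp [P, h, Matrix.mul_apply, Matrix.single_apply]
    · simp [h, Matrix.mul_apply, Matrix.single_apply]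
  have hT : ∀ a0 b0 a1 b1 a2 b2 : Fin 2, U 0 a0 b0 * U 1 a1 b1 * U 2 a2 b2 =
      F.u 0 (single a0 b0 1) * F.u 1 (single a1 b1 1) * F.u 2 (single a2 b2 1) := by
    intro a0 b0 a1 b1 a2 b2
    have k := F.T_eq fun s => single (![a0, a1, a2] s) (![b0, b1, b2] s) (1 : Ω)
    rw [Fr.T, tp_single] at k
    refine Eq.trans ?_ k
    change W ![a0, a1, a2] ![b0, b1, b2] = P * _ * Q
    rw [← hWP, Matrix.mul_assoc, pq, Matrix.mul_one]
  have hs' : ∀ i, F.u i (single 0 0 1) + F.u i (single 1 1 1) = 1 := by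
    intro i
    rw [← map_add, ← map_one (F.u i)]
    congr 1
    ext s t
    fin_cases s <;> fin_cases t <;> simp
  have key : ∀ i s t, F.u i (single s t 1) = U i s t := by
    intro i s t
    fin_cases i
    · have : U 0 s t * (U 1 0 0 + U 1 1 1) * (U 2 0 0 + U 2 1 1) = F.u 0 (single s t 1) *
          (F.u 1 (single 0 0 1) + F.u 1 (single 1 1 1)) *
          (F.u 2 (single 0 0 1) + F.u 2 (single 1 1 1)) := by
        simp only [add_mul, mul_add, hT]
      simpa [hs, hs'] using this.symm
    · have : (U 0 0 0 + U 0 1 1) * U 1 s t * (U 2 0 0 + U 2 1 1) =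
          (F.u 0 (single 0 0 1) + F.u 0 (single 1 1 1)) * F.u 1 (single s t 1) *
          (F.u 2 (single 0 0 1) + F.u 2 (single 1 1 1)) := by
        simp only [add_mul, mul_add, hT]
      simpa [hs, hs'] using this.symm
    · have : (U 0 0 0 + U 0 1 1) * (U 1 0 0 + U 1 1 1) * U 2 s t =
          (F.u 0 (single 0 0 1) + F.u 0 (single 1 1 1)) *
          (F.u 1 (single 0 0 1) + F.u 1 (single 1 1 1)) * F.u 2 (single s t 1) := by
        simp only [add_mul, mul_add, hT]
      simpa [hs, hs'] using this.symm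
  have b1 : bas Ω 1 = single 0 1 1 := by
    ext s t
    fin_cases s <;> fin_cases t <;> simp [bas]
  have b2 : bas Ω 2 = single 1 0 1 := by
    ext s t
    fin_cases s <;> fin_cases t <;> simp [bas]
  exact ⟨F, fun i => ⟨by rw [b1, key]; rfl, by rw [b2, key]; rfl⟩⟩

end M5
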