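import Pool.Agent.Lib.MP_33b3f9_ag.M5.LBas

/-!
The top piece generates.
-/

set_option autoImplicit false

noncomputable section

namespace M5

open Matrix Polynomial Pool.Agent.M4.Mx Pool.Agent.Lib.MP_33b3f9_ag

variable {ν : Type} [Fintype ν] [DecidableEq ν] {Ω : Type} [Field Ω] [CharZero Ω]
  {E : Matrix ν ν Ω} {g : Submodule Ω (Matrix ν ν Ω)} {h e f : Matrix ν ν Ω}

omit [DecidableEq ν] [CharZero Ω] in
theorem lgen_comm (x y : Matrix ν ν Ω) (w : ν → Ω) :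
    x *ᵥ (y *ᵥ w) = y *ᵥ (x *ᵥ w) + br x y *ᵥ w := by
  rw [br, sub_mulVec, mulVec_mulVec, mulVec_mulVec, add_sub_cancel]

/-- Let `S` be the span of the vectors `y₁ ⋯ yₙ v` with `v ∈ L` and `yᵢ` of degree `-1` or `-2`
(lists). By induction on `n`, every `x` of degree in `{-2, …, 2}` maps such a vector into `S`:
`x y w = y (x w) + [x, y] w` (`dg_br`, `Ext.far`), and `S` is stable under the `y`. So `S` is stable
under `g` (`Ext.dec`), `S = ⊤`, and `S ≤ W`. -/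
theorem gen (H : Irr E g) (T : Ext g h e f) (L : Submodule Ω (ν → Ω)) (h0 : L ≠ ⊥)
    (h1 : ∀ z ∈ dg g h 0, ∀ v ∈ L, z *ᵥ v ∈ L) (h2 : ∀ x ∈ dg g h 1, ∀ v ∈ L, x *ᵥ v = 0)
    (h3 : ∀ v ∈ L, e *ᵥ v = 0) (W : Submodule Ω (ν → Ω)) (h4 : L ≤ W)
    (h5 : ∀ y ∈ dg g h (-1), ∀ v ∈ W, y *ᵥ v ∈ W) (h6 : ∀ v ∈ W, f *ᵥ v ∈ W) : W = ⊤ := by
  let P : Submodule Ω (ν → Ω) → Prop := fun U =>
    L ≤ U ∧ ∀ k : ℤ, k < 0 → ∀ y ∈ dg g h k, ∀ v ∈ U, y *ᵥ v ∈ U
  let S : Submodule Ω (ν → Ω) := sInf {U | P U}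
  have hS : ∀ U, P U → S ≤ U := fun U hU => sInf_le hU
  have hL : L ≤ S := le_sInf fun U hU => hU.1
  have hst : ∀ k : ℤ, k < 0 → ∀ y ∈ dg g h k, ∀ v ∈ S, y *ᵥ v ∈ S := fun k hk y hy v hv =>
    Submodule.mem_sInf.2 fun U hU => hU.2 k hk y hy v (hS U hU hv)
  let S' : Submodule Ω (ν → Ω) :=
    { carrier := {w | w ∈ S ∧ ∀ k : ℤ, ∀ x ∈ dg g h k, x *ᵥ w ∈ S}
      zero_mem' := ⟨S.zero_mem, fun k x _ => by rw [mulVec_zero]; exact S.zero_mem⟩
      add_mem' := fun {a b} ha hb => ⟨S.add_mem ha.1 hb.1, fun k x hx => by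
        rw [mulVec_add]; exact S.add_mem (ha.2 k x hx) (hb.2 k x hx)⟩
      smul_mem' := fun c a ha => ⟨S.smul_mem c ha.1, fun k x hx => by
        rw [mulVec_smul]; exact S.smul_mem c (ha.2 k x hx)⟩ }
  have hS' : S ≤ S' := by
    refine hS S' ⟨fun v hv => ⟨hL hv, fun k x hx => ?_⟩, fun j hj y hy v hv =>
      ⟨hst j hj y hy v hv.1, fun k x hx => ?_⟩⟩
    · rcases lt_or_ge k 0 with hk | hk
      · exact hst k hk x hx v (hL hv)
      rcases lt_or_ge 2 k with hk' | hk'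
      · rw [T.far (by rwa [abs_of_nonneg hk]) hx, zero_mulVec]
        exact S.zero_mem
      interval_cases k
      · exact hL (h1 x hx v hv)
      · rw [h2 x hx v hv]
        exact S.zero_mem
      · obtain ⟨a, rfl⟩ := T.two hx
        rw [smul_mulVec, h3 v hv, smul_zero]
        exact S.zero_mem
    · rw [lgen_comm]
      exact S.add_mem (hst j hj y hy _ (hv.2 k x hx)) (hv.2 _ _ (dg_br H.cl hx hy))
  have hW : S ≤ W := by
    refine hS W ⟨h4, fun k hk y hy v hv => ?_⟩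
    rcases lt_or_ge k (-2) with hk' | hk'
    · rw [T.far (by rw [abs_of_neg hk]; omega) hy, zero_mulVec]
      exact W.zero_mem
    interval_cases k
    · obtain ⟨a, rfl⟩ := T.neg_two hy
      rw [smul_mulVec]
      exact W.smul_mem a (h6 v hv)
    · exact h5 y hy v hv
  rcases H.ir S (fun X hX v hv => by
    obtain ⟨a, b, x, z, y, hx, hz, hy, rfl⟩ := T.dec X hX
    have hv' := (hS' hv).2
    simp only [add_mulVec, smul_mulVec]
    exact S.add_mem (S.add_mem (S.add_mem (S.add_mem (S.smul_mem a (hv' _ _ T.e_dg))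
      (hv' _ _ hx)) (hv' _ _ hz)) (hv' _ _ hy)) (S.smul_mem b (hv' _ _ T.f_dg))) with h7 | h7
  · exact absurd (le_bot_iff.1 (h7 ▸ hL)) h0
  · exact top_le_iff.1 (h7 ▸ hW)

omit [CharZero Ω] in
theorem lgen_sup {p : ℤ → Prop} {W : Submodule Ω (ν → Ω)} {y : Matrix ν ν Ω} {j : ℤ}
    (hy : y ∈ dg g h j) (hW : ∀ k, p k → Vk h (j + k) ≤ W) {v : ν → Ω}
    (hv : v ∈ ⨆ k, ⨆ _ : p k, Vk h k) : y *ᵥ v ∈ W := by
  have : (⨆ k, ⨆ _ : p k, Vk h k) ≤ W.comap y.mulVecLin :=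
    iSup₂_le fun k hk w hw => hW k hk (dg_Vk hy hw)
  exact this hv

attribute [local instance 100] LieRing.ofAssociativeRing in
theorem lgen_nat (T : Ext g h e f) {v : ν → Ω} {μ : Ω} (h0 : v ≠ 0) (h1 : h *ᵥ v = μ • v)
    (h2 : e *ᵥ v = 0) : ∃ m : ℕ, μ = m := by
  have hb : ∀ x y : Matrix ν ν Ω, ⁅(toLin' x : Module.End Ω (ν → Ω)), (toLin' y :
      Module.End Ω (ν → Ω))⁆ = toLin' (br x y) := fun x y => by
    rw [br, map_sub, toLin'_mul, toLin'_mul]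
    rfl
  have t : IsSl2Triple (toLin' h : Module.End Ω (ν → Ω)) (toLin' e) (toLin' f) :=
    ⟨fun e => T.ne (toLin'.injective (by rw [e, map_zero])), by rw [hb, T.ef],
      by rw [hb, T.he, map_smul, two_smul, two_smul],
      by rw [hb, T.hf, neg_smul, map_neg, map_smul, two_smul, two_smul]⟩
  have P : t.HasPrimitiveVectorWith v μ := ⟨h0, h1, h2⟩
  exact P.exists_nat

/-- `h` has an eigenvalue and only finitely many, so there is an eigenvalue `μ` such that `μ + 1` and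
`μ + 2` are not eigenvalues. An eigenvector `v` is killed by `e`; the `f ^ j v` are eigenvectors
for distinct eigenvalues, so one vanishes and `μ = m` is a natural number (as in
`IsSl2Triple.HasPrimitiveVectorWith.exists_nat`; use it with the local instance
`LieRing.ofAssociativeRing`, or repeat `e_f_pow`). `gen` with `L = Vk h m`,
`W = ⨆ k ≤ m, Vk h k`; `Vk_indep` for `bd`. -/
theorem exists_gr [IsAlgClosed Ω] (H : Irr E g) (T : Ext g h e f) : ∃ m : ℕ, Gr h m := by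
  have : Nonempty ν := Fintype.card_pos_iff.1 (by rw [H.card]; norm_num)
  obtain ⟨c, hc⟩ := Module.End.exists_eigenvalue (toLin' h : Module.End Ω (ν → Ω))
  have hfin : {k : ℕ | Module.End.HasEigenvalue (toLin' h : Module.End Ω (ν → Ω)) (c + k)}.Finite :=
    (Module.End.finite_hasEigenvalue (toLin' h : Module.End Ω (ν → Ω))).preimage
      (f := fun k : ℕ => c + (k : Ω)) fun a _ b _ e => Nat.cast_injective (add_left_cancel e)
  obtain ⟨n, hn, hmax⟩ := Set.exists_max_image _ id hfin ⟨0, by simpa using hc⟩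
  have hz : ∀ (j : ℕ) (w : ν → Ω), 0 < j → h *ᵥ w = (c + n + j) • w → w = 0 := by
    intro j w hj hw
    by_contra hne
    have := hmax (n + j) (Module.End.hasEigenvalue_of_hasEigenvector
      (x := w) ⟨Module.End.mem_eigenspace_iff.2 (by
        rw [toLin'_apply, hw, Nat.cast_add, add_assoc]), hne⟩)
    simp only [id] at this
    omega
  obtain ⟨v, hv, hv0⟩ := Module.End.HasEigenvalue.exists_hasEigenvector hn
  rw [Module.End.mem_eigenspace_iff, toLin'_apply] at hv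
  obtain ⟨m, hm⟩ := lgen_nat T hv0 hv (hz 2 _ two_pos (by
    rw [lgen_comm, hv, T.he, mulVec_smul, smul_mulVec, ← add_smul, Nat.cast_ofNat]))
  have hbd : ∀ k : ℤ, (m : ℤ) < k → Vk h k = ⊥ := fun k hk =>
    (Submodule.eq_bot_iff _).2 fun w hw => by
      obtain ⟨j, rfl⟩ : ∃ j : ℕ, k = m + j := ⟨(k - m).toNat, by omega⟩
      exact hz j w (by omega) (by rw [mem_Vk.1 hw, hm]; push_cast; rfl)
  have htop : Vk h m ≠ ⊥ := (Submodule.ne_bot_iff _).2
    ⟨v, mem_Vk.2 (by rw [hv, hm, Int.cast_natCast]), hv0⟩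
  refine ⟨m, htop, hbd, ?_⟩
  have hs : ∀ (j : ℤ), ∀ y ∈ dg g h j, ∀ v ∈ ⨆ k : ℤ, Vk h k, y *ᵥ v ∈ ⨆ k : ℤ, Vk h k :=
    fun j y hy v hv => lgen_sup (p := fun _ => True) hy (fun k _ => le_iSup (Vk h) _)
      (by simpa using hv)
  refine gen H T _ htop (fun z hz v hv => ?_) (fun x hx v hv => ?_) (fun v hv => ?_) _
    (le_iSup (Vk h) _) (hs _) (hs _ _ T.f_dg)
  · simpa using dg_Vk hz hv
  · simpa [hbd (1 + m) (by omega)] using dg_Vk hx hv
  · simpa [hbd (2 + m) (by omega)] using dg_Vk T.e_dg hv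

/-- `gen` with `W = L ⊔ ⨆ k < m, Vk h k`, and `Vk_indep`. -/
theorem top_irr (H : Irr E g) (T : Ext g h e f) {m : ℕ} (G : Gr h m) (L : Submodule Ω (ν → Ω))
    (h0 : L ≠ ⊥) (hL : L ≤ Vk h m) (h1 : ∀ z ∈ cent g e f, ∀ v ∈ L, z *ᵥ v ∈ L) : L = Vk h m := by
  set N : Submodule Ω (ν → Ω) := ⨆ k : ℤ, ⨆ _ : k < m, Vk h k with hN
  have hle : ∀ k : ℤ, k < m → Vk h k ≤ L ⊔ N := fun k hk =>
    le_sup_of_le_right (le_iSup₂_of_le (f := fun (k : ℤ) (_ : k < m) => Vk h k) k hk le_rfl)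
  have hs : ∀ j : ℤ, j < 0 → ∀ y ∈ dg g h j, ∀ v ∈ L ⊔ N, y *ᵥ v ∈ L ⊔ N := by
    intro j hj y hy v hv
    obtain ⟨a, ha, b, hb, rfl⟩ := Submodule.mem_sup.1 hv
    rw [mulVec_add]
    exact add_mem (hle _ (by omega) (dg_Vk hy (hL ha)))
      (lgen_sup hy (fun k hk => hle _ (by omega)) hb)
  have ht : L ⊔ N = ⊤ := by
    refine gen H T L h0 (fun z hz v hv => ?_) (fun x hx v hv => ?_) (fun v hv => ?_) _
      le_sup_left (hs _ (by norm_num)) (hs _ (by norm_num) _ T.f_dg)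
    · obtain ⟨a, ha⟩ := T.zero H.cl hz
      have e1 := L.add_mem (h1 _ ha v hv) (L.smul_mem (a * ((m : ℤ) : Ω)) hv)
      rwa [sub_mulVec, smul_mulVec, mem_Vk.1 (hL hv), smul_smul, sub_add_cancel] at e1
    · simpa [G.bd (1 + m) (by omega)] using dg_Vk hx (hL hv)
    · simpa [G.bd (2 + m) (by omega)] using dg_Vk T.e_dg (hL hv)
  have hd : Disjoint (Vk h m) N := (Vk_indep h m).mono_right
    (iSup₂_le fun k hk => le_iSup₂_of_le (f := fun (k : ℤ) (_ : k ≠ m) => Vk h k) k hk.ne le_rfl)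
  calc L = L ⊔ N ⊓ Vk h m := by rw [hd.symm.eq_bot, sup_bot_eq]
    _ = Vk h m := by rw [← sup_inf_assoc_of_le N hL, ht, top_inf_eq]

end M5
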