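import Pool.Agent.Lib.MP_33b3f9_ag.M5.LIsoA

/-!
The top piece is not an orthogonal plane; the case of a transvection.
-/

set_option autoImplicit false

noncomputable section

namespace M5

open Matrix Polynomial Pool.Agent.M4.Mx Pool.Agent.Lib.MP_33b3f9_ag

variable {ν : Type} [Fintype ν] [DecidableEq ν] {Ω : Type} [Field Ω] [CharZero Ω]
  {E : Matrix ν ν Ω} {g : Submodule Ω (Matrix ν ν Ω)} {h e f : Matrix ν ν Ω} {m : ℕ}

/-- `Vk h 1` is spanned by `v`, `Vk h (-1)` by `f v`. `e` kills `Vk h 0` and `Vk h 1`, so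
`e = c • sqm E v` with `c ≠ 0` (compare on the three pieces, `Vk_orth`). The subspace
`W = {X v | X ∈ g}` contains `v = h v`, `f v`; apply `gen` to
`span {v} ⊔ {y v | y of degree -1} ⊔ Vk h (-1) ≤ W`: `W = ⊤`. Then `dotm E v (X v) ∈ g` (`lie_sqm`), so
`dotm E v w ∈ g` for all `w`; the bracket with `X` gives `dotm E (X v) w + dotm E v (X w)`, so all
`dotm E w' w ∈ g` (`dotm_self`). -/
theorem full_of_one (H : Irr E g) (T : Ext g h e f) (G : Gr h 1) (h1 : dk h 1 = 1) : Full E g := by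
  obtain ⟨⟨v, hv⟩, hv0, hvs⟩ := finrank_eq_one_iff'.1 h1
  replace hv0 : v ≠ 0 := fun e => hv0 (Subtype.ext e)
  replace hvs : ∀ w ∈ Vk h 1, ∃ c : Ω, c • v = w := fun w hw =>
    (hvs ⟨w, hw⟩).imp fun c hc => congrArg Subtype.val hc
  have hp : ∀ k : ℤ, 1 < k → ∀ w ∈ Vk h k, w = 0 := fun k hk =>
    (Submodule.eq_bot_iff _).1 (G.bd k (by simpa using hk))
  have hn : ∀ k : ℤ, k < -1 → ∀ w ∈ Vk h k, w = 0 := fun k hk w hw => by
    by_contra h0
    obtain ⟨u, hu, h2⟩ := Vk_nd H T G hw h0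
    rw [hp _ (by omega) u hu, mulVec_zero, dotProduct_zero] at h2
    exact h2 rfl
  have he : ∀ x, e *ᵥ x ∈ Vk h 1 := by
    have : (⨆ k : ℤ, Vk h k) ≤ (Vk h 1).comap e.mulVecLin := iSup_le fun k w hw => by
      change e *ᵥ w ∈ Vk h 1
      have h2 := dg_Vk T.e_dg hw
      rcases lt_trichotomy k (-1) with hk | rfl | hk
      · rw [hn k hk w hw, mulVec_zero]
        exact zero_mem _
      · exact h2
      · rw [hp _ (by omega) _ h2]
        exact zero_mem _
    rw [G.span] at this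
    exact fun x => this trivial
  have hs : sqm E v ∈ g := by
    obtain ⟨y, hy⟩ := trans_nondeg H.det hv0
    obtain ⟨b, hb⟩ := hvs _ (he y)
    have h2 : e = (b / (y ⬝ᵥ E *ᵥ v)) • sqm E v := by
      refine toLin'.injective (LinearMap.ext fun x => ?_)
      obtain ⟨a, ha⟩ := hvs _ (he x)
      have h3 := sp_form (H.sp e T.e_mem) x y
      rw [← ha, ← hb, smul_dotProduct, mulVec_smul, dotProduct_smul, trans_skew H.skew v y,
        smul_eq_mul, smul_eq_mul] at h3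
      rw [toLin'_apply, toLin'_apply, smul_mulVec, sqm_mulVec, smul_smul, ← ha]
      congr 1
      field_simp
      linear_combination -h3
    have h3 : b / (y ⬝ᵥ E *ᵥ v) ≠ 0 := fun h0 => T.e_ne (by rw [h2, h0, zero_smul])
    exact (g.smul_mem_iff h3).1 (h2 ▸ T.e_mem)
  let φ : Matrix ν ν Ω →ₗ[Ω] (ν → Ω) :=
    { toFun := fun X => X *ᵥ v
      map_add' := fun X Y => add_mulVec X Y v
      map_smul' := fun c X => smul_mulVec c X v }
  have hW : Vk h 1 ⊔ (dg g h (-1)).map φ ⊔ Vk h (-1) = ⊤ := by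
    refine gen H T (Vk h 1) (by simpa using G.top) (fun z hz w hw => by simpa using dg_Vk hz hw)
      (fun x hx w hw => hp _ (by norm_num) _ (dg_Vk hx hw))
      (fun w hw => hp _ (by norm_num) _ (dg_Vk T.e_dg hw)) _ (le_sup_of_le_left le_sup_left)
      (fun y hy w hw => ?_) fun w hw => ?_
    all_goals
      obtain ⟨_, hab, c, hc, rfl⟩ := Submodule.mem_sup.1 hw
      obtain ⟨a, ha, _, ⟨x, hx, rfl⟩, rfl⟩ := Submodule.mem_sup.1 hab
      have hb : φ x ∈ Vk h (-1 + 1) := dg_Vk hx hv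
      rw [mulVec_add, mulVec_add]
    · rw [hn _ (by norm_num) _ (dg_Vk hy hc), add_zero]
      refine Submodule.add_mem_sup (Submodule.mem_sup_right ?_) (dg_Vk hy hb)
      obtain ⟨t, rfl⟩ := hvs a ha
      rw [mulVec_smul]
      exact Submodule.smul_mem _ t ⟨y, hy, rfl⟩
    · rw [hn _ (by norm_num) _ (dg_Vk T.f_dg hc), hn _ (by norm_num) _ (dg_Vk T.f_dg hb), add_zero,
        add_zero]
      exact Submodule.mem_sup_right (dg_Vk T.f_dg ha)
  have hg : g.map φ = ⊤ := by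
    rw [eq_top_iff, ← hW]
    refine sup_le (sup_le (fun w hw => ?_) (Submodule.map_mono fun x hx => hx.1)) fun w hw => ?_
    · obtain ⟨t, rfl⟩ := hvs w hw
      refine Submodule.smul_mem _ t ⟨h, T.h_mem, ?_⟩
      change h *ᵥ v = v
      rw [mem_Vk.1 hv, Int.cast_one, one_smul]
    · obtain ⟨u, hu, rfl⟩ := f_pow_surj H T G (k := 1) (G.bd _ (by norm_num)) (by simpa using hw)
      obtain ⟨t, rfl⟩ := hvs u (by simpa using hu)
      rw [pow_one, mulVec_smul]
      exact Submodule.smul_mem _ t ⟨f, T.f_mem, rfl⟩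
  have hX : ∀ w, ∃ X ∈ g, X *ᵥ v = w := fun w => (hg ▸ Submodule.mem_top : w ∈ g.map φ)
  have hd : ∀ w, dotm E v w ∈ g := fun w => by
    obtain ⟨X, hX, rfl⟩ := hX w
    rw [dotm_comm, ← lie_sqm (H.sp X hX)]
    exact H.cl X hX _ hs
  intro u
  obtain ⟨X, hX, hu⟩ := hX u
  have h2 := g.sub_mem (H.cl X hX _ (hd u)) (hd (X *ᵥ u))
  rw [br, lie_dotm (H.sp X hX), add_sub_cancel_right, hu, dotm_self] at h2
  exact (g.smul_mem_iff two_ne_zero).1 h2

omit [CharZero Ω] in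
theorem liso_sum (A B : Matrix ν ν Ω) :
    ∑ i, vecMulVec (A *ᵥ Pi.single i 1) (B *ᵥ Pi.single i 1) = A * Bᵀ := by
  ext a b
  simp [Matrix.sum_apply, vecMulVec_apply, mul_apply]

/-- `S = E Z` is symmetric and `dotm E (E⁻¹ a) (E⁻¹ b) = E⁻¹ (a bᵀ + b aᵀ)`; `sqm_add`. -/
theorem Full.sp (hE : Eᵀ = -E) (hd : E.det ≠ 0) (h : Full E g) {Z : Matrix ν ν Ω} (hZ : Sp E Z) :
    Z ∈ g := by
  have hd' : ∀ u w, dotm E u w ∈ g := fun u w => by
    have h2 := g.sub_mem (h (u + w)) (g.add_mem (h u) (h w))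
    rwa [sqm_add, add_sub_cancel_left] at h2
  have hu : IsUnit E.det := hd.isUnit
  have h2 : ∑ i, dotm E (Z *ᵥ Pi.single i 1) (E⁻¹ *ᵥ Pi.single i 1) = (2 : Ω) • Z := by
    simp only [dotm, mulVec_mulVec, Finset.sum_add_distrib, liso_sum]
    rw [mul_nonsing_inv _ hu, transpose_one, mul_one, transpose_mul, hE, mul_neg,
      ← eq_neg_of_add_eq_zero_right hZ, ← mul_assoc, nonsing_inv_mul _ hu, one_mul, two_smul]
  exact (g.smul_mem_iff two_ne_zero).1 (h2 ▸ g.sum_mem fun i _ => hd' _ _)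

end M5
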