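import Pool.Agent.Lib.MP_33b3f9_ag.M5.LGen
import Pool.Agent.Lib.MP_33b3f9_ag.M5.LDim

/-!
The top piece is not an orthogonal plane; the case of a transvection.
-/

set_option autoImplicit false

noncomputable section

namespace M5

open Matrix Polynomial Pool.Agent.M4.Mx Pool.Agent.Lib.MP_33b3f9_ag

variable {ν : Type} [Fintype ν] [DecidableEq ν] {Ω : Type} [Field Ω] [CharZero Ω]
  {E : Matrix ν ν Ω} {g : Submodule Ω (Matrix ν ν Ω)} {h e f : Matrix ν ν Ω} {m : ℕ}

omit [CharZero Ω] in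
theorem lisoa_iso [IsAlgClosed Ω] {V : Type*} [AddCommGroup V] [Module Ω V]
    (hV : Module.finrank Ω V = 2) (B : V →ₗ[Ω] V →ₗ[Ω] Ω) : ∃ v, v ≠ 0 ∧ B v v = 0 := by
  have : Module.Finite Ω V := Module.finite_of_finrank_pos (by omega)
  let b := Module.finBasisOfFinrankEq Ω V hV
  by_cases h0 : B (b 0) (b 0) = 0
  · exact ⟨b 0, b.ne_zero 0, h0⟩
  obtain ⟨t, ht⟩ := IsAlgClosed.exists_root
    (C (B (b 0) (b 0)) * X ^ 2 + C (B (b 0) (b 1) + B (b 1) (b 0)) * X + C (B (b 1) (b 1)))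
    (by rw [degree_quadratic h0]; decide)
  refine ⟨t • b 0 + b 1, fun h1 => ?_, ?_⟩
  · have h2 := congrArg (fun x => b.repr x 1) h1
    simp at h2
  · simp only [IsRoot, eval_add, eval_mul, eval_C, eval_pow, eval_X] at ht
    simp only [map_add, map_smul, LinearMap.add_apply, LinearMap.smul_apply, smul_eq_mul]
    linear_combination ht

omit [CharZero Ω] in
theorem lisoa_ker {V : Type*} [AddCommGroup V] [Module Ω V] (hV : Module.finrank Ω V = 2)
    {φ : V →ₗ[Ω] Ω} (hφ : φ ≠ 0) {v u : V} (h0 : v ≠ 0) (hv : φ v = 0) (hu : φ u = 0) :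
    ∃ c : Ω, c • v = u := by
  have : Module.Finite Ω V := Module.finite_of_finrank_pos (by omega)
  have h1 := Module.Dual.finrank_ker_add_one_of_ne_zero hφ
  have h2 : Submodule.span Ω {v} = LinearMap.ker φ :=
    Submodule.eq_of_le_of_finrank_eq ((Submodule.span_singleton_le_iff_mem _ _).2 hv)
      (by rw [finrank_span_singleton h0]; omega)
  exact Submodule.mem_span_singleton.1 (h2 ▸ hu)

/-- `q (v, w) = ω (v, f ^ m w)` is symmetric and nondegenerate on the plane `Vk h m`; it has an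
isotropic vector `v ≠ 0`. For `z` in the centraliser `q (z v, v) + q (v, z v) = 0`, so `z v` is
orthogonal to `v`, hence a multiple of `v`. This contradicts `top_irr`. -/
theorem dk_ne_two [IsAlgClosed Ω] (H : Irr E g) (T : Ext g h e f) (G : Gr h m) (ho : Odd m) :
    dk h m ≠ 2 := by
  intro h2
  let B : Vk h m →ₗ[Ω] Vk h m →ₗ[Ω] Ω :=
    (Matrix.toLinearMap₂' Ω (E * f ^ m)).compl₁₂ (Vk h m).subtype (Vk h m).subtype
  have hB : ∀ v w : Vk h m, B v w = v.1 ⬝ᵥ E *ᵥ (f ^ m *ᵥ w.1) := fun v w => by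
    rw [mulVec_mulVec]
    exact Matrix.toLinearMap₂'_apply' _ _ _
  obtain ⟨v, h0, hv⟩ := lisoa_iso h2 B
  have h1 : v.1 ≠ 0 := fun h1 => h0 (Subtype.ext h1)
  obtain ⟨w, hw, hq⟩ := q_nd H T G (G.bd _ (by omega)) v.2 h1
  have hφ : B v ≠ 0 := fun h3 => hq (by rw [← hB v ⟨w, hw⟩, h3, LinearMap.zero_apply])
  have hL := top_irr H T G (Submodule.span Ω {v.1}) (by simpa using h1)
    ((Submodule.span_singleton_le_iff_mem _ _).2 v.2) (by
      intro z hz u hu
      obtain ⟨a, rfl⟩ := Submodule.mem_span_singleton.1 hu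
      rw [mulVec_smul]
      refine Submodule.smul_mem _ _ ?_
      have h3 := dg_Vk (T.cent_le hz) v.2
      rw [zero_add] at h3
      have h4 : f ^ m * z = z * f ^ m := ((show Commute z f from hz.2.2).pow_right m).symm
      have h5 := sp_form (H.sp z hz.1) v.1 (f ^ m *ᵥ v.1)
      rw [q_symm H.skew (H.sp f T.f_mem), ho.add_one.neg_one_pow, one_mul,
        mulVec_mulVec _ z, ← h4, ← mulVec_mulVec _ (f ^ m)] at h5
      obtain ⟨c, hc⟩ := lisoa_ker h2 hφ (u := ⟨_, h3⟩) h0 hv (by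
        rw [hB]
        exact CharZero.eq_neg_self_iff.1 h5)
      exact Submodule.mem_span_singleton.2 ⟨c, congrArg Subtype.val hc⟩)
  rw [dk, ← hL, finrank_span_singleton h1] at h2
  omega

end M5
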