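import Pool.Agent.Lib.MP_33b3f9_ag.M5.LDefs
import Pool.Agent.Lib.MP_33b3f9_ag.M5.LExt

/-!
From spaces of matrices to Lie algebras.
-/

set_option autoImplicit false

noncomputable section

namespace M5

open Matrix Polynomial Pool.Agent.M4.Mx Pool.Agent.Lib.MP_33b3f9_ag

variable {ν : Type} [Fintype ν] [DecidableEq ν] {Ω : Type} [Field Ω] [IsAlgClosed Ω] [CharZero Ω]
  {E : Matrix ν ν Ω} {g : Submodule Ω (Matrix ν ν Ω)}

omit [IsAlgClosed Ω] in
/-- `Xᵀ = - E X E⁻¹`. -/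
theorem Irr.trace (H : Irr E g) {X : Matrix ν ν Ω} (hX : X ∈ g) : X.trace = 0 := by
  have hu : IsUnit E.det := H.det.isUnit
  have h1 : Xᵀ = -(E * X * E⁻¹) := by
    rw [← Matrix.neg_mul, ← eq_neg_of_add_eq_zero_left (H.sp X hX),
      Matrix.mul_nonsing_inv_cancel_right _ _ hu]
  have h2 := congrArg Matrix.trace h1
  rw [trace_transpose, trace_neg, trace_mul_cycle, Matrix.nonsing_inv_mul _ hu, Matrix.one_mul]
    at h2
  exact self_eq_neg.1 h2

attribute [local instance 100] LieRing.ofAssociativeRing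

/-- The subalgebra. -/
def lmatL (g : Submodule Ω (Matrix ν ν Ω)) (hc : Cl g) : LieSubalgebra Ω (Matrix ν ν Ω) :=
  { g with lie_mem' := fun hx hy => hc _ hx _ hy }

omit [IsAlgClosed Ω] [CharZero Ω] in
theorem lmat_ss (hc : Cl g) : SS g ↔ LieAlgebra.HasTrivialRadical Ω (lmatL g hc) := by
  rw [LieAlgebra.hasTrivialRadical_iff_no_abelian_ideals]
  constructor
  · intro hs I hI
    have h := hs (I.toSubmodule.map (lmatL g hc).toSubmodule.subtype)
      (by rintro _ ⟨x, -, rfl⟩; exact x.2)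
      (by
        rintro X hX _ ⟨y, hy, rfl⟩
        exact ⟨⁅(⟨X, hX⟩ : lmatL g hc), y⁆, I.lie_mem hy, rfl⟩)
      (by
        rintro _ ⟨x, hx, rfl⟩ _ ⟨y, hy, rfl⟩
        exact congrArg (fun z : I => ((z : lmatL g hc) : Matrix ν ν Ω))
          (hI.trivial (⟨x, hx⟩ : I) (⟨y, hy⟩ : I)))
    rw [LieSubmodule.eq_bot_iff]
    intro x hx
    exact Subtype.ext ((Submodule.eq_bot_iff _).1 h _ ⟨x, hx, rfl⟩)
  · intro hs I hI h1 h2
    let J : LieIdeal Ω (lmatL g hc) :=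
      { I.comap (lmatL g hc).toSubmodule.subtype with
        lie_mem := fun {x y} hy => h1 _ x.2 _ hy }
    have hJ := hs J ⟨fun x y => Subtype.ext (Subtype.ext (h2 _ x.2 _ y.2))⟩
    rw [LieSubmodule.eq_bot_iff] at hJ
    exact (Submodule.eq_bot_iff _).2 fun x hx => congrArg Subtype.val (hJ ⟨x, hI hx⟩ hx)

/-- `g` as a `LieSubalgebra` (local instance `LieRing.ofAssociativeRing`), acting on `ν → Ω`;
`LieAlgebra.hasTrivialRadical_of_isIrreducible_of_isFaithful`,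
`LieAlgebra.HasTrivialRadical.eq_bot_of_isSolvable`. -/
theorem Irr.ss (H : Irr E g) : SS g := by
  have : Nonempty ν := Fintype.card_pos_iff.1 (by rw [H.card]; norm_num)
  have : LieModule.IsIrreducible Ω (lmatL g H.cl) (ν → Ω) := .mk fun N hN => by
    rcases H.ir N.toSubmodule (fun X hX v hv => N.lie_mem (x := ⟨X, hX⟩) hv) with h | h
    · exact absurd (LieSubmodule.toSubmodule_injective h) hN
    · exact LieSubmodule.toSubmodule_injective h
  refine (lmat_ss H.cl).2 (LieAlgebra.hasTrivialRadical_of_isIrreducible_of_isFaithful Ω _ (ν → Ω)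
    fun x => ?_)
  exact (Matrix.trace_toLin'_eq x.1).trans (H.trace x.2)

/-- `LieAlgebra.hasTrivialRadical_iff_no_abelian_ideals` and `ext_abs`. -/
theorem exists_ext (hc : Cl g) (hs : SS g) (h0 : g ≠ ⊥) : ∃ h e f, Ext g h e f := by
  have := (lmat_ss hc).1 hs
  have : Nontrivial (lmatL g hc) := Submodule.nontrivial_iff_ne_bot.2 h0
  obtain ⟨h, e, f, ht, hd, hn⟩ := ext_abs (Ω := Ω) (L := lmatL g hc)
  have m1 : ∀ x : lmatL g hc, ⁅h, x⁆ = x → x.1 ∈ dg g h.1 1 := fun x hx =>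
    ⟨x.2, (congrArg Subtype.val hx).trans (by simp)⟩
  have m0 : ∀ x : lmatL g hc, ⁅h, x⁆ = 0 → x.1 ∈ dg g h.1 0 := fun x hx =>
    ⟨x.2, (congrArg Subtype.val hx).trans (by simp)⟩
  have m2 : ∀ x : lmatL g hc, ⁅h, x⁆ = -x → x.1 ∈ dg g h.1 (-1) := fun x hx =>
    ⟨x.2, (congrArg Subtype.val hx).trans (by simp)⟩
  refine ⟨h.1, e.1, f.1, h.2, e.2, f.2, (congrArg Subtype.val ht.lie_h_e_nsmul).trans ?_,
    (congrArg Subtype.val ht.lie_h_f_nsmul).trans ?_, congrArg Subtype.val ht.lie_e_f,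
    fun e0 => ht.h_ne_zero (Subtype.ext e0), fun X hX => ?_, fun y hy y0 => ?_⟩
  · rw [two_smul, two_smul]
    rfl
  · rw [neg_smul, two_smul, two_smul]
    rfl
  · obtain ⟨a, b, x, z, y, hx, hz, hy, hs⟩ := hd ⟨X, hX⟩
    exact ⟨a, b, x, z, y, m1 x hx, m0 z hz, m2 y hy, congrArg Subtype.val hs⟩
  · obtain ⟨y', h1, h2⟩ := hn ⟨y, hy.1⟩ (Subtype.ext (hy.2.trans (by simp)))
      fun e0 => y0 (congrArg Subtype.val e0)
    exact ⟨y', m2 y' h1, congrArg Subtype.val h2⟩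

omit [IsAlgClosed Ω] in
/-- If `g = ⊥` every line is stable, and the dimension is `8`. -/
theorem Irr.ne_bot (H : Irr E g) : g ≠ ⊥ := by
  rintro rfl
  obtain ⟨i⟩ : Nonempty ν := Fintype.card_pos_iff.1 (by rw [H.card]; norm_num)
  have h0 : (Pi.single i 1 : ν → Ω) ≠ 0 := fun e => by simpa using congrFun e i
  rcases H.ir (Ω ∙ (Pi.single i 1 : ν → Ω)) (fun X hX v _ => by
    rw [(Submodule.mem_bot Ω).1 hX, zero_mulVec]
    exact Submodule.zero_mem _) with h | h
  · exact h0 (Submodule.span_singleton_eq_bot.1 h)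
  · have h1 := finrank_span_singleton (K := Ω) h0
    rw [h, finrank_top, Module.finrank_fintype_fun_eq_card, H.card] at h1
    omega

end M5
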