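import Pool.Agent.Lib.MP_33b3f9_ag.M5.LTwoA

/-!
Two cases that do not occur.
-/

set_option autoImplicit false

noncomputable section

namespace M5

open Matrix Polynomial Pool.Agent.M4.Mx Pool.Agent.Lib.MP_33b3f9_ag

variable {ν : Type} [Fintype ν] [DecidableEq ν] {Ω : Type} [Field Ω] [CharZero Ω]
  {E : Matrix ν ν Ω} {g : Submodule Ω (Matrix ν ν Ω)} {h e f : Matrix ν ν Ω} {m : ℕ}

omit [DecidableEq ν] [CharZero Ω] in
theorem ltwo_up (G : Gr h 1) {k : ℤ} (hk : 1 < k) {v : ν → Ω} (hv : v ∈ Vk h k) : v = 0 := by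
  rwa [G.bd k (by exact_mod_cast hk), Submodule.mem_bot] at hv

theorem ltwo_dn (H : Irr E g) (T : Ext g h e f) (G : Gr h 1) {k : ℤ} (hk : k < -1) {v : ν → Ω}
    (hv : v ∈ Vk h k) : v = 0 := by
  by_contra h0
  obtain ⟨w, hw, hne⟩ := Vk_nd H T G hv h0
  rw [ltwo_up G (by omega) hw, mulVec_zero, dotProduct_zero] at hne
  exact hne rfl

theorem ltwo_ef (T : Ext g h e f) (G : Gr h 1) {v : ν → Ω} (hv : v ∈ Vk h 1) :
    e *ᵥ (f *ᵥ v) = v := by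
  have h1 : e *ᵥ v = 0 := ltwo_up G (by norm_num) (dg_Vk T.e_dg hv)
  have h2 := congrArg (fun X : Matrix ν ν Ω => X *ᵥ v) T.ef
  simp only [br, sub_mulVec, ← mulVec_mulVec, h1, mulVec_zero, sub_zero] at h2
  rw [h2, mem_Vk.1 hv, Int.cast_one, one_smul]

theorem ltwo_fe (H : Irr E g) (T : Ext g h e f) (G : Gr h 1) {v : ν → Ω} (hv : v ∈ Vk h (-1)) :
    f *ᵥ (e *ᵥ v) = v := by
  have h1 : f *ᵥ v = 0 := ltwo_dn H T G (by norm_num) (dg_Vk T.f_dg hv)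
  have h2 := congrArg (fun X : Matrix ν ν Ω => X *ᵥ v) T.ef
  simp only [br, sub_mulVec, ← mulVec_mulVec, h1, mulVec_zero, zero_sub] at h2
  rw [mem_Vk.1 hv, Int.cast_neg, Int.cast_one, neg_smul, one_smul] at h2
  exact neg_injective h2

theorem ltwo_four (H : Irr E g) (T : Ext g h e f) (G : Gr h 1) {y : Matrix ν ν Ω}
    (hy : y ∈ dg g h (-1)) {v : ν → Ω} (hv : v ∈ Vk h 1) :
    br y (br y (br y (br y e))) *ᵥ v = (6 : Ω) • y *ᵥ (y *ᵥ (e *ᵥ (y *ᵥ (y *ᵥ v)))) := by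
  have h1 : e *ᵥ v = 0 := ltwo_up G (by norm_num) (dg_Vk T.e_dg hv)
  have h2 : e *ᵥ (y *ᵥ v) = 0 := ltwo_up G (by norm_num) (dg_Vk T.e_dg (dg_Vk hy hv))
  have h3 : y *ᵥ (y *ᵥ (y *ᵥ v)) = 0 :=
    ltwo_dn H T G (by norm_num) (dg_Vk hy (dg_Vk hy (dg_Vk hy hv)))
  simp only [br, sub_mulVec, ← mulVec_mulVec, h1, h2, h3, mulVec_zero, mulVec_sub, zero_sub,
    sub_zero, mulVec_neg]
  module

theorem ltwo_zero (H : Irr E g) (T : Ext g h e f) (G : Gr h 1) (h2 : dk h 1 = 3) (h3 : dk h 0 = 2)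
    {y : Matrix ν ν Ω} (hy : y ∈ dg g h (-1)) {v : ν → Ω} (hv : v ∈ Vk h 1) :
    y *ᵥ (y *ᵥ (e *ᵥ (y *ᵥ (y *ᵥ v)))) = 0 := by
  obtain ⟨Q, hQ⟩ := T.neg_two (X := br y (br y (br y (br y e))))
    (dg_br H.cl hy (dg_br H.cl hy (dg_br H.cl hy (dg_br H.cl hy T.e_dg))))
  let φ : Vk h 1 →ₗ[Ω] Vk h 0 := y.mulVecLin.restrict fun u hu => dg_Vk hy hu
  have hk : LinearMap.ker φ ≠ ⊥ := LinearMap.ker_ne_bot_of_finrank_lt (by
    change dk h 0 < dk h 1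
    omega)
  obtain ⟨u, hu, hu0⟩ := (Submodule.ne_bot_iff _).1 hk
  have hyu : y *ᵥ u.1 = 0 := congrArg Subtype.val (LinearMap.mem_ker.1 hu)
  have e1 := ltwo_four H T G hy u.2
  rw [hQ, hyu, smul_mulVec] at e1
  simp only [mulVec_zero, smul_zero] at e1
  have hQ0 : Q = 0 := by
    refine (smul_eq_zero.1 e1).resolve_right fun h0 => hu0 (Subtype.ext ?_)
    have e2 := ltwo_ef T G u.2
    rw [h0, mulVec_zero] at e2
    exact e2.symm
  have e3 := ltwo_four H T G hy hv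
  rw [hQ, hQ0, zero_smul, zero_mulVec] at e3
  exact (smul_eq_zero.1 e3.symm).resolve_left (by norm_num)

theorem ltwo_iso (H : Irr E g) (T : Ext g h e f) (G : Gr h 1) (h2 : dk h 1 = 3) (h3 : dk h 0 = 2)
    {y : Matrix ν ν Ω} (hy : y ∈ dg g h (-1)) {v w : ν → Ω} (hv : v ∈ Vk h 1) (hw : w ∈ Vk h 1) :
    (y *ᵥ v) ⬝ᵥ E *ᵥ (y *ᵥ w) = 0 := by
  by_contra hne
  have sk := trans_skew H.skew
  have al := trans_alt H.skew
  have sy := sp_form (H.sp y hy.1)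
  have m1 : ∀ {u}, u ∈ Vk h 1 → y *ᵥ (y *ᵥ u) ∈ Vk h (-1) := fun hu => dg_Vk hy (dg_Vk hy hu)
  have m2 : ∀ {u}, u ∈ Vk h 1 → e *ᵥ (y *ᵥ (y *ᵥ u)) ∈ Vk h 1 := fun hu => dg_Vk T.e_dg (m1 hu)
  have p1 : ∀ a b : ν → Ω, a ⬝ᵥ E *ᵥ (y *ᵥ (y *ᵥ b)) = -((y *ᵥ a) ⬝ᵥ E *ᵥ (y *ᵥ b)) := fun a b => by
    rw [sy a, neg_neg]
  have p2 : ∀ {a}, a ∈ Vk h 1 → ∀ b : ν → Ω,
      (e *ᵥ (y *ᵥ (y *ᵥ a))) ⬝ᵥ E *ᵥ (y *ᵥ (y *ᵥ b)) = 0 := fun ha b => by
    rw [p1, neg_eq_zero, ← neg_eq_zero, ← sy, ltwo_zero H T G h2 h3 hy ha, zero_dotProduct]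
  have li : LinearIndependent Ω ![(⟨v, hv⟩ : Vk h 1), ⟨w, hw⟩, ⟨_, m2 hv⟩, ⟨_, m2 hw⟩] := by
    rw [Fintype.linearIndependent_iff]
    intro c hc
    have hc' : c 0 • v + c 1 • w + c 2 • e *ᵥ (y *ᵥ (y *ᵥ v)) + c 3 • e *ᵥ (y *ᵥ (y *ᵥ w)) = 0 := by
      have := congrArg Subtype.val hc
      rw [Fin.sum_univ_four] at this
      exact this
    have q1 := congrArg (fun a => a ⬝ᵥ E *ᵥ (y *ᵥ (y *ᵥ v))) hc'
    have q2 := congrArg (fun a => a ⬝ᵥ E *ᵥ (y *ᵥ (y *ᵥ w))) hc'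
    simp only [add_dotProduct, smul_dotProduct, p2 hv, p2 hw, zero_dotProduct, smul_eq_mul] at q1 q2
    rw [p1 v, p1 w, al] at q1 q2
    rw [sk (y *ᵥ w)] at q1
    have c1 : c 1 = 0 := by
      refine mul_right_cancel₀ hne ?_
      linear_combination q1
    have c0 : c 0 = 0 := by
      refine mul_right_cancel₀ hne ?_
      linear_combination -q2
    rw [c0, c1, zero_smul, zero_smul, zero_add, zero_add] at hc'
    have q3 := congrArg (fun a => f *ᵥ a) hc'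
    simp only [mulVec_add, mulVec_smul, ltwo_fe H T G (m1 hv), ltwo_fe H T G (m1 hw),
      mulVec_zero] at q3
    have q4 := congrArg (fun a => v ⬝ᵥ E *ᵥ a) q3
    have q5 := congrArg (fun a => w ⬝ᵥ E *ᵥ a) q3
    simp only [mulVec_add, mulVec_smul, dotProduct_add, dotProduct_smul, mulVec_zero,
      dotProduct_zero, smul_eq_mul, p1, al] at q4 q5
    rw [sk (y *ᵥ w)] at q5
    have c3 : c 3 = 0 := by
      refine mul_right_cancel₀ hne ?_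
      linear_combination -q4
    have c2 : c 2 = 0 := by
      refine mul_right_cancel₀ hne ?_
      linear_combination q5
    intro i
    fin_cases i
    exacts [c0, c1, c2, c3]
  have hle := li.fintype_card_le_finrank
  rw [Fintype.card_fin] at hle
  change 4 ≤ dk h 1 at hle
  omega

theorem ltwo_rk (H : Irr E g) (T : Ext g h e f) (G : Gr h 1) (h2 : dk h 1 = 3) (h3 : dk h 0 = 2)
    {y : Matrix ν ν Ω} (hy : y ∈ dg g h (-1)) :
    Module.finrank Ω ((Vk h 1).map y.mulVecLin) ≤ 1 := by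
  by_contra hlt
  have hle : (Vk h 1).map y.mulVecLin ≤ Vk h 0 := by
    rintro _ ⟨u, hu, rfl⟩
    exact dg_Vk hy hu
  have heq : (Vk h 1).map y.mulVecLin = Vk h 0 :=
    Submodule.eq_of_le_of_finrank_le hle (by
      change dk h 0 ≤ _
      omega)
  have hne : Vk h 0 ≠ ⊥ := fun h0 => by
    rw [dk, h0, finrank_bot] at h3
    omega
  obtain ⟨a, ha, ha0⟩ := (Submodule.ne_bot_iff _).1 hne
  obtain ⟨b, hb, hab⟩ := Vk_nd H T G ha ha0
  rw [neg_zero] at hb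
  rw [← heq] at ha hb
  obtain ⟨v, hv, rfl⟩ := ha
  obtain ⟨w, hw, rfl⟩ := hb
  exact hab (ltwo_iso H T G h2 h3 hy hv hw)

/-- Let `y` have degree `-1`. There are only the degrees `1, 0, -1`, so `y ^ 3 = 0` and
`(ad y) ^ 4 e = 6 y² e y²` has degree `-2`: it is `Q • f`. On `Vk h 1` put `A = e y²`; `e f = 1` there,
so `6 A² = Q`. As `3 > 2` some `v₀ ≠ 0` has `y v₀ = 0`, so `Q = 0`, `A² = 0`, rank `A ≤ 1`. Since
`f e = 1` on `Vk h (-1)`, `ω (w, f A v) = ω (w, y² v) = - ω (y w, y v)` is alternating of rank at most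
one, so zero (`q_nd`). So `y (Vk h 1)` is isotropic in the plane `Vk h 0` (`Vk_nd`), of dimension at
most one. For `[y₁, y₂] = f` the kernels of `y₁`, `y₂` in `Vk h 1` meet, against `ker_two`. -/
theorem not_three (H : Irr E g) (T : Ext g h e f) (G : Gr h 1) (h1 : dg g h (-1) ≠ ⊥)
    (h2 : dk h 1 = 3) (h3 : dk h 0 = 2) : False := by
  obtain ⟨y, hy, hy0⟩ := (Submodule.ne_bot_iff _).1 h1
  obtain ⟨y', hy', hb⟩ := T.nd y hy hy0
  let φ := (y.mulVecLin.submoduleMap (Vk h 1)).prod (y'.mulVecLin.submoduleMap (Vk h 1))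
  have hk : LinearMap.ker φ ≠ ⊥ := LinearMap.ker_ne_bot_of_finrank_lt (by
    have a1 := ltwo_rk H T G h2 h3 hy
    have a2 := ltwo_rk H T G h2 h3 hy'
    rw [Module.finrank_prod]
    change _ < dk h 1
    omega)
  obtain ⟨u, hu, hu0⟩ := (Submodule.ne_bot_iff _).1 hk
  have e0 := LinearMap.mem_ker.1 hu
  have e1 : y *ᵥ u.1 = 0 := congrArg (fun z => z.1.1) e0
  have e2 : y' *ᵥ u.1 = 0 := congrArg (fun z => z.2.1) e0
  exact hu0 (Subtype.ext (ker_two H T G hb u.2 e1 e2))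

end M5
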