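import Pool.Agent.Lib.MP_33b3f9_ag.M5.LDim

/-!
Two cases that do not occur.
-/

set_option autoImplicit false

noncomputable section

namespace M5

open Matrix Polynomial Pool.Agent.M4.Mx Pool.Agent.Lib.MP_33b3f9_ag

variable {ν : Type} [Fintype ν] [DecidableEq ν] {Ω : Type} [Field Ω] [CharZero Ω]
  {E : Matrix ν ν Ω} {g : Submodule Ω (Matrix ν ν Ω)} {h e f : Matrix ν ν Ω} {m : ℕ}

theorem ltwoa_f (T : Ext g h e f) (G : Gr h m) {v : ν → Ω} {k : ℤ} (hv : v ∈ Vk h k)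
    (hk : (m : ℤ) < 2 + k) (h1 : 1 ≤ k) (h0 : f *ᵥ v = 0) : v = 0 := by
  by_contra hne
  have he := dg_Vk T.e_dg hv
  rw [G.bd _ hk, Submodule.mem_bot] at he
  exact T.f_pow_ne hv he hne (j := 1) (by exact_mod_cast h1) (by rw [pow_one, h0])

omit [DecidableEq ν] [CharZero Ω] in
theorem ltwoa_br (y y' : Matrix ν ν Ω) (v : ν → Ω) :
    br y y' *ᵥ v = y *ᵥ (y' *ᵥ v) - y' *ᵥ (y *ᵥ v) := by
  rw [br, sub_mulVec, mulVec_mulVec, mulVec_mulVec]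

/-- `f v ≠ 0` (`Gr.pos`, `Ext.f_pow_ne`). -/
theorem ker_two (H : Irr E g) (T : Ext g h e f) (G : Gr h m) {y y' : Matrix ν ν Ω}
    (hy : br y y' = f) {v : ν → Ω} (hv : v ∈ Vk h m) (h1 : y *ᵥ v = 0) (h2 : y' *ᵥ v = 0) :
    v = 0 := by
  have hm := G.pos H T
  refine ltwoa_f T G hv (by omega) (by omega) ?_
  rw [← hy, ltwoa_br, h1, h2, mulVec_zero, mulVec_zero, sub_zero]

theorem dk_pred_pos (H : Irr E g) (T : Ext g h e f) (G : Gr h m) (h1 : dg g h (-1) ≠ ⊥) :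
    0 < dk h (m - 1) := by
  obtain ⟨y, hy, hy0⟩ := (Submodule.ne_bot_iff _).1 h1
  obtain ⟨y', hy', hf⟩ := T.nd y hy hy0
  obtain ⟨v, hv, hv0⟩ := (Submodule.ne_bot_iff _).1 G.top
  refine Nat.pos_of_ne_zero fun h0 => hv0 ?_
  have hb : Vk h (-1 + m) = ⊥ := by
    rw [neg_add_eq_sub]
    exact Submodule.finrank_eq_zero.1 h0
  have a1 := dg_Vk hy hv
  have a2 := dg_Vk hy' hv
  rw [hb, Submodule.mem_bot] at a1 a2
  exact ker_two H T G hf hv a1 a2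

/-- `[y₁, y₂] = f`, `u` spans `Vk h 1`, `yᵢ v = λᵢ (v) u`. The map `(λ₁, λ₂)` is injective on the plane
`Vk h 2` (`ker_two`), so there are `v₁, v₂` with `yᵢ vⱼ = δᵢⱼ u`. Then `f v₁ = - y₂ u`, `f v₂ = y₁ u`,
`f` commutes with the `yᵢ` (`Ext.far`), and `f u = y₁ y₂ u - y₂ y₁ u = - 2 f u`; but `f u ≠ 0`. -/
theorem not_two (H : Irr E g) (T : Ext g h e f) (G : Gr h 2) (h1 : dg g h (-1) ≠ ⊥)
    (h2 : dk h 2 = 2) (h3 : dk h 1 = 1) : False := by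
  obtain ⟨y, hy, hy0⟩ := (Submodule.ne_bot_iff _).1 h1
  obtain ⟨y', hy', hf⟩ := T.nd y hy hy0
  have hr : ∀ z ∈ dg g h (-1), ∀ v ∈ Vk h 2, z.mulVecLin v ∈ Vk h 1 := fun z hz v hv =>
    dg_Vk hz hv
  let L : Vk h 2 →ₗ[Ω] Vk h 1 × Vk h 1 :=
    (y.mulVecLin.restrict (hr y hy)).prod (y'.mulVecLin.restrict (hr y' hy'))
  have hi : Function.Injective L := by
    rw [injective_iff_map_eq_zero]
    intro v hv
    exact Subtype.ext (ker_two H T G hf v.2 (congrArg (fun x => (x.1 : ν → Ω)) hv)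
      (congrArg (fun x => (x.2 : ν → Ω)) hv))
  have hs : Function.Surjective L := by
    refine (LinearMap.injective_iff_surjective_of_finrank_eq_finrank ?_).1 hi
    rw [Module.finrank_prod]
    exact h2.trans (congrArg₂ (· + ·) h3 h3).symm
  obtain ⟨u, hu, hu0⟩ := (Submodule.ne_bot_iff (Vk h 1)).1 fun hb => by
    rw [dk, hb, finrank_bot] at h3
    exact zero_ne_one h3
  obtain ⟨v₁, hv₁⟩ := hs (⟨u, hu⟩, 0)
  obtain ⟨v₂, hv₂⟩ := hs (0, ⟨u, hu⟩)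
  have a1 : y *ᵥ v₁.1 = u := congrArg (fun x => (x.1 : ν → Ω)) hv₁
  have a2 : y' *ᵥ v₁.1 = 0 := congrArg (fun x => (x.2 : ν → Ω)) hv₁
  have a3 : y *ᵥ v₂.1 = 0 := congrArg (fun x => (x.1 : ν → Ω)) hv₂
  have a4 : y' *ᵥ v₂.1 = u := congrArg (fun x => (x.2 : ν → Ω)) hv₂
  have hc : ∀ z ∈ dg g h (-1), ∀ v, z *ᵥ (f *ᵥ v) = f *ᵥ (z *ᵥ v) := fun z hz v => by
    have h0 := T.far (by norm_num) (dg_br H.cl hz T.f_dg)
    rw [← sub_eq_zero, ← ltwoa_br, h0, zero_mulVec]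
  have b1 : y' *ᵥ u = -(f *ᵥ v₁.1) := by
    rw [← hf, ltwoa_br, a1, a2, mulVec_zero, zero_sub, neg_neg]
  have b2 : y *ᵥ u = f *ᵥ v₂.1 := by
    rw [← hf, ltwoa_br, a3, a4, mulVec_zero, sub_zero]
  have b3 : f *ᵥ u = -(f *ᵥ u) - f *ᵥ u := by
    conv_lhs => rw [← hf, ltwoa_br, b1, b2, mulVec_neg, hc y hy, hc y' hy', a1, a4]
  refine hu0 (ltwoa_f T G hu (by norm_num) le_rfl (funext fun i => ?_))
  have b4 := congrFun b3 i
  rw [Pi.sub_apply, Pi.neg_apply] at b4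
  rw [Pi.zero_apply]
  linear_combination (1 / 3 : Ω) * b4

end M5
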