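import Pool.Agent.Lib.MP_33b3f9_ag.M5.LZeroA

/-!
The case of an even grading.
-/

set_option autoImplicit false

noncomputable section

namespace M5

open Matrix Polynomial Pool.Agent.M4.Mx Pool.Agent.Lib.MP_33b3f9_ag

variable {ν : Type} [Fintype ν] [DecidableEq ν] {Ω : Type} [Field Ω] [CharZero Ω]
  {E : Matrix ν ν Ω} {g : Submodule Ω (Matrix ν ν Ω)} {h e f : Matrix ν ν Ω} {m : ℕ}

omit [CharZero Ω] in
/-- The lowest component of `(A + B + D) ^ n v` is `D ^ n v`. -/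
theorem lzero_low {V : ℤ → Submodule Ω (ν → Ω)} (hV : iSupIndep V) {A B D : Matrix ν ν Ω}
    (hA : ∀ k, ∀ v ∈ V k, A *ᵥ v ∈ V k) (hB : ∀ k, ∀ v ∈ V k, B *ᵥ v ∈ V (k + 2))
    (hD : ∀ k, ∀ v ∈ V k, D *ᵥ v ∈ V (k - 2)) {v : ν → Ω} {k : ℤ} (hv : v ∈ V k) (n : ℕ)
    (h0 : (A + B + D) ^ n *ᵥ v = 0) : D ^ n *ᵥ v = 0 := by
  have hm : ∀ {t j : ℤ} {w : ν → Ω}, t < j → w ∈ V j → w ∈ ⨆ (i : ℤ) (_ : t < i), V i :=
    fun {t j w} h1 h2 => (le_iSup₂_of_le j h1 le_rfl : V j ≤ ⨆ (i : ℤ) (_ : t < i), V i) h2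
  have hF : ∀ t : ℤ, ⨆ (i : ℤ) (_ : t < i), V i ≤
      (⨆ (i : ℤ) (_ : t - 2 < i), V i).comap (Matrix.toLin' (A + B + D)) := fun t =>
    iSup₂_le fun j hj w hw => by
      rw [Submodule.mem_comap, toLin'_apply, add_mulVec, add_mulVec]
      exact add_mem (add_mem (hm (by omega) (hA j w hw)) (hm (by omega) (hB j w hw)))
        (hm (by omega) (hD j w hw))
  have H : ∀ n : ℕ, D ^ n *ᵥ v ∈ V (k - 2 * n) ∧
      (A + B + D) ^ n *ᵥ v - D ^ n *ᵥ v ∈ ⨆ (i : ℤ) (_ : k - 2 * n < i), V i := fun n => by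
    induction n with
    | zero => exact ⟨by simpa using hv, by simp⟩
    | succ n ih =>
      have e : k - 2 * ((n + 1 : ℕ) : ℤ) = k - 2 * n - 2 := by push_cast; ring
      have h1 := hF _ ih.2
      rw [Submodule.mem_comap, toLin'_apply] at h1
      rw [e, pow_succ', pow_succ', ← mulVec_mulVec, ← mulVec_mulVec]
      refine ⟨hD _ _ ih.1, ?_⟩
      convert add_mem h1 (add_mem (hm (by omega) (hA _ _ ih.1)) (hm (by omega) (hB _ _ ih.1)))
        using 1
      simp only [mulVec_sub, add_mulVec]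
      abel
  obtain ⟨h1, h2⟩ := H n
  rw [h0, zero_sub, neg_mem_iff] at h2
  exact Submodule.disjoint_def.1 (hV (k - 2 * n)) _ h1
    ((iSup₂_le fun j hj => le_iSup₂_of_le j hj.ne' le_rfl :
      ⨆ (i : ℤ) (_ : k - 2 * n < i), V i ≤ ⨆ (j : ℤ) (_ : j ≠ k - 2 * n), V j) h2)

/-- `dk h 7 = 1`; the `f ^ j v`, `j ≤ 7`, form a basis. An element of the centraliser multiplies `v`,
hence all `f ^ j v`, by a scalar, which is zero (`Sp`, characteristic zero). So `g` consists of the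
`x = a h + b e + c f`. If `c ≠ 0` then `x ^ 7 v = c ^ 7 f ^ 7 v` modulo the span of the `f ^ j v`,
`j < 7`; if `b ≠ 0` look at the coefficient of `v` in `x ^ 7 f ^ 7 v` (`e_f_pow`); otherwise `x = a h`
and `x ^ 7 v = (7 a) ^ 7 v`. The characteristic polynomial of `h`: `Matrix.charpoly` in the basis
(`LinearMap.charpoly_toMatrix`, `Matrix.charpoly_diagonal`). -/
theorem sym7_of_seven (H : Irr E g) (T : Ext g h e f) (G : Gr h 7) (h1 : dg g h (-1) = ⊥) :
    Sym7 g := by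
  have hd : Module.finrank Ω (Vk h 7) = 1 := by
    have := dim_even H T G h1
    change (7 + 1) * Module.finrank Ω (Vk h 7) = 8 at this
    omega
  obtain ⟨⟨v, hv⟩, hv0, hall⟩ := finrank_eq_one_iff'.1 hd
  have hv1 : v ≠ 0 := fun h0 => hv0 (Subtype.ext h0)
  have he : e *ᵥ v = 0 := by
    have := dg_Vk T.e_dg hv
    rwa [G.bd _ (by norm_num), Submodule.mem_bot] at this
  have hne : ∀ j : Fin 8, f ^ (j : ℕ) *ᵥ v ≠ 0 := fun j => T.f_pow_ne hv he hv1 (by omega)
  have hli : LinearIndependent Ω fun j : Fin 8 => f ^ (j : ℕ) *ᵥ v :=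
    iSupIndep.linearIndependent (fun j : Fin 8 => Vk h (7 - 2 * (j : ℕ)))
      ((Vk_indep h).comp (f := fun j : Fin 8 => (7 - 2 * (j : ℕ) : ℤ)) fun i j hij =>
        Fin.ext (by simp only at hij; omega)) (fun j => T.f_pow hv j) hne
  obtain ⟨b, hb⟩ : ∃ b : Module.Basis (Fin 8) Ω (ν → Ω), ∀ j, b j = f ^ (j : ℕ) *ᵥ v :=
    ⟨basisOfLinearIndependentOfCardEqFinrank hli (by simp [H.card]), fun j => by simp⟩
  have hc : ∀ z ∈ cent g e f, z = 0 := fun z hz => by
    have h2 := dg_Vk (T.cent_le hz) hv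
    rw [zero_add] at h2
    obtain ⟨s, hs⟩ := hall ⟨_, h2⟩
    have hs' : z *ᵥ v = s • v := (congrArg Subtype.val hs).symm
    have h3 : Matrix.toLin' z = s • LinearMap.id := b.ext fun j => by
      rw [toLin'_apply, LinearMap.smul_apply, LinearMap.id_apply, hb, mulVec_mulVec,
        (Commute.pow_right hz.2.2 j).eq, ← mulVec_mulVec, hs', mulVec_smul]
    have h4 : ∀ w, z *ᵥ w = s • w := fun w => LinearMap.congr_fun h3 w
    obtain ⟨x, hx⟩ := trans_nondeg H.det hv1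
    have h5 := sp_form (H.sp z hz.1) x v
    rw [h4, h4, mulVec_smul, smul_dotProduct, dotProduct_smul, smul_eq_mul] at h5
    have h6 : s = 0 := (mul_eq_zero.1 (by linear_combination (1 / 2 : Ω) * h5)).resolve_right hx
    rw [h6, zero_smul] at h3
    exact Matrix.toLin'.map_eq_zero_iff.1 h3
  have hef : ∀ n : ℕ, n ≤ 7 → e ^ n *ᵥ (f ^ n *ᵥ v) ≠ 0 := fun n => by
    induction n with
    | zero => simpa using hv1
    | succ n ih =>
      intro hn
      rw [pow_succ e, ← mulVec_mulVec, T.e_f_pow hv he, mulVec_smul]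
      refine smul_ne_zero (mul_ne_zero (Nat.cast_add_one_ne_zero n) ?_) (ih (by omega))
      exact_mod_cast (by omega : (7 : ℤ) - n ≠ 0)
  have hh : ∀ (a : Ω) (k : ℤ), ∀ w ∈ Vk h k, (a • h) *ᵥ w ∈ Vk h k := fun a k w hw => by
    rw [smul_mulVec, mem_Vk.1 hw]
    exact Submodule.smul_mem _ _ (Submodule.smul_mem _ _ hw)
  have hE : ∀ (a : Ω) (k : ℤ), ∀ w ∈ Vk h k, (a • e) *ᵥ w ∈ Vk h (k + 2) := fun a k w hw => by
    rw [smul_mulVec, add_comm]
    exact Submodule.smul_mem _ _ (dg_Vk T.e_dg hw)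
  have hF : ∀ (a : Ω) (k : ℤ), ∀ w ∈ Vk h k, (a • f) *ᵥ w ∈ Vk h (k - 2) := fun a k w hw => by
    rw [smul_mulVec, sub_eq_neg_add]
    exact Submodule.smul_mem _ _ (dg_Vk T.f_dg hw)
  refine ⟨fun x hx hx0 h7 => hx0 ?_, ⟨e, T.e_mem, f, T.f_mem, T.ef ▸ T.ne⟩, h, T.h_mem, ?_⟩
  · obtain ⟨a, p, c, hz⟩ := dec_even H T h1 hx
    obtain rfl := sub_eq_zero.1 (hc _ hz)
    have hc0 : c = 0 := by
      have := lzero_low (Vk_indep h) (hh a) (hE p) (hF c) hv 7 (by rw [h7, zero_mulVec])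
      rw [_root_.smul_pow, smul_mulVec] at this
      exact eq_zero_of_pow_eq_zero ((smul_eq_zero.1 this).resolve_right (hne 7))
    have hp0 : p = 0 := by
      have := lzero_low (V := fun k => Vk h (-k)) ((Vk_indep h).comp neg_injective)
        (fun k => hh a (-k)) (B := c • f) (D := p • e)
        (fun k w hw => by rw [neg_add, ← sub_eq_add_neg]; exact hF c _ w hw)
        (fun k w hw => by rw [neg_sub, sub_eq_neg_add]; exact hE p _ w hw)
        (k := 7) (T.f_pow hv 7) 7 (by rw [add_right_comm, h7, zero_mulVec])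
      rw [_root_.smul_pow, smul_mulVec] at this
      exact eq_zero_of_pow_eq_zero ((smul_eq_zero.1 this).resolve_right (hef 7 le_rfl))
    rw [hc0, hp0, zero_smul, zero_smul, add_zero, add_zero] at h7 ⊢
    have h2 : ∀ n : ℕ, h ^ n *ᵥ v = (7 : Ω) ^ n • v := fun n => by
      induction n with
      | zero => simp
      | succ n ih =>
        rw [pow_succ', ← mulVec_mulVec, ih, mulVec_smul, mem_Vk.1 hv, smul_smul, pow_succ]
        norm_cast
    have h3 := congrArg (· *ᵥ v) h7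
    simp only [_root_.smul_pow, smul_mulVec, h2, zero_mulVec, smul_eq_zero, hv1, or_false] at h3
    rw [eq_zero_of_pow_eq_zero (h3.resolve_right (by norm_num)), zero_smul]
  · rw [← charpoly_toLin', ← LinearMap.charpoly_toMatrix _ b, ← charpoly_diagonal]
    congr 1
    ext i j
    have h2 := mem_Vk.1 (T.f_pow hv j)
    rw [← hb] at h2
    rw [LinearMap.toMatrix_apply, toLin'_apply, h2, map_smul, b.repr_self, diagonal_apply,
      Finsupp.smul_apply, Finsupp.single_apply]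
    by_cases hij : i = j
    · simp [hij]
    · simp [hij, Ne.symm hij]

end M5
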