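import Pool.Agent.Lib.MP_33b3f9_ag.M5.LMat
import Pool.Agent.Lib.MP_33b3f9_ag.M5.LIso
import Pool.Agent.Lib.MP_33b3f9_ag.M5.LTwo
import Pool.Agent.Lib.MP_33b3f9_ag.M5.LZero
import Pool.Agent.Lib.MP_33b3f9_ag.M5.LFrame
import Pool.Agent.Lib.MP_33b3f9_ag.M4.MxWd

/-!
The irreducible subalgebras of the symplectic Lie algebra in dimension eight.
-/

set_option autoImplicit false

noncomputable section

namespace M5

open Matrix Polynomial Pool.Agent.M4.Mx Pool.Agent.Lib.MP_33b3f9_ag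

variable {ν : Type} [Fintype ν] [DecidableEq ν] {Ω : Type} [Field Ω] [IsAlgClosed Ω] [CharZero Ω]
  {E : Matrix ν ν Ω} {g : Submodule Ω (Matrix ν ν Ω)} {h e f : Matrix ν ν Ω}

/-- `exists_gr`, `Gr.pos`. Degree `-1` zero: `dim_even`, so `m ∈ {1, 3, 7}`; `dk_ne_two` excludes `3`.
Otherwise `(m + 1) dk m + m dk (m - 1) ≤ 8` (`dk_le`, `dk_sum_le`), `dk (m - 1) > 0`, so `m ≤ 3`;
`m = 3`: `dk 2 = 1`, `dk_ne_one`; `m = 2`: `dk 2 ≠ 1`, so `dk 2 = 2`, `dk 1 = 1`, `not_two`; `m = 1`: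
`2 dk 1 + dk 0 = 8` (`dk_sum`, `dk_neg`), `full_of_one`, `dk_ne_two`, `not_three`. -/
theorem ext_type (H : Irr E g) (T : Ext g h e f) : Full E g ∨ Sym7 g ∨ Slot g e f := by
  obtain ⟨m, G⟩ := exists_gr H T
  have hm := G.pos H T
  have ha : 0 < dk h m := Nat.pos_of_ne_zero fun h0 => G.top (Submodule.finrank_eq_zero.1 h0)
  by_cases h1 : dg g h (-1) = ⊥
  · have h2 := dim_even H T G h1
    have h3 : m + 1 ≤ 8 := Nat.le_of_dvd (by norm_num) ⟨_, h2.symm⟩
    have h4 : m ≤ 7 := by omega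
    interval_cases m
    · exact Or.inr (Or.inr (slot_of_one H T G h1))
    · omega
    · exact absurd (by omega) (dk_ne_two H T G (by decide))
    · omega
    · omega
    · omega
    · exact Or.inr (Or.inl (sym7_of_seven H T G h1))
  have hb := dk_pred_pos H T G h1
  have A : ∀ j : ℕ, (j : ℤ) ≤ m → dk h m ≤ dk h (m - 2 * j) := fun j hj =>
    dk_le T (G.bd _ (by omega)) hj
  have B : ∀ j : ℕ, (j : ℤ) ≤ m - 1 → dk h (m - 1) ≤ dk h (m - 1 - 2 * j) := fun j hj =>
    dk_le T (G.bd _ (by omega)) hj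
  have h3 : m ≤ 3 := by
    by_contra hc
    have h4 := dk_sum_le H h (Finset.Icc ((m : ℤ) - 8) m)
    have h5 := Finset.card_nsmul_le_sum (Finset.Icc ((m : ℤ) - 8) m) (dk h) 1 fun k hk => by
      rw [Finset.mem_Icc] at hk
      obtain ⟨j, hj | hj⟩ := Int.even_or_odd' (m - k)
      · lift j to ℕ using by omega
        have := A j (by omega)
        rw [show (m : ℤ) - 2 * j = k by omega] at this
        omega
      · lift j to ℕ using by omega
        have := B j (by omega)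
        rw [show (m : ℤ) - 1 - 2 * j = k by omega] at this
        omega
    rw [Int.card_Icc, show ((m : ℤ) + 1 - (m - 8)).toNat = 9 by omega, smul_eq_mul] at h5
    exact absurd (h5.trans h4) (by norm_num)
  have S := dk_sum H T G
  have N1 := dk_neg H T G 1
  have N2 := dk_neg H T G 2
  have N3 := dk_neg H T G 3
  interval_cases m
  · rw [show Finset.Icc (-((1 : ℕ) : ℤ)) ((1 : ℕ) : ℤ) = {-1, 0, 1} by decide] at S
    have h4 : dk h 1 ≠ 2 := dk_ne_two H T G (by decide)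
    have h5 : dk h 0 = 2 → dk h 1 ≠ 3 := fun h5 h6 => not_three H T G h1 h6 h5
    simp at S ha hb
    exact Or.inl (full_of_one H T G (by omega))
  · rw [show Finset.Icc (-((2 : ℕ) : ℤ)) ((2 : ℕ) : ℤ) = {-2, -1, 0, 1, 2} by decide] at S
    have h4 : dk h 2 ≠ 1 := dk_ne_one H T G (k := 2) (G.bd _ (by norm_num)) (by decide)
    have h5 := A 1 (by norm_num)
    simp at S ha hb h5
    exact (not_two H T G h1 (by omega) (by omega)).elim
  · rw [show Finset.Icc (-((3 : ℕ) : ℤ)) ((3 : ℕ) : ℤ) = {-3, -2, -1, 0, 1, 2, 3} by decide] at S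
    have h4 : dk h 2 ≠ 1 := dk_ne_one H T G (k := 2) (G.bd _ (by norm_num)) (by decide)
    have h5 := A 1 (by norm_num)
    have h6 := B 1 (by norm_num)
    simp at S ha hb h5 h6
    omega

end M5
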