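import Pool.Agent.Lib.MP_33b3f9_ag.M5.LGen
import Pool.Agent.Lib.MP_33b3f9_ag.M5.LDim

/-!
The case of an even grading.
-/

set_option autoImplicit false

noncomputable section

namespace M5

open Matrix Polynomial Pool.Agent.M4.Mx Pool.Agent.Lib.MP_33b3f9_ag

variable {ν : Type} [Fintype ν] [DecidableEq ν] {Ω : Type} [Field Ω] [CharZero Ω]
  {E : Matrix ν ν Ω} {g : Submodule Ω (Matrix ν ν Ω)} {h e f : Matrix ν ν Ω} {m : ℕ}

/-- `Ext.dec`, `Ext.zero`, `Ext.one_eq_bot`. -/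
theorem dec_even (H : Irr E g) (T : Ext g h e f) (h1 : dg g h (-1) = ⊥) {X : Matrix ν ν Ω}
    (hX : X ∈ g) : ∃ a b c : Ω, X - (a • h + b • e + c • f) ∈ cent g e f := by
  obtain ⟨a, b, x, z, y, hx, hz, hy, rfl⟩ := T.dec X hX
  rw [T.one_eq_bot H.cl h1, Submodule.mem_bot] at hx
  rw [h1, Submodule.mem_bot] at hy
  obtain ⟨c, hc⟩ := T.zero H.cl hz
  refine ⟨c, a, b, ?_⟩
  rw [hx, hy, show a • e + 0 + z + 0 + b • f - (c • h + a • e + b • f) = z - c • h by abel]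
  exact hc

theorem lzeroa_f (H : Irr E g) (T : Ext g h e f) (G : Gr h m) {v : ν → Ω} (hv : v ∈ Vk h m) :
    f ^ (m + 1) *ᵥ v = 0 := by
  have h1 := dk_neg H T G (m + 2)
  rw [dk, dk, G.bd (m + 2) (by omega), finrank_bot, Submodule.finrank_eq_zero] at h1
  have h2 := T.f_pow hv (m + 1)
  rwa [show (m : ℤ) - 2 * (m + 1 : ℕ) = -(m + 2) by push_cast; ring, h1, Submodule.mem_bot] at h2

omit [CharZero Ω] in
theorem lzeroa_up (G : Gr h m) {k : ℤ} (hk : 0 < k) {x : Matrix ν ν Ω} (hx : x ∈ dg g h k)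
    {v : ν → Ω} (hv : v ∈ Vk h m) : x *ᵥ v = 0 := by
  have h1 := dg_Vk hx hv
  rwa [G.bd _ (by omega), Submodule.mem_bot] at h1

/-- `gen` with `W = ⨆ j ≤ m, f ^ j (Vk h m)` (`f ^ (m + 1)` kills `Vk h m` by `dk_neg`, `Gr.bd`). -/
theorem span_even (H : Irr E g) (T : Ext g h e f) (G : Gr h m) (h1 : dg g h (-1) = ⊥) :
    ⨆ j : Fin (m + 1), (Vk h m).map (Matrix.toLin' (f ^ (j : ℕ))) = ⊤ := by
  refine gen H T (Vk h m) G.top (fun z hz v hv => by simpa using dg_Vk hz hv)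
    (fun x hx v hv => lzeroa_up G one_pos hx hv) (fun v hv => lzeroa_up G two_pos T.e_dg hv) _
    (fun v hv => Submodule.mem_iSup_of_mem 0 ⟨v, hv, by simp⟩) (fun y hy v _ => ?_) fun v hv => ?_
  · rw [h1, Submodule.mem_bot] at hy
    rw [hy, zero_mulVec]
    exact Submodule.zero_mem _
  · rw [← toLin'_apply, ← Submodule.mem_comap]
    refine (iSup_le fun j => ?_ : _ ≤ Submodule.comap (Matrix.toLin' f) _) hv
    rintro _ ⟨w, hw, rfl⟩
    rw [Submodule.mem_comap, toLin'_apply, toLin'_apply, mulVec_mulVec, ← pow_succ']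
    by_cases hj : (j : ℕ) < m
    · exact Submodule.mem_iSup_of_mem ⟨j + 1, by omega⟩ ⟨w, hw, rfl⟩
    · rw [show (j : ℕ) = m by omega, lzeroa_f H T G hw]
      exact Submodule.zero_mem _

/-- `span_even` gives `≥`, `dk_le` and `dk_sum_le` give `≤`. -/
theorem dim_even (H : Irr E g) (T : Ext g h e f) (G : Gr h m) (h1 : dg g h (-1) = ⊥) :
    (m + 1) * dk h m = 8 := by
  refine le_antisymm ?_ ?_
  · refine le_trans ?_ (dk_sum_le H h ((Finset.range (m + 1)).image fun j : ℕ => (m : ℤ) - 2 * j))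
    rw [Finset.sum_image fun a _ b _ hab => by omega]
    have h2 := Finset.card_nsmul_le_sum (Finset.range (m + 1)) (fun j : ℕ => dk h (m - 2 * j))
      (dk h m) fun j hj => dk_le T (G.bd _ (by omega)) (by have := Finset.mem_range.1 hj; omega)
    rwa [Finset.card_range, smul_eq_mul] at h2
  · let φ : (Fin (m + 1) → Vk h m) →ₗ[Ω] ν → Ω := ∑ j : Fin (m + 1),
      Matrix.toLin' (f ^ (j : ℕ)) ∘ₗ (Vk h m).subtype ∘ₗ LinearMap.proj j
    have h2 : LinearMap.range φ = ⊤ := by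
      rw [eq_top_iff, ← span_even H T G h1]
      refine iSup_le fun j => ?_
      rintro _ ⟨w, hw, rfl⟩
      refine ⟨Pi.single j ⟨w, hw⟩, ?_⟩
      rw [LinearMap.sum_apply, Finset.sum_eq_single j (fun i _ hi => by simp [hi]) (by simp)]
      simp
    have h3 := φ.finrank_range_le
    rwa [h2, finrank_top, Module.finrank_fintype_fun_eq_card, H.card, Module.finrank_pi_fintype,
      Finset.sum_const, Finset.card_univ, Fintype.card_fin, smul_eq_mul] at h3

/-- Check the three identities on `v` and `f v`, `v ∈ Vk h 1`. -/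
theorem slot_of_one (H : Irr E g) (T : Ext g h e f) (G : Gr h 1) (h1 : dg g h (-1) = ⊥) :
    Slot g e f := by
  have key : ∀ A B : Matrix ν ν Ω, (∀ v ∈ Vk h (1 : ℕ), A *ᵥ v = B *ᵥ v ∧
      A *ᵥ (f *ᵥ v) = B *ᵥ (f *ᵥ v)) → A = B := fun A B hA => by
    refine Matrix.toLin'.injective (LinearMap.eqLocus_eq_top.1 ?_)
    rw [eq_top_iff, ← span_even H T G h1]
    refine iSup_le fun j => ?_
    rintro _ ⟨w, hw, rfl⟩
    fin_cases j
    · simpa using (hA w hw).1
    · simpa using (hA w hw).2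
  have a1 : ∀ v ∈ Vk h (1 : ℕ), e *ᵥ v = 0 := fun v hv => lzeroa_up G two_pos T.e_dg hv
  have a2 : ∀ v ∈ Vk h (1 : ℕ), e *ᵥ (f *ᵥ v) = v := fun v hv => by
    simpa using T.e_f_pow hv (a1 v hv) 0
  have a3 : ∀ v ∈ Vk h (1 : ℕ), f *ᵥ (f *ᵥ v) = 0 := fun v hv => by
    rw [mulVec_mulVec, ← pow_two]
    exact lzeroa_f H T G hv
  refine ⟨⟨key _ _ fun v hv => ?_, key _ _ fun v hv => ?_, key _ _ fun v hv => ?_⟩, fun X hX => ?_⟩
  · simp only [← mulVec_mulVec, a1 v hv, a2 v hv, mulVec_zero, zero_mulVec, and_self]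
  · simp only [← mulVec_mulVec, a3 v hv, mulVec_zero, zero_mulVec, and_self]
  · simp only [add_mulVec, ← mulVec_mulVec, a1 v hv, a2 v hv, a3 v hv, mulVec_zero, one_mulVec,
      add_zero, zero_add, and_self]
  · rw [T.ef]
    exact dec_even H T h1 hX

end M5
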