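import Pool.Agent.Lib.MP_33b3f9_ag.M5.ALim

/-!
Extension of the base field; consequences of the integral theorem of Faltings.
-/

set_option autoImplicit false

noncomputable section

namespace M5

open Matrix Polynomial NumberField M4 M4.CM Pool.Agent.M4.Mx Pool.Agent.Lib.MP_33b3f9_ag

variable {τ : Mat} {K : IntermediateField ℚ ℂ} {r : Rep K}

/-- Restriction of scalars. -/
def res {K K' : IntermediateField ℚ ℂ} (h : K ≤ K') : (ℂ ≃ₐ[K'] ℂ) →* (ℂ ≃ₐ[K] ℂ) where
  toFun σ := { σ.toRingEquiv with commutes' := fun x => σ.commutes ⟨x, h x.2⟩ }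
  map_one' := rfl
  map_mul' _ _ := rfl

/-- The restricted representations. -/
def rres (r : Rep K) {K' : IntermediateField ℚ ℂ} (h : K ≤ K') : Rep K' :=
  fun l _ => (r l).comp (res h)

theorem AV_res (H : AV τ K r) {K' : IntermediateField ℚ ℂ} [FiniteDimensional ℚ K'] (h : K ≤ K') :
    AV τ K' (rres r h) := by
  exact ⟨H.inH, inferInstance, ⟨h H.defX.1, fun ε ε' => h (H.defX.2 ε ε')⟩,
    fun σ x y hx => H.tate (res h σ) x y hx⟩

/-- The cosets of the image are determined by the restriction to `K'`: a map to the finite set of the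
embeddings of `K'` in `ℂ`. -/
theorem res_fin {K' : IntermediateField ℚ ℂ} [FiniteDimensional ℚ K'] (h : K ≤ K') :
    (res h).range.FiniteIndex := by
  have : NumberField K' := ⟨⟩
  let φ : (ℂ ≃ₐ[K] ℂ) ⧸ (res h).range → (K' →+* ℂ) := fun q =>
    (q.out.toRingEquiv.toRingHom).comp (algebraMap K' ℂ)
  have hφ : Function.Injective φ := fun q q' e => by
    rw [← QuotientGroup.out_eq' q, ← QuotientGroup.out_eq' q', QuotientGroup.eq]
    refine ⟨{ (q.out⁻¹ * q'.out).toRingEquiv with commutes' := fun x => ?_ },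
      AlgEquiv.ext fun _ => rfl⟩
    have h1 : q.out (algebraMap K' ℂ x) = q'.out (algebraMap K' ℂ x) := RingHom.congr_fun e x
    change q.out.symm (q'.out (algebraMap K' ℂ x)) = algebraMap K' ℂ x
    rw [← h1, AlgEquiv.symm_apply_apply]
  have := Finite.of_injective φ hφ
  exact Subgroup.finiteIndex_of_finite_quotient

/-- For `U'` take `U = U'.map (res h)`, of index `U'.index * d` (`Subgroup.index_map`, `res` is
injective), and `(a d b) ^ C ≤ (a b) ^ (C * (1 + d))` for `a b ≥ 2`. -/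
theorem fal_res (H : FAL r) {K' : IntermediateField ℚ ℂ} [FiniteDimensional ℚ K'] (h : K ≤ K') :
    FAL (rres r h) := by
  obtain ⟨C, hC⟩ := H
  have hd := (res_fin h).index_ne_zero
  have hi : Function.Injective (res h) := fun σ σ' e => AlgEquiv.ext fun x => AlgEquiv.congr_fun e x
  refine ⟨(1 + (res h).range.index) * C, fun N hN U hU => ?_⟩
  have h1 := Subgroup.index_map_of_injective U hi
  have h2 := hC N hN (U.map (res h)) ⟨by rw [h1]; exact mul_ne_zero hU.index_ne_zero hd⟩
  have e : {R : MZ | ∃ σ ∈ U, Cong (rres r h) σ N R} =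
      {R : MZ | ∃ σ ∈ U.map (res h), Cong r σ N R} := by
    ext R
    constructor
    · rintro ⟨σ, hσ, hc⟩
      exact ⟨res h σ, ⟨σ, hσ, rfl⟩, hc⟩
    · rintro ⟨_, ⟨σ, hσ, rfl⟩, hc⟩
      exact ⟨σ, hσ, hc⟩
  rw [e, pow_mul]
  refine h2.trans (Nat.pow_le_pow_left ?_ C)
  have h3 : 2 ≤ U.index * (2 + Nat.log 2 N) :=
    le_trans (by omega) (Nat.le_mul_of_pos_left _ (Nat.pos_of_ne_zero hU.index_ne_zero))
  rw [h1, mul_right_comm, pow_add, pow_one]
  exact Nat.mul_le_mul_left _ (Nat.lt_two_pow_self.le.trans (Nat.pow_le_pow_left h3 _))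

end M5
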