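import Pool.Agent.Lib.MP_33b3f9_ag.M5.ADefs
import Pool.Agent.Lib.MP_33b3f9_ag.M5.FCmp

/-!
The system of frames: definitions.
-/

set_option autoImplicit false

noncomputable section

namespace M5

open Matrix Polynomial NumberField M4 M4.CM Pool.Agent.M4.Mx Pool.Agent.Lib.MP_33b3f9_ag

variable {l : ℕ} [Fact l.Prime]

/-- `θ` maps the slot `i` to the slot `k`. -/
def Gal (f : Fr ν (CM.Om l)) (θ : CM.Om l ≃ₐ[ℚ_[l]] CM.Om l) (i k : Fin 3) : Prop :=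
  ∃ c : GL (Fin 2) (CM.Om l), ∀ x, (f.u i x).map θ = f.u k (cj c (x.map θ))

/-- An integral frame. -/
structure Cb {Γ : Type} [Group Γ] (ρ : Γ →* GL ν ℤ_[l]) (f : Fr ν (CM.Om l)) : Prop where
  P_le : Le f.P 1
  Q_le : Le f.Q 1
  ex : ∀ σ, ∃ h : Fin 3 → M2 (CM.Om l), (∀ i, Le (h i) 1) ∧ rO ρ σ = f.T h
  gal : ∀ θ, ∃ π : Equiv.Perm (Fin 3), ∀ i, Gal f θ i (π i)

/-- An integral frame whose slots are labelled by the embeddings of `F`. -/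
structure Ten {Γ F : Type} [Group Γ] [Field F] (ρ : Γ →* GL ν ℤ_[l]) (ι : Fin 3 → F →+* CM.Om l)
    (f : Fr ν (CM.Om l)) : Prop where
  inj : Function.Injective ι
  P_le : Le f.P 1
  Q_le : Le f.Q 1
  ex : ∀ σ, ∃ h : Fin 3 → M2 (CM.Om l), (∀ i, Le (h i) 1) ∧ rO ρ σ = f.T h
  gal : ∀ θ, ∃ π : Equiv.Perm (Fin 3), (∀ i, Gal f θ i (π i)) ∧ ∀ i x, θ (ι i x) = ι (π i) x

/-- A system of frames, rational at the primes that split in `L`. -/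
structure Sys {K : IntermediateField ℚ ℂ} (r : Rep K) (F L : Type) [Field F] [Field L]
    (l₁ : ℕ) where
  /-- the embeddings -/
  ι : ∀ (l : ℕ) [Fact l.Prime], Fin 3 → F →+* CM.Om l
  /-- the frames -/
  f : ∀ (l : ℕ) [Fact l.Prime], Fr ν (CM.Om l)
  /-- the reductions -/
  A : ∀ l : ℕ, Matrix κ ν (ZMod l)
  /-- the reductions -/
  A' : ∀ l : ℕ, Matrix ν κ (ZMod l)
  ten : ∀ (l : ℕ) [Fact l.Prime], l₁ < l → Ten (r l) (ι l) (f l)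
  spl : ∀ (l : ℕ) [Fact l.Prime], l₁ < l → NT.Spl L l → l ≡ 1 [MOD 32] ∧
    (∀ (j : F →+* CM.Om l) x, j x ∈ NT.Qp l) ∧ TS r l (A l) (A' l) ∧ ∃ fz : Fr ν ℤ_[l],
      f l = fz.map (CM.toOm l) ∧ A l = fz.Q.map PadicInt.toZMod ∧
        ∀ σ, ∃ hz, (r l σ : Matrix ν ν ℤ_[l]) = fz.T hz

end M5
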