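import Pool.Agent.Lib.MP_33b3f9_ag.M5.SDefs
import Pool.Agent.Lib.MP_33b3f9_ag.M5.BConn
import Pool.Agent.Lib.MP_33b3f9_ag.M5.BSpl
import Pool.Agent.Lib.MP_33b3f9_ag.M5.BIrr
import Pool.Agent.Lib.MP_33b3f9_ag.M5.GBig
import Pool.Agent.Lib.MP_33b3f9_ag.M4.NTEmb

/-!
The cubic field and the system of frames.
-/

set_option autoImplicit false

noncomputable section

namespace M5

open Matrix Polynomial NumberField M4 M4.CM Pool.Agent.M4.Mx Pool.Agent.Lib.MP_33b3f9_ag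

variable {τ : Mat} {K : IntermediateField ℚ ℂ} {r : Rep K} {l₀ : ℕ} [Fact l₀.Prime]
  {f₀ : Fr ν (CM.Om l₀)}

/-- `conn`, `Sf1.sz`, `exists_cb`. -/
theorem all_cb (H : Hyp τ K r) (B : Base r l₀ f₀) :
    ∃ l₁ : ℕ, ∀ (l : ℕ) [Fact l.Prime], l₁ < l → ∃ f, Cb (r l) f := by
  obtain ⟨l₁, h1⟩ := H.sf 1
  refine ⟨l₁ + 2, fun l _ hl => ?_⟩
  obtain ⟨f, h2, h3⟩ := conn H B l
  exact exists_cb (by omega) ((h1 l (by omega)).sz le_rfl) h2 h3

/-- `dens` with `U = ⊤`, `σ₀ = 1`; `frob_reg`. -/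
theorem exists_frob (H : Hyp τ K r) (B : Base r l₀ f₀) :
    ∃ (p : ℕ) (_ : Fact p.Prime) (e : ℂ ≃+* PadicAlgCl p) (σ : ℂ ≃ₐ[K] ℂ) (P : ℤ[X]),
      65 ≤ p ∧ Frob τ r e σ ∧ Weil r p σ P ∧
        ∀ (l : ℕ) [Fact l.Prime], l ≠ p → Reg (ro r l σ) := by
  obtain ⟨u, -, hu⟩ := dens H B ⊤ 1
  obtain ⟨p, hp, e, σ, j, P, h1, h2, h3, -, h4⟩ := frob_reg H (B.neat _) hu one_ne_zero 64
  exact ⟨p, hp, e, σ, P, h1, h2, h3, h4⟩

theorem sf_loc {p : ℕ} [Fact p.Prime] {e : ℂ ≃+* PadicAlgCl p} {σ : ℂ ≃ₐ[K] ℂ} {P : ℤ[X]}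
    (h65 : 65 ≤ p) (hσ : Frob τ r e σ) (hW : Weil r p σ P) :
    ∃ c : ℚ[X], c.Monic ∧ c.natDegree = 3 ∧ ∀ (l : ℕ) [Fact l.Prime], l ≠ p → Reg (ro r l σ) →
      ∀ (f : Fr ν (CM.Om l)) (h : Fin 3 → M2 (CM.Om l)), ro r l σ = f.T h →
        (∀ i, h i ≠ 0) ∧ (Function.Injective fun i => tv (h i)) ∧ (∀ i (q : ℚ), tv (h i) ≠ q) ∧
          ∀ i, (c.map (Rat.castHom (CM.Om l))).eval (tv (h i)) = 0 := by
  obtain ⟨a, ha⟩ := pow_sums P hW.monic
  obtain ⟨c, hc1, hc2, hc3⟩ := CM.exists_cubic ((a 1 : ℚ) ^ 2 / p) (a 2 / p) (a 3 / (p * a 1))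
  have hp := (Fact.out : p.Prime)
  refine ⟨c, hc1, hc2, fun l _ hl hr f h e1 => ?_⟩
  have e8 : (p : CM.Om l) ≠ 0 := Nat.cast_ne_zero.2 hp.ne_zero
  have e2 : Sp2 (f.T h).charpoly := by
    have := hr 1 one_ne_zero
    rw [pow_one, e1] at this
    exact (Dq_ne_iff _).1 this
  have e3 := cube_det f h e8 (by
    have := congrArg (Matrix.map · (algebraMap ℚ_[l] (CM.Om l))) (hσ.mult l hl)
    simp only [Matrix.map_mul, Matrix.transpose_map, Matrix.map_J] at this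
    rw [← e1, ro, this]
    ext a b
    simp only [Matrix.map_apply, Matrix.smul_apply, smul_eq_mul, map_mul, map_natCast,
      ← Matrix.map_J (Fin 4) (algebraMap ℚ_[l] (CM.Om l))]) e2
  have e4 := fun i => Finset.prod_ne_zero_iff.1 (e3 ▸ e8) i (Finset.mem_univ i)
  have e0 : (f.T h).charpoly = P.map (Int.castRingHom (CM.Om l)) := e1 ▸ ro_charpoly r hW hl
  have e5 := ha _ _ e0
  have e6 := e5 1
  obtain ⟨v1, v2, v3⟩ := cube_vals f h e4
  rw [pow_one] at e6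
  rw [e3] at v1 v2 v3
  rw [e5] at v2 v3
  rw [e6] at v1 v3
  have e7 : (a 1 : CM.Om l) ≠ 0 := by
    rw [← e6, trace_T]
    exact Finset.prod_ne_zero_iff.2 fun i _ => cube_trace _ _ e2 i
  refine ⟨fun i h0 => e4 i (by rw [h0, det_zero]), (cube_inj f h e4 e2).1,
    tv_irr f h hp h65 hW.monic hW.weil e0 e3 (e1 ▸ hr), hc3 _ _ ?_ ?_ ?_⟩ <;> push_cast
  · exact eq_div_of_mul_eq e8 (by rw [mul_comm, v1])
  · exact eq_div_of_mul_eq e8 (by rw [mul_comm, v2])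
  · exact eq_div_of_mul_eq (mul_ne_zero e8 e7) (by rw [mul_comm, v3])

theorem sf_irr {Ω : Type} [Field Ω] [CharZero Ω] {c : ℚ[X]} (h1 : c.Monic) (h2 : c.natDegree = 3)
    {t : Fin 3 → Ω} (hi : Function.Injective t) (hq : ∀ i (q : ℚ), t i ≠ q)
    (h0 : ∀ i, (c.map (Rat.castHom Ω)).eval (t i) = 0) : Irreducible c := by
  rw [irreducible_iff_roots_eq_zero_of_degree_le_three (by omega) h2.le]
  refine Multiset.eq_zero_of_forall_notMem fun q hq' => ?_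
  have h3 : c.eval q = 0 := (mem_roots h1.ne_zero).1 hq'
  refine (h1.map (Rat.castHom Ω)).ne_zero (eq_zero_of_natDegree_lt_card_of_eval_eq_zero _
    (f := fun o : Option (Fin 3) => o.elim (q : Ω) t) ?_ ?_ ?_)
  · rintro (_ | i) (_ | k) h
    · rfl
    · exact absurd h.symm (hq k q)
    · exact absurd h (hq i q)
    · exact congrArg some (hi h)
  · rintro (_ | i)
    · have := eval_map_apply (p := c) (Rat.castHom Ω) q
      rw [h3, map_zero] at this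
      exact this
    · exact h0 i
  · rw [h1.natDegree_map, h2]
    simp

/-- `exists_frob`; `c` is the cubic of `exists_cubic` as in `M4.CM.glob` (`pow_sums`, `cube_vals`,
`cube_det`, `cube_trace`). For `l > l₁, p` and a frame `f` the three numbers `tv (h i)` are distinct roots
of `c` (`cube_inj`), so all the roots; none is rational (`tv_irr`), so `c` is irreducible
(`Polynomial.irreducible_iff_roots_eq_zero_of_degree_le_three`). `F = AdjoinRoot c`, `ι i` maps the root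
to `tv (h i)`; `gal_T`. -/
theorem exists_F (H : Hyp τ K r) (B : Base r l₀ f₀) :
    ∃ (F : Type) (_ : Field F) (_ : NumberField F), Module.finrank ℚ F = 3 ∧
      ∃ l₁ : ℕ, ∀ (l : ℕ) [Fact l.Prime], l₁ < l →
        ∃ (ι : Fin 3 → F →+* CM.Om l) (f : Fr ν (CM.Om l)), Ten (r l) ι f := by
  obtain ⟨p, hp, e, σ, P, h65, hσ, hW, hr⟩ := exists_frob H B
  obtain ⟨l₁, h1⟩ := all_cb H B
  obtain ⟨c, c1, c2, c3⟩ := sf_loc h65 hσ hW
  have hirr : Irreducible c := by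
    obtain ⟨l, hl, hl'⟩ := Nat.exists_infinite_primes (l₁ + p + 1)
    have := Fact.mk hl'
    obtain ⟨f, hf⟩ := h1 l (by omega)
    obtain ⟨h, -, e1⟩ := hf.ex σ
    obtain ⟨-, g1, g2, g3⟩ := c3 l (by omega) (hr l (by omega)) f h e1
    exact sf_irr c1 c2 g1 g2 g3
  have := Fact.mk hirr
  refine ⟨AdjoinRoot c, inferInstance, inferInstance, ?_, l₁ + p, fun l _ hl => ?_⟩
  · have := (AdjoinRoot.powerBasis c1.ne_zero).finrank
    rw [AdjoinRoot.powerBasis_dim, c2] at this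
    convert this
  obtain ⟨f, hf⟩ := h1 l (by omega)
  obtain ⟨h, -, e1⟩ := hf.ex σ
  obtain ⟨g0, g1, -, g3⟩ := c3 l (by omega) (hr l (by omega)) f h e1
  refine ⟨fun i => AdjoinRoot.lift (Rat.castHom (CM.Om l)) (tv (h i))
    (by rw [eval₂_eq_eval_map]; exact g3 i), f, fun i k hik => g1 ?_, hf.P_le, hf.Q_le, hf.ex,
    fun θ => ?_⟩
  · simpa only [AdjoinRoot.lift_root] using congrArg (fun j => j (AdjoinRoot.root c)) hik
  · obtain ⟨π, hπ⟩ := hf.gal θ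
    refine ⟨π, hπ, fun i x => ?_⟩
    have e2 : (f.T h).map θ = f.T h := by
      rw [← e1]
      ext a b
      exact (mem_Qp_iff _).1 (toOm_mem _) θ
    refine RingHom.congr_fun (AdjoinRoot.ringHom_ext
      (f := (θ : CM.Om l →+* CM.Om l).comp (AdjoinRoot.lift _ _ _)) (RingHom.ext_rat _ _) ?_) x
    rw [RingHom.comp_apply, AdjoinRoot.lift_root, AdjoinRoot.lift_root]
    exact (gal_T hπ e2 g0 i).1

end M5
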