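import Pool.Agent.Lib.MP_33b3f9_ag.M5.BGal
import Pool.Agent.Lib.MP_33b3f9_ag.M4.CmCubeB
import Pool.Agent.Lib.MP_33b3f9_ag.M4.NTRoot
import Pool.Agent.Lib.MP_33b3f9_ag.M4.CmEmb

/-!
The global data of a place.
-/

set_option autoImplicit false

noncomputable section

namespace M5

open Matrix Polynomial NumberField M4 M4.CM Pool.Agent.M4.Mx Pool.Agent.Lib.MP_33b3f9_ag

theorem trace_u' {R : Type} [CommRing R] (f : Fr ν R) (i : Fin 3) (x : M2 R) :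
    (f.u i x).trace = 4 * x.trace := by
  rw [Fr.u_apply, trace_T, Fin.prod_univ_three]
  have h2 : (1 : M2 R).trace = 2 := by simp
  fin_cases i <;> simp only [Fin.zero_eta, Fin.mk_one, Fin.reduceFinMk, Fin.isValue, ne_eq,
    Function.update_self, Fin.reduceEq, not_false_eq_true, Function.update_of_ne, Pi.one_apply,
    h2] <;> ring

theorem sglob_loc {τ : Mat} {K : IntermediateField ℚ ℂ} {r : Rep K} {F L : Type} [Field F]
    [NumberField F] [Field L] (hF : Module.finrank ℚ F = 3) {l₁ : ℕ} (S : Sys r F L l₁) {p : ℕ}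
    [Fact p.Prime] {e : ℂ ≃+* PadicAlgCl p} {σ : ℂ ≃ₐ[K] ℂ} (hσ : Frob τ r e σ) {P : ℤ[X]}
    (hW : Weil r p σ P) (h2 : Sp2 (P.map (Int.castRingHom Qb))) (l : ℕ) [Fact l.Prime]
    (h1 : l₁ < l) (hl : l ≠ p) : ∃ (h : Fin 3 → M2 (CM.Om l)) (ι : Fin 3 ≃ (F →+* CM.Om l)),
      (∀ i, Le (h i) 1) ∧ ro r l σ = (S.f l).T h ∧ Sp2 ((S.f l).T h).charpoly ∧
      ∏ i, (h i).det = p ∧ (∀ i, (h i).det ≠ 0) ∧ (NT.Spl L l → ∀ i a b, h i a b ∈ NT.Qp l) ∧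
      ∀ θ : CM.Om l ≃ₐ[ℚ_[l]] CM.Om l, ∃ π : Equiv.Perm (Fin 3), (∀ i x, θ (ι i x) = ι (π i) x) ∧
        ∀ i, θ (tv (h i)) = tv (h (π i)) ∧ ∃ s : CM.Om l,
          ((S.f l).u i (h i)).map θ = s • (S.f l).u (π i) (h (π i)) := by
  have T := S.ten l h1
  obtain ⟨g, g1, h3, g3⟩ : ∃ g : Fin 3 → M2 (CM.Om l), (∀ i, Le (g i) 1) ∧
      ro r l σ = (S.f l).T g ∧ (NT.Spl L l → ∀ i a b, g i a b ∈ NT.Qp l) := by
    by_cases hs : NT.Spl L l
    · obtain ⟨-, -, -, fz, a1, -, a2⟩ := S.spl l h1 hs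
      obtain ⟨hz, a3⟩ := a2 σ
      exact ⟨fun i => (hz i).map (CM.toOm l), fun i => le_toOm _, by rw [ro_eq, a3, Fr.map_T, a1],
        fun _ i a b => toOm_mem _⟩
    · obtain ⟨g, a1, a2⟩ := T.ex σ
      exact ⟨g, a1, a2, fun h => absurd h hs⟩
  obtain ⟨ι, hι⟩ := equiv_of_inj hF T.inj
  have h4 : Sp2 ((S.f l).T g).charpoly := by
    rw [← h3, ro_charpoly r hW hl]
    exact h2.transfer P Qb (CM.Om l)
  have hp : (p : CM.Om l) ≠ 0 := Nat.cast_ne_zero.2 (Fact.out : p.Prime).ne_zero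
  have h5 := cube_det _ _ hp (by
    have := congrArg (Matrix.map · (algebraMap ℚ_[l] (CM.Om l))) (hσ.mult l hl)
    simp only [Matrix.map_mul, Matrix.transpose_map, Matrix.map_J] at this
    rw [← h3, ro, this]
    ext a b
    simp only [Matrix.map_apply, Matrix.smul_apply, smul_eq_mul, map_mul, map_natCast,
      ← Matrix.map_J (Fin 4) (algebraMap ℚ_[l] (CM.Om l))]) h4
  have h6 := fun i => Finset.prod_ne_zero_iff.1 (h5 ▸ hp) i (Finset.mem_univ i)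
  refine ⟨g, ι, g1, h3, h4, h5, h6, g3, fun θ => ?_⟩
  obtain ⟨π, b1, b2⟩ := T.gal θ
  refine ⟨π, fun i x => by rw [hι, hι, b2], gal_T b1 ?_ fun i h0 => h6 i (by rw [h0, det_zero])⟩
  rw [← h3]
  ext a b
  exact θ.commutes _

theorem glob {τ : Mat} {K : IntermediateField ℚ ℂ} {r : Rep K} {F L : Type} [Field F]
    [NumberField F] [Field L] (hF : Module.finrank ℚ F = 3) {l₁ : ℕ} (S : Sys r F L l₁)
    (h12 : 2 ≤ l₁) {p : ℕ}
    [Fact p.Prime] {e : ℂ ≃+* PadicAlgCl p} {σ : ℂ ≃ₐ[K] ℂ} (hσ : Frob τ r e σ) {P : ℤ[X]}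
    (hW : Weil r p σ P) (h2 : Sp2 (P.map (Int.castRingHom Qb))) :
    ∃ (t : F) (s : ℤ), Glob p P t s ∧ ∀ (l : ℕ) [Fact l.Prime], l₁ < l → l ≠ p →
      ∃ (h : Fin 3 → M2 (CM.Om l)) (ι : Fin 3 ≃ (F →+* CM.Om l)), Loc t s (S.f l) h ι ∧
        ro r l σ = (S.f l).T h ∧ (NT.Spl L l → ∀ i a b, h i a b ∈ NT.Qp l) := by
  obtain ⟨a, ha⟩ := pow_sums P hW.monic
  obtain ⟨c, hc1, hc2, hc3⟩ := exists_cubic ((a 1 : ℚ) ^ 2 / p) (a 2 / p) (a 3 / (p * a 1))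
  have hp := (Fact.out : p.Prime)
  have H := sglob_loc hF S hσ hW h2
  have H1 : ∀ (l : ℕ) [Fact l.Prime] (h : Fin 3 → M2 (CM.Om l)), l ≠ p → ro r l σ = (S.f l).T h →
      Sp2 ((S.f l).T h).charpoly → ∏ i, (h i).det = p → (∀ i, (h i).det ≠ 0) →
      ((S.f l).T h).trace = a 1 ∧ a 1 ≠ 0 ∧ (p : CM.Om l) * ∏ i, tv (h i) = a 1 ^ 2 ∧
        ∀ i, (c.map (Rat.castHom (CM.Om l))).eval (tv (h i)) = 0 := by
    intro l _ h hl e1 e2 e3 e4
    have e5 := ha _ _ (e1 ▸ ro_charpoly r hW hl)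
    have e6 := e5 1
    obtain ⟨v1, v2, v3⟩ := cube_vals (S.f l) h e4
    rw [pow_one] at e6
    rw [e3] at v1 v2 v3
    rw [e5] at v2 v3
    rw [e6] at v1 v3
    have e7 : (a 1 : CM.Om l) ≠ 0 := by
      rw [← e6, trace_T]
      exact Finset.prod_ne_zero_iff.2 fun i _ => cube_trace _ _ e2 i
    have e8 : (p : CM.Om l) ≠ 0 := Nat.cast_ne_zero.2 hp.ne_zero
    refine ⟨e6, Int.cast_ne_zero.1 e7, v1, hc3 _ _ ?_ ?_ ?_⟩ <;> push_cast
    · exact eq_div_of_mul_eq e8 (by rw [mul_comm, v1])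
    · exact eq_div_of_mul_eq e8 (by rw [mul_comm, v2])
    · exact eq_div_of_mul_eq (mul_ne_zero e8 e7) (by rw [mul_comm, v3])
  obtain ⟨hirr, t, ht⟩ := NT.root_of_equivariant F hF hc2 (l₁ + p + 1) fun l _ hl => by
    obtain ⟨h, ι, -, e1, e2, e3, e4, -, e5⟩ := H l (by omega) (by omega)
    refine ⟨fun s => tv (h (ι.symm s)), (cube_inj _ _ e4 e2).1.comp ι.symm.injective, fun s => ?_,
      fun θ s s' e => ?_⟩
    · rw [← eval_map_algebraMap]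
      exact (H1 l h (by omega) e1 e2 e3 e4).2.2.2 _
    · obtain ⟨π, b1, b2⟩ := e5 θ
      have b3 : ι (π (ι.symm s)) = s' := RingHom.ext fun x => by rw [← b1, ι.apply_symm_apply, e]
      simp only [← b3, ι.symm_apply_apply]
      exact (b2 _).1
  have hm := minpoly.eq_of_irreducible_of_monic hirr ht hc1
  have H2 : ∀ (l : ℕ) [Fact l.Prime], l₁ < l → l ≠ p →
      (a 1 ≠ 0 ∧ (p : ℚ) * Algebra.norm ℚ t = (a 1 : ℚ) ^ 2 ∧ Cub t (a 1) P (CM.Om l)) ∧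
      ∃ (h : Fin 3 → M2 (CM.Om l)) (ι : Fin 3 ≃ (F →+* CM.Om l)), Loc t (a 1) (S.f l) h ι ∧
        ro r l σ = (S.f l).T h ∧ (NT.Spl L l → ∀ i a b, h i a b ∈ NT.Qp l) := by
    intro l hl' h1 hl
    obtain ⟨h, ι, e0, e1, e2, e3, e4, e6, e5⟩ := H l h1 hl
    obtain ⟨f1, f2, f3, f4⟩ := H1 l h hl e1 e2 e3 e4
    have f5 := (cube_inj _ _ e4 e2).1
    choose j hj using fun i => exists_emb_of_root t (hm ▸ f4 i)
    obtain ⟨u, hu⟩ := equiv_of_inj hF (ι := j) fun i k e => f5 (by simp only [← hj, e])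
    simp only [← hu] at hj
    have f6 : ∀ w : (F →+* CM.Om l) → CM.Om l,
        rt (a 1) w = ((S.f l).T h).trace / 8 * ∏ i, (1 + w (u i)) := fun w => by
      rw [rt, f1, u.prod_comp fun s => 1 + w s]
    have f7 : ∀ i, ‖(h i).det‖ = 1 := norm_eq_one_of_prod (fun i => (e0 i).det) (by
      rw [e3, norm_nat_eq_one fun e => hl ((Nat.prime_dvd_prime_iff_eq hl'.out hp).1 e)])
    refine ⟨⟨f2, (Rat.cast_injective (α := CM.Om l)) ?_, fun w hw => ?_, fun w w' hw hw' e => ?_⟩, h, u,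
      ⟨(S.ten l h1).P_le, (S.ten l h1).Q_le, e0, f7, fun i => ?_, by rw [← trace_T, f1],
        fun i => ?_⟩, e1, e6⟩
    · push_cast
      rw [← prod_emb, ← f3, ← u.prod_comp fun s => s t]
      simp only [hj]
    · rw [← ro_charpoly r hW hl, e1, f6]
      exact (cube_roots _ _ e4 e2 _ fun i => hj i ▸ hw _).1
    · rw [f6, f6] at e
      have := (cube_roots _ _ e4 e2 _ fun i => hj i ▸ hw _).2 _ (fun i => hj i ▸ hw' _) e
      exact funext fun s => by simpa using congrFun this (u.symm s)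
    · rw [hj, tv, div_mul_cancel₀ _ (e4 i)]
    · obtain ⟨y, y1, y2⟩ := norm_fix (S.ten l h1).P_le (S.ten l h1).Q_le i (e0 i) (f7 i)
      have y3 : ((S.f l).u i (y • h i)).trace = 4 * (y * (h i).trace) := by
        rw [trace_u', trace_smul, smul_eq_mul]
      have y4 : ‖(4 : CM.Om l)‖ = 1 := by
        rw [show (4 : CM.Om l) = 2 * 2 by norm_num, norm_mul, norm_two (by omega), mul_one]
      have y5 : ‖((S.f l).u i (y • h i)).trace‖ = ‖(h i).trace‖ := by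
        rw [y3, norm_mul, norm_mul, y4, y1, one_mul, one_mul]
      obtain ⟨x, hx⟩ := norm_of_fixed (u i) (y := ((S.f l).u i (y • h i)).trace)
        (norm_ne_zero_iff.1 (y5 ▸ norm_ne_zero_iff.2 (cube_trace _ _ e2 i))) fun θ hθ => by
        obtain ⟨π, -, b2⟩ := e5 θ
        obtain ⟨b3, s, b4⟩ := b2 i
        have b5 : i = π i := f5 ((hj i ▸ hθ t).symm.trans b3)
        rw [← b5] at b4
        have b6 := congrArg Matrix.trace (y2 θ ⟨s, b4⟩)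
        rwa [← AddMonoidHom.map_trace θ] at b6
      exact ⟨x, by rw [hj, tv, norm_div, f7, div_one, norm_pow, ← y5, hx]⟩
  obtain ⟨l, hl, hl'⟩ := Nat.exists_infinite_primes (l₁ + p + 1)
  have := Fact.mk hl'
  obtain ⟨⟨g1, g2, g3⟩, -⟩ := H2 l (by omega) (by omega)
  have h0 : t ≠ 0 := by
    rintro rfl
    rw [Algebra.norm_zero, mul_zero] at g2
    exact pow_ne_zero 2 (Int.cast_ne_zero.2 g1) g2.symm
  exact ⟨t, a 1, ⟨hF, hp, hW.monic, hW.deg, hW.weil, g1, g2, hm ▸ hc2, (cub_iff h0 _ _).1 g3⟩,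
    fun l _ h1 hl => (H2 l h1 hl).2⟩

end M5
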